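import Mathlib
import Pool.Agent.Helper67.CritPoints

/-!
# Bezout bound for nondegenerate zeros of quadrics, in total-degree form

`D` polynomials of total degree at most two in `D` variables have at most `2 ^ D` nondegenerate
common zeros; also for overdetermined families.
-/

namespace Pool.Agent.Helper73.Psd

open MvPolynomial Pool.Agent.Helper67

section simplex

variable (σ : Type*) [Fintype σ] [DecidableEq σ]

/-- Exponent vectors of total degree at most `t`. -/
noncomputable def simplexSet (t : ℕ) : Finset (σ →₀ ℕ) :=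
  (Finset.range (t + 1)).biUnion fun n => (Finset.univ : Finset σ).finsuppAntidiag n

theorem mem_simplexSet (t : ℕ) (α : σ →₀ ℕ) : α ∈ simplexSet σ t ↔ ∑ l, α l ≤ t := by
  simp only [simplexSet, Finset.mem_biUnion, Finset.mem_range, Finset.mem_finsuppAntidiag,
    Finset.subset_univ, and_true]
  constructor
  · rintro ⟨n, hn, h⟩
    have h' : ∑ l, α l = n := h
    omega
  · intro h
    exact ⟨_, Nat.lt_succ_of_le h, rfl⟩

theorem card_simplexSet (t : ℕ) :
    (simplexSet σ t).card = (Fintype.card σ + 1).multichoose t := by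
  rw [simplexSet, Finset.card_biUnion]
  · simp only [Finset.card_finsuppAntidiag_nat_eq_multichoose, Finset.card_univ]
    induction t with
    | zero => simp
    | succ t ih =>
      rw [Finset.sum_range_succ, ih, Nat.multichoose_succ_succ, add_comm]
  · intro n _ m _ hnm
    rw [Function.onFun, Finset.disjoint_left]
    intro α h1 h2
    rw [Finset.mem_finsuppAntidiag] at h1 h2
    exact hnm (h1.1.symm.trans h2.1)

theorem card_simplexSet_lower (t : ℕ) :
    t ^ Fintype.card σ ≤ (Fintype.card σ).factorial * (simplexSet σ t).card := by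
  rw [card_simplexSet, Nat.multichoose_eq]
  have h : (Fintype.card σ + 1 + t - 1).choose t = (t + Fintype.card σ).choose (Fintype.card σ) := by
    rw [show Fintype.card σ + 1 + t - 1 = t + Fintype.card σ by omega]
    exact (Nat.choose_symm_add).symm ▸ rfl
  rw [h, ← Nat.ascFactorial_eq_factorial_mul_choose]
  exact (Nat.pow_le_pow_left (Nat.le_succ t) _).trans (Nat.pow_succ_le_ascFactorial _ _)

theorem card_simplexSet_upper (t : ℕ) :
    (Fintype.card σ).factorial * (simplexSet σ t).card ≤ (t + Fintype.card σ) ^ Fintype.card σ := by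
  rw [card_simplexSet, Nat.multichoose_eq]
  have h : (Fintype.card σ + 1 + t - 1).choose t = (t + Fintype.card σ).choose (Fintype.card σ) := by
    rw [show Fintype.card σ + 1 + t - 1 = t + Fintype.card σ by omega]
    exact (Nat.choose_symm_add).symm ▸ rfl
  rw [h, ← Nat.ascFactorial_eq_factorial_mul_choose]
  exact Nat.ascFactorial_le_pow_add _ _

end simplex

section bezout

variable {σ : Type*} [Fintype σ] [DecidableEq σ] {N : Type*} [Fintype N] [DecidableEq N]

theorem card_mul_simplex_le (P : σ → MvPolynomial σ ℝ) (hdeg : ∀ l, (P l).totalDegree ≤ 2)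
    (z : N → σ → ℝ) (hinj : Function.Injective z)
    (hz : ∀ i l, eval (z i) (P l) = 0)
    (hJ : ∀ i (y : σ → ℝ), (∀ l, ∑ l', y l' * eval (z i) (pderiv l' (P l)) = 0) → y = 0) :
    ∃ B : ℕ, ∀ t : ℕ,
      Fintype.card N * (simplexSet σ t).card ≤ (simplexSet σ (B + 2 * t)).card := by
  obtain ⟨b, hb⟩ := exists_interp z hinj
  let B : ℕ := ∑ j, (b j).totalDegree
  have hB : ∀ j, (b j).totalDegree ≤ B := fun j =>
    Finset.single_le_sum (f := fun j => (b j).totalDegree) (fun _ _ => Nat.zero_le _)
      (Finset.mem_univ j)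
  refine ⟨B, fun t => ?_⟩
  let W : Submodule ℝ (MvPolynomial σ ℝ) :=
    restrictSupport ℝ (↑(simplexSet σ (B + 2 * t)) : Set (σ →₀ ℕ))
  have hWmem : ∀ p : MvPolynomial σ ℝ, p.totalDegree ≤ B + 2 * t → p ∈ W := by
    intro p hp
    rw [mem_restrictSupport_iff]
    intro m hm
    rw [Finset.mem_coe, mem_simplexSet]
    have h1 := le_totalDegree hm
    rw [Finsupp.sum_fintype _ _ (fun _ => rfl)] at h1
    exact h1.trans hp
  have hmem : ∀ (j : N) (α : (simplexSet σ t : Finset (σ →₀ ℕ))),
      b j * ∏ l, P l ^ (α : σ →₀ ℕ) l ∈ W := by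
    intro j α
    apply hWmem
    have hα := (mem_simplexSet σ t _).1 α.2
    calc (b j * ∏ l, P l ^ (α : σ →₀ ℕ) l).totalDegree
        ≤ (b j).totalDegree + (∏ l, P l ^ (α : σ →₀ ℕ) l).totalDegree := totalDegree_mul _ _
      _ ≤ B + ∑ l, (P l ^ (α : σ →₀ ℕ) l).totalDegree :=
          Nat.add_le_add (hB j) (totalDegree_finsetProd _ _)
      _ ≤ B + ∑ l, 2 * (α : σ →₀ ℕ) l := by
          refine Nat.add_le_add_left (Finset.sum_le_sum fun l _ => ?_) _
          refine (totalDegree_pow _ _).trans ?_
          rw [mul_comm]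
          exact Nat.mul_le_mul_right _ (hdeg l)
      _ ≤ B + 2 * t := by
          rw [← Finset.mul_sum]
          exact Nat.add_le_add_left (Nat.mul_le_mul_left _ hα) _
  let v : N × (simplexSet σ t : Finset (σ →₀ ℕ)) → W := fun x =>
    ⟨b x.1 * ∏ l, P l ^ (x.2 : σ →₀ ℕ) l, hmem x.1 x.2⟩
  have hv : LinearIndependent ℝ v := by
    rw [Fintype.linearIndependent_iff]
    intro g hg
    let c : N → (σ →₀ ℕ) → ℝ := fun j α =>
      if hα : α ∈ simplexSet σ t then g (j, ⟨α, hα⟩) else 0
    have hsum : ∑ α ∈ simplexSet σ t, ∑ j, C (c j α) * b j * ∏ l, P l ^ α l = 0 := by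
      have h1 := congrArg (Subtype.val : W → MvPolynomial σ ℝ) hg
      rw [Submodule.coe_sum] at h1
      simp only [Submodule.coe_smul, ZeroMemClass.coe_zero] at h1
      rw [Fintype.sum_prod_type, Finset.sum_comm] at h1
      rw [← h1, ← Finset.sum_attach (simplexSet σ t)]
      refine Finset.sum_congr rfl fun α _ => Finset.sum_congr rfl fun j _ => ?_
      have h2 : c j α = g (j, α) := by
        simp only [c]
        rw [dif_pos α.2]
      rw [h2, smul_eq_C_mul, mul_assoc]
    have h3 := indep_aux P z b hz hJ hb c (simplexSet σ t) hsum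
    rintro ⟨j, α⟩
    have h4 := h3 _ α.1 α.2 rfl j
    simp only [c] at h4
    rw [dif_pos α.2] at h4
    exact h4
  have hbasis : Module.Basis (simplexSet σ (B + 2 * t) : Finset (σ →₀ ℕ)) ℝ W :=
    basisRestrictSupport ℝ (↑(simplexSet σ (B + 2 * t)) : Set (σ →₀ ℕ))
  have : Module.Finite ℝ W := Module.Finite.of_basis hbasis
  have hcard := hv.fintype_card_le_finrank
  have hrank : Module.finrank ℝ W = (simplexSet σ (B + 2 * t)).card := by
    rw [Module.finrank_eq_card_basis hbasis, Fintype.card_coe]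
  have hidx : Fintype.card (N × (simplexSet σ t : Finset (σ →₀ ℕ))) =
      Fintype.card N * (simplexSet σ t).card := by
    rw [Fintype.card_prod, Fintype.card_coe]
  rw [hrank, hidx] at hcard
  exact hcard

/-- **Bezout bound for quadrics**: `D` quadrics in `D` variables have at most `2 ^ D` nondegenerate
common zeros. -/
theorem card_zeros_quad (P : σ → MvPolynomial σ ℝ) (hdeg : ∀ l, (P l).totalDegree ≤ 2)
    (z : N → σ → ℝ) (hinj : Function.Injective z)
    (hz : ∀ i l, eval (z i) (P l) = 0)
    (hJ : ∀ i (y : σ → ℝ), (∀ l, ∑ l', y l' * eval (z i) (pderiv l' (P l)) = 0) → y = 0) :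
    Fintype.card N ≤ 2 ^ Fintype.card σ := by
  obtain ⟨B, hB⟩ := card_mul_simplex_le P hdeg z hinj hz hJ
  set D := Fintype.card σ with hD
  have key : ∀ t : ℕ, Fintype.card N * t ^ D ≤ (B + 2 * t + D) ^ D := by
    intro t
    have h1 := card_simplexSet_lower σ t
    have h2 := card_simplexSet_upper σ (B + 2 * t)
    have h3 := hB t
    calc Fintype.card N * t ^ D
        ≤ Fintype.card N * (D.factorial * (simplexSet σ t).card) := Nat.mul_le_mul_left _ h1
      _ = D.factorial * (Fintype.card N * (simplexSet σ t).card) := by ring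
      _ ≤ D.factorial * (simplexSet σ (B + 2 * t)).card := Nat.mul_le_mul_left _ h3
      _ ≤ _ := h2
  have hlim : Filter.Tendsto (fun t : ℕ => (2 + ((B : ℝ) + D) / (t : ℝ)) ^ D) Filter.atTop
      (nhds ((2 + 0) ^ D)) := by
    refine Filter.Tendsto.pow ?_ _
    refine Filter.Tendsto.add tendsto_const_nhds ?_
    exact tendsto_const_div_atTop_nhds_zero_nat _
  have hle : (Fintype.card N : ℝ) ≤ (2 + 0) ^ D := by
    refine ge_of_tendsto hlim ?_
    filter_upwards [Filter.eventually_gt_atTop 0] with t ht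
    have ht' : (0 : ℝ) < (t : ℝ) := by exact_mod_cast ht
    have h1 : (Fintype.card N : ℝ) * (t : ℝ) ^ D ≤ ((B : ℝ) + 2 * t + D) ^ D := by
      exact_mod_cast key t
    have h2 : ((B : ℝ) + 2 * t + D) ^ D = (2 + ((B : ℝ) + D) / (t : ℝ)) ^ D * (t : ℝ) ^ D := by
      rw [← mul_pow]
      congr 1
      field_simp
      ring
    rw [h2] at h1
    exact le_of_mul_le_mul_right h1 (pow_pos ht' _)
  rw [add_zero] at hle
  exact_mod_cast hle

/-- **Bezout bound for an overdetermined family of quadrics.** -/
theorem card_zeros_quad_family {J : Type*} [Fintype J] [DecidableEq J]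
    (Q : J → MvPolynomial σ ℝ) (hdeg : ∀ j, (Q j).totalDegree ≤ 2)
    (z : N → σ → ℝ) (hinj : Function.Injective z)
    (hz : ∀ i j, eval (z i) (Q j) = 0)
    (hJ : ∀ i (y : σ → ℝ), (∀ j, ∑ l', y l' * eval (z i) (pderiv l' (Q j)) = 0) → y = 0) :
    Fintype.card N ≤ 2 ^ Fintype.card σ := by
  let G : N → Matrix J σ ℝ := fun i j l' => eval (z i) (pderiv l' (Q j))
  have hleft : ∀ i, ∃ L : Matrix σ J ℝ, L * G i = 1 := by
    intro i
    have hker : LinearMap.ker (Matrix.toLin' (G i)) = ⊥ := by
      rw [LinearMap.ker_eq_bot']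
      intro y hy
      apply hJ i y
      intro j
      have h1 := congrFun hy j
      rw [Matrix.toLin'_apply, Matrix.mulVec, dotProduct] at h1
      rw [Pi.zero_apply] at h1
      rw [← h1]
      exact Finset.sum_congr rfl fun l _ => mul_comm _ _
    obtain ⟨g, hg⟩ := LinearMap.exists_leftInverse_of_injective _ hker
    refine ⟨LinearMap.toMatrix' g, ?_⟩
    rw [← LinearMap.toMatrix'_toLin' (G i), ← LinearMap.toMatrix'_comp, hg,
      LinearMap.toMatrix'_id]
  choose L hL using hleft
  let Mt : N → Matrix σ σ (MvPolynomial (σ × J) ℝ) := fun i l l' =>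
    ∑ j, X (l, j) * C (G i j l')
  have hMt : ∀ i (c : σ × J → ℝ), eval c (Mt i).det =
      ((Matrix.of fun l j => c (l, j)) * G i).det := by
    intro i c
    rw [RingHom.map_det]
    congr 1
    ext l l'
    simp [Mt, Matrix.mul_apply]
  have hne : ∏ i, (Mt i).det ≠ 0 := by
    rw [Finset.prod_ne_zero_iff]
    intro i _ h0
    have h1 := hMt i (fun p => L i p.1 p.2)
    rw [h0, map_zero] at h1
    have h2 : (Matrix.of fun l j => (fun p : σ × J => L i p.1 p.2) (l, j)) = L i := by
      ext l j
      rfl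
    rw [h2, hL, Matrix.det_one] at h1
    exact zero_ne_one h1
  obtain ⟨c, hc⟩ : ∃ c : σ × J → ℝ, eval c (∏ i, (Mt i).det) ≠ 0 := by
    by_contra hcon
    push Not at hcon
    exact hne (MvPolynomial.funext fun c => by rw [hcon c, map_zero])
  rw [map_prod, Finset.prod_ne_zero_iff] at hc
  refine card_zeros_quad (fun l => ∑ j, C (c (l, j)) * Q j) ?_ z hinj ?_ ?_
  · intro l
    refine totalDegree_finsetSum_le fun j _ => ?_
    refine (totalDegree_mul _ _).trans ?_
    rw [totalDegree_C, zero_add]
    exact hdeg j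
  · intro i l
    simp [hz]
  · intro i y hy
    have hdet := hc i (Finset.mem_univ i)
    rw [hMt] at hdet
    refine Matrix.eq_zero_of_mulVec_eq_zero hdet ?_
    funext l
    rw [Pi.zero_apply, ← hy l, Matrix.mulVec, dotProduct]
    refine Finset.sum_congr rfl fun l' _ => ?_
    rw [mul_comm, Matrix.mul_apply]
    congr 1
    simp [G, map_sum, Finset.sum_congr]

end bezout

end Pool.Agent.Helper73.Psd
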