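import Mathlib
import Pool.Agent.Helper73.PsdBezout

/-!
# Counting hyperplane sections of a rank-one factorization

If `h k (v i) = (x i ⬝ᵥ y k) ^ 2` where the `x i` span `ℝ^n` and the zero set of each `h k` on the
points `v i` is a hyperplane section, then there are at most `(3 ^ n - 1) / 2` indices `k`.
-/

namespace Pool.Agent.Helper73.Psd

open MvPolynomial Finset

theorem exists_relations {ι : Type*} [Fintype ι] [DecidableEq ι] {E : Type*} [AddCommGroup E]
    [Module ℝ E] (v : ι → E) :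
    ∃ (m : ℕ) (β : Fin m → ι → ℝ), (∀ j, ∑ i, β j i • v i = 0) ∧
      ∀ f : ι → ℝ, (∀ j, ∑ i, β j i * f i = 0) → ∃ g : Module.Dual ℝ E, ∀ i, f i = g (v i) := by
  let T : (ι → ℝ) →ₗ[ℝ] E := Fintype.linearCombination ℝ v
  have hT : ∀ w, T w = ∑ i, w i • v i := fun w => rfl
  let B := Module.finBasis ℝ (LinearMap.ker T)
  refine ⟨_, fun j => (B j : ι → ℝ), fun j => ?_, fun f hf => ?_⟩
  · have := (B j).2
    rw [LinearMap.mem_ker, hT] at this
    exact this
  · let φ : Module.Dual ℝ (ι → ℝ) := ∑ i, f i • LinearMap.proj i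
    have hφ : ∀ w, φ w = ∑ i, w i * f i := by
      intro w
      simp only [φ, LinearMap.sum_apply, LinearMap.smul_apply, LinearMap.proj_apply, smul_eq_mul]
      exact Finset.sum_congr rfl fun i _ => mul_comm _ _
    have hmem : φ ∈ LinearMap.range T.dualMap := by
      rw [LinearMap.range_dualMap_eq_dualAnnihilator_ker, Submodule.mem_dualAnnihilator]
      intro w hw
      have h1 : (φ.comp (LinearMap.ker T).subtype) = 0 := by
        apply B.ext
        intro j
        rw [LinearMap.comp_apply, hφ]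
        exact hf j
      exact LinearMap.congr_fun h1 ⟨w, hw⟩
    obtain ⟨g, hg⟩ := hmem
    refine ⟨g, fun i => ?_⟩
    have h2 := LinearMap.congr_fun hg (Pi.single i 1)
    rw [LinearMap.dualMap_apply, hφ, hT] at h2
    simp only [Pi.single_apply, ite_smul, one_smul, zero_smul, Finset.sum_ite_eq',
      Finset.mem_univ, if_true, ite_mul, one_mul, zero_mul] at h2
    exact h2.symm

theorem sum_eq_of_pattern {n : ℕ} (A : Finset (Fin n)) (j0 : Fin n)
    (a w : Fin n → ℝ) (hw : ∀ j ∈ A, w j = 0) :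
    ∑ j, a j * w j = a j0 * w j0 + ∑ l : {j // j ∉ A ∧ j ≠ j0}, a l * w l := by
  classical
  have h1 : ∑ l : {j // j ∉ A ∧ j ≠ j0}, a l * w l =
      ∑ j ∈ univ.filter (fun j => j ∉ A ∧ j ≠ j0), a j * w j := by
    rw [Finset.sum_subtype (univ.filter (fun j => j ∉ A ∧ j ≠ j0))]
    intro j
    simp
  rw [h1, ← Finset.add_sum_erase univ (fun j => a j * w j) (Finset.mem_univ j0)]
  congr 1
  rw [Finset.sum_filter]
  have h2 : ∀ j ∈ univ.erase j0, a j * w j = if j ∉ A ∧ j ≠ j0 then a j * w j else 0 := by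
    intro j hj
    by_cases hA : j ∈ A
    · rw [hw j hA]; simp
    · rw [if_pos ⟨hA, (Finset.mem_erase.1 hj).1⟩]
  rw [Finset.sum_congr rfl h2]
  rw [← Finset.add_sum_erase univ (fun j => if j ∉ A ∧ j ≠ j0 then a j * w j else 0)
    (Finset.mem_univ j0)]
  simp

/-- The bound for one zero pattern. -/
theorem card_pattern_le {ι κ : Type*} [Fintype ι] [Fintype κ] {n : ℕ}
    {E : Type*} [AddCommGroup E] [Module ℝ E]
    (v : ι → E) (h : κ → Module.Dual ℝ E)
    (hfac : ∀ k (g : Module.Dual ℝ E), (∀ i, h k (v i) = 0 → g (v i) = 0) →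
      ∃ c : ℝ, ∀ i, g (v i) = c * h k (v i))
    (hinj : ∀ k l, (∀ i, h k (v i) = 0 ↔ h l (v i) = 0) → k = l)
    (x : ι → Fin n → ℝ) (y : κ → Fin n → ℝ)
    (hS : ∀ i k, h k (v i) = (x i ⬝ᵥ y k) ^ 2)
    (bas : Module.Basis (Fin n) ℝ (Fin n → ℝ)) (b : Fin n → ι) (hb : ∀ j, x (b j) = bas j)
    (A : Finset (Fin n)) (j0 : Fin n) (hj0 : j0 ∉ A)
    (hA : ∀ k j, bas j ⬝ᵥ y k = 0 ↔ j ∈ A) :
    Fintype.card κ ≤ 2 ^ (n - 1 - A.card) := by
  classical
  let z : κ → Fin n → ℝ := fun k j => bas j ⬝ᵥ y k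
  let c : ι → Fin n → ℝ := fun i j => bas.repr (x i) j
  have hx : ∀ i k, x i ⬝ᵥ y k = ∑ j, c i j * z k j := by
    intro i k
    conv_lhs => rw [← bas.sum_repr (x i)]
    rw [sum_dotProduct]
    refine Finset.sum_congr rfl fun j _ => ?_
    rw [smul_dotProduct, smul_eq_mul]
  have hzA : ∀ k, ∀ j ∈ A, z k j = 0 := fun k j hj => (hA k j).2 hj
  have hz0 : ∀ k, z k j0 ≠ 0 := fun k hk => hj0 ((hA k j0).1 hk)
  have hxs : ∀ i k, x i ⬝ᵥ y k = c i j0 * z k j0 +
      ∑ l : {j // j ∉ A ∧ j ≠ j0}, c i l * z k l := by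
    intro i k
    rw [hx, sum_eq_of_pattern A j0 (c i) (z k) (hzA k)]
  have hcb : ∀ j l, c (b j) l = if l = j then 1 else 0 := by
    intro j l
    show bas.repr (x (b j)) l = _
    rw [hb, bas.repr_self, Finsupp.single_apply]
    simp only [eq_comm]
  obtain ⟨m, β, hβ0, hβ⟩ := exists_relations v
  let lin : ι → MvPolynomial {j // j ∉ A ∧ j ≠ j0} ℝ := fun i =>
    C (c i j0) + ∑ l : {j // j ∉ A ∧ j ≠ j0}, C (c i l) * X l
  let Q : Fin m → MvPolynomial {j // j ∉ A ∧ j ≠ j0} ℝ := fun j =>
    ∑ i, C (β j i) * lin i ^ 2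
  let p : κ → {j // j ∉ A ∧ j ≠ j0} → ℝ := fun k l => z k l / z k j0
  have hlin : ∀ i k, eval (p k) (lin i) = (x i ⬝ᵥ y k) / z k j0 := by
    intro i k
    have h0 := hz0 k
    simp only [lin, map_add, eval_C, map_sum, map_mul, eval_X, p]
    rw [hxs, add_div, mul_div_cancel_right₀ _ h0, Finset.sum_div]
    congr 1
    exact Finset.sum_congr rfl fun l _ => (mul_div_assoc _ _ _).symm
  have hcardσ : Fintype.card {j // j ∉ A ∧ j ≠ j0} = n - 1 - A.card := by
    rw [Fintype.card_subtype]
    have h1 : univ.filter (fun j => j ∉ A ∧ j ≠ j0) = univ \ insert j0 A := by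
      ext j
      simp only [Finset.mem_filter, Finset.mem_univ, true_and, Finset.mem_sdiff,
        Finset.mem_insert, not_or]
      tauto
    rw [h1, Finset.card_sdiff_of_subset (Finset.subset_univ _), Finset.card_insert_of_notMem hj0,
      Finset.card_univ, Fintype.card_fin]
    omega
  rw [← hcardσ]
  refine card_zeros_quad_family Q ?_ p ?_ ?_ ?_
  · intro j
    refine totalDegree_finsetSum_le fun i _ => ?_
    refine (totalDegree_mul _ _).trans ?_
    rw [totalDegree_C, zero_add]
    refine (totalDegree_pow _ _).trans ?_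
    have h1 : (lin i).totalDegree ≤ 1 := by
      refine (totalDegree_add _ _).trans (max_le ?_ ?_)
      · rw [totalDegree_C]; exact Nat.zero_le _
      · refine totalDegree_finsetSum_le fun l _ => ?_
        refine (totalDegree_mul _ _).trans ?_
        rw [totalDegree_C, zero_add, totalDegree_X]
    omega
  · intro k k' hkk'
    have hall : ∀ j, z k j * z k' j0 = z k' j * z k j0 := by
      intro j
      by_cases hjA : j ∈ A
      · rw [hzA k j hjA, hzA k' j hjA]; ring
      · by_cases hjj : j = j0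
        · subst hjj; ring
        · have h1 := congrFun hkk' ⟨j, hjA, hjj⟩
          simp only [p] at h1
          rw [div_eq_div_iff (hz0 k) (hz0 k')] at h1
          exact h1
    have hall' : ∀ i, (x i ⬝ᵥ y k) * z k' j0 = (x i ⬝ᵥ y k') * z k j0 := by
      intro i
      rw [hx, hx, Finset.sum_mul, Finset.sum_mul]
      refine Finset.sum_congr rfl fun j _ => ?_
      rw [mul_assoc, hall j, mul_assoc]
    apply hinj
    intro i
    rw [hS, hS]
    constructor
    · intro h1
      have h2 := hall' i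
      rw [pow_eq_zero_iff two_ne_zero] at h1
      rw [h1, zero_mul] at h2
      rcases mul_eq_zero.1 h2.symm with h3 | h3
      · rw [h3]; ring
      · exact absurd h3 (hz0 k)
    · intro h1
      have h2 := hall' i
      rw [pow_eq_zero_iff two_ne_zero] at h1
      rw [h1, zero_mul] at h2
      rcases mul_eq_zero.1 h2 with h3 | h3
      · rw [h3]; ring
      · exact absurd h3 (hz0 k')
  · intro k j
    simp only [Q, map_sum, map_mul, eval_C, map_pow, hlin]
    have h1 : ∀ i, β j i * ((x i ⬝ᵥ y k) / z k j0) ^ 2 = β j i * h k (v i) / z k j0 ^ 2 := by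
      intro i
      rw [hS, div_pow, mul_div_assoc]
    rw [Finset.sum_congr rfl fun i _ => h1 i, ← Finset.sum_div]
    have h2 : ∑ i, β j i * h k (v i) = h k (∑ i, β j i • v i) := by
      rw [map_sum]
      exact Finset.sum_congr rfl fun i _ => by rw [map_smul, smul_eq_mul]
    rw [h2, hβ0, map_zero, zero_div]
  · intro k u hu
    have hpd : ∀ j, ∑ l', u l' * eval (p k) (pderiv l' (Q j)) =
        ∑ i, β j i * (2 * ((x i ⬝ᵥ y k) / z k j0) * ∑ l : {j // j ∉ A ∧ j ≠ j0}, c i l * u l) := by
      intro j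
      have h1 : ∀ l', eval (p k) (pderiv l' (Q j)) =
          ∑ i, β j i * (2 * ((x i ⬝ᵥ y k) / z k j0) * c i l') := by
        intro l'
        simp only [Q, map_sum, pderiv_C_mul]
        refine Finset.sum_congr rfl fun i _ => ?_
        rw [pderiv_pow]
        have h3 : pderiv l' (lin i) = C (c i l') := by
          simp only [lin, map_add, pderiv_C, zero_add, map_sum, pderiv_C_mul, pderiv_X]
          rw [Finset.sum_eq_single l']
          · simp
          · intro l _ hl
            rw [Pi.single_eq_of_ne hl]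
            simp
          · intro h4
            exact absurd (Finset.mem_univ _) h4
        rw [h3]
        simp only [map_mul, map_pow, eval_C, hlin]
        norm_num
      simp only [h1, Finset.mul_sum]
      rw [Finset.sum_comm]
      refine Finset.sum_congr rfl fun i _ => Finset.sum_congr rfl fun l _ => ?_
      ring
    obtain ⟨g, hg⟩ := hβ (fun i => 2 * ((x i ⬝ᵥ y k) / z k j0) *
      ∑ l : {j // j ∉ A ∧ j ≠ j0}, c i l * u l) (fun j => by rw [← hpd]; exact hu j)
    obtain ⟨c', hc'⟩ := hfac k g (by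
      intro i hi
      rw [← hg i]
      rw [hS, pow_eq_zero_iff two_ne_zero] at hi
      rw [hi]
      simp)
    have key : ∀ i, 2 * ((x i ⬝ᵥ y k) / z k j0) *
      (∑ l : {j // j ∉ A ∧ j ≠ j0}, c i l * u l) = c' * (x i ⬝ᵥ y k) ^ 2 := by
      intro i
      rw [← hS, ← hc' i]
      exact hg i
    have hbz : ∀ j, x (b j) ⬝ᵥ y k = z k j := fun j => by rw [hb]
    have hc0 : c' = 0 := by
      have h1 := key (b j0)
      rw [hbz] at h1
      have h2 : ∑ l : {j // j ∉ A ∧ j ≠ j0}, c (b j0) l * u l = 0 := by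
        refine Finset.sum_eq_zero fun l _ => ?_
        rw [hcb, if_neg l.2.2, zero_mul]
      rw [h2, mul_zero] at h1
      rcases mul_eq_zero.1 h1.symm with h3 | h3
      · exact h3
      · exact absurd h3 (pow_ne_zero _ (hz0 k))
    funext l
    have h1 := key (b l)
    rw [hbz, hc0, zero_mul] at h1
    have h2 : ∑ l' : {j // j ∉ A ∧ j ≠ j0}, c (b l) l' * u l' = u l := by
      rw [Finset.sum_eq_single l]
      · rw [hcb, if_pos rfl, one_mul]
      · intro l' _ hl'
        rw [hcb, if_neg (fun h5 => hl' (Subtype.ext h5)), zero_mul]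
      · intro h4
        exact absurd (Finset.mem_univ _) h4
    rw [h2] at h1
    have h3 : z k l ≠ 0 := fun h4 => l.2.1 ((hA k l).1 h4)
    have h5 : 2 * (z k l / z k j0) ≠ 0 := mul_ne_zero two_ne_zero (div_ne_zero h3 (hz0 k))
    rcases mul_eq_zero.1 h1 with h6 | h6
    · exact absurd h6 h5
    · exact h6

/-- **The counting theorem.** -/
theorem card_le_of_rank_one {ι κ : Type*} [Fintype ι] [Fintype κ] {n : ℕ}
    {E : Type*} [AddCommGroup E] [Module ℝ E]
    (v : ι → E) (h : κ → Module.Dual ℝ E)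
    (hfac : ∀ k (g : Module.Dual ℝ E), (∀ i, h k (v i) = 0 → g (v i) = 0) →
      ∃ c : ℝ, ∀ i, g (v i) = c * h k (v i))
    (hinj : ∀ k l, (∀ i, h k (v i) = 0 ↔ h l (v i) = 0) → k = l)
    (hne : ∀ k, ∃ i, h k (v i) ≠ 0)
    (x : ι → Fin n → ℝ) (y : κ → Fin n → ℝ)
    (hS : ∀ i k, h k (v i) = (x i ⬝ᵥ y k) ^ 2)
    (hspan : Submodule.span ℝ (Set.range x) = ⊤) :
    2 * Fintype.card κ + 1 ≤ 3 ^ n := by
  classical
  -- a basis among the `x i`
  obtain ⟨bas, b, hb⟩ : ∃ (bas : Module.Basis (Fin n) ℝ (Fin n → ℝ)) (b : Fin n → ι),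
      ∀ j, x (b j) = bas j := by
    let B0 := Module.Basis.ofSpan hspan.ge
    have : Fintype (((linearIndepOn_empty ℝ (id : (Fin n → ℝ) → (Fin n → ℝ))).extend
      (Set.empty_subset (Set.range x)))) := FiniteDimensional.fintypeBasisIndex B0
    have hcard : Fintype.card _ = n := (Module.finrank_eq_card_basis B0).symm.trans (by simp)
    let e := Fintype.equivFinOfCardEq hcard
    have hmem : ∀ j : Fin n, ∃ i, x i = B0.reindex e j := by
      intro j
      rw [Module.Basis.reindex_apply]
      exact Module.Basis.ofSpan_subset hspan.ge ⟨_, rfl⟩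
    choose b hb using hmem
    exact ⟨B0.reindex e, b, hb⟩
  let pat : κ → Finset (Fin n) := fun k => univ.filter fun j => bas j ⬝ᵥ y k = 0
  have hpat : ∀ k, pat k ≠ univ := by
    intro k hk
    obtain ⟨i, hi⟩ := hne k
    apply hi
    rw [hS]
    have h1 : x i ⬝ᵥ y k = 0 := by
      rw [← bas.sum_repr (x i), sum_dotProduct]
      refine Finset.sum_eq_zero fun j _ => ?_
      have h2 : j ∈ pat k := by rw [hk]; exact Finset.mem_univ j
      rw [smul_dotProduct, (Finset.mem_filter.1 h2).2, smul_zero]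
    rw [h1]; ring
  have hfib : ∀ A ∈ (univ : Finset (Finset (Fin n))).erase univ,
      (univ.filter fun k => pat k = A).card ≤ 2 ^ (n - 1 - A.card) := by
    intro A hA
    have hAne := (Finset.mem_erase.1 hA).1
    obtain ⟨j0, hj0⟩ : ∃ j0, j0 ∉ A := by
      by_contra hcon
      push Not at hcon
      exact hAne (Finset.eq_univ_iff_forall.2 hcon)
    rw [← Fintype.card_subtype]
    refine card_pattern_le (κ := {k // pat k = A}) v (fun k => h k) (fun k g hg => hfac k g hg)
      (fun k l hkl => Subtype.ext (hinj k l hkl)) x (fun k => y k) (fun i k => hS i k) bas b hb A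
      j0 hj0 ?_
    rintro ⟨k, rfl⟩ j
    simp [pat]
  have hsum : Fintype.card κ ≤ ∑ A ∈ (univ : Finset (Finset (Fin n))).erase univ,
      2 ^ (n - 1 - A.card) := by
    rw [← Finset.card_univ, Finset.card_eq_sum_card_fiberwise (f := pat)
      (t := (univ : Finset (Finset (Fin n))).erase univ)
      (fun k _ => Finset.mem_coe.2 (Finset.mem_erase.2 ⟨hpat k, Finset.mem_univ _⟩))]
    exact Finset.sum_le_sum hfib
  have htot : 2 * (∑ A ∈ (univ : Finset (Finset (Fin n))).erase univ, 2 ^ (n - 1 - A.card)) + 1 =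
      3 ^ n := by
    have h1 : ∑ A : Finset (Fin n), 1 ^ A.card * 2 ^ (n - A.card) = (1 + 2 : ℕ) ^ n :=
      Fin.sum_pow_mul_eq_add_pow (1 : ℕ) 2
    rw [← Finset.sum_erase_add _ _ (Finset.mem_univ (univ : Finset (Fin n)))] at h1
    rw [Finset.mul_sum]
    have h2 : ∀ A ∈ (univ : Finset (Finset (Fin n))).erase univ,
        2 * 2 ^ (n - 1 - A.card) = 1 ^ A.card * 2 ^ (n - A.card) := by
      intro A hA
      have hAne := (Finset.mem_erase.1 hA).1
      have hlt : A.card < n := by
        obtain ⟨j0, hj0⟩ : ∃ j0, j0 ∉ A := by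
          by_contra hcon
          push Not at hcon
          exact hAne (Finset.eq_univ_iff_forall.2 hcon)
        have := Finset.card_lt_univ_of_notMem hj0
        simpa using this
      rw [one_pow, one_mul, ← pow_succ']
      congr 1
      omega
    rw [Finset.sum_congr rfl h2]
    have h3 : (1 : ℕ) ^ (univ : Finset (Fin n)).card * 2 ^ (n - (univ : Finset (Fin n)).card) = 1 := by
      simp
    rw [h3] at h1
    rw [h1]
  omega

end Pool.Agent.Helper73.Psd
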