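import Mathlib

/-!
# Faces of a finite point configuration, in linear (homogenised) form

`v : ι → E` is a finite family of vectors; a face is the zero set of a linear functional that is
nonnegative on all `v i`.
-/

namespace Pool.Agent.Helper73.Psd

set_option linter.unusedSectionVars false

open Finset

variable {ι : Type*} [Fintype ι] [DecidableEq ι] {E : Type*} [AddCommGroup E] [Module ℝ E]
  [FiniteDimensional ℝ E]

/-- Rank of a set of indices. -/
noncomputable def rk (v : ι → E) (T : Finset ι) : ℕ :=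
  Module.finrank ℝ (Submodule.span ℝ (v '' T))

/-- The zero set of `h` inside `W`. -/
noncomputable def zs (v : ι → E) (h : Module.Dual ℝ E) (W : Finset ι) : Finset ι :=
  by classical exact W.filter fun i => h (v i) = 0

theorem mem_zs {v : ι → E} {h : Module.Dual ℝ E} {W : Finset ι} {i : ι} :
    i ∈ zs v h W ↔ i ∈ W ∧ h (v i) = 0 := by
  classical
  simp [zs]

theorem zs_subset (v : ι → E) (h : Module.Dual ℝ E) (W : Finset ι) : zs v h W ⊆ W :=
  fun _ hi => (mem_zs.1 hi).1

theorem rk_mono (v : ι → E) {S T : Finset ι} (h : S ⊆ T) : rk v S ≤ rk v T :=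
  Submodule.finrank_mono (Submodule.span_mono (Set.image_mono (Finset.coe_subset.2 h)))

theorem rk_insert_le (v : ι → E) (S : Finset ι) (w : ι) : rk v (insert w S) ≤ rk v S + 1 := by
  unfold rk
  rw [Finset.coe_insert, Set.image_insert_eq, Submodule.span_insert]
  refine (Submodule.finrank_add_le_finrank_add_finrank _ _).trans ?_
  rw [add_comm]
  refine Nat.add_le_add_left ?_ _
  exact (finrank_span_le_card ({v w} : Set E)).trans (by simp)

theorem zs_le_ker (v : ι → E) (h : Module.Dual ℝ E) (W : Finset ι) :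
    Submodule.span ℝ (v '' (zs v h W : Set ι)) ≤ LinearMap.ker h := by
  rw [Submodule.span_le]
  rintro _ ⟨i, hi, rfl⟩
  exact (mem_zs.1 (Finset.mem_coe.1 hi)).2

theorem rk_zs_lt (v : ι → E) (h : Module.Dual ℝ E) (W : Finset ι) (w : ι) (hw : w ∈ W)
    (hpos : 0 < h (v w)) : rk v (zs v h W) + 1 ≤ rk v W := by
  refine Submodule.finrank_lt_finrank_of_lt ?_
  refine lt_of_le_of_ne
    (Submodule.span_mono (Set.image_mono (Finset.coe_subset.2 (zs_subset v h W)))) ?_
  intro heq
  have h1 : v w ∈ Submodule.span ℝ (v '' (W : Set ι)) :=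
    Submodule.subset_span ⟨w, hw, rfl⟩
  rw [← heq] at h1
  have h2 : h (v w) = 0 := zs_le_ker v h W h1
  exact hpos.ne' h2

/-- A functional that is nonnegative on `W` and positive at `w ∈ W` can be rotated, keeping its
zeros on `W` and its positivity at `w`, until its zero set is a facet of `W`. -/
theorem exists_facet_avoiding (v : ι → E) (W : Finset ι) (w : ι) (hwW : w ∈ W) :
    ∀ (m : ℕ) (h : Module.Dual ℝ E), (∀ i ∈ W, 0 ≤ h (v i)) → 0 < h (v w) →
      W.card - (zs v h W).card = m →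
      ∃ h' : Module.Dual ℝ E, (∀ i ∈ W, 0 ≤ h' (v i)) ∧ zs v h W ⊆ zs v h' W ∧ 0 < h' (v w) ∧
        rk v (zs v h' W) + 1 = rk v W := by
  intro m
  induction m using Nat.strong_induction_on with
  | _ m ih =>
  intro h hW hw hm
  rcases (rk_zs_lt v h W w hwW hw).lt_or_eq with hlt | heq
  swap
  · exact ⟨h, hW, subset_rfl, hw, heq⟩
  -- rotate
  have h1 : rk v (insert w (zs v h W)) < rk v W := (rk_insert_le v _ w).trans_lt hlt
  obtain ⟨u, huW, hu⟩ : ∃ u ∈ W, v u ∉ Submodule.span ℝ (v '' (insert w (zs v h W) : Finset ι)) := by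
    by_contra hcon
    push Not at hcon
    have h2 : Submodule.span ℝ (v '' (W : Set ι)) ≤
        Submodule.span ℝ (v '' (insert w (zs v h W) : Finset ι)) := by
      rw [Submodule.span_le]
      rintro _ ⟨i, hi, rfl⟩
      exact hcon i hi
    exact absurd (Submodule.finrank_mono h2) (not_le.2 h1)
  obtain ⟨f, hfu, hf⟩ := Submodule.exists_le_ker_of_notMem hu
  let g : Module.Dual ℝ E := (f (v u))⁻¹ • f
  have hgu : g (v u) = 1 := by
    simp only [g, LinearMap.smul_apply, smul_eq_mul]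
    exact inv_mul_cancel₀ hfu
  have hg0 : ∀ i ∈ insert w (zs v h W), g (v i) = 0 := by
    intro i hi
    have h2 : f (v i) = 0 := hf (Submodule.subset_span ⟨i, hi, rfl⟩)
    simp [g, h2]
  classical
  have hne : (W.filter fun i => 0 < g (v i)).Nonempty :=
    ⟨u, Finset.mem_filter.2 ⟨huW, by rw [hgu]; exact one_pos⟩⟩
  obtain ⟨i0, hi0, hmin⟩ := Finset.exists_min_image (W.filter fun i => 0 < g (v i))
    (fun i => h (v i) / g (v i)) hne
  rw [Finset.mem_filter] at hi0
  let s : ℝ := h (v i0) / g (v i0)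
  have hs0 : 0 ≤ s := div_nonneg (hW i0 hi0.1) hi0.2.le
  let h'' : Module.Dual ℝ E := h - s • g
  have hh'' : ∀ i, h'' (v i) = h (v i) - s * g (v i) := fun i => by
    simp [h'']
  have hnonneg : ∀ i ∈ W, 0 ≤ h'' (v i) := by
    intro i hi
    rw [hh'']
    by_cases hgi : 0 < g (v i)
    · have h2 := hmin i (Finset.mem_filter.2 ⟨hi, hgi⟩)
      have h3 : s * g (v i) ≤ h (v i) := by
        rw [← le_div_iff₀ hgi]
        exact h2
      linarith
    · have h2 : s * g (v i) ≤ 0 := mul_nonpos_of_nonneg_of_nonpos hs0 (not_lt.1 hgi)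
      have := hW i hi
      linarith
  have hw'' : 0 < h'' (v w) := by
    rw [hh'', hg0 w (Finset.mem_insert_self _ _), mul_zero, sub_zero]
    exact hw
  have hsub : zs v h W ⊆ zs v h'' W := by
    intro i hi
    rw [mem_zs]
    refine ⟨(mem_zs.1 hi).1, ?_⟩
    rw [hh'', hg0 i (Finset.mem_insert_of_mem hi), (mem_zs.1 hi).2]
    ring
  have hi0z : i0 ∈ zs v h'' W := by
    rw [mem_zs]
    refine ⟨hi0.1, ?_⟩
    rw [hh'']
    show h (v i0) - h (v i0) / g (v i0) * g (v i0) = 0
    rw [div_mul_cancel₀ _ hi0.2.ne', sub_self]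
  have hi0n : i0 ∉ zs v h W := by
    intro hcon
    have := hg0 i0 (Finset.mem_insert_of_mem hcon)
    exact hi0.2.ne' this
  have hssub : zs v h W ⊂ zs v h'' W :=
    Finset.ssubset_iff_subset_ne.2 ⟨hsub, fun heq => hi0n (heq ▸ hi0z)⟩
  have hcard := Finset.card_lt_card hssub
  have hcard2 := Finset.card_le_card (zs_subset v h'' W)
  obtain ⟨h', h1', h2', h3', h4'⟩ := ih (W.card - (zs v h'' W).card) (by omega) h'' hnonneg hw'' rfl
  exact ⟨h', h1', hsub.trans h2', h3', h4'⟩

/-- A face: zero set of a functional that is nonnegative on all points. -/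
def IsFace (v : ι → E) (T : Finset ι) : Prop :=
  ∃ g : Module.Dual ℝ E, (∀ i, 0 ≤ g (v i)) ∧ T = zs v g univ

theorem isFace_univ (v : ι → E) : IsFace v univ := by
  refine ⟨0, fun i => le_refl _, ?_⟩
  ext i
  simp [mem_zs]

/-- A face of a face is a face. -/
theorem IsFace.trans {v : ι → E} {T : Finset ι} (hT : IsFace v T) (g' : Module.Dual ℝ E)
    (hg' : ∀ i ∈ T, 0 ≤ g' (v i)) : IsFace v (zs v g' T) := by
  classical
  obtain ⟨g, hg, rfl⟩ := hT
  let N : ℝ := 1 + ∑ i ∈ univ.filter (fun i => 0 < g (v i)), |g' (v i)| / g (v i)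
  have hsumnn : ∀ i, 0 < g (v i) → |g' (v i)| / g (v i) ≤
      ∑ i ∈ univ.filter (fun i => 0 < g (v i)), |g' (v i)| / g (v i) := by
    intro i hi
    refine Finset.single_le_sum (f := fun i => |g' (v i)| / g (v i)) ?_
      (Finset.mem_filter.2 ⟨Finset.mem_univ _, hi⟩)
    intro j hj
    exact div_nonneg (abs_nonneg _) (Finset.mem_filter.1 hj).2.le
  have hpos : ∀ i, 0 < g (v i) → 0 < g' (v i) + N * g (v i) := by
    intro i hi
    have h1 : (1 + |g' (v i)| / g (v i)) * g (v i) ≤ N * g (v i) :=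
      mul_le_mul_of_nonneg_right (by simp only [N]; linarith [hsumnn i hi]) hi.le
    have h2 : (1 + |g' (v i)| / g (v i)) * g (v i) = g (v i) + |g' (v i)| := by
      field_simp
    have h3 := neg_abs_le (g' (v i))
    linarith
  refine ⟨g' + N • g, ?_, ?_⟩
  · intro i
    rw [LinearMap.add_apply, LinearMap.smul_apply, smul_eq_mul]
    rcases (hg i).lt_or_eq with h | h
    · exact (hpos i h).le
    · rw [← h, mul_zero, add_zero]
      exact hg' i (mem_zs.2 ⟨Finset.mem_univ _, h.symm⟩)
  · ext i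
    simp only [mem_zs, Finset.mem_univ, true_and, LinearMap.add_apply, LinearMap.smul_apply,
      smul_eq_mul]
    constructor
    · rintro ⟨h1, h2⟩
      rw [h1, h2]; ring
    · intro h
      rcases (hg i).lt_or_eq with h1 | h1
      · exact absurd h (hpos i h1).ne'
      · rw [← h1, mul_zero, add_zero] at h
        exact ⟨h1.symm, h⟩

section bounds

variable {κ : Type*} [Fintype κ] {F : Type*} [AddCommGroup F] [Module ℝ F] [FiniteDimensional ℝ F]

theorem iSup_subset_le {α : Type*} (U : α → Submodule ℝ F) (S : Set α) (K : Submodule ℝ F)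
    (h : ∀ i ∈ S, U i ≤ K) : ⨆ i ∈ S, U i ≤ K :=
  iSup₂_le h

/-- Lower bound for the span over the vertices of a face. -/
theorem rk_le_finrank (v : ι → E) (h : κ → Module.Dual ℝ E)
    (hpos : ∃ g0 : Module.Dual ℝ E, ∀ i, 0 < g0 (v i))
    (hfacet : ∀ g : Module.Dual ℝ E, (∀ i, 0 ≤ g (v i)) → rk v (zs v g univ) + 1 = rk v univ →
      ∃ k, zs v (h k) univ = zs v g univ)
    (U : ι → Submodule ℝ F) (K : κ → Submodule ℝ F)
    (hUK : ∀ i k, U i ≤ K k ↔ h k (v i) = 0) :
    ∀ (m : ℕ) (T : Finset ι), T.card = m → IsFace v T →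
      rk v T ≤ Module.finrank ℝ (⨆ i ∈ (T : Set ι), U i : Submodule ℝ F) := by
  intro m
  induction m using Nat.strong_induction_on with
  | _ m ih =>
  intro T hTm hT
  rcases T.eq_empty_or_nonempty with rfl | ⟨w, hw⟩
  · have h0 : rk v (∅ : Finset ι) = 0 := by
      rw [rk, Finset.coe_empty, Set.image_empty, Submodule.span_empty, finrank_bot]
    rw [h0]
    exact Nat.zero_le _
  obtain ⟨g0, hg0⟩ := hpos
  obtain ⟨h', h1', _, h3', h4'⟩ := exists_facet_avoiding v T w hw _ g0
    (fun i _ => (hg0 i).le) (hg0 w) rfl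
  have hT'face : IsFace v (zs v h' T) := hT.trans h' h1'
  have hwT' : w ∉ zs v h' T := fun hcon => h3'.ne' (mem_zs.1 hcon).2
  have hcard : (zs v h' T).card < m := by
    rw [← hTm]
    exact Finset.card_lt_card (Finset.ssubset_iff_subset_ne.2
      ⟨zs_subset v h' T, fun heq => hwT' (by rw [heq]; exact hw)⟩)
  have hind := ih _ hcard (zs v h' T) rfl hT'face
  -- a facet containing `zs v h' T` but not `w`
  obtain ⟨g', hg', hg'T⟩ := hT'face
  have hg'w : 0 < g' (v w) := by
    refine lt_of_le_of_ne (hg' w) fun heq => hwT' ?_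
    rw [hg'T]
    exact mem_zs.2 ⟨Finset.mem_univ _, heq.symm⟩
  obtain ⟨h'', h1'', h2'', h3'', h4''⟩ := exists_facet_avoiding v univ w (Finset.mem_univ _) _ g'
    (fun i _ => hg' i) hg'w rfl
  obtain ⟨k, hk⟩ := hfacet h'' (fun i => h1'' i (Finset.mem_univ _)) h4''
  have hle : (⨆ i ∈ (zs v h' T : Set ι), U i : Submodule ℝ F) ≤ K k := by
    refine iSup_subset_le U _ _ fun i hi => ?_
    rw [hUK]
    have h5 : i ∈ zs v (h k) univ := by
      rw [hk]
      apply h2''
      rw [← hg'T]
      exact hi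
    exact (mem_zs.1 h5).2
  have hnot : ¬ U w ≤ K k := by
    rw [hUK]
    intro hcon
    have h5 : w ∈ zs v (h k) univ := mem_zs.2 ⟨Finset.mem_univ _, hcon⟩
    rw [hk] at h5
    exact h3''.ne' (mem_zs.1 h5).2
  have hlt : (⨆ i ∈ (zs v h' T : Set ι), U i : Submodule ℝ F) < ⨆ i ∈ (T : Set ι), U i := by
    refine lt_of_le_of_ne ?_ ?_
    · exact biSup_mono fun i hi => zs_subset v h' T hi
    · intro heq
      apply hnot
      refine le_trans ?_ hle
      rw [heq]
      exact le_biSup U (Finset.mem_coe.2 hw)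
  have := Submodule.finrank_lt_finrank_of_lt hlt
  omega

/-- Lower bound for the span over the facets through a face. -/
theorem rk_add_finrank_ge (v : ι → E) (h : κ → Module.Dual ℝ E)
    (hfacet : ∀ g : Module.Dual ℝ E, (∀ i, 0 ≤ g (v i)) → rk v (zs v g univ) + 1 = rk v univ →
      ∃ k, zs v (h k) univ = zs v g univ)
    (W : κ → Submodule ℝ F) (L : ι → Submodule ℝ F)
    (hWL : ∀ i k, W k ≤ L i ↔ h k (v i) = 0) :
    ∀ (m : ℕ) (T : Finset ι), Fintype.card ι - T.card = m → IsFace v T →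
      rk v univ ≤ rk v T +
        Module.finrank ℝ (⨆ k ∈ {k | T ⊆ zs v (h k) univ}, W k : Submodule ℝ F) := by
  classical
  intro m
  induction m using Nat.strong_induction_on with
  | _ m ih =>
  intro T hTm hT
  by_cases hTu : T = univ
  · rw [hTu]; exact Nat.le_add_right _ _
  -- a minimal face strictly above `T`
  obtain ⟨T', hT', hmin⟩ := Finset.exists_min_image
    (univ.filter fun S : Finset ι => IsFace v S ∧ T ⊂ S) (fun S => S.card)
    ⟨univ, Finset.mem_filter.2 ⟨Finset.mem_univ _, isFace_univ v,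
      Finset.ssubset_iff_subset_ne.2 ⟨Finset.subset_univ _, hTu⟩⟩⟩
  obtain ⟨-, hT'face, hTT'⟩ := Finset.mem_filter.1 hT'
  obtain ⟨w, hwT', hwT⟩ := Finset.exists_of_ssubset hTT'
  obtain ⟨g, hg, hgT⟩ := hT
  have hgw : 0 < g (v w) := by
    refine lt_of_le_of_ne (hg w) fun heq => hwT ?_
    rw [hgT]
    exact mem_zs.2 ⟨Finset.mem_univ _, heq.symm⟩
  obtain ⟨h', h1', h2', h3', h4'⟩ := exists_facet_avoiding v T' w hwT' _ g
    (fun i _ => hg i) hgw rfl
  have hTzs : T ⊆ zs v h' T' := by
    refine subset_trans ?_ h2'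
    intro i hi
    have h5 := hi
    rw [hgT] at h5
    exact mem_zs.2 ⟨hTT'.1 hi, (mem_zs.1 h5).2⟩
  have hface2 : IsFace v (zs v h' T') := hT'face.trans h' h1'
  have heqT : T = zs v h' T' := by
    by_contra hne
    have h5 : T ⊂ zs v h' T' := Finset.ssubset_iff_subset_ne.2 ⟨hTzs, hne⟩
    have h6 := hmin _ (Finset.mem_filter.2 ⟨Finset.mem_univ _, hface2, h5⟩)
    have h7 : (zs v h' T').card < T'.card :=
      Finset.card_lt_card (Finset.ssubset_iff_subset_ne.2 ⟨zs_subset v h' T', fun heq => by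
        rw [← heq] at hwT'
        exact h3'.ne' (mem_zs.1 hwT').2⟩)
    omega
  have hrk : rk v T + 1 = rk v T' := by rw [heqT]; exact h4'
  have hcardlt : T.card < T'.card := Finset.card_lt_card hTT'
  have hcardle : T'.card ≤ Fintype.card ι := Finset.card_le_univ _
  have hind := ih (Fintype.card ι - T'.card) (by omega) T' rfl hT'face
  -- a facet containing `T` but not `w`
  obtain ⟨h'', h1'', h2'', h3'', h4''⟩ := exists_facet_avoiding v univ w (Finset.mem_univ _) _ g
    (fun i _ => hg i) hgw rfl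
  obtain ⟨k, hk⟩ := hfacet h'' (fun i => h1'' i (Finset.mem_univ _)) h4''
  have hkT : T ⊆ zs v (h k) univ := by
    rw [hk, hgT]
    exact h2''
  have hle : (⨆ k ∈ {k | T' ⊆ zs v (h k) univ}, W k : Submodule ℝ F) ≤ L w := by
    refine iSup_subset_le W _ _ fun k' hk' => ?_
    rw [hWL]
    exact (mem_zs.1 (hk' hwT')).2
  have hnot : ¬ W k ≤ L w := by
    rw [hWL]
    intro hcon
    have h5 : w ∈ zs v (h k) univ := mem_zs.2 ⟨Finset.mem_univ _, hcon⟩
    rw [hk] at h5
    exact h3''.ne' (mem_zs.1 h5).2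
  have hlt : (⨆ k ∈ {k | T' ⊆ zs v (h k) univ}, W k : Submodule ℝ F) <
      ⨆ k ∈ {k | T ⊆ zs v (h k) univ}, W k := by
    refine lt_of_le_of_ne ?_ ?_
    · exact biSup_mono fun k' hk' => hTT'.1.trans hk'
    · intro heq
      apply hnot
      refine le_trans ?_ hle
      rw [heq]
      exact le_biSup W (show k ∈ {k | T ⊆ zs v (h k) univ} from hkT)
  have := Submodule.finrank_lt_finrank_of_lt hlt
  omega

end bounds

end Pool.Agent.Helper73.Psd
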