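import Mathlib
import Pool.Agent.Helper73.PsdFaces
import Pool.Agent.Helper73.PsdCount

/-!
# Size-minimal psd factorizations have rank one, and the resulting bound
-/

namespace Pool.Agent.Helper73.Psd

open Finset Matrix

open scoped MatrixOrder in
theorem exists_eq_transpose_mul {n : ℕ} (M : Matrix (Fin n) (Fin n) ℝ) (hM : M.PosSemidef) :
    ∃ P : Matrix (Fin n) (Fin n) ℝ, M = Pᵀ * P := by
  obtain ⟨P, hP⟩ := CStarAlgebra.nonneg_iff_eq_star_mul_self.mp hM.nonneg
  refine ⟨P, ?_⟩
  rw [hP, Matrix.star_eq_conjTranspose, Matrix.conjTranspose_eq_transpose_of_trivial]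

theorem trace_eq_zero_iff_range_le {n : ℕ} (P Q : Matrix (Fin n) (Fin n) ℝ) :
    ((Pᵀ * P) * (Qᵀ * Q)).trace = 0 ↔
      LinearMap.range (Matrix.toLin' Pᵀ) ≤ LinearMap.ker (Matrix.toLin' Q) := by
  have h1 : ((Pᵀ * P) * (Qᵀ * Q)).trace = ((Q * Pᵀ) * (Q * Pᵀ)ᴴ).trace := by
    rw [Matrix.conjTranspose_eq_transpose_of_trivial, Matrix.transpose_mul,
      Matrix.transpose_transpose, Matrix.trace_mul_comm (Pᵀ * P)]
    rw [← Matrix.mul_assoc, Matrix.trace_mul_comm (Qᵀ * Q * Pᵀ) P]
    rw [Matrix.mul_assoc Qᵀ Q Pᵀ, ← Matrix.mul_assoc P Qᵀ, Matrix.trace_mul_comm (P * Qᵀ)]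
  rw [h1, Matrix.trace_mul_conjTranspose_self_eq_zero_iff, LinearMap.range_le_ker_iff,
    ← Matrix.toLin'_mul]
  constructor
  · intro h; rw [h]; exact map_zero _
  · intro h
    have := congrArg LinearMap.toMatrix' h
    rwa [LinearMap.toMatrix'_toLin', map_zero] at this

theorem exists_vec_of_ker {n : ℕ} (P : Matrix (Fin n) (Fin n) ℝ)
    (hker : n ≤ Module.finrank ℝ (LinearMap.ker (Matrix.toLin' P)) + 1) :
    ∃ x : Fin n → ℝ, Pᵀ * P = vecMulVec x x ∧
      LinearMap.range (Matrix.toLin' Pᵀ) ≤ Submodule.span ℝ {x} := by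
  have hrn := LinearMap.finrank_range_add_finrank_ker (Matrix.toLin' P)
  rw [Module.finrank_fintype_fun_eq_card, Fintype.card_fin] at hrn
  have hr : Module.finrank ℝ (LinearMap.range (Matrix.toLin' P)) ≤ 1 := by omega
  rw [finrank_le_one_iff] at hr
  obtain ⟨⟨a, ha⟩, hr⟩ := hr
  have hcol : ∀ j, ∃ c : ℝ, ∀ l, P l j = c * a l := by
    intro j
    obtain ⟨c, hc⟩ := hr ⟨Matrix.toLin' P (Pi.single j 1), ⟨_, rfl⟩⟩
    refine ⟨c, fun l => ?_⟩
    have h1 := congrFun (congrArg Subtype.val hc) l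
    simp only [SetLike.mk_smul_mk, Pi.smul_apply, smul_eq_mul] at h1
    rw [h1, Matrix.toLin'_apply, Matrix.mulVec_single_one]
    rfl
  choose c hc using hcol
  let s : ℝ := ∑ l, a l ^ 2
  have hs : 0 ≤ s := Finset.sum_nonneg fun l _ => sq_nonneg _
  refine ⟨Real.sqrt s • c, ?_, ?_⟩
  · ext j j'
    rw [Matrix.mul_apply, Matrix.vecMulVec_apply]
    simp only [Matrix.transpose_apply, hc, Pi.smul_apply, smul_eq_mul]
    have h1 : Real.sqrt s * c j * (Real.sqrt s * c j') = s * (c j * c j') := by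
      rw [show Real.sqrt s * c j * (Real.sqrt s * c j') =
        (Real.sqrt s * Real.sqrt s) * (c j * c j') by ring, Real.mul_self_sqrt hs]
    rw [h1, Finset.sum_mul]
    refine Finset.sum_congr rfl fun l _ => ?_
    ring
  · rintro _ ⟨w, rfl⟩
    have h1 : Matrix.toLin' Pᵀ w = (∑ l, a l * w l) • c := by
      funext j
      rw [Matrix.toLin'_apply, Matrix.mulVec, dotProduct, Pi.smul_apply, smul_eq_mul,
        Finset.sum_mul]
      refine Finset.sum_congr rfl fun l _ => ?_
      rw [Matrix.transpose_apply, hc]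
      ring
    rw [h1, Submodule.mem_span_singleton]
    by_cases hs0 : s = 0
    · have h2 : ∀ l, a l = 0 := by
        intro l
        have h3 := (Finset.sum_eq_zero_iff_of_nonneg (fun l _ => sq_nonneg (a l))).1 hs0 l
          (Finset.mem_univ l)
        exact pow_eq_zero_iff two_ne_zero |>.1 h3
      refine ⟨0, ?_⟩
      simp [h2]
    · have h2 : Real.sqrt s ≠ 0 := by
        rw [Real.sqrt_ne_zero hs]; exact hs0
      refine ⟨(∑ l, a l * w l) / Real.sqrt s, ?_⟩
      rw [smul_smul, div_mul_cancel₀ _ h2]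

theorem trace_vecMulVec {n : ℕ} (x y : Fin n → ℝ) :
    (vecMulVec x x * vecMulVec y y).trace = (x ⬝ᵥ y) ^ 2 := by
  rw [Matrix.trace, dotProduct, sq, Finset.sum_mul_sum]
  simp only [Matrix.diag_apply, Matrix.mul_apply, Matrix.vecMulVec_apply]
  refine Finset.sum_congr rfl fun i _ => Finset.sum_congr rfl fun j _ => ?_
  ring

/-- A functional vanishing on the zero set of a facet functional is a multiple of it. -/
theorem exists_mul_of_facet {ι : Type*} [Fintype ι] [DecidableEq ι] {E : Type*} [AddCommGroup E]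
    [Module ℝ E] [FiniteDimensional ℝ E] (v : ι → E) (h g : Module.Dual ℝ E)
    (hrk : rk v (zs v h univ) + 1 = rk v univ)
    (hg : ∀ i, h (v i) = 0 → g (v i) = 0) :
    ∃ c : ℝ, ∀ i, g (v i) = c * h (v i) := by
  obtain ⟨i0, hi0⟩ : ∃ i0, h (v i0) ≠ 0 := by
    by_contra hcon
    push Not at hcon
    have : zs v h univ = univ := by
      ext i
      simp [mem_zs, hcon]
    rw [this] at hrk
    omega
  refine ⟨g (v i0) / h (v i0), ?_⟩
  let f : Module.Dual ℝ E := g - (g (v i0) / h (v i0)) • h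
  have hf : ∀ i, f (v i) = g (v i) - (g (v i0) / h (v i0)) * h (v i) := fun i => by simp [f]
  have hker : Submodule.span ℝ (v '' (insert i0 (zs v h univ) : Finset ι)) ≤ LinearMap.ker f := by
    rw [Submodule.span_le]
    rintro _ ⟨i, hi, rfl⟩
    show f (v i) = 0
    rcases Finset.mem_insert.1 (Finset.mem_coe.1 hi) with rfl | hi
    · rw [hf, div_mul_cancel₀ _ hi0, sub_self]
    · rw [hf, hg i (mem_zs.1 hi).2, (mem_zs.1 hi).2, mul_zero, sub_zero]
  have hlt : Submodule.span ℝ (v '' (zs v h univ : Set ι)) <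
      Submodule.span ℝ (v '' (insert i0 (zs v h univ) : Finset ι)) := by
    refine lt_of_le_of_ne (Submodule.span_mono (Set.image_mono (Finset.coe_subset.2
      (Finset.subset_insert _ _)))) ?_
    intro heq
    have h1 : v i0 ∈ Submodule.span ℝ (v '' (insert i0 (zs v h univ) : Finset ι)) :=
      Submodule.subset_span ⟨i0, Finset.mem_insert_self _ _, rfl⟩
    rw [← heq] at h1
    exact hi0 (zs_le_ker v h univ h1)
  have hfin := Submodule.finrank_lt_finrank_of_lt hlt
  have heq : Submodule.span ℝ (v '' (insert i0 (zs v h univ) : Finset ι)) =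
      Submodule.span ℝ (v '' ((univ : Finset ι) : Set ι)) := by
    refine Submodule.eq_of_le_of_finrank_le (Submodule.span_mono (Set.image_mono
      (Finset.coe_subset.2 (Finset.subset_univ _)))) ?_
    have h1 : rk v (zs v h univ) = Module.finrank ℝ
      (Submodule.span ℝ (v '' (zs v h univ : Set ι))) := rfl
    have h2 : rk v univ = Module.finrank ℝ
      (Submodule.span ℝ (v '' ((univ : Finset ι) : Set ι))) := rfl
    omega
  intro i
  have h1 : v i ∈ Submodule.span ℝ (v '' ((univ : Finset ι) : Set ι)) :=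
    Submodule.subset_span ⟨i, Finset.mem_coe.2 (Finset.mem_univ _), rfl⟩
  rw [← heq] at h1
  have h2 : f (v i) = 0 := hker h1
  rw [hf] at h2
  linarith

/-- A size-minimal psd factorization of the slack matrix of a (homogenised) polytope has rank
one. -/
theorem exists_rank_one {ι κ : Type*} [Fintype ι] [Fintype κ] [DecidableEq ι] {n : ℕ}
    {E : Type*} [AddCommGroup E] [Module ℝ E] [FiniteDimensional ℝ E]
    (v : ι → E) (h : κ → Module.Dual ℝ E) (hrank : rk v univ = n)
    (hpos : ∃ g0 : Module.Dual ℝ E, ∀ i, 0 < g0 (v i))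
    (hvert : ∀ i, IsFace v {i})
    (hk : ∀ k, (∀ i, 0 ≤ h k (v i)) ∧ rk v (zs v (h k) univ) + 1 = rk v univ)
    (hfacet : ∀ g : Module.Dual ℝ E, (∀ i, 0 ≤ g (v i)) → rk v (zs v g univ) + 1 = rk v univ →
      ∃ k, zs v (h k) univ = zs v g univ)
    (A : ι → Matrix (Fin n) (Fin n) ℝ) (B : κ → Matrix (Fin n) (Fin n) ℝ)
    (hA : ∀ i, (A i).PosSemidef) (hB : ∀ k, (B k).PosSemidef)
    (hS : ∀ i k, h k (v i) = (A i * B k).trace) :
    ∃ (x : ι → Fin n → ℝ) (y : κ → Fin n → ℝ), (∀ i k, h k (v i) = (x i ⬝ᵥ y k) ^ 2) ∧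
      Submodule.span ℝ (Set.range x) = ⊤ ∧ Submodule.span ℝ (Set.range y) = ⊤ := by
  choose P hP using fun i => exists_eq_transpose_mul (A i) (hA i)
  choose Q hQ using fun k => exists_eq_transpose_mul (B k) (hB k)
  have hPQ : ∀ i k, LinearMap.range (Matrix.toLin' (P i)ᵀ) ≤ LinearMap.ker (Matrix.toLin' (Q k)) ↔
      h k (v i) = 0 := by
    intro i k
    rw [hS, hP i, hQ k]
    exact (trace_eq_zero_iff_range_le (P i) (Q k)).symm
  have hQP : ∀ i k, LinearMap.range (Matrix.toLin' (Q k)ᵀ) ≤ LinearMap.ker (Matrix.toLin' (P i)) ↔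
      h k (v i) = 0 := by
    intro i k
    rw [hS, hP i, hQ k, Matrix.trace_mul_comm]
    exact (trace_eq_zero_iff_range_le (Q k) (P i)).symm
  have hrk0 : rk v (∅ : Finset ι) = 0 := by
    rw [rk, Finset.coe_empty, Set.image_empty, Submodule.span_empty, finrank_bot]
  -- `B k` has rank one
  have hkerQ : ∀ k, n ≤ Module.finrank ℝ (LinearMap.ker (Matrix.toLin' (Q k))) + 1 := by
    intro k
    have h1 := rk_le_finrank v h hpos hfacet (fun i => LinearMap.range (Matrix.toLin' (P i)ᵀ))
      (fun k => LinearMap.ker (Matrix.toLin' (Q k))) hPQ _ (zs v (h k) univ) rfl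
      ⟨h k, (hk k).1, rfl⟩
    have h2 : (⨆ i ∈ (zs v (h k) univ : Set ι), LinearMap.range (Matrix.toLin' (P i)ᵀ)) ≤
        LinearMap.ker (Matrix.toLin' (Q k)) :=
      iSup₂_le fun i hi => (hPQ i k).2 (mem_zs.1 (Finset.mem_coe.1 hi)).2
    have h3 := Submodule.finrank_mono h2
    have h4 := (hk k).2
    omega
  -- `A i` has rank one
  have hkerP : ∀ i, n ≤ Module.finrank ℝ (LinearMap.ker (Matrix.toLin' (P i))) + 1 := by
    intro i
    have h1 := rk_add_finrank_ge v h hfacet (fun k => LinearMap.range (Matrix.toLin' (Q k)ᵀ))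
      (fun i => LinearMap.ker (Matrix.toLin' (P i))) hQP _ {i} rfl (hvert i)
    have h2 : (⨆ k ∈ {k | ({i} : Finset ι) ⊆ zs v (h k) univ},
        LinearMap.range (Matrix.toLin' (Q k)ᵀ)) ≤ LinearMap.ker (Matrix.toLin' (P i)) := by
      refine iSup₂_le fun k hk' => (hQP i k).2 ?_
      exact (mem_zs.1 (Finset.singleton_subset_iff.1 hk')).2
    have h3 := Submodule.finrank_mono h2
    have h4 : rk v ({i} : Finset ι) ≤ 1 := by
      have h5 := rk_insert_le v ∅ i
      rw [hrk0] at h5
      simpa using h5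
    omega
  choose x hx hxr using fun i => exists_vec_of_ker (P i) (hkerP i)
  choose y hy hyr using fun k => exists_vec_of_ker (Q k) (hkerQ k)
  refine ⟨x, y, ?_, ?_, ?_⟩
  · intro i k
    rw [hS, hP i, hQ k, hx, hy, trace_vecMulVec]
  · have h1 := rk_le_finrank v h hpos hfacet (fun i => LinearMap.range (Matrix.toLin' (P i)ᵀ))
      (fun k => LinearMap.ker (Matrix.toLin' (Q k))) hPQ _ univ rfl (isFace_univ v)
    have h2 : (⨆ i ∈ ((univ : Finset ι) : Set ι), LinearMap.range (Matrix.toLin' (P i)ᵀ)) ≤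
        Submodule.span ℝ (Set.range x) := by
      refine iSup₂_le fun i _ => (hxr i).trans ?_
      rw [Submodule.span_singleton_le_iff_mem]
      exact Submodule.subset_span ⟨i, rfl⟩
    have h3 := Submodule.finrank_mono h2
    apply Submodule.eq_top_of_finrank_eq
    have h4 := Submodule.finrank_le (Submodule.span ℝ (Set.range x))
    rw [Module.finrank_fintype_fun_eq_card, Fintype.card_fin] at h4 ⊢
    omega
  · obtain ⟨g0, hg0⟩ := hpos
    have hface0 : IsFace v ∅ := by
      refine ⟨g0, fun i => (hg0 i).le, ?_⟩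
      ext i
      simp [mem_zs, (hg0 i).ne']
    have h1 := rk_add_finrank_ge v h hfacet (fun k => LinearMap.range (Matrix.toLin' (Q k)ᵀ))
      (fun i => LinearMap.ker (Matrix.toLin' (P i))) hQP _ ∅ rfl hface0
    have h2 : (⨆ k ∈ {k | (∅ : Finset ι) ⊆ zs v (h k) univ},
        LinearMap.range (Matrix.toLin' (Q k)ᵀ)) ≤ Submodule.span ℝ (Set.range y) := by
      refine iSup₂_le fun k _ => (hyr k).trans ?_
      rw [Submodule.span_singleton_le_iff_mem]
      exact Submodule.subset_span ⟨k, rfl⟩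
    have h3 := Submodule.finrank_mono h2
    apply Submodule.eq_top_of_finrank_eq
    have h4 := Submodule.finrank_le (Submodule.span ℝ (Set.range y))
    rw [Module.finrank_fintype_fun_eq_card, Fintype.card_fin] at h4 ⊢
    omega

/-- **Main abstract bounds**, for facets and for vertices. -/
theorem card_facets_and_vertices_le {ι κ : Type*} [Fintype ι] [Fintype κ] [DecidableEq ι]
    {n : ℕ} {E : Type*} [AddCommGroup E] [Module ℝ E] [FiniteDimensional ℝ E]
    (hE : Module.finrank ℝ E = n)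
    (v : ι → E) (h : κ → Module.Dual ℝ E) (hrank : rk v univ = n)
    (hpos : ∃ g0 : Module.Dual ℝ E, ∀ i, 0 < g0 (v i))
    (hvert : ∀ i, IsFace v {i})
    (hk : ∀ k, (∀ i, 0 ≤ h k (v i)) ∧ rk v (zs v (h k) univ) + 1 = rk v univ)
    (hfacet : ∀ g : Module.Dual ℝ E, (∀ i, 0 ≤ g (v i)) → rk v (zs v g univ) + 1 = rk v univ →
      ∃ k, zs v (h k) univ = zs v g univ)
    (hinj : ∀ k l, zs v (h k) univ = zs v (h l) univ → k = l)
    (A : ι → Matrix (Fin n) (Fin n) ℝ) (B : κ → Matrix (Fin n) (Fin n) ℝ)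
    (hA : ∀ i, (A i).PosSemidef) (hB : ∀ k, (B k).PosSemidef)
    (hS : ∀ i k, h k (v i) = (A i * B k).trace) :
    2 * Fintype.card κ + 1 ≤ 3 ^ n ∧ 2 * Fintype.card ι + 1 ≤ 3 ^ n := by
  classical
  obtain ⟨x, y, hxy, hx, hy⟩ := exists_rank_one v h hrank hpos hvert hk hfacet A B hA hB hS
  constructor
  · refine card_le_of_rank_one v h ?_ ?_ ?_ x y hxy hx
    · intro k g hg
      exact exists_mul_of_facet v (h k) g (hk k).2 hg
    · intro k l hkl
      apply hinj
      ext i
      simp only [mem_zs, Finset.mem_univ, true_and]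
      exact hkl i
    · intro k
      by_contra hcon
      push Not at hcon
      have : zs v (h k) univ = univ := by
        ext i
        simp [mem_zs, hcon]
      have h1 := (hk k).2
      rw [this] at h1
      omega
  · -- facets avoiding a vertex
    have havoid : ∀ (T : Finset ι), IsFace v T → ∀ w, w ∉ T →
        ∃ k, T ⊆ zs v (h k) univ ∧ h k (v w) ≠ 0 := by
      rintro T ⟨g, hg, rfl⟩ w hw
      have hgw : 0 < g (v w) := by
        refine lt_of_le_of_ne (hg w) fun heq => hw ?_
        exact mem_zs.2 ⟨Finset.mem_univ _, heq.symm⟩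
      obtain ⟨h', h1', h2', h3', h4'⟩ := exists_facet_avoiding v univ w (Finset.mem_univ _) _ g
        (fun i _ => hg i) hgw rfl
      obtain ⟨k, hk'⟩ := hfacet h' (fun i => h1' i (Finset.mem_univ _)) h4'
      refine ⟨k, by rw [hk']; exact h2', fun hcon => ?_⟩
      have h5 : w ∈ zs v (h k) univ := mem_zs.2 ⟨Finset.mem_univ _, hcon⟩
      rw [hk'] at h5
      exact h3'.ne' (mem_zs.1 h5).2
    have hface0 : IsFace v ∅ := by
      obtain ⟨g0, hg0⟩ := hpos
      refine ⟨g0, fun i => (hg0 i).le, ?_⟩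
      ext i
      simp [mem_zs, (hg0 i).ne']
    have hne : ∀ i, ∃ k, h k (v i) ≠ 0 := by
      intro i
      obtain ⟨k, -, hk'⟩ := havoid ∅ hface0 i (Finset.notMem_empty i)
      exact ⟨k, hk'⟩
    let ev : ι → Module.Dual ℝ (Module.Dual ℝ E) := fun i => Module.Dual.eval ℝ E (v i)
    have hev : ∀ i k, ev i (h k) = h k (v i) := fun i k => rfl
    have hrk0 : rk v (∅ : Finset ι) = 0 := by
      rw [rk, Finset.coe_empty, Set.image_empty, Submodule.span_empty, finrank_bot]
    have hfac : ∀ i, rk h (zs h (ev i) univ) + 1 = rk h univ := by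
      intro i
      have h1 := rk_add_finrank_ge v h hfacet (fun k => Submodule.span ℝ {h k})
        (fun i => LinearMap.ker (ev i)) (fun i k => by
          rw [Submodule.span_singleton_le_iff_mem, LinearMap.mem_ker, hev]) _ {i} rfl (hvert i)
      have h2 : (⨆ k ∈ {k | ({i} : Finset ι) ⊆ zs v (h k) univ}, Submodule.span ℝ {h k}) ≤
          Submodule.span ℝ (h '' (zs h (ev i) univ : Set κ)) := by
        refine iSup₂_le fun k hk' => ?_
        rw [Submodule.span_singleton_le_iff_mem]
        refine Submodule.subset_span ⟨k, ?_, rfl⟩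
        rw [Finset.mem_coe, mem_zs]
        exact ⟨Finset.mem_univ _, (mem_zs.1 (Finset.singleton_subset_iff.1 hk')).2⟩
      have h3 := Submodule.finrank_mono h2
      have h4 : rk v ({i} : Finset ι) ≤ 1 := by
        have h5 := rk_insert_le v ∅ i
        rw [hrk0] at h5
        simpa using h5
      obtain ⟨k, hki⟩ := hne i
      have h5 : rk h (zs h (ev i) univ) < rk h univ := by
        refine Submodule.finrank_lt_finrank_of_lt ?_
        refine lt_of_le_of_ne (Submodule.span_mono (Set.image_mono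
          (Finset.coe_subset.2 (Finset.subset_univ _)))) ?_
        intro heq
        have h6 : h k ∈ Submodule.span ℝ (h '' ((univ : Finset κ) : Set κ)) :=
          Submodule.subset_span ⟨k, Finset.mem_coe.2 (Finset.mem_univ _), rfl⟩
        rw [← heq] at h6
        exact hki (zs_le_ker h (ev i) univ h6)
      have h6 : rk h univ ≤ n := by
        rw [← hE, ← Subspace.dual_finrank_eq (K := ℝ) (V := E)]
        exact Submodule.finrank_le _
      have h7 : rk h (zs h (ev i) univ) = Module.finrank ℝ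
        (Submodule.span ℝ (h '' (zs h (ev i) univ : Set κ))) := rfl
      omega
    refine card_le_of_rank_one h ev ?_ ?_ ?_ y x ?_ hy
    · intro i g hg
      exact exists_mul_of_facet h (ev i) g (hfac i) hg
    · intro i j hij
      by_contra hne'
      obtain ⟨k, hk1, hk2⟩ := havoid {i} (hvert i) j (by
        rw [Finset.mem_singleton]
        exact fun hcon => hne' hcon.symm)
      have h1 : h k (v i) = 0 := (mem_zs.1 (hk1 (Finset.mem_singleton_self i))).2
      exact hk2 ((hij k).1 h1)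
    · exact hne
    · intro k i
      rw [hev, hxy, dotProduct_comm]

end Pool.Agent.Helper73.Psd
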