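import Mathlib

/-!
# Bonds with 2-connected contraction: general lemmas

Tools for graphs given in the form of the frozen statement `S09463`: a bond `H` of `G`, the classes
of `H`-reachability (the vertices of `G/H`), and criteria for `G/H` to be 2-connected.
-/

namespace Pool.Agent.Helper73.Bond

open Set

variable {V : Type}

/-! ## Connectedness tools -/

/-- A connected graph has an edge leaving every set that is neither missed nor everything. -/
theorem exists_boundary (G : SimpleGraph V) (hG : G.Preconnected) (S : Set V) (u w : V)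
    (hu : u ∈ S) (hw : w ∉ S) : ∃ x ∈ S, ∃ y, y ∉ S ∧ G.Adj x y := by
  obtain ⟨p⟩ := hG u w
  obtain ⟨d, -, h1, h2⟩ := p.exists_boundary_dart S hu hw
  exact ⟨d.fst, h1, d.snd, h2, d.adj⟩

/-- The same inside an induced subgraph. -/
theorem exists_boundary_induce (G : SimpleGraph V) (Z S : Set V) (hZ : (G.induce Z).Connected)
    (u w : V) (hu : u ∈ Z) (huS : u ∈ S) (hw : w ∈ Z) (hwS : w ∉ S) :
    ∃ x ∈ Z, x ∈ S ∧ ∃ y ∈ Z, y ∉ S ∧ G.Adj x y := by
  obtain ⟨x, hx, y, hy, hxy⟩ := exists_boundary (G.induce Z) hZ.preconnected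
    {z : Z | (z : V) ∈ S} ⟨u, hu⟩ ⟨w, hw⟩ huS hwS
  exact ⟨x.1, x.2, hx, y.1, y.2, hy, hxy⟩

/-- `z` can be reached from `b` inside `Z`. -/
def Linked (G : SimpleGraph V) (Z : Set V) (b z : V) : Prop :=
  ∃ (hb : b ∈ Z) (hz : z ∈ Z), (G.induce Z).Reachable ⟨b, hb⟩ ⟨z, hz⟩

theorem Linked.refl (G : SimpleGraph V) {Z : Set V} {b : V} (hb : b ∈ Z) : Linked G Z b b :=
  ⟨hb, hb, SimpleGraph.Reachable.refl _⟩

theorem Linked.step {G : SimpleGraph V} {Z : Set V} {b w z : V} (h : Linked G Z b w)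
    (hz : z ∈ Z) (hwz : G.Adj w z) : Linked G Z b z := by
  obtain ⟨hb, hw, h⟩ := h
  exact ⟨hb, hz, h.trans (SimpleGraph.Adj.reachable (show (G.induce Z).Adj ⟨w, hw⟩ ⟨z, hz⟩ from hwz))⟩

theorem Linked.step' {G : SimpleGraph V} {Z : Set V} {b w z : V} (h : Linked G Z b w)
    (hz : z ∈ Z) (hwz : G.Adj z w) : Linked G Z b z := h.step hz hwz.symm

theorem Linked.trans {G : SimpleGraph V} {Z : Set V} {a b c : V} (h : Linked G Z a b)
    (h' : Linked G Z b c) : Linked G Z a c := by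
  obtain ⟨h1, h2, h3⟩ := h
  obtain ⟨h4, h5, h6⟩ := h'
  exact ⟨h1, h5, h3.trans h6⟩

theorem Linked.symm {G : SimpleGraph V} {Z : Set V} {a b : V} (h : Linked G Z a b) :
    Linked G Z b a := by
  obtain ⟨h1, h2, h3⟩ := h
  exact ⟨h2, h1, h3.symm⟩

theorem linked_of_subset {G : SimpleGraph V} {B Z : Set V} (hBZ : B ⊆ Z)
    (hB : (G.induce B).Connected) {b c : V} (hb : b ∈ B) (hc : c ∈ B) : Linked G Z b c := by
  refine ⟨hBZ hb, hBZ hc, ?_⟩
  have h := hB.preconnected ⟨b, hb⟩ ⟨c, hc⟩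
  exact h.map (SimpleGraph.induceHomOfLE G hBZ).toHom

theorem connected_of_linked {G : SimpleGraph V} {Z : Set V} {b : V} (hb : b ∈ Z)
    (h : ∀ z ∈ Z, Linked G Z b z) : (G.induce Z).Connected := by
  rw [SimpleGraph.connected_iff_exists_forall_reachable]
  refine ⟨⟨b, hb⟩, ?_⟩
  rintro ⟨z, hz⟩
  obtain ⟨_, _, h⟩ := h z hz
  exact h

theorem connected_singleton (G : SimpleGraph V) (v : V) : (G.induce ({v} : Set V)).Connected :=
  connected_of_linked (mem_singleton v) (by
    intro z hz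
    rw [mem_singleton_iff] at hz
    subst hz
    exact Linked.refl G (mem_singleton _))

theorem connected_pair (G : SimpleGraph V) (v w : V) (h : G.Adj v w) :
    (G.induce ({v, w} : Set V)).Connected :=
  connected_of_linked (b := v) (by simp) (by
    intro z hz
    rcases hz with hz | hz
    · rw [hz]
      exact Linked.refl G (by simp)
    · rw [mem_singleton_iff] at hz
      rw [hz]
      exact (Linked.refl G (by simp)).step (by simp) h)

/-- Adding a vertex adjacent to a connected set keeps it connected. -/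
theorem connected_insert (G : SimpleGraph V) (D : Set V) (u d : V) (hd : d ∈ D) (hud : G.Adj u d)
    (hD : (G.induce D).Connected) : (G.induce (insert u D)).Connected :=
  connected_of_linked (b := d) (Or.inr hd) (by
    intro z hz
    rcases hz with hz | hz
    · rw [hz]
      exact (Linked.refl G (Or.inr hd)).step' (Or.inl rfl) hud
    · exact linked_of_subset (fun x hx => Or.inr hx) hD hd hz)

/-- In a 2-connected graph on at least three vertices every vertex has a neighbour different from a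
given vertex. -/
theorem exists_nbr_ne (G : SimpleGraph V) [Fintype V] (h3 : 3 ≤ Fintype.card V)
    (h2 : ∀ v : V, (G.induce {w : V | w ≠ v}).Connected) (d x : V) (hdx : d ≠ x) :
    ∃ y, y ≠ x ∧ G.Adj d y := by
  classical
  obtain ⟨z, hz⟩ : ∃ z, z ∉ ({d, x} : Finset V) := by
    by_contra hcon
    push Not at hcon
    have : (Finset.univ : Finset V) ⊆ {d, x} := fun z _ => hcon z
    have hc := Finset.card_le_card this
    have h4 : ({d, x} : Finset V).card ≤ 2 := Finset.card_le_two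
    rw [Finset.card_univ] at hc
    omega
  have hz1 : z ≠ d := fun h => hz (by simp [h])
  have hz2 : z ≠ x := fun h => hz (by simp [h])
  obtain ⟨a, ha, b, hb, hab⟩ := exists_boundary (G.induce {w : V | w ≠ x}) (h2 x).preconnected
    {⟨d, hdx⟩} ⟨d, hdx⟩ ⟨z, hz2⟩ rfl (by
      intro h
      rw [mem_singleton_iff] at h
      exact hz1 (congrArg Subtype.val h))
  rw [mem_singleton_iff] at ha
  subst ha
  exact ⟨b.1, b.2, hab⟩

/-- Every vertex of a 2-connected graph on at least three vertices has two neighbours. -/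
theorem exists_two_nbrs (G : SimpleGraph V) [Fintype V] (h3 : 3 ≤ Fintype.card V)
    (h2 : ∀ v : V, (G.induce {w : V | w ≠ v}).Connected) (d : V) :
    ∃ x y, x ≠ y ∧ G.Adj d x ∧ G.Adj d y := by
  classical
  obtain ⟨z, hz⟩ : ∃ z, z ≠ d := by
    have : Nontrivial V := Fintype.one_lt_card_iff_nontrivial.mp (by omega)
    exact exists_ne d
  obtain ⟨x, hx, hdx⟩ := exists_nbr_ne G h3 h2 d z hz.symm
  obtain ⟨y, hy, hdy⟩ := exists_nbr_ne G h3 h2 d x hdx.ne
  exact ⟨x, y, hy.symm, hdx, hdy⟩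

/-! ## Good bonds -/

/-- `H` is a bond of `G` such that `G/H` is 2-connected. -/
def Good (G H : SimpleGraph V) : Prop :=
  H ≤ G ∧ H ≠ ⊥ ∧ ¬ (G \ H).Connected ∧
    (∀ K : SimpleGraph V, K ≤ H → K ≠ ⊥ → ¬ (G \ K).Connected → K = H) ∧
    (∃ u v : V, ¬ H.Reachable u v) ∧
    (∃ a b c d : V, G.Adj a b ∧ G.Adj c d ∧
        ¬ H.Reachable a b ∧ ¬ H.Reachable c d ∧
        ¬ (a = c ∧ b = d) ∧ ¬ (a = d ∧ b = c)) ∧
    (∀ v : V, (G.induce {w : V | ¬ H.Reachable v w}).Connected)

/-- The edges of `G` between `X` and its complement. -/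
def cut (G : SimpleGraph V) (X : Set V) : SimpleGraph V where
  Adj a b := G.Adj a b ∧ ((a ∈ X ∧ b ∉ X) ∨ (a ∉ X ∧ b ∈ X))
  symm := ⟨fun _ _ h => ⟨h.1.symm, by tauto⟩⟩
  loopless := ⟨fun _ h => h.1.ne rfl⟩

theorem cut_le (G : SimpleGraph V) (X : Set V) : cut G X ≤ G := fun _ _ h => h.1

/-- A cut between two connected sides is a bond. -/
theorem cut_bond (G : SimpleGraph V) (hG : G.Connected) (X : Set V)
    (hX : (G.induce X).Connected) (hY : (G.induce Xᶜ).Connected) :
    cut G X ≠ ⊥ ∧ ¬ (G \ cut G X).Connected ∧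
      (∀ K : SimpleGraph V, K ≤ cut G X → K ≠ ⊥ → ¬ (G \ K).Connected → K = cut G X) := by
  classical
  obtain ⟨⟨x0, hx0⟩⟩ := hX.nonempty
  obtain ⟨⟨y0, hy0⟩⟩ := hY.nonempty
  refine ⟨?_, ?_, ?_⟩
  · intro h
    obtain ⟨x, hx, y, hy, hxy⟩ := exists_boundary G hG.preconnected X x0 y0 hx0 hy0
    have : (cut G X).Adj x y := ⟨hxy, Or.inl ⟨hx, hy⟩⟩
    rw [h] at this
    exact this
  · intro h
    obtain ⟨x, hx, y, hy, hxy⟩ := exists_boundary (G \ cut G X) h.preconnected X x0 y0 hx0 hy0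
    rw [SimpleGraph.sdiff_adj] at hxy
    exact hxy.2 ⟨hxy.1, Or.inl ⟨hx, hy⟩⟩
  · intro K hK _ hdis
    by_contra hne
    obtain ⟨a, b, ha, hb, hab, hKab⟩ : ∃ a b, a ∈ X ∧ b ∉ X ∧ G.Adj a b ∧ ¬ K.Adj a b := by
      by_contra hcon
      push Not at hcon
      apply hne
      apply le_antisymm hK
      rintro a b ⟨hab, ⟨h1, h2⟩ | ⟨h1, h2⟩⟩
      · exact hcon a b h1 h2 hab
      · exact (hcon b a h2 h1 hab.symm).symm
    apply hdis
    have hmono : ∀ Z : Set V, (∀ x ∈ Z, ∀ y ∈ Z, G.Adj x y → ¬ K.Adj x y) →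
        (G.induce Z).Connected → ((G \ K).induce Z).Connected := by
      intro Z hZ hc
      refine SimpleGraph.Connected.mono ?_ hc
      rintro ⟨x, hx⟩ ⟨y, hy⟩ hxy
      change G.Adj x y at hxy
      change (G \ K).Adj x y
      rw [SimpleGraph.sdiff_adj]
      exact ⟨hxy, hZ x hx y hy hxy⟩
    have h1 : ((G \ K).induce X).Connected := hmono X (by
      intro x hx y hy _ hk
      rcases (hK hk).2 with h | h
      · exact h.2 hy
      · exact h.1 hx) hX
    have h2 : ((G \ K).induce Xᶜ).Connected := hmono Xᶜ (by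
      intro x hx y hy _ hk
      rcases (hK hk).2 with h | h
      · exact hx h.1
      · exact hy h.2) hY
    have hall : ((G \ K).induce (Set.univ : Set V)).Connected := by
      refine connected_of_linked (b := a) (mem_univ _) ?_
      intro z _
      have hb1 : Linked (G \ K) Set.univ a b :=
        (Linked.refl _ (mem_univ _)).step (mem_univ _) (by
          rw [SimpleGraph.sdiff_adj]; exact ⟨hab, hKab⟩)
      by_cases hz : z ∈ X
      · exact linked_of_subset (subset_univ _) h1 ha hz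
      · obtain ⟨h3, h4, h5⟩ := hb1
        obtain ⟨h6, h7, h8⟩ := linked_of_subset (subset_univ _) h2 hb
          (show z ∈ Xᶜ from hz)
        exact ⟨h3, h7, h5.trans h8⟩
    exact (SimpleGraph.induceUnivIso (G \ K)).connected_iff.mp hall

/-- Reachability in a graph whose edges lie in two disjoint sets, each of which it connects. -/
theorem reachable_two (H : SimpleGraph V) (A B : Set V) (hAB : Disjoint A B)
    (hH : ∀ a b, H.Adj a b → (a ∈ A ∧ b ∈ A) ∨ (a ∈ B ∧ b ∈ B))
    (hA : ∀ a ∈ A, ∀ b ∈ A, H.Reachable a b) (hB : ∀ a ∈ B, ∀ b ∈ B, H.Reachable a b) (a b : V) :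
    H.Reachable a b ↔ a = b ∨ (a ∈ A ∧ b ∈ A) ∨ (a ∈ B ∧ b ∈ B) := by
  constructor
  · intro h
    rw [SimpleGraph.reachable_iff_reflTransGen] at h
    induction h with
    | refl => exact Or.inl rfl
    | @tail b c _ hbc ih =>
      have hd := Set.disjoint_left.mp hAB
      rcases hH b c hbc with h1 | h1
      · rcases ih with h | h | h
        · rw [h]; exact Or.inr (Or.inl h1)
        · exact Or.inr (Or.inl ⟨h.1, h1.2⟩)
        · exact absurd h.2 (hd h1.1)
      · rcases ih with h | h | h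
        · rw [h]; exact Or.inr (Or.inr h1)
        · exact absurd h1.1 (hd h.2)
        · exact Or.inr (Or.inr ⟨h.1, h1.2⟩)
  · rintro (h | h | h)
    · rw [h]
    · exact hA a h.1 b h.2
    · exact hB a h.1 b h.2

/-- A cut whose edges form two connected classes `A`, `B` is good if the complements of the two
classes induce connected graphs and there are two non-loop edges. -/
theorem good_two [Fintype V] (G : SimpleGraph V)
    (hG : G.Connected) (h2 : ∀ v : V, (G.induce {w : V | w ≠ v}).Connected)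
    (X A B : Set V) (hX : (G.induce X).Connected) (hY : (G.induce Xᶜ).Connected)
    (hAB : Disjoint A B)
    (hH : ∀ a b, (cut G X).Adj a b → (a ∈ A ∧ b ∈ A) ∨ (a ∈ B ∧ b ∈ B))
    (hA : ∀ a ∈ A, ∀ b ∈ A, (cut G X).Reachable a b)
    (hB : ∀ a ∈ B, ∀ b ∈ B, (cut G X).Reachable a b)
    (hAc : (G.induce Aᶜ).Connected) (hBc : (G.induce Bᶜ).Connected)
    (a b c d : V) (hab : G.Adj a b) (hcd : G.Adj c d)
    (hab1 : ¬ (a ∈ A ∧ b ∈ A)) (hab2 : ¬ (a ∈ B ∧ b ∈ B))
    (hcd1 : ¬ (c ∈ A ∧ d ∈ A)) (hcd2 : ¬ (c ∈ B ∧ d ∈ B))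
    (hne1 : ¬ (a = c ∧ b = d)) (hne2 : ¬ (a = d ∧ b = c)) : Good G (cut G X) := by
  have hr := reachable_two (cut G X) A B hAB hH hA hB
  obtain ⟨b1, b2, b3⟩ := cut_bond G hG X hX hY
  refine ⟨cut_le G X, b1, b2, b3, ⟨a, b, ?_⟩, ⟨a, b, c, d, hab, hcd, ?_, ?_, hne1, hne2⟩, ?_⟩
  · rw [hr]
    rintro (h | h | h)
    · exact hab.ne h
    · exact hab1 h
    · exact hab2 h
  · rw [hr]
    rintro (h | h | h)
    · exact hab.ne h
    · exact hab1 h
    · exact hab2 h
  · rw [hr]
    rintro (h | h | h)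
    · exact hcd.ne h
    · exact hcd1 h
    · exact hcd2 h
  · intro v
    have hd := Set.disjoint_left.mp hAB
    by_cases hvA : v ∈ A
    · have : {w : V | ¬ (cut G X).Reachable v w} = Aᶜ := by
        ext w
        simp only [mem_ofPred_eq, hr, mem_compl_iff]
        constructor
        · intro h hw
          exact h (Or.inr (Or.inl ⟨hvA, hw⟩))
        · rintro h (h' | h' | h')
          · exact h (h' ▸ hvA)
          · exact h h'.2
          · exact hd hvA h'.1
      rw [this]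
      exact hAc
    · by_cases hvB : v ∈ B
      · have : {w : V | ¬ (cut G X).Reachable v w} = Bᶜ := by
          ext w
          simp only [mem_ofPred_eq, hr, mem_compl_iff]
          constructor
          · intro h hw
            exact h (Or.inr (Or.inr ⟨hvB, hw⟩))
          · rintro h (h' | h' | h')
            · exact h (h' ▸ hvB)
            · exact hvA h'.1
            · exact h h'.2
        rw [this]
        exact hBc
      · have : {w : V | ¬ (cut G X).Reachable v w} = {w : V | w ≠ v} := by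
          ext w
          simp only [mem_ofPred_eq, hr, ne_eq]
          constructor
          · intro h h'
            exact h (Or.inl h'.symm)
          · rintro h (h' | h' | h')
            · exact h h'.symm
            · exact hvA h'.1
            · exact hvB h'.1
        rw [this]
        exact h2 v

/-- The star of `v` is good if the non-neighbours of `v` induce a connected graph. -/
theorem good_star [Fintype V] (G : SimpleGraph V) (h3 : 3 ≤ Fintype.card V) (hG : G.Connected)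
    (h2 : ∀ v : V, (G.induce {w : V | w ≠ v}).Connected)
    (v : V) (hD : (G.induce {x : V | x ≠ v ∧ ¬ G.Adj v x}).Connected) :
    Good G (cut G {v}) := by
  classical
  obtain ⟨⟨d0, hd0v, hd0⟩⟩ := hD.nonempty
  obtain ⟨x, y, hxy, hdx, hdy⟩ := exists_two_nbrs G h3 h2 d0
  have hAc : ({w : V | w = v ∨ G.Adj v w} : Set V)ᶜ = {x : V | x ≠ v ∧ ¬ G.Adj v x} := by
    ext w
    simp only [mem_compl_iff, mem_ofPred_eq, not_or, ne_eq]
  refine good_two G hG h2 {v} {w : V | w = v ∨ G.Adj v w} ∅ (connected_singleton G v) ?_ ?_ ?_ ?_ ?_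
    ?_ ?_ d0 x d0 y hdx hdy ?_ ?_ ?_ ?_ ?_ ?_
  · exact h2 v
  · exact Set.disjoint_empty _
  · rintro a b ⟨hab, ⟨h1, h2⟩ | ⟨h1, h2⟩⟩
    · rw [mem_singleton_iff] at h1
      subst h1
      exact Or.inl ⟨Or.inl rfl, Or.inr hab⟩
    · rw [mem_singleton_iff] at h2
      subst h2
      exact Or.inl ⟨Or.inr hab.symm, Or.inl rfl⟩
  · have key : ∀ w, (w = v ∨ G.Adj v w) → (cut G {v}).Reachable v w := by
      rintro w (hw | hw)
      · rw [hw]
      · exact SimpleGraph.Adj.reachable (show (cut G {v}).Adj v w from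
          ⟨hw, Or.inl ⟨rfl, fun h => hw.ne (mem_singleton_iff.mp h).symm⟩⟩)
    intro a ha b hb
    exact (key a ha).symm.trans (key b hb)
  · intro a ha
    exact absurd ha (notMem_empty a)
  · rw [hAc]
    exact hD
  · rw [Set.compl_empty]
    exact (SimpleGraph.induceUnivIso G).connected_iff.mpr hG
  · rintro ⟨h | h, -⟩
    · exact hd0v h
    · exact hd0 h
  · rintro ⟨h, -⟩
    exact h
  · rintro ⟨h | h, -⟩
    · exact hd0v h
    · exact hd0 h
  · rintro ⟨h, -⟩
    exact h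
  · rintro ⟨-, h⟩
    exact hxy h
  · rintro ⟨h, -⟩
    exact hdy.ne h

/-! ## The minor `K₅` -/

/-- `G` has no `K₅` minor. -/
def NoK5 (G : SimpleGraph V) : Prop :=
  ¬ ∃ f : Fin 5 → Set V, (∀ i, (G.induce (f i)).Connected) ∧
    (∀ i j, i ≠ j → Disjoint (f i) (f j)) ∧
    (∀ i j, i ≠ j → ∃ u ∈ f i, ∃ v ∈ f j, G.Adj u v)

/-- Five pairwise disjoint, pairwise adjacent connected sets. -/
theorem NoK5.elim {G : SimpleGraph V} (h5 : NoK5 G) (A B C D E : Set V)
    (hA : (G.induce A).Connected) (hB : (G.induce B).Connected) (hC : (G.induce C).Connected)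
    (hD : (G.induce D).Connected) (hE : (G.induce E).Connected)
    (dAB : Disjoint A B) (dAC : Disjoint A C) (dAD : Disjoint A D) (dAE : Disjoint A E)
    (dBC : Disjoint B C) (dBD : Disjoint B D) (dBE : Disjoint B E)
    (dCD : Disjoint C D) (dCE : Disjoint C E) (dDE : Disjoint D E)
    (aAB : ∃ u ∈ A, ∃ v ∈ B, G.Adj u v) (aAC : ∃ u ∈ A, ∃ v ∈ C, G.Adj u v)
    (aAD : ∃ u ∈ A, ∃ v ∈ D, G.Adj u v) (aAE : ∃ u ∈ A, ∃ v ∈ E, G.Adj u v)
    (aBC : ∃ u ∈ B, ∃ v ∈ C, G.Adj u v) (aBD : ∃ u ∈ B, ∃ v ∈ D, G.Adj u v)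
    (aBE : ∃ u ∈ B, ∃ v ∈ E, G.Adj u v) (aCD : ∃ u ∈ C, ∃ v ∈ D, G.Adj u v)
    (aCE : ∃ u ∈ C, ∃ v ∈ E, G.Adj u v) (aDE : ∃ u ∈ D, ∃ v ∈ E, G.Adj u v) : False := by
  have sw : ∀ P Q : Set V, (∃ u ∈ P, ∃ v ∈ Q, G.Adj u v) → ∃ u ∈ Q, ∃ v ∈ P, G.Adj u v := by
    rintro P Q ⟨u, hu, v, hv, h⟩
    exact ⟨v, hv, u, hu, h.symm⟩
  apply h5
  refine ⟨![A, B, C, D, E], ?_, ?_, ?_⟩
  · intro i
    fin_cases i
    · exact hA
    · exact hB
    · exact hC
    · exact hD
    · exact hE
  · intro i j hij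
    fin_cases i <;> fin_cases j <;> first
      | exact absurd rfl hij
      | assumption
      | (apply Disjoint.symm; assumption)
  · intro i j hij
    fin_cases i <;> fin_cases j <;> first
      | exact absurd rfl hij
      | assumption
      | (apply sw; assumption)

/-- The configuration used throughout: `v`, `v'` and two adjacent connected sets `D`, `Z` are all
joined to `a`, `b`, `c`. -/
theorem NoK5.config {G : SimpleGraph V} (h5 : NoK5 G) (a b c v v' : V) (D Z : Set V)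
    (hD : (G.induce D).Connected) (hZ : (G.induce Z).Connected) (hDZ : Disjoint D Z)
    (hDZa : ∃ u ∈ D, ∃ w ∈ Z, G.Adj u w)
    (hab : a ≠ b) (hac : a ≠ c) (hbc : b ≠ c) (hvv : v ≠ v')
    (hva : G.Adj v a) (hvb : G.Adj v b) (hvc : G.Adj v c)
    (hwa : G.Adj v' a) (hwb : G.Adj v' b) (hwc : G.Adj v' c)
    (hDa : ∃ u ∈ D, G.Adj a u) (hDb : ∃ u ∈ D, G.Adj b u) (hDc : ∃ u ∈ D, G.Adj c u)
    (hZa : ∃ u ∈ Z, G.Adj a u) (hZb : ∃ u ∈ Z, G.Adj b u) (hZc : ∃ u ∈ Z, G.Adj c u)
    (haD : a ∉ D) (hbD : b ∉ D) (hcD : c ∉ D) (hvD : v ∉ D) (hwD : v' ∉ D)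
    (haZ : a ∉ Z) (hbZ : b ∉ Z) (hcZ : c ∉ Z) (hvZ : v ∉ Z) (hwZ : v' ∉ Z) : False := by
  have hav : a ≠ v := hva.ne'
  have hbv : b ≠ v := hvb.ne'
  have hcv : c ≠ v := hvc.ne'
  have haw : a ≠ v' := hwa.ne'
  have hbw : b ≠ v' := hwb.ne'
  have hcw : c ≠ v' := hwc.ne'
  refine h5.elim {v, a} {v', b} {c} D Z (connected_pair G v a hva) (connected_pair G v' b hwb)
    (connected_singleton G c) hD hZ ?_ ?_ ?_ ?_ ?_ ?_ ?_ ?_ ?_ hDZ ?_ ?_ ?_ ?_ ?_ ?_ ?_ ?_ ?_ hDZa
  · rw [Set.disjoint_left]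
    rintro x (hx | hx) (hy | hy)
    · exact hvv (hx ▸ hy)
    · rw [mem_singleton_iff] at hy
      exact hbv (hy ▸ hx)
    · rw [mem_singleton_iff] at hx
      exact haw (hx ▸ hy)
    · rw [mem_singleton_iff] at hx hy
      exact hab (hx ▸ hy)
  · rw [Set.disjoint_left]
    rintro x (hx | hx) hy
    · rw [mem_singleton_iff] at hy
      exact hcv (hy ▸ hx)
    · rw [mem_singleton_iff] at hx hy
      exact hac (hx ▸ hy)
  · rw [Set.disjoint_left]
    rintro x (hx | hx) hy
    · exact hvD (hx ▸ hy)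
    · rw [mem_singleton_iff] at hx
      exact haD (hx ▸ hy)
  · rw [Set.disjoint_left]
    rintro x (hx | hx) hy
    · exact hvZ (hx ▸ hy)
    · rw [mem_singleton_iff] at hx
      exact haZ (hx ▸ hy)
  · rw [Set.disjoint_left]
    rintro x (hx | hx) hy
    · rw [mem_singleton_iff] at hy
      exact hcw (hy ▸ hx)
    · rw [mem_singleton_iff] at hx hy
      exact hbc (hx ▸ hy)
  · rw [Set.disjoint_left]
    rintro x (hx | hx) hy
    · exact hwD (hx ▸ hy)
    · rw [mem_singleton_iff] at hx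
      exact hbD (hx ▸ hy)
  · rw [Set.disjoint_left]
    rintro x (hx | hx) hy
    · exact hwZ (hx ▸ hy)
    · rw [mem_singleton_iff] at hx
      exact hbZ (hx ▸ hy)
  · rw [Set.disjoint_left]
    intro x hx hy
    rw [mem_singleton_iff] at hx
    exact hcD (hx ▸ hy)
  · rw [Set.disjoint_left]
    intro x hx hy
    rw [mem_singleton_iff] at hx
    exact hcZ (hx ▸ hy)
  · exact ⟨v, by simp, b, by simp, hvb⟩
  · exact ⟨v, by simp, c, by simp, hvc⟩
  · obtain ⟨u, hu, h⟩ := hDa
    exact ⟨a, by simp, u, hu, h⟩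
  · obtain ⟨u, hu, h⟩ := hZa
    exact ⟨a, by simp, u, hu, h⟩
  · exact ⟨v', by simp, c, by simp, hwc⟩
  · obtain ⟨u, hu, h⟩ := hDb
    exact ⟨b, by simp, u, hu, h⟩
  · obtain ⟨u, hu, h⟩ := hZb
    exact ⟨b, by simp, u, hu, h⟩
  · obtain ⟨u, hu, h⟩ := hDc
    exact ⟨c, by simp, u, hu, h⟩
  · obtain ⟨u, hu, h⟩ := hZc
    exact ⟨c, by simp, u, hu, h⟩

end Pool.Agent.Helper73.Bond
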