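import Pool.Agent.Helper73.Bond

/-!
# Contractible bonds in `K₅`-minor-free graphs without tight pairs of degree-two twins
-/

namespace Pool.Agent.Helper73.Bond

open Set

variable {V : Type}

/-- Complete bipartite graphs have a good bond. -/
theorem good_of_dominating [Fintype V] (G : SimpleGraph V) (h3 : 3 ≤ Fintype.card V)
    (hG : G.Connected) (h2 : ∀ v : V, (G.induce {w : V | w ≠ v}).Connected)
    (hfree : ∀ a b c : V, G.Adj a b → G.Adj a c → G.Adj b c → False)
    (hdom : ∀ u v d : V, G.Adj u v → d = u ∨ d = v ∨ G.Adj d u ∨ G.Adj d v) :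
    ∃ H, Good G H := by
  classical
  obtain ⟨z0⟩ := hG.nonempty
  obtain ⟨a1, b1, hab⟩ : ∃ a b, G.Adj a b := by
    obtain ⟨x, y, -, h, -⟩ := exists_two_nbrs G h3 h2 z0
    exact ⟨z0, x, h⟩
  obtain ⟨a2, ha2, hba2⟩ := exists_nbr_ne G h3 h2 b1 a1 hab.ne'
  obtain ⟨b2, hb2, hab2⟩ := exists_nbr_ne G h3 h2 a1 b1 hab.ne
  have hor : ∀ w, G.Adj a1 w ∨ G.Adj b1 w := by
    intro w
    rcases hdom a1 b1 w hab with h | h | h | h
    · rw [h]; exact Or.inr hab.symm
    · rw [h]; exact Or.inl hab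
    · exact Or.inl h.symm
    · exact Or.inr h.symm
  have hnot : ∀ w, G.Adj a1 w → ¬ G.Adj b1 w := fun w h h' => hfree a1 b1 w hab h h'
  have hcomp : ∀ w z, G.Adj a1 w → G.Adj b1 z → G.Adj w z := by
    intro w z hw hz
    rcases hdom a1 w z hw with h | h | h | h
    · rw [h]; exact hw.symm
    · exact absurd hz (h ▸ hnot w hw)
    · exact absurd hz (hnot z h.symm)
    · exact h.symm
  set P : Set V := {w | w = a1 ∨ (G.Adj a1 w ∧ w ≠ b1)} with hP
  set Q : Set V := {w | w = b1 ∨ (G.Adj b1 w ∧ w ≠ a1)} with hQ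
  have hPQ : Disjoint P Q := by
    rw [Set.disjoint_left]
    rintro w (h | ⟨h, h'⟩) (k | ⟨k, k'⟩)
    · exact hab.ne (h.symm.trans k)
    · exact k' h
    · exact h' k
    · exact hnot w h k
  have hPc : Pᶜ = Q := by
    ext w
    simp only [hP, hQ, mem_compl_iff, mem_ofPred_eq, not_or, not_and, ne_eq, not_not]
    constructor
    · rintro ⟨h1, h2⟩
      rcases hor w with h | h
      · exact Or.inl (h2 h)
      · exact Or.inr ⟨h, h1⟩
    · rintro (h | ⟨h, h'⟩)
      · rw [h]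
        exact ⟨hab.ne', fun _ => rfl⟩
      · exact ⟨h', fun hh => absurd h (hnot w hh)⟩
  have hQc : Qᶜ = P := by rw [← hPc, compl_compl]
  have cP : (G.induce P).Connected := connected_of_linked (b := a1) (Or.inl rfl) (by
    rintro z (h | ⟨h, h'⟩)
    · rw [h]; exact Linked.refl G (Or.inl rfl)
    · exact (Linked.refl G (Or.inl rfl)).step (Or.inr ⟨h, h'⟩) h)
  have cQ : (G.induce Q).Connected := connected_of_linked (b := b1) (Or.inl rfl) (by
    rintro z (h | ⟨h, h'⟩)
    · rw [h]; exact Linked.refl G (Or.inl rfl)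
    · exact (Linked.refl G (Or.inl rfl)).step (Or.inr ⟨h, h'⟩) h)
  refine ⟨cut G {a1, b1}, good_two G hG h2 {a1, b1} P Q (connected_pair G a1 b1 hab) ?_ hPQ ?_ ?_ ?_
    ?_ ?_ a1 b1 a2 b2 hab (hcomp b2 a2 hab2 hba2).symm ?_ ?_ ?_ ?_ ?_ ?_⟩
  · have hb2' : b2 ∈ ({a1, b1} : Set V)ᶜ := by
      simp only [mem_compl_iff, mem_insert_iff, mem_singleton_iff, not_or]
      exact ⟨hab2.ne', hb2⟩
    have ha2' : a2 ∈ ({a1, b1} : Set V)ᶜ := by
      simp only [mem_compl_iff, mem_insert_iff, mem_singleton_iff, not_or]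
      exact ⟨ha2, hba2.ne'⟩
    refine connected_of_linked (b := b2) hb2' ?_
    intro z hz
    rcases hor z with h | h
    · exact ((Linked.refl G hb2').step ha2' (hcomp b2 a2 hab2 hba2)).step' hz
        (hcomp z a2 h hba2)
    · exact (Linked.refl G hb2').step hz (hcomp b2 z hab2 h)
  · rintro a b ⟨hadj, ⟨ha, hb⟩ | ⟨ha, hb⟩⟩
    · simp only [mem_insert_iff, mem_singleton_iff, not_or] at ha hb
      rcases ha with ha | ha
      · subst ha
        exact Or.inl ⟨Or.inl rfl, Or.inr ⟨hadj, hb.2⟩⟩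
      · subst ha
        exact Or.inr ⟨Or.inl rfl, Or.inr ⟨hadj, hb.1⟩⟩
    · simp only [mem_insert_iff, mem_singleton_iff, not_or] at ha hb
      rcases hb with hb | hb
      · subst hb
        exact Or.inl ⟨Or.inr ⟨hadj.symm, ha.2⟩, Or.inl rfl⟩
      · subst hb
        exact Or.inr ⟨Or.inr ⟨hadj.symm, ha.1⟩, Or.inl rfl⟩
  · have key : ∀ w ∈ P, (cut G {a1, b1}).Reachable a1 w := by
      rintro w (h | ⟨h, h'⟩)
      · rw [h]
      · refine SimpleGraph.Adj.reachable (show (cut G {a1, b1}).Adj a1 w from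
          ⟨h, Or.inl ⟨by simp, ?_⟩⟩)
        simp only [mem_insert_iff, mem_singleton_iff, not_or]
        exact ⟨h.ne', h'⟩
    intro a ha b hb
    exact (key a ha).symm.trans (key b hb)
  · have key : ∀ w ∈ Q, (cut G {a1, b1}).Reachable b1 w := by
      rintro w (h | ⟨h, h'⟩)
      · rw [h]
      · refine SimpleGraph.Adj.reachable (show (cut G {a1, b1}).Adj b1 w from
          ⟨h, Or.inl ⟨by simp, ?_⟩⟩)
        simp only [mem_insert_iff, mem_singleton_iff, not_or]
        exact ⟨h', h.ne'⟩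
    intro a ha b hb
    exact (key a ha).symm.trans (key b hb)
  · rw [hPc]; exact cQ
  · rw [hQc]; exact cP
  · rintro ⟨-, h⟩
    exact (Set.disjoint_left.mp hPQ) h (Or.inl rfl)
  · rintro ⟨h, -⟩
    exact (Set.disjoint_left.mp hPQ) (Or.inl rfl) h
  · rintro ⟨h, -⟩
    exact (Set.disjoint_left.mp hPQ) h (Or.inr ⟨hba2, ha2⟩)
  · rintro ⟨-, h⟩
    exact (Set.disjoint_left.mp hPQ) (Or.inr ⟨hab2, hb2⟩) h
  · rintro ⟨h, -⟩
    exact ha2 h.symm
  · rintro ⟨h, -⟩
    exact hab2.ne h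

/-- The vertices outside `D` with no neighbour in `D`. -/
def far (G : SimpleGraph V) (D : Set V) : Set V := {w | w ∉ D ∧ ∀ d ∈ D, ¬ G.Adj w d}

/-- The vertices outside `D` with a neighbour in `D`. -/
def bd (G : SimpleGraph V) (D : Set V) : Set V := {w | w ∉ D ∧ ∃ d ∈ D, G.Adj w d}

theorem trichotomy (G : SimpleGraph V) (D : Set V) (w : V) : w ∈ D ∨ w ∈ bd G D ∨ w ∈ far G D := by
  by_cases h : w ∈ D
  · exact Or.inl h
  · by_cases h' : ∃ d ∈ D, G.Adj w d
    · exact Or.inr (Or.inl ⟨h, h'⟩)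
    · push Not at h'
      exact Or.inr (Or.inr ⟨h, h'⟩)

theorem not_bd_of_far {G : SimpleGraph V} {D : Set V} {w : V} (h : w ∈ far G D) : w ∉ bd G D := by
  rintro ⟨-, d, hd, hwd⟩
  exact h.2 d hd hwd

/-- The data of the extremal configuration: `D` connected, `K` a non-trivial component of the
vertices far from `D`, every boundary vertex meeting every edge between far vertices. -/
structure Config (G : SimpleGraph V) (D K : Set V) : Prop where
  hD : (G.induce D).Connected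
  hK : (G.induce K).Connected
  hKF : K ⊆ far G D
  hKsep : ∀ w ∈ far G D, w ∉ K → ∀ k ∈ K, ¬ G.Adj w k
  hcover : ∀ s ∈ bd G D, ∀ w ∈ far G D, ∀ w' ∈ far G D, G.Adj w w' → G.Adj s w ∨ G.Adj s w'
  hedge : ∃ u ∈ K, ∃ v ∈ K, G.Adj u v

/-- Every vertex of `K` has a neighbour in `K`. -/
theorem Config.nbr {G : SimpleGraph V} {D K : Set V} (C : Config G D K) (w : V) (hw : w ∈ K) :
    ∃ w' ∈ K, G.Adj w w' := by
  obtain ⟨u, hu, v, hv, huv⟩ := C.hedge
  by_cases h : w = u
  · rw [h]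
    exact ⟨v, hv, huv⟩
  · obtain ⟨x, hx, hxs, y, hy, _, hxy⟩ := exists_boundary_induce G K {w} C.hK w u hw rfl hu
      (fun hh => h (mem_singleton_iff.mp hh).symm)
    rw [mem_singleton_iff] at hxs
    subst hxs
    exact ⟨y, hy, hxy⟩

/-- A non-isolated far vertex is linked to anything linked to a boundary vertex. -/
theorem Config.link_far {G : SimpleGraph V} {D K Z : Set V} (C : Config G D K) (b s w w' : V)
    (hs : s ∈ bd G D) (hbs : Linked G Z b s) (hw : w ∈ far G D) (hw' : w' ∈ far G D)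
    (hww : G.Adj w w') (hwZ : w ∈ Z) (hwZ' : w' ∈ Z) : Linked G Z b w := by
  rcases C.hcover s hs w hw w' hw' hww with h | h
  · exact hbs.step hwZ h
  · exact (hbs.step hwZ' h).step' hwZ hww

/-- If `v` and `v'` have degree two and the same neighbours, all common neighbours of these two
have degree two. -/
def NoTight (G : SimpleGraph V) : Prop :=
  ∀ u u' w a b : V, u ≠ u' → a ≠ b → G.neighborSet u = {a, b} → G.neighborSet u' = {a, b} →
    G.Adj w a → G.Adj w b → G.neighborSet w = {a, b}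

/-- An isolated far vertex with all its neighbours in one colour class of the boundary yields a good
star. -/
theorem Config.good_isolated [Fintype V] {G : SimpleGraph V} {D K : Set V} (C : Config G D K)
    (h3 : 3 ≤ Fintype.card V) (hG : G.Connected)
    (h2 : ∀ v : V, (G.induce {w : V | w ≠ v}).Connected)
    (hfree : ∀ a b c : V, G.Adj a b → G.Adj a c → G.Adj b c → False)
    (h5 : NoK5 G) (hNT : NoTight G) (s0 s1 : V) (hs0 : s0 ∈ bd G D) (hs1 : s1 ∈ bd G D)
    (hs : ∀ w ∈ K, G.Adj s1 w ↔ ¬ G.Adj s0 w) (u : V) (hu : u ∈ far G D)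
    (huiso : ∀ w ∈ far G D, ¬ G.Adj u w)
    (huN : ∀ n, G.Adj u n → ∀ w ∈ K, G.Adj n w ↔ G.Adj s0 w) : ∃ H, Good G H := by
  classical
  -- choose `v` minimal
  let I : Set V := {v | v ∈ far G D ∧ (∀ w ∈ far G D, ¬ G.Adj v w) ∧
    ∀ n, G.Adj v n → ∀ w ∈ K, G.Adj n w ↔ G.Adj s0 w}
  obtain ⟨v, ⟨hv, hviso, hvN⟩, hmin⟩ := Set.exists_min_image I (fun v => (G.neighborSet v).ncard)
    (Set.toFinite _) ⟨u, hu, huiso, huN⟩
  obtain ⟨d1, hd1, hsd1⟩ := hs1.2
  -- neighbours of isolated far vertices lie in the boundary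
  have hisobd : ∀ x ∈ far G D, (∀ w ∈ far G D, ¬ G.Adj x w) → ∀ n, G.Adj x n → n ∈ bd G D := by
    intro x hx hxi n hn
    rcases trichotomy G D n with h | h | h
    · exact absurd hn (hx.2 n h)
    · exact h
    · exact absurd hn (hxi n h)
  -- edges inside `K`
  have hone : ∀ w ∈ K, ∀ w' ∈ K, G.Adj w w' → (G.Adj s0 w ↔ ¬ G.Adj s0 w') := by
    intro w hw w' hw' hww
    constructor
    · intro h h'
      exact hfree s0 w w' h h' hww
    · intro h
      rcases C.hcover s0 hs0 w (C.hKF hw) w' (C.hKF hw') hww with h' | h'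
      · exact h'
      · exact absurd h' h
  have hvK : v ∉ K := by
    intro h
    obtain ⟨w, hw, hvw⟩ := C.nbr v h
    exact hviso w (C.hKF hw) hvw
  have hs1v : ¬ G.Adj v s1 := by
    intro h
    obtain ⟨a, ha, b, hb, hab⟩ := C.hedge
    have h1 := hvN s1 h a ha
    have h2 := hs a ha
    tauto
  by_cases htw : ∃ v' ∈ I, v' ≠ v ∧ G.neighborSet v' ⊆ G.neighborSet v
  · exfalso
    obtain ⟨v', hv'I, hne, hsub⟩ := htw
    obtain ⟨hv', hviso', hvN'⟩ := hv'I
    have heq : G.neighborSet v' = G.neighborSet v :=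
      Set.eq_of_subset_of_ncard_le hsub (hmin v' ⟨hv', hviso', hvN'⟩) (Set.toFinite _)
    have hadj : ∀ x, G.Adj v x → G.Adj v' x := by
      intro x hx
      have : x ∈ G.neighborSet v := hx
      rw [← heq] at this
      exact this
    have hvK' : v' ∉ K := by
      intro h
      obtain ⟨w, hw, hvw⟩ := C.nbr v' h
      exact hviso' w (C.hKF hw) hvw
    -- a vertex of the first colour class
    obtain ⟨k, hkK, hk⟩ : ∃ k ∈ K, G.Adj s0 k := by
      obtain ⟨a, ha, b, hb, hab⟩ := C.hedge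
      by_cases h : G.Adj s0 a
      · exact ⟨a, ha, h⟩
      · exact ⟨b, hb, by
          have := hone a ha b hb hab
          tauto⟩
    obtain ⟨k', hkK', hkk'⟩ := C.nbr k hkK
    have hsk' : G.Adj s1 k' := by
      rw [hs k' hkK']
      exact (hone k hkK k' hkK' hkk').mp hk
    obtain ⟨a, b, hab, hva, hvb⟩ := exists_two_nbrs G h3 h2 v
    have hkn : ∀ n, G.Adj v n → G.Adj n k := fun n hn => (hvN n hn k hkK).mpr hk
    have hbdn : ∀ n, G.Adj v n → n ∈ bd G D := hisobd v hv hviso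
    have hns1 : ∀ n, G.Adj v n → n ≠ s1 := fun n hn h => hs1v (h ▸ hn)
    have hbK : ∀ n, n ∈ bd G D → n ∉ K := fun n hn h => not_bd_of_far (C.hKF h) hn
    by_cases hc : ∃ c, G.Adj v c ∧ c ≠ a ∧ c ≠ b
    · obtain ⟨c, hvc, hca, hcb⟩ := hc
      have hZ : (G.induce (insert s1 K)).Connected := connected_insert G K s1 k' hkK' hsk' C.hK
      have haux : ∀ n, G.Adj v n → ∃ d ∈ D, G.Adj n d := fun n hn => (hbdn n hn).2
      have haux2 : ∀ n, G.Adj v n → ∃ z ∈ insert s1 K, G.Adj n z :=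
        fun n hn => ⟨k, Or.inr hkK, hkn n hn⟩
      have haux3 : ∀ n, G.Adj v n → n ∉ insert s1 K := by
        rintro n hn (h | h)
        · exact hns1 n hn h
        · exact hbK n (hbdn n hn) h
      refine h5.config a b c v v' D (insert s1 K) C.hD hZ ?_ ⟨d1, hd1, s1, Or.inl rfl, hsd1.symm⟩
        hab hca.symm hcb.symm hne.symm hva hvb hvc (hadj a hva) (hadj b hvb) (hadj c hvc)
        (haux a hva) (haux b hvb) (haux c hvc) (haux2 a hva) (haux2 b hvb) (haux2 c hvc)
        (hbdn a hva).1 (hbdn b hvb).1 (hbdn c hvc).1 hv.1 hv'.1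
        (haux3 a hva) (haux3 b hvb) (haux3 c hvc) ?_ ?_
      · rw [Set.disjoint_left]
        rintro x hx (h | h)
        · exact hs1.1 (h ▸ hx)
        · exact (C.hKF h).1 hx
      · rintro (h | h)
        · exact not_bd_of_far hv (h ▸ hs1)
        · exact hvK h
      · rintro (h | h)
        · exact not_bd_of_far hv' (h ▸ hs1)
        · exact hvK' h
    · push Not at hc
      have hN : G.neighborSet v = {a, b} := by
        ext x
        simp only [SimpleGraph.mem_neighborSet, mem_insert_iff, mem_singleton_iff]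
        constructor
        · intro hx
          by_cases h : x = a
          · exact Or.inl h
          · exact Or.inr (hc x hx h)
        · rintro (h | h)
          · rw [h]; exact hva
          · rw [h]; exact hvb
      have hk2 := hNT v v' k a b hne.symm hab hN (heq.trans hN) (hkn a hva).symm (hkn b hvb).symm
      have : k' ∈ G.neighborSet k := hkk'
      rw [hk2] at this
      rcases this with h | h
      · exact hbK a (hbdn a hva) (h ▸ hkK')
      · exact hbK b (hbdn b hvb) (h ▸ hkK')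
  · push Not at htw
    refine ⟨_, good_star G h3 hG h2 v ?_⟩
    set Z : Set V := {x : V | x ≠ v ∧ ¬ G.Adj v x} with hZdef
    have hfv : ∀ x ∈ far G D, x ≠ v → x ∈ Z := fun x hx hxv => ⟨hxv, hviso x hx⟩
    have hs1Z : s1 ∈ Z := ⟨fun h => not_bd_of_far hv (h ▸ hs1), hs1v⟩
    have hDZ : D ⊆ Z := fun d hd => ⟨fun h => hv.1 (h ▸ hd), hv.2 d hd⟩
    have l0 : Linked G Z s1 s1 := Linked.refl G hs1Z
    have lD : ∀ d ∈ D, Linked G Z s1 d := fun d hd =>
      (l0.step (hDZ hd1) hsd1).trans (linked_of_subset hDZ C.hD hd1 hd)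
    have lS : ∀ s ∈ bd G D, s ∈ Z → Linked G Z s1 s := by
      rintro s ⟨-, d, hd, hsd⟩ hsZ
      exact (lD d hd).step' hsZ hsd
    refine connected_of_linked hs1Z ?_
    intro z hz
    rcases trichotomy G D z with h | h | h
    · exact lD z h
    · exact lS z h hz
    · by_cases hiso : ∀ w ∈ far G D, ¬ G.Adj z w
      · -- isolated
        obtain ⟨n, hzn, hvn⟩ : ∃ n, G.Adj z n ∧ ¬ G.Adj v n := by
          by_contra hcon
          push Not at hcon
          refine htw z ⟨h, hiso, fun n hn => hvN n (hcon n hn)⟩ hz.1 ?_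
          intro n hn
          exact hcon n hn
        have hnbd := hisobd z h hiso n hzn
        have hnZ : n ∈ Z := ⟨fun hh => not_bd_of_far hv (hh ▸ hnbd), hvn⟩
        exact (lS n hnbd hnZ).step' hz hzn
      · push Not at hiso
        obtain ⟨w, hw, hzw⟩ := hiso
        have hwv : w ≠ v := fun hh => hviso z h (hh ▸ hzw.symm)
        exact C.link_far s1 s1 z w hs1 l0 h hw hzw hz (hfv w hw hwv)

/-- If both colour classes of the boundary occur, there is a good bond. -/
theorem Config.good_two_colours [Fintype V] {G : SimpleGraph V} {D K : Set V} (C : Config G D K)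
    (h3 : 3 ≤ Fintype.card V) (hG : G.Connected)
    (h2 : ∀ v : V, (G.induce {w : V | w ≠ v}).Connected)
    (hfree : ∀ a b c : V, G.Adj a b → G.Adj a c → G.Adj b c → False)
    (h5 : NoK5 G) (hNT : NoTight G) (s0 s1 : V) (hs0 : s0 ∈ bd G D) (hs1 : s1 ∈ bd G D)
    (hs : ∀ w ∈ K, G.Adj s1 w ↔ ¬ G.Adj s0 w)
    (hcol : ∀ s ∈ bd G D, (∀ w ∈ K, G.Adj s w ↔ G.Adj s0 w) ∨ (∀ w ∈ K, G.Adj s w ↔ G.Adj s1 w)) :
    ∃ H, Good G H := by
  classical
  have hs' : ∀ w ∈ K, G.Adj s0 w ↔ ¬ G.Adj s1 w := by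
    intro w hw
    have := hs w hw
    tauto
  have hisobd : ∀ x ∈ far G D, (∀ w ∈ far G D, ¬ G.Adj x w) → ∀ n, G.Adj x n → n ∈ bd G D := by
    intro x hx hxi n hn
    rcases trichotomy G D n with h | h | h
    · exact absurd hn (hx.2 n h)
    · exact h
    · exact absurd hn (hxi n h)
  by_cases hI0 : ∃ u ∈ far G D, (∀ w ∈ far G D, ¬ G.Adj u w) ∧
      ∀ n, G.Adj u n → ∀ w ∈ K, G.Adj n w ↔ G.Adj s0 w
  · obtain ⟨u, hu, hui, huN⟩ := hI0
    exact C.good_isolated h3 hG h2 hfree h5 hNT s0 s1 hs0 hs1 hs u hu hui huN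
  by_cases hI1 : ∃ u ∈ far G D, (∀ w ∈ far G D, ¬ G.Adj u w) ∧
      ∀ n, G.Adj u n → ∀ w ∈ K, G.Adj n w ↔ G.Adj s1 w
  · obtain ⟨u, hu, hui, huN⟩ := hI1
    exact C.good_isolated h3 hG h2 hfree h5 hNT s1 s0 hs1 hs0 hs' u hu hui huN
  -- the bond around `K`
  have hbdK : ∀ n, n ∈ bd G D → n ∉ K := fun n hn h => not_bd_of_far (C.hKF h) hn
  have hDK : ∀ n, n ∈ D → n ∉ K := fun n hn h => (C.hKF h).1 hn
  set A : Set V := {w | (w ∈ K ∧ G.Adj s0 w) ∨ (w ∈ bd G D ∧ ∀ k ∈ K, G.Adj w k ↔ G.Adj s0 k)}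
    with hA
  set B : Set V := {w | (w ∈ K ∧ G.Adj s1 w) ∨ (w ∈ bd G D ∧ ∀ k ∈ K, G.Adj w k ↔ G.Adj s1 k)}
    with hB
  obtain ⟨e, he, e', he', hee⟩ := C.hedge
  have hAB : Disjoint A B := by
    rw [Set.disjoint_left]
    rintro w (⟨h, h'⟩ | ⟨h, h'⟩) (⟨k, k'⟩ | ⟨k, k'⟩)
    · exact ((hs w h).mp k') h'
    · exact hbdK w k h
    · exact hbdK w h k
    · have a1 := h' e he
      have a2 := k' e he
      have a3 := hs e he
      tauto
  -- vertices of both colours in `K`
  have hone : ∀ w ∈ K, ∀ w' ∈ K, G.Adj w w' → (G.Adj s0 w ↔ ¬ G.Adj s0 w') := by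
    intro w hw w' hw' hww
    constructor
    · intro h h'
      exact hfree s0 w w' h h' hww
    · intro h
      rcases C.hcover s0 hs0 w (C.hKF hw) w' (C.hKF hw') hww with h' | h'
      · exact h'
      · exact absurd h' h
  obtain ⟨k0, hk0K, hk0⟩ : ∃ k ∈ K, G.Adj s0 k := by
    by_cases h : G.Adj s0 e
    · exact ⟨e, he, h⟩
    · refine ⟨e', he', ?_⟩
      have := hone e he e' he' hee
      tauto
  obtain ⟨k1, hk1K, hk1⟩ : ∃ k ∈ K, G.Adj s1 k := by
    by_cases h : G.Adj s1 e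
    · exact ⟨e, he, h⟩
    · refine ⟨e', he', ?_⟩
      have a1 := hone e he e' he' hee
      have a2 := hs e he
      have a3 := hs e' he'
      tauto
  obtain ⟨⟨d0, hd0⟩⟩ := C.hD.nonempty
  -- generic connectivity of complements
  have hcompl : ∀ (Z : Set V) (t : V), t ∈ bd G D → t ∈ Z → D ⊆ Z → 
      (∀ z ∈ far G D, z ∉ K → z ∈ Z) → (∀ z ∈ K, z ∈ Z → G.Adj t z) →
      (∀ z ∈ far G D, (∀ w ∈ far G D, ¬ G.Adj z w) → ∃ n, G.Adj z n ∧ n ∈ Z) →
      (G.induce Z).Connected := by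
    intro Z t ht htZ hDZ hfar hK hiso
    obtain ⟨dt, hdt, htd⟩ := ht.2
    have l0 : Linked G Z t t := Linked.refl G htZ
    have lD : ∀ d ∈ D, Linked G Z t d := fun d hd =>
      (l0.step (hDZ hdt) htd).trans (linked_of_subset hDZ C.hD hdt hd)
    have lS : ∀ s ∈ bd G D, s ∈ Z → Linked G Z t s := by
      rintro s ⟨-, d, hd, hsd⟩ hsZ
      exact (lD d hd).step' hsZ hsd
    refine connected_of_linked htZ ?_
    intro z hz
    rcases trichotomy G D z with h | h | h
    · exact lD z h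
    · exact lS z h hz
    · by_cases hzK : z ∈ K
      · exact l0.step hz (hK z hzK hz)
      · by_cases hi : ∀ w ∈ far G D, ¬ G.Adj z w
        · obtain ⟨n, hzn, hnZ⟩ := hiso z h hi
          exact (lS n (hisobd z h hi n hzn) hnZ).step' hz hzn
        · push Not at hi
          obtain ⟨w, hw, hzw⟩ := hi
          have hwK : w ∉ K := fun hh => C.hKsep z h hzK w hh hzw
          exact C.link_far t t z w ht l0 h hw hzw hz (hfar w hw hwK)
  have hs0A : s0 ∈ A := Or.inr ⟨hs0, fun _ _ => Iff.rfl⟩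
  have hs1B : s1 ∈ B := Or.inr ⟨hs1, fun _ _ => Iff.rfl⟩
  have hdisj := Set.disjoint_left.mp hAB
  have hADisj : ∀ d ∈ D, d ∉ A := by
    rintro d hd (⟨h, -⟩ | ⟨h, -⟩)
    · exact hDK d hd h
    · exact h.1 hd
  have hBDisj : ∀ d ∈ D, d ∉ B := by
    rintro d hd (⟨h, -⟩ | ⟨h, -⟩)
    · exact hDK d hd h
    · exact h.1 hd
  obtain ⟨x, y, hxy, hdx, hdy⟩ := exists_two_nbrs G h3 h2 d0
  refine ⟨cut G K, good_two G hG h2 K A B C.hK ?_ hAB ?_ ?_ ?_ ?_ ?_ d0 x d0 y hdx hdy ?_ ?_ ?_ ?_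
    ?_ ?_⟩
  · -- the complement of `K`
    refine hcompl Kᶜ s0 hs0 (hbdK s0 hs0) (fun d hd => hDK d hd) (fun z _ hz => hz) ?_ ?_
    · intro z hz hz'
      exact absurd hz hz'
    · intro z hz hi
      obtain ⟨n, -, -, hn, -⟩ := exists_two_nbrs G h3 h2 z
      exact ⟨n, hn, hbdK n (hisobd z hz hi n hn)⟩
  · -- crossing edges
    have key : ∀ a b, a ∈ K → b ∉ K → G.Adj a b → (a ∈ A ∧ b ∈ A) ∨ (a ∈ B ∧ b ∈ B) := by
      intro a b ha hb hab
      have hbd : b ∈ bd G D := by
        rcases trichotomy G D b with h | h | h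
        · exact absurd hab ((C.hKF ha).2 b h)
        · exact h
        · exact absurd hab.symm (C.hKsep b h hb a ha)
      rcases hcol b hbd with h | h
      · left
        exact ⟨Or.inl ⟨ha, (h a ha).mp hab.symm⟩, Or.inr ⟨hbd, h⟩⟩
      · right
        exact ⟨Or.inl ⟨ha, (h a ha).mp hab.symm⟩, Or.inr ⟨hbd, h⟩⟩
    rintro a b ⟨hab, ⟨h1, h2⟩ | ⟨h1, h2⟩⟩
    · exact key a b h1 h2 hab
    · rcases key b a h2 h1 hab.symm with h | h
      · exact Or.inl ⟨h.2, h.1⟩
      · exact Or.inr ⟨h.2, h.1⟩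
  · have key : ∀ w ∈ A, (cut G K).Reachable s0 w := by
      rintro w (⟨h, h'⟩ | ⟨h, h'⟩)
      · exact SimpleGraph.Adj.reachable (show (cut G K).Adj s0 w from
          ⟨h', Or.inr ⟨hbdK s0 hs0, h⟩⟩)
      · refine (SimpleGraph.Adj.reachable (show (cut G K).Adj s0 k0 from
          ⟨hk0, Or.inr ⟨hbdK s0 hs0, hk0K⟩⟩)).trans (SimpleGraph.Adj.reachable
          (show (cut G K).Adj k0 w from ⟨((h' k0 hk0K).mpr hk0).symm, Or.inl ⟨hk0K, hbdK w h⟩⟩))
    intro a ha b hb
    exact (key a ha).symm.trans (key b hb)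
  · have key : ∀ w ∈ B, (cut G K).Reachable s1 w := by
      rintro w (⟨h, h'⟩ | ⟨h, h'⟩)
      · exact SimpleGraph.Adj.reachable (show (cut G K).Adj s1 w from
          ⟨h', Or.inr ⟨hbdK s1 hs1, h⟩⟩)
      · refine (SimpleGraph.Adj.reachable (show (cut G K).Adj s1 k1 from
          ⟨hk1, Or.inr ⟨hbdK s1 hs1, hk1K⟩⟩)).trans (SimpleGraph.Adj.reachable
          (show (cut G K).Adj k1 w from ⟨((h' k1 hk1K).mpr hk1).symm, Or.inl ⟨hk1K, hbdK w h⟩⟩))
    intro a ha b hb
    exact (key a ha).symm.trans (key b hb)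
  · -- the complement of `A`
    refine hcompl Aᶜ s1 hs1 (fun h => hdisj h hs1B) (fun d hd => hADisj d hd) ?_ ?_ ?_
    · rintro z hz hzK (⟨h, -⟩ | ⟨h, -⟩)
      · exact hzK h
      · exact not_bd_of_far hz h
    · intro z hz hzA
      rw [hs z hz]
      intro h
      exact hzA (Or.inl ⟨hz, h⟩)
    · intro z hz hi
      by_contra hcon
      push Not at hcon
      apply hI0
      refine ⟨z, hz, hi, ?_⟩
      intro n hn
      have hnA : n ∈ A := by
        by_contra hh
        exact hcon n hn hh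
      rcases hnA with ⟨h, -⟩ | ⟨-, h⟩
      · exact absurd h (hbdK n (hisobd z hz hi n hn))
      · exact h
  · -- the complement of `B`
    refine hcompl Bᶜ s0 hs0 (fun h => hdisj hs0A h) (fun d hd => hBDisj d hd) ?_ ?_ ?_
    · rintro z hz hzK (⟨h, -⟩ | ⟨h, -⟩)
      · exact hzK h
      · exact not_bd_of_far hz h
    · intro z hz hzB
      rw [hs' z hz]
      intro h
      exact hzB (Or.inl ⟨hz, h⟩)
    · intro z hz hi
      by_contra hcon
      push Not at hcon
      apply hI1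
      refine ⟨z, hz, hi, ?_⟩
      intro n hn
      have hnB : n ∈ B := by
        by_contra hh
        exact hcon n hn hh
      rcases hnB with ⟨h, -⟩ | ⟨-, h⟩
      · exact absurd h (hbdK n (hisobd z hz hi n hn))
      · exact h
  · exact fun h => hADisj d0 hd0 h.1
  · exact fun h => hBDisj d0 hd0 h.1
  · exact fun h => hADisj d0 hd0 h.1
  · exact fun h => hBDisj d0 hd0 h.1
  · rintro ⟨-, h⟩
    exact hxy h
  · rintro ⟨h, -⟩
    exact hdy.ne h

/-- If only one colour class of the boundary occurs, there is a good star. -/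
theorem Config.good_one_colour [Fintype V] {G : SimpleGraph V} {D K : Set V} (C : Config G D K)
    (h3 : 3 ≤ Fintype.card V) (hG : G.Connected)
    (h2 : ∀ v : V, (G.induce {w : V | w ≠ v}).Connected)
    (hfree : ∀ a b c : V, G.Adj a b → G.Adj a c → G.Adj b c → False)
    (h5 : NoK5 G) (hNT : NoTight G) (s0 t : V) (hs0 : s0 ∈ bd G D) (ht : t ∈ bd G D)
    (hst : t ≠ s0) (hcol : ∀ s ∈ bd G D, ∀ w ∈ K, G.Adj s w ↔ G.Adj s0 w) :
    ∃ H, Good G H := by
  classical
  have hisobd : ∀ x ∈ far G D, (∀ w ∈ far G D, ¬ G.Adj x w) → ∀ n, G.Adj x n → n ∈ bd G D := by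
    intro x hx hxi n hn
    rcases trichotomy G D n with h | h | h
    · exact absurd hn (hx.2 n h)
    · exact h
    · exact absurd hn (hxi n h)
  have hone : ∀ w ∈ K, ∀ w' ∈ K, G.Adj w w' → (G.Adj s0 w ↔ ¬ G.Adj s0 w') := by
    intro w hw w' hw' hww
    constructor
    · intro h h'
      exact hfree s0 w w' h h' hww
    · intro h
      rcases C.hcover s0 hs0 w (C.hKF hw) w' (C.hKF hw') hww with h' | h'
      · exact h'
      · exact absurd h' h
  have hbdK : ∀ n, n ∈ bd G D → n ∉ K := fun n hn h => not_bd_of_far (C.hKF h) hn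
  -- `K₁`
  let K1 : Set V := {w | w ∈ K ∧ ¬ G.Adj s0 w}
  have hK1N : ∀ z ∈ K1, ∀ n, G.Adj z n → n ∈ K ∧ G.Adj s0 n := by
    rintro z ⟨hzK, hz⟩ n hn
    have hnK : n ∈ K := by
      rcases trichotomy G D n with h | h | h
      · exact absurd hn ((C.hKF hzK).2 n h)
      · exact absurd ((hcol n h z hzK).mp hn.symm) hz
      · by_contra hnK
        exact C.hKsep n h hnK z hzK hn.symm
    refine ⟨hnK, ?_⟩
    have := hone z hzK n hnK hn
    tauto
  obtain ⟨e, he, e', he', hee⟩ := C.hedge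
  have hK1ne : K1.Nonempty := by
    by_cases h : G.Adj s0 e
    · exact ⟨e', he', (hone e he e' he' hee).mp h⟩
    · exact ⟨e, he, h⟩
  obtain ⟨z, hz, hmin⟩ := Set.exists_min_image K1 (fun v => (G.neighborSet v).ncard)
    (Set.toFinite _) hK1ne
  by_cases htw : ∃ z' ∈ K1, z' ≠ z ∧ G.neighborSet z' ⊆ G.neighborSet z
  · exfalso
    obtain ⟨z', hz', hne, hsub⟩ := htw
    have heq : G.neighborSet z' = G.neighborSet z :=
      Set.eq_of_subset_of_ncard_le hsub (hmin z' hz') (Set.toFinite _)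
    have hadj : ∀ x, G.Adj z x → G.Adj z' x := by
      intro x hx
      have : x ∈ G.neighborSet z := hx
      rw [← heq] at this
      exact this
    obtain ⟨a, b, hab, hza, hzb⟩ := exists_two_nbrs G h3 h2 z
    by_cases hc : ∃ c, G.Adj z c ∧ c ≠ a ∧ c ≠ b
    · obtain ⟨c, hzc, hca, hcb⟩ := hc
      obtain ⟨d0, hd0, hs0d⟩ := hs0.2
      obtain ⟨dt, hdt, htd⟩ := ht.2
      have hD' : (G.induce (insert s0 D)).Connected := connected_insert G D s0 d0 hd0 hs0d C.hD
      have x1 : ∀ n, G.Adj z n → ∃ u ∈ insert s0 D, G.Adj n u := fun n hn =>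
        ⟨s0, Or.inl rfl, (hK1N z hz n hn).2.symm⟩
      have x2 : ∀ n, G.Adj z n → ∃ u ∈ ({t} : Set V), G.Adj n u := fun n hn =>
        ⟨t, rfl, ((hcol t ht n (hK1N z hz n hn).1).mpr (hK1N z hz n hn).2).symm⟩
      have x3 : ∀ n ∈ K, n ∉ insert s0 D := by
        rintro n hn (h | h)
        · exact hbdK s0 hs0 (h ▸ hn)
        · exact (C.hKF hn).1 h
      have x4 : ∀ n ∈ K, n ∉ ({t} : Set V) := by
        intro n hn h
        rw [mem_singleton_iff] at h
        exact hbdK t ht (h ▸ hn)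
      refine h5.config a b c z z' (insert s0 D) {t} hD' (connected_singleton G t) ?_
        ⟨dt, Or.inr hdt, t, rfl, htd.symm⟩
        hab hca.symm hcb.symm hne.symm hza hzb hzc (hadj a hza) (hadj b hzb) (hadj c hzc)
        (x1 a hza) (x1 b hzb) (x1 c hzc) (x2 a hza) (x2 b hzb) (x2 c hzc)
        (x3 a (hK1N z hz a hza).1) (x3 b (hK1N z hz b hzb).1) (x3 c (hK1N z hz c hzc).1)
        (x3 z hz.1) (x3 z' hz'.1)
        (x4 a (hK1N z hz a hza).1) (x4 b (hK1N z hz b hzb).1) (x4 c (hK1N z hz c hzc).1)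
        (x4 z hz.1) (x4 z' hz'.1)
      rw [Set.disjoint_left]
      rintro x (h | h) h'
      · rw [mem_singleton_iff] at h'
        exact hst (h'.symm.trans h)
      · rw [mem_singleton_iff] at h'
        exact ht.1 (h' ▸ h)
    · push Not at hc
      have hN : G.neighborSet z = {a, b} := by
        ext x
        simp only [SimpleGraph.mem_neighborSet, mem_insert_iff, mem_singleton_iff]
        constructor
        · intro hx
          by_cases h : x = a
          · exact Or.inl h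
          · exact Or.inr (hc x hx h)
        · rintro (h | h)
          · rw [h]; exact hza
          · rw [h]; exact hzb
      have hk2 := hNT z z' s0 a b hne.symm hab hN (heq.trans hN) (hK1N z hz a hza).2
        (hK1N z hz b hzb).2
      obtain ⟨d0, hd0, hs0d⟩ := hs0.2
      have : d0 ∈ G.neighborSet s0 := hs0d
      rw [hk2] at this
      rcases this with h | h
      · exact (C.hKF (hK1N z hz a hza).1).1 (h ▸ hd0)
      · exact (C.hKF (hK1N z hz b hzb).1).1 (h ▸ hd0)
  · push Not at htw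
    refine ⟨_, good_star G h3 hG h2 z ?_⟩
    set Z : Set V := {x : V | x ≠ z ∧ ¬ G.Adj z x} with hZdef
    have hzadj : ∀ x, x ∉ K → x ∈ Z := by
      intro x hx
      refine ⟨fun h => hx (h ▸ hz.1), fun h => hx (hK1N z hz x h).1⟩
    have hDZ : D ⊆ Z := fun d hd => hzadj d (fun h => (C.hKF h).1 hd)
    have hs0Z : s0 ∈ Z := hzadj s0 (hbdK s0 hs0)
    obtain ⟨d0, hd0, hs0d⟩ := hs0.2
    have l0 : Linked G Z s0 s0 := Linked.refl G hs0Z
    have lD : ∀ d ∈ D, Linked G Z s0 d := fun d hd =>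
      (l0.step (hDZ hd0) hs0d).trans (linked_of_subset hDZ C.hD hd0 hd)
    have lS : ∀ s ∈ bd G D, Linked G Z s0 s := by
      rintro s hs
      obtain ⟨d, hd, hsd⟩ := hs.2
      exact (lD d hd).step' (hzadj s (hbdK s hs)) hsd
    refine connected_of_linked hs0Z ?_
    intro w hw
    rcases trichotomy G D w with h | h | h
    · exact lD w h
    · exact lS w h
    · by_cases hwK : w ∈ K
      · by_cases hw0 : G.Adj s0 w
        · exact l0.step hw hw0
        · obtain ⟨n, hwn, hzn⟩ : ∃ n, G.Adj w n ∧ ¬ G.Adj z n := by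
            by_contra hcon
            push Not at hcon
            exact htw w ⟨hwK, hw0⟩ hw.1 (fun n hn => hcon n hn)
          have hn := hK1N w ⟨hwK, hw0⟩ n hwn
          have hnZ : n ∈ Z := ⟨fun hh => hz.2 (hh ▸ hn.2), hzn⟩
          exact (l0.step hnZ hn.2).step' hw hwn
      · by_cases hi : ∀ x ∈ far G D, ¬ G.Adj w x
        · obtain ⟨n, -, -, hn, -⟩ := exists_two_nbrs G h3 h2 w
          exact (lS n (hisobd w h hi n hn)).step' hw hn
        · push Not at hi
          obtain ⟨x, hx, hwx⟩ := hi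
          have hxK : x ∉ K := fun hh => C.hKsep w h hwK x hh hwx
          exact C.link_far s0 s0 w x hs0 l0 h hx hwx hw (hzadj x hxK)

end Pool.Agent.Helper73.Bond
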