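import Pool.Agent.Helper73.BondMain

/-!
# Contractible bonds in `K₅`-minor-free graphs without tight pairs of degree-two twins

Q1 holds for every graph in which any two vertices of degree two with the same two neighbours `a`,
`b` force every common neighbour of `a` and `b` to have degree two; in particular for every graph of
minimum degree at least three.
-/

namespace Pool.Agent.Results.MP_728309_co.NoTightTwins

open Set Pool.Agent.Helper73.Bond

theorem main (V : Type) [Fintype V] (G : SimpleGraph V) (h3 : 3 ≤ Fintype.card V)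
    (hG : G.Connected) (h2 : ∀ v : V, (G.induce {w : V | w ≠ v}).Connected)
    (hT : G.CliqueFree 3) (h5 : NoK5 G) (hNT : NoTight G) : ∃ H, Good G H := by
  classical
  have hfree : ∀ a b c : V, G.Adj a b → G.Adj a c → G.Adj b c → False := by
    intro a b c hab hac hbc
    exact hT {a, b, c} (SimpleGraph.is3Clique_triple_iff.mpr ⟨hab, hac, hbc⟩)
  by_cases hdom : ∀ u v d : V, G.Adj u v → d = u ∨ d = v ∨ G.Adj d u ∨ G.Adj d v
  · exact good_of_dominating G h3 hG h2 hfree hdom
  push Not at hdom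
  obtain ⟨u0, v0, d0, huv0, hdu, hdv, hndu, hndv⟩ := hdom
  -- choose `D` maximal
  let P : Set (Set V) := {D | (G.induce D).Connected ∧
    ∃ u v, G.Adj u v ∧ u ∈ far G D ∧ v ∈ far G D}
  obtain ⟨D, ⟨hDc, u1, v1, huv1, hu1, hv1⟩, hmax⟩ := Set.exists_max_image P (fun D => D.ncard)
    (Set.toFinite _) ⟨{d0}, connected_singleton G d0, u0, v0, huv0,
      ⟨fun h => hdu (mem_singleton_iff.mp h).symm, by
        intro d hd
        rw [mem_singleton_iff] at hd
        rw [hd]
        exact fun h => hndu h.symm⟩,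
      ⟨fun h => hdv (mem_singleton_iff.mp h).symm, by
        intro d hd
        rw [mem_singleton_iff] at hd
        rw [hd]
        exact fun h => hndv h.symm⟩⟩
  have hcover : ∀ s ∈ bd G D, ∀ w ∈ far G D, ∀ w' ∈ far G D, G.Adj w w' →
      G.Adj s w ∨ G.Adj s w' := by
    rintro s ⟨hsD, d, hd, hsd⟩ w hw w' hw' hww
    by_contra hcon
    push Not at hcon
    have hfar : ∀ x ∈ far G D, ¬ G.Adj s x → x ∈ far G (insert s D) := by
      intro x hx hsx
      refine ⟨?_, ?_⟩
      · rintro (h | h)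
        · exact hx.2 d hd (h ▸ hsd)
        · exact hx.1 h
      · rintro y (h | h)
        · rw [h]
          exact fun hh => hsx hh.symm
        · exact hx.2 y h
    have hmem : insert s D ∈ P := ⟨connected_insert G D s d hd hsd hDc, w, w', hww,
      hfar w hw hcon.1, hfar w' hw' hcon.2⟩
    have this : (insert s D).ncard ≤ D.ncard := hmax _ hmem
    rw [Set.ncard_insert_of_notMem hsD (Set.toFinite _)] at this
    omega
  -- choose `K`
  let R : Set (Set V) := {K | (G.induce K).Connected ∧ K ⊆ far G D ∧ u1 ∈ K ∧ v1 ∈ K}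
  obtain ⟨K, ⟨hKc, hKF, hu1K, hv1K⟩, hmaxK⟩ := Set.exists_max_image R (fun K => K.ncard)
    (Set.toFinite _) ⟨{u1, v1}, connected_pair G u1 v1 huv1, by
      rintro x (h | h)
      · rw [h]; exact hu1
      · rw [mem_singleton_iff] at h
        rw [h]; exact hv1, by simp, by simp⟩
  have hKsep : ∀ w ∈ far G D, w ∉ K → ∀ k ∈ K, ¬ G.Adj w k := by
    intro w hw hwK k hk hwk
    have hmem : insert w K ∈ R := by
      refine ⟨connected_insert G K w k hk hwk hKc, ?_, Or.inr hu1K, Or.inr hv1K⟩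
      rintro x (h | h)
      · rw [h]; exact hw
      · exact hKF h
    have this : (insert w K).ncard ≤ K.ncard := hmaxK _ hmem
    rw [Set.ncard_insert_of_notMem hwK (Set.toFinite _)] at this
    omega
  have C : Config G D K := ⟨hDc, hKc, hKF, hKsep, hcover, ⟨u1, hu1K, v1, hv1K, huv1⟩⟩
  -- two boundary vertices
  obtain ⟨⟨d1, hd1⟩⟩ := hDc.nonempty
  obtain ⟨x, hx, s0, hs0, hxs0⟩ := exists_boundary G hG.preconnected D d1 u1 hd1 hu1.1
  have hs0bd : s0 ∈ bd G D := ⟨hs0, x, hx, hxs0.symm⟩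
  have hd1s0 : d1 ≠ s0 := fun h => hs0 (h ▸ hd1)
  have hu1s0 : u1 ≠ s0 := fun h => not_bd_of_far hu1 (h ▸ hs0bd)
  obtain ⟨x', hx'Z, hx', t, htZ, ht, hxt⟩ := exists_boundary_induce G {w : V | w ≠ s0} D (h2 s0)
    d1 u1 hd1s0 hd1 hu1s0 hu1.1
  have htbd : t ∈ bd G D := ⟨ht, x', hx', hxt.symm⟩
  have hts0 : t ≠ s0 := htZ
  -- the two colour classes
  have hone : ∀ s ∈ bd G D, ∀ w ∈ K, ∀ w' ∈ K, G.Adj w w' → (G.Adj s w ↔ ¬ G.Adj s w') := by
    intro s hs w hw w' hw' hww
    constructor
    · intro h h'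
      exact hfree s w w' h h' hww
    · intro h
      rcases hcover s hs w (hKF hw) w' (hKF hw') hww with h' | h'
      · exact h'
      · exact absurd h' h
  have hcol : ∀ s ∈ bd G D, (∀ w ∈ K, G.Adj s w ↔ G.Adj s0 w) ∨
      (∀ w ∈ K, G.Adj s w ↔ ¬ G.Adj s0 w) := by
    intro s hs
    by_cases hagree : G.Adj s u1 ↔ G.Adj s0 u1
    · left
      by_contra hcon
      push Not at hcon
      obtain ⟨w, hw, hne⟩ := hcon
      obtain ⟨a, ha, haT, b, hb, hbT, hab⟩ := exists_boundary_induce G K
        {w | G.Adj s w ↔ G.Adj s0 w} hKc u1 w hu1K hagree hw (by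
          intro h
          have h' : G.Adj s w ↔ G.Adj s0 w := h
          tauto)
      have e1 := hone s hs a ha b hb hab
      have e2 := hone s0 hs0bd a ha b hb hab
      have e3 : G.Adj s a ↔ G.Adj s0 a := haT
      have e4 : ¬ (G.Adj s b ↔ G.Adj s0 b) := hbT
      tauto
    · right
      by_contra hcon
      push Not at hcon
      obtain ⟨w, hw, hne⟩ := hcon
      obtain ⟨a, ha, haT, b, hb, hbT, hab⟩ := exists_boundary_induce G K
        {w | ¬ (G.Adj s w ↔ G.Adj s0 w)} hKc u1 w hu1K hagree hw (by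
          intro h
          have h' : ¬ (G.Adj s w ↔ G.Adj s0 w) := h
          tauto)
      have e1 := hone s hs a ha b hb hab
      have e2 := hone s0 hs0bd a ha b hb hab
      have e3 : ¬ (G.Adj s a ↔ G.Adj s0 a) := haT
      have e4 : ¬ ¬ (G.Adj s b ↔ G.Adj s0 b) := hbT
      tauto
  by_cases htwo : ∃ s1 ∈ bd G D, ∀ w ∈ K, G.Adj s1 w ↔ ¬ G.Adj s0 w
  · obtain ⟨s1, hs1, hs⟩ := htwo
    refine C.good_two_colours h3 hG h2 hfree h5 hNT s0 s1 hs0bd hs1 hs ?_
    intro s hsb
    rcases hcol s hsb with h | h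
    · exact Or.inl h
    · right
      intro w hw
      rw [h w hw, hs w hw]
  · push Not at htwo
    refine C.good_one_colour h3 hG h2 hfree h5 hNT s0 t hs0bd htbd hts0 ?_
    intro s hsb
    rcases hcol s hsb with h | h
    · exact h
    · obtain ⟨w, hw, hne⟩ := htwo s hsb
      exfalso
      have := h w hw
      tauto

/-- **Q1 without tight twins of degree two.** The statement of `S09463`, under the additional
hypothesis that whenever two distinct vertices `u`, `u'` have the same neighbourhood `{a, b}`, with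
`a ≠ b`, every common neighbour `w` of `a` and `b` also has neighbourhood `{a, b}`. -/
theorem result :
    ∀ (V : Type) [Fintype V] (G : SimpleGraph V),
      3 ≤ Fintype.card V → G.Connected →
      (∀ v : V, (G.induce {w : V | w ≠ v}).Connected) →
      G.CliqueFree 3 →
      (¬ ∃ f : Fin 5 → Set V, (∀ i, (G.induce (f i)).Connected) ∧
          (∀ i j, i ≠ j → Disjoint (f i) (f j)) ∧
          (∀ i j, i ≠ j → ∃ u ∈ f i, ∃ v ∈ f j, G.Adj u v)) →
      (∀ u u' w a b : V, u ≠ u' → a ≠ b → G.neighborSet u = {a, b} → G.neighborSet u' = {a, b} →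
          G.Adj w a → G.Adj w b → G.neighborSet w = {a, b}) →
      ∃ H : SimpleGraph V, H ≤ G ∧ H ≠ ⊥ ∧ ¬ (G \ H).Connected ∧
        (∀ K : SimpleGraph V, K ≤ H → K ≠ ⊥ → ¬ (G \ K).Connected → K = H) ∧
        (∃ u v : V, ¬ H.Reachable u v) ∧
        (∃ a b c d : V, G.Adj a b ∧ G.Adj c d ∧
            ¬ H.Reachable a b ∧ ¬ H.Reachable c d ∧
            ¬ (a = c ∧ b = d) ∧ ¬ (a = d ∧ b = c)) ∧
        (∀ v : V, (G.induce {w : V | ¬ H.Reachable v w}).Connected) :=
  fun V _ G h3 hG h2 hT h5 hNT => main V G h3 hG h2 hT h5 hNT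

end Pool.Agent.Results.MP_728309_co.NoTightTwins
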