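import Mathlib
import Pool.Agent.Helper73.PsdRankOne

/-!
# Homogenised polytopes: duality and faces

`Cfg v h n`: the vectors `v` are the vertices and the functionals `h` the facets of a pointed cone of
dimension `n`. The class is closed under duality and under taking faces.
-/

namespace Pool.Agent.Helper73.Psd

open Finset Matrix

set_option linter.unusedSectionVars false
set_option maxHeartbeats 400000

section

variable {ι κ E : Type} [Fintype ι] [DecidableEq ι] [AddCommGroup E] [Module ℝ E]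
  [FiniteDimensional ℝ E]

/-- `v` are the vertices and `h` the facets of a homogenised polytope of rank `n`. -/
structure Cfg (v : ι → E) (h : κ → Module.Dual ℝ E) (n : ℕ) : Prop where
  dim : Module.finrank ℝ E = n
  rank : rk v univ = n
  pos : ∃ g0 : Module.Dual ℝ E, ∀ i, 0 < g0 (v i)
  vert : ∀ i, IsFace v {i}
  nonneg : ∀ k i, 0 ≤ h k (v i)
  fac : ∀ k, rk v (zs v (h k) univ) + 1 = n
  facet : ∀ g : Module.Dual ℝ E, (∀ i, 0 ≤ g (v i)) → rk v (zs v g univ) + 1 = n →
    ∃ k, zs v (h k) univ = zs v g univ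
  inj : ∀ k l, zs v (h k) univ = zs v (h l) univ → k = l

theorem zs_eq_of_subset (v : ι → E) (g1 g2 : Module.Dual ℝ E) (S : Finset ι)
    (hsub : zs v g1 S ⊆ zs v g2 S) (hrk : rk v (zs v g2 S) ≤ rk v (zs v g1 S)) :
    zs v g1 S = zs v g2 S := by
  apply Finset.Subset.antisymm hsub
  have heq : Submodule.span ℝ (v '' (zs v g1 S : Set ι)) =
      Submodule.span ℝ (v '' (zs v g2 S : Set ι)) :=
    Submodule.eq_of_le_of_finrank_le
      (Submodule.span_mono (Set.image_mono (Finset.coe_subset.2 hsub))) hrk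
  intro i hi
  have h1 : v i ∈ Submodule.span ℝ (v '' (zs v g2 S : Set ι)) :=
    Submodule.subset_span ⟨i, hi, rfl⟩
  rw [← heq] at h1
  exact mem_zs.2 ⟨(mem_zs.1 hi).1, zs_le_ker v g1 S h1⟩

namespace Cfg

variable {v : ι → E} {h : κ → Module.Dual ℝ E} {n : ℕ}

theorem avoid (C : Cfg v h n) {T : Finset ι} (hT : IsFace v T) {w : ι} (hw : w ∉ T) :
    ∃ k, T ⊆ zs v (h k) univ ∧ h k (v w) ≠ 0 := by
  obtain ⟨g, hg, rfl⟩ := hT
  have hgw : 0 < g (v w) := by
    refine lt_of_le_of_ne (hg w) fun heq => hw ?_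
    exact mem_zs.2 ⟨Finset.mem_univ _, heq.symm⟩
  obtain ⟨h', h1', h2', h3', h4'⟩ := exists_facet_avoiding v univ w (Finset.mem_univ _) _ g
    (fun i _ => hg i) hgw rfl
  obtain ⟨k, hk'⟩ := C.facet h' (fun i => h1' i (Finset.mem_univ _)) (h4'.trans C.rank)
  refine ⟨k, by rw [hk']; exact h2', fun hcon => ?_⟩
  have h5 : w ∈ zs v (h k) univ := mem_zs.2 ⟨Finset.mem_univ _, hcon⟩
  rw [hk'] at h5
  exact h3'.ne' (mem_zs.1 h5).2

theorem face_empty (C : Cfg v h n) : IsFace v ∅ := by
  obtain ⟨g0, hg0⟩ := C.pos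
  refine ⟨g0, fun i => (hg0 i).le, ?_⟩
  ext i
  simp [mem_zs, (hg0 i).ne']

theorem exists_ne (C : Cfg v h n) (i : ι) : ∃ k, h k (v i) ≠ 0 := by
  obtain ⟨k, -, hk'⟩ := C.avoid C.face_empty (Finset.notMem_empty i)
  exact ⟨k, hk'⟩

theorem exists_ne' (C : Cfg v h n) (k : κ) : ∃ i, h k (v i) ≠ 0 := by
  by_contra hcon
  push Not at hcon
  have h1 : zs v (h k) univ = univ := by
    ext i
    simp [mem_zs, hcon]
  have h2 := C.fac k
  rw [h1, C.rank] at h2
  omega

theorem facet_face (C : Cfg v h n) (k : κ) : IsFace v (zs v (h k) univ) :=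
  ⟨h k, C.nonneg k, rfl⟩

/-- Distinct facets: some vertex of the first is not on the second. -/
theorem exists_mem_not_mem (C : Cfg v h n) {k l : κ} (hkl : k ≠ l) :
    ∃ i, h k (v i) = 0 ∧ 0 < h l (v i) := by
  by_contra hcon
  push Not at hcon
  apply hkl
  apply C.inj
  refine zs_eq_of_subset v (h k) (h l) univ ?_ ?_
  · intro i hi
    have h1 := hcon i (mem_zs.1 hi).2
    exact mem_zs.2 ⟨Finset.mem_univ _, le_antisymm h1 (C.nonneg l i)⟩
  · have h1 := C.fac k
    have h2 := C.fac l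
    omega

theorem rk_inter (C : Cfg v h n) {k l : κ} (hkl : k ≠ l) :
    IsFace v (zs v (h l) (zs v (h k) univ)) ∧ rk v (zs v (h l) (zs v (h k) univ)) + 2 ≤ n := by
  refine ⟨(C.facet_face k).trans (h l) fun i _ => C.nonneg l i, ?_⟩
  obtain ⟨w, hw1, hw2⟩ := C.exists_mem_not_mem hkl
  have h1 := rk_zs_lt v (h l) (zs v (h k) univ) w (mem_zs.2 ⟨Finset.mem_univ _, hw1⟩) hw2
  have h2 := C.fac k
  omega

theorem span_eq_top (C : Cfg v h n) : Submodule.span ℝ (Set.range v) = ⊤ := by
  apply Submodule.eq_top_of_finrank_eq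
  have h1 := C.rank
  rw [rk, Finset.coe_univ, Set.image_univ] at h1
  rw [h1, C.dim]

/-- A vector on which all facet functionals are nonnegative is in the bidual cone. -/
theorem nonneg_of (C : Cfg v h n) (u : E) (hu : ∀ k, 0 ≤ h k u) :
    ∀ (m : ℕ) (g : Module.Dual ℝ E), (∀ i, 0 ≤ g (v i)) →
      Fintype.card ι - (zs v g univ).card = m → 0 ≤ g u := by
  classical
  intro m
  induction m using Nat.strong_induction_on with
  | _ m ih =>
  intro g hg hm
  by_cases hall : ∀ i, g (v i) = 0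
  · have h1 : g = 0 := by
      apply LinearMap.ext_on_range C.span_eq_top
      intro i
      rw [hall i]; rfl
    rw [h1]
    exact le_refl _
  push Not at hall
  obtain ⟨w, hw⟩ := hall
  have hwz : w ∉ zs v g univ := fun hcon => hw (mem_zs.1 hcon).2
  obtain ⟨k, hk1, hk2⟩ := C.avoid ⟨g, hg, rfl⟩ hwz
  have hkw : 0 < h k (v w) := lt_of_le_of_ne (C.nonneg k w) (Ne.symm hk2)
  obtain ⟨i0, hi0, hmin⟩ := Finset.exists_min_image (univ.filter fun i => 0 < h k (v i))
    (fun i => g (v i) / h k (v i)) ⟨w, Finset.mem_filter.2 ⟨Finset.mem_univ _, hkw⟩⟩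
  rw [Finset.mem_filter] at hi0
  let s : ℝ := g (v i0) / h k (v i0)
  have hs0 : 0 ≤ s := div_nonneg (hg i0) hi0.2.le
  let g' : Module.Dual ℝ E := g - s • h k
  have hg' : ∀ x, g' x = g x - s * h k x := fun x => by simp [g']
  have hnonneg : ∀ i, 0 ≤ g' (v i) := by
    intro i
    rw [hg']
    by_cases hgi : 0 < h k (v i)
    · have h2 := hmin i (Finset.mem_filter.2 ⟨Finset.mem_univ _, hgi⟩)
      have h3 : s * h k (v i) ≤ g (v i) := by
        rw [← le_div_iff₀ hgi]
        exact h2
      linarith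
    · have h2 : h k (v i) = 0 := le_antisymm (not_lt.1 hgi) (C.nonneg k i)
      rw [h2, mul_zero, sub_zero]
      exact hg i
  have hsub : zs v g univ ⊆ zs v g' univ := by
    intro i hi
    have h1 := (mem_zs.1 (hk1 hi)).2
    rw [mem_zs]
    refine ⟨Finset.mem_univ _, ?_⟩
    rw [hg', h1, (mem_zs.1 hi).2]
    ring
  have hi0z : i0 ∈ zs v g' univ := by
    rw [mem_zs]
    refine ⟨Finset.mem_univ _, ?_⟩
    rw [hg']
    show g (v i0) - g (v i0) / h k (v i0) * h k (v i0) = 0
    rw [div_mul_cancel₀ _ hi0.2.ne', sub_self]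
  have hi0n : i0 ∉ zs v g univ := by
    intro hcon
    have := (mem_zs.1 (hk1 hcon)).2
    exact hi0.2.ne' this
  have hssub : zs v g univ ⊂ zs v g' univ :=
    Finset.ssubset_iff_subset_ne.2 ⟨hsub, fun heq => hi0n (heq ▸ hi0z)⟩
  have hcard := Finset.card_lt_card hssub
  have hcard2 := Finset.card_le_univ (zs v g' univ)
  have h1 := ih (Fintype.card ι - (zs v g' univ).card) (by omega) g' hnonneg rfl
  rw [hg'] at h1
  have h2 := mul_nonneg hs0 (hu k)
  linarith

/-- The dual configuration. -/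
theorem dual [Fintype κ] [DecidableEq κ] (C : Cfg v h n) :
    Cfg h (fun i => Module.Dual.eval ℝ E (v i)) n := by
  classical
  have hev : ∀ u (f : Module.Dual ℝ E), Module.Dual.eval ℝ E u f = f u := fun u f => rfl
  have hrk0 : rk v (∅ : Finset ι) = 0 := by
    rw [rk, Finset.coe_empty, Set.image_empty, Submodule.span_empty, finrank_bot]
  have hdim : Module.finrank ℝ (Module.Dual ℝ E) = n := by
    rw [Subspace.dual_finrank_eq, C.dim]
  have hfacet' : ∀ g : Module.Dual ℝ E, (∀ i, 0 ≤ g (v i)) →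
      rk v (zs v g univ) + 1 = rk v univ → ∃ k, zs v (h k) univ = zs v g univ := by
    intro g hg hr
    exact C.facet g hg (hr.trans C.rank)
  have hrank : rk h univ = n := by
    apply le_antisymm
    · rw [← hdim]
      exact Submodule.finrank_le _
    · have h1 := rk_add_finrank_ge v h hfacet' (fun k => Submodule.span ℝ {h k})
        (fun i => LinearMap.ker (Module.Dual.eval ℝ E (v i))) (fun i k => by
          rw [Submodule.span_singleton_le_iff_mem, LinearMap.mem_ker, hev]) _ ∅ rfl C.face_empty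
      have h2 : (⨆ k ∈ {k | (∅ : Finset ι) ⊆ zs v (h k) univ}, Submodule.span ℝ {h k}) ≤
          Submodule.span ℝ (h '' ((univ : Finset κ) : Set κ)) := by
        refine iSup₂_le fun k _ => ?_
        rw [Submodule.span_singleton_le_iff_mem]
        exact Submodule.subset_span ⟨k, Finset.mem_coe.2 (Finset.mem_univ _), rfl⟩
      have h3 := Submodule.finrank_mono h2
      have h4 : rk h univ = Module.finrank ℝ
        (Submodule.span ℝ (h '' ((univ : Finset κ) : Set κ))) := rfl
      have h5 := C.rank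
      omega
  have hfac : ∀ i, rk h (zs h (Module.Dual.eval ℝ E (v i)) univ) + 1 = n := by
    intro i
    have h1 := rk_add_finrank_ge v h hfacet' (fun k => Submodule.span ℝ {h k})
      (fun i => LinearMap.ker (Module.Dual.eval ℝ E (v i))) (fun i k => by
        rw [Submodule.span_singleton_le_iff_mem, LinearMap.mem_ker, hev]) _ {i} rfl (C.vert i)
    have h2 : (⨆ k ∈ {k | ({i} : Finset ι) ⊆ zs v (h k) univ}, Submodule.span ℝ {h k}) ≤
        Submodule.span ℝ (h '' (zs h (Module.Dual.eval ℝ E (v i)) univ : Set κ)) := by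
      refine iSup₂_le fun k hk' => ?_
      rw [Submodule.span_singleton_le_iff_mem]
      refine Submodule.subset_span ⟨k, ?_, rfl⟩
      rw [Finset.mem_coe, mem_zs]
      exact ⟨Finset.mem_univ _, (mem_zs.1 (Finset.singleton_subset_iff.1 hk')).2⟩
    have h3 := Submodule.finrank_mono h2
    have h4 : rk v ({i} : Finset ι) ≤ 1 := by
      have h5 := rk_insert_le v ∅ i
      rw [hrk0] at h5
      simpa using h5
    obtain ⟨k, hki⟩ := C.exists_ne i
    have h5 : rk h (zs h (Module.Dual.eval ℝ E (v i)) univ) < rk h univ := by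
      refine Submodule.finrank_lt_finrank_of_lt ?_
      refine lt_of_le_of_ne (Submodule.span_mono (Set.image_mono
        (Finset.coe_subset.2 (Finset.subset_univ _)))) ?_
      intro heq
      have h6 : h k ∈ Submodule.span ℝ (h '' ((univ : Finset κ) : Set κ)) :=
        Submodule.subset_span ⟨k, Finset.mem_coe.2 (Finset.mem_univ _), rfl⟩
      rw [← heq] at h6
      exact hki (zs_le_ker h (Module.Dual.eval ℝ E (v i)) univ h6)
    have h6 : rk h (zs h (Module.Dual.eval ℝ E (v i)) univ) = Module.finrank ℝ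
      (Submodule.span ℝ (h '' (zs h (Module.Dual.eval ℝ E (v i)) univ : Set κ))) := rfl
    have h7 := C.rank
    omega
  refine ⟨hdim, hrank, ?_, ?_, ?_, hfac, ?_, ?_⟩
  · refine ⟨Module.Dual.eval ℝ E (∑ i, v i), fun k => ?_⟩
    rw [hev, map_sum]
    obtain ⟨i, hi⟩ := C.exists_ne' k
    exact Finset.sum_pos' (fun j _ => C.nonneg k j)
      ⟨i, Finset.mem_univ _, lt_of_le_of_ne (C.nonneg k i) (Ne.symm hi)⟩
  · intro k
    refine ⟨Module.Dual.eval ℝ E (∑ i ∈ zs v (h k) univ, v i), fun l => ?_, ?_⟩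
    · rw [hev, map_sum]
      exact Finset.sum_nonneg fun j _ => C.nonneg l j
    · ext l
      rw [Finset.mem_singleton, mem_zs, hev, map_sum]
      constructor
      · rintro rfl
        exact ⟨Finset.mem_univ _, Finset.sum_eq_zero fun j hj => (mem_zs.1 hj).2⟩
      · rintro ⟨_, h1⟩
        by_contra hlk
        obtain ⟨i, hi1, hi2⟩ := C.exists_mem_not_mem (Ne.symm hlk)
        have h2 := (Finset.sum_eq_zero_iff_of_nonneg fun j _ => C.nonneg l j).1 h1 i
          (mem_zs.2 ⟨Finset.mem_univ _, hi1⟩)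
        exact hi2.ne' h2
  · intro i k
    exact C.nonneg k i
  · intro g hg hr
    obtain ⟨u, hu⟩ : ∃ u : E, ∀ f, g f = f u := by
      refine ⟨(Module.evalEquiv ℝ E).symm g, fun f => ?_⟩
      have h1 : (Module.evalEquiv ℝ E) ((Module.evalEquiv ℝ E).symm g) = g :=
        LinearEquiv.apply_symm_apply _ _
      conv_lhs => rw [← h1]
      rfl
    have hall : ∃ i, ∀ k ∈ zs h g univ, h k (v i) = 0 := by
      by_contra hcon
      push Not at hcon
      have hg0pos : ∀ i, 0 < (∑ k ∈ zs h g univ, h k) (v i) := by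
        intro i
        obtain ⟨k, hk, hki⟩ := hcon i
        rw [LinearMap.sum_apply]
        exact Finset.sum_pos' (fun l _ => C.nonneg l i)
          ⟨k, hk, lt_of_le_of_ne (C.nonneg k i) (Ne.symm hki)⟩
      have hg0u : (∑ k ∈ zs h g univ, h k) u = 0 := by
        rw [LinearMap.sum_apply]
        refine Finset.sum_eq_zero fun k hk => ?_
        rw [← hu]
        exact (mem_zs.1 hk).2
      have hnn : ∀ f : Module.Dual ℝ E, 0 ≤ f u := by
        intro f
        let N : ℝ := ∑ i, |f (v i)| / (∑ k ∈ zs h g univ, h k) (v i)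
        have hN : ∀ i, 0 ≤ (f + N • (∑ k ∈ zs h g univ, h k)) (v i) := by
          intro i
          have h1 : |f (v i)| / (∑ k ∈ zs h g univ, h k) (v i) ≤ N :=
            Finset.single_le_sum (f := fun i => |f (v i)| / (∑ k ∈ zs h g univ, h k) (v i))
              (fun j _ => div_nonneg (abs_nonneg _) (hg0pos j).le) (Finset.mem_univ i)
          rw [div_le_iff₀ (hg0pos i)] at h1
          rw [LinearMap.add_apply, LinearMap.smul_apply, smul_eq_mul]
          have h2 := neg_abs_le (f (v i))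
          linarith
        have h1 := C.nonneg_of u (fun k => by rw [← hu]; exact hg k) _
          (f + N • (∑ k ∈ zs h g univ, h k)) hN rfl
        rw [LinearMap.add_apply, LinearMap.smul_apply, smul_eq_mul, hg0u, mul_zero, add_zero] at h1
        exact h1
      have hz : ∀ k, g (h k) = 0 := by
        intro k
        have h1 := hnn (h k)
        have h2 := hnn (-(h k))
        rw [LinearMap.neg_apply] at h2
        rw [hu]
        linarith
      have h1 : zs h g univ = univ := by
        ext k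
        simp [mem_zs, hz]
      rw [h1, hrank] at hr
      omega
    obtain ⟨i, hi⟩ := hall
    refine ⟨i, ?_⟩
    symm
    refine zs_eq_of_subset h g (Module.Dual.eval ℝ E (v i)) univ ?_ ?_
    · intro k hk
      exact mem_zs.2 ⟨Finset.mem_univ _, hi k hk⟩
    · have h1 := hfac i
      omega
  · intro i j hij
    by_contra hne
    obtain ⟨k, hk1, hk2⟩ := C.avoid (C.vert i) (w := j) (by
      rw [Finset.mem_singleton]
      exact fun hcon => hne hcon.symm)
    have h1 : k ∈ zs h (Module.Dual.eval ℝ E (v i)) univ :=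
      mem_zs.2 ⟨Finset.mem_univ _, (mem_zs.1 (hk1 (Finset.mem_singleton_self i))).2⟩
    rw [hij] at h1
    exact hk2 (mem_zs.1 h1).2

end Cfg

end

section faces

variable {ι κ E : Type} [Fintype ι] [DecidableEq ι] [AddCommGroup E] [Module ℝ E]
  [FiniteDimensional ℝ E]

/-- The vertices of a face in the span of the face. -/
def fv (v : ι → E) (T : Finset ι) : ↥T → ↥(Submodule.span ℝ (v '' (T : Set ι))) :=
  fun i => ⟨v i, Submodule.subset_span ⟨i, i.2, rfl⟩⟩

theorem rk_fv (v : ι → E) (T : Finset ι) (S : Finset ↥T) :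
    rk (fv v T) S = rk v (S.map (Function.Embedding.subtype _)) := by
  have h1 : (Submodule.span ℝ (v '' (T : Set ι))).subtype '' (fv v T '' (S : Set ↥T)) =
      v '' ((S.map (Function.Embedding.subtype _) : Finset ι) : Set ι) := by
    ext x
    constructor
    · rintro ⟨_, ⟨i, hi, rfl⟩, rfl⟩
      exact ⟨i, Finset.mem_coe.2 (Finset.mem_map.2 ⟨i, hi, rfl⟩), rfl⟩
    · rintro ⟨_, hj, rfl⟩
      obtain ⟨i, hi, rfl⟩ := Finset.mem_map.1 (Finset.mem_coe.1 hj)
      exact ⟨_, ⟨i, hi, rfl⟩, rfl⟩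
  rw [rk, rk, ← Submodule.finrank_map_subtype_eq, Submodule.map_span, h1]

theorem zs_fv (v : ι → E) (T : Finset ι) (g : Module.Dual ℝ E) :
    (zs (fv v T) (g.comp (Submodule.span ℝ (v '' (T : Set ι))).subtype) univ).map
      (Function.Embedding.subtype _) = zs v g T := by
  ext i
  simp only [Finset.mem_map, Function.Embedding.subtype_apply, mem_zs]
  constructor
  · rintro ⟨j, ⟨_, hj⟩, rfl⟩
    exact ⟨j.2, hj⟩
  · rintro ⟨hi, hg⟩
    exact ⟨⟨i, hi⟩, ⟨Finset.mem_univ _, hg⟩, rfl⟩

theorem Cfg.face {v : ι → E} {h : κ → Module.Dual ℝ E} {n : ℕ} (C : Cfg v h n) (T : Finset ι)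
    (hT : IsFace v T) : ∃ (κ' : Type) (_ : Fintype κ') (c : κ' → κ),
      Cfg (fv v T) (fun Z : κ' => (h (c Z)).comp
        (Submodule.span ℝ (v '' (T : Set ι))).subtype) (rk v T) := by
  classical
  let κ' : Type := {Z : Finset ι // ∃ k, zs v (h k) T = Z ∧ rk v Z + 1 = rk v T}
  have hc : ∀ Z : κ', zs v (h (Z.2.choose)) T = Z.1 := fun Z => Z.2.choose_spec.1
  have hc2 : ∀ Z : κ', rk v Z.1 + 1 = rk v T := fun Z => Z.2.choose_spec.2
  have hzs : ∀ Z : κ', (zs (fv v T) ((h (Z.2.choose)).comp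
      (Submodule.span ℝ (v '' (T : Set ι))).subtype) univ).map
      (Function.Embedding.subtype _) = Z.1 := by
    intro Z
    rw [zs_fv, hc]
  refine ⟨κ', inferInstance, fun Z => Z.2.choose, ?_⟩
  refine ⟨rfl, ?_, ?_, ?_, ?_, ?_, ?_, ?_⟩
  · rw [rk_fv]
    congr 1
    ext i
    simp
  · obtain ⟨g0, hg0⟩ := C.pos
    exact ⟨g0.comp (Submodule.subtype _), fun i => hg0 i⟩
  · intro i
    obtain ⟨g, hg, hgi⟩ := C.vert i
    refine ⟨g.comp (Submodule.subtype _), fun j => hg j, ?_⟩
    ext j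
    rw [Finset.mem_singleton, mem_zs]
    have h1 : (j : ι) ∈ ({(i : ι)} : Finset ι) ↔ (j : ι) ∈ zs v g univ := by rw [hgi]
    rw [Finset.mem_singleton, mem_zs] at h1
    constructor
    · rintro rfl
      exact ⟨Finset.mem_univ _, (h1.1 rfl).2⟩
    · rintro ⟨_, h2⟩
      exact Subtype.ext (h1.2 ⟨Finset.mem_univ _, h2⟩)
  · intro Z i
    exact C.nonneg _ _
  · intro Z
    rw [rk_fv, hzs]
    exact hc2 Z
  · intro g' hg' hr
    obtain ⟨g, hg⟩ := LinearMap.exists_extend g'
    have hgi : ∀ i : ↥T, g (v i) = g' (fv v T i) := by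
      intro i
      rw [← hg]
      rfl
    rw [← hg, rk_fv, zs_fv] at hr
    have hface : IsFace v (zs v g T) := hT.trans g fun i hi => by
      have h1 := hg' ⟨i, hi⟩
      rw [← hgi] at h1
      exact h1
    obtain ⟨w, hwT, hw⟩ : ∃ w ∈ T, w ∉ zs v g T := by
      by_contra hcon
      push Not at hcon
      have h1 : zs v g T = T := Finset.Subset.antisymm (zs_subset v g T) hcon
      rw [h1] at hr
      omega
    obtain ⟨k, hk1, hk2⟩ := C.avoid hface hw
    have hsub : zs v g T ⊆ zs v (h k) T := fun i hi =>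
      mem_zs.2 ⟨(mem_zs.1 hi).1, (mem_zs.1 (hk1 hi)).2⟩
    have hlt := rk_zs_lt v (h k) T w hwT (lt_of_le_of_ne (C.nonneg k w) (Ne.symm hk2))
    have heq := zs_eq_of_subset v g (h k) T hsub (by omega)
    refine ⟨⟨zs v g T, k, heq.symm, hr⟩, ?_⟩
    apply Finset.map_injective (Function.Embedding.subtype _)
    rw [hzs, ← hg, zs_fv]
  · intro Z Z' hZZ
    apply Subtype.ext
    rw [← hzs Z, ← hzs Z', hZZ]

end faces

end Pool.Agent.Helper73.Psd
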