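import Mathlib
import Pool.Agent.Helper73.PsdCount

/-!
# The weighted count

If `h k (v i) = (x i ⬝ᵥ y k) ^ 2` where the `x i` span `ℝ^n` and the zero set of each `h k` on the
points `v i` is a hyperplane section, then
`2 * ∑ k, a ^ t k + a ^ n ≤ (2 + a) ^ n` for every `a > 0`, where `t k` is the dimension of the space of all
`z` which are orthogonal to all `x i` that are not orthogonal to `y k`.
-/

namespace Pool.Agent.Helper73.Psd

open MvPolynomial Finset

set_option maxHeartbeats 400000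

/-- The vectors orthogonal to all `x i` which are not orthogonal to `y`. -/
def Tsub {ι : Type*} {n : ℕ} (x : ι → Fin n → ℝ) (y : Fin n → ℝ) : Submodule ℝ (Fin n → ℝ) where
  carrier := {z | ∀ i, x i ⬝ᵥ y ≠ 0 → x i ⬝ᵥ z = 0}
  zero_mem' := fun i _ => dotProduct_zero _
  add_mem' := fun {z w} hz hw i hi => by rw [dotProduct_add, hz i hi, hw i hi, add_zero]
  smul_mem' := fun c z hz i hi => by rw [dotProduct_smul, hz i hi, smul_zero]

theorem mem_Tsub {ι : Type*} {n : ℕ} {x : ι → Fin n → ℝ} {y z : Fin n → ℝ} :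
    z ∈ Tsub x y ↔ ∀ i, x i ⬝ᵥ y ≠ 0 → x i ⬝ᵥ z = 0 := Iff.rfl

/-- A family of functionals with trivial common kernel contains a subfamily of `dim V` functionals
with trivial common kernel. -/
theorem exists_subfamily (n : ℕ) (d : ℕ) : ∀ (V : Type) [AddCommGroup V] [Module ℝ V]
    [FiniteDimensional ℝ V] (_ : Module.finrank ℝ V = d) (φ : Fin n → Module.Dual ℝ V)
    (A : Finset (Fin n)) (_ : ∀ z : V, (∀ j ∈ A, φ j z = 0) → z = 0),
    ∃ C ⊆ A, C.card = d ∧ ∀ z : V, (∀ j ∈ C, φ j z = 0) → z = 0 := by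
  classical
  induction d with
  | zero =>
    intro V _ _ _ hd φ A _
    refine ⟨∅, Finset.empty_subset _, rfl, fun z _ => ?_⟩
    have := Module.finrank_zero_iff.1 hd
    exact Subsingleton.elim _ _
  | succ d ih =>
    intro V _ _ _ hd φ A hA
    have hnt : Nontrivial V := Module.nontrivial_of_finrank_pos (R := ℝ) (by omega)
    obtain ⟨z0, hz0⟩ := exists_ne (0 : V)
    obtain ⟨j, hjA, hj⟩ : ∃ j ∈ A, φ j z0 ≠ 0 := by
      by_contra hcon
      push Not at hcon
      exact hz0 (hA z0 hcon)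
    have hφ : φ j ≠ 0 := by
      intro h0
      exact hj (by rw [h0]; rfl)
    have hker : Module.finrank ℝ (LinearMap.ker (φ j)) = d := by
      have h1 := LinearMap.finrank_range_add_finrank_ker (φ j)
      rw [LinearMap.range_eq_top.mpr (LinearMap.surjective hφ), finrank_top, Module.finrank_self,
        hd] at h1
      omega
    obtain ⟨C, hCA, hCc, hC⟩ := ih (LinearMap.ker (φ j)) hker
      (fun i => (φ i).comp (LinearMap.ker (φ j)).subtype) (A.erase j) (by
        intro z hz
        apply Subtype.ext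
        apply hA
        intro i hi
        by_cases hij : i = j
        · rw [hij]; exact z.2
        · exact hz i (Finset.mem_erase.2 ⟨hij, hi⟩))
    refine ⟨insert j C, ?_, ?_, ?_⟩
    · intro i hi
      rcases Finset.mem_insert.1 hi with rfl | hi
      · exact hjA
      · exact Finset.erase_subset _ _ (hCA hi)
    · rw [Finset.card_insert_of_notMem (fun h1 => (Finset.mem_erase.1 (hCA h1)).1 rfl), hCc]
    · intro z hz
      have h1 := hC ⟨z, hz j (Finset.mem_insert_self _ _)⟩ (fun i hi =>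
        hz i (Finset.mem_insert_of_mem hi))
      exact congrArg Subtype.val h1

theorem exists_chart {J κ : Type*} [Fintype J] [DecidableEq J] [Finite κ] (z : κ → J → ℝ)
    (hz : ∀ k, z k ≠ 0) : ∃ ℓ : J → ℝ, ∀ k, ∑ j, ℓ j * z k j ≠ 0 := by
  obtain ⟨f, hf⟩ := Module.exists_dual_forall_apply_ne_zero (K := ℝ) z hz
  refine ⟨fun j => f (Pi.single j 1), fun k => ?_⟩
  have h1 : f (z k) = ∑ j, f (Pi.single j 1) * z k j := by
    conv_lhs => rw [← LinearMap.sum_single_apply (φ := fun _ : J => ℝ) (z k)]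
    rw [map_sum]
    refine Finset.sum_congr rfl fun j _ => ?_
    have h2 : (Pi.single j (z k j) : J → ℝ) = z k j • Pi.single j (1 : ℝ) := by
      rw [← Pi.single_smul, smul_eq_mul, mul_one]
    rw [h2, map_smul, smul_eq_mul, mul_comm]
  rw [← h1]
  exact hf k

/-- The bound for one set `A`. -/
theorem card_patternT_le {ι κ : Type*} [Fintype ι] [Fintype κ] {n : ℕ}
    {E : Type*} [AddCommGroup E] [Module ℝ E]
    (v : ι → E) (h : κ → Module.Dual ℝ E)
    (hfac : ∀ k (g : Module.Dual ℝ E), (∀ i, h k (v i) = 0 → g (v i) = 0) →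
      ∃ c : ℝ, ∀ i, g (v i) = c * h k (v i))
    (hinj : ∀ k l, (∀ i, h k (v i) = 0 ↔ h l (v i) = 0) → k = l)
    (hne : ∀ k, ∃ i, h k (v i) ≠ 0)
    (x : ι → Fin n → ℝ) (y : κ → Fin n → ℝ)
    (hS : ∀ i k, h k (v i) = (x i ⬝ᵥ y k) ^ 2)
    (bas : Module.Basis (Fin n) ℝ (Fin n → ℝ)) (b : Fin n → ι) (hb : ∀ j, x (b j) = bas j)
    (A : Finset (Fin n)) (hAu : A ≠ univ)
    (hA : ∀ k, ∀ j ∈ A, bas j ⬝ᵥ y k = 0)
    (hT : ∀ k, ∀ τ ∈ Tsub x (y k), (∀ j ∈ A, bas j ⬝ᵥ τ = 0) → τ = 0) :
    Fintype.card κ ≤ 2 ^ (n - 1 - A.card) := by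
  classical
  let z : κ → Fin n → ℝ := fun k j => bas j ⬝ᵥ y k
  let c : ι → Fin n → ℝ := fun i j => bas.repr (x i) j
  have hxw : ∀ i (w : Fin n → ℝ), x i ⬝ᵥ w = ∑ j, c i j * (bas j ⬝ᵥ w) := by
    intro i w
    conv_lhs => rw [← bas.sum_repr (x i)]
    rw [sum_dotProduct]
    refine Finset.sum_congr rfl fun j _ => ?_
    rw [smul_dotProduct, smul_eq_mul]
  have hzA : ∀ k, ∀ j ∈ A, z k j = 0 := fun k j hj => hA k j hj
  -- the chart
  have hz : ∀ k, (fun j : {j // j ∉ A} => z k j) ≠ 0 := by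
    intro k hk
    obtain ⟨i, hi⟩ := hne k
    apply hi
    rw [hS, hxw]
    have h1 : ∑ j, c i j * (bas j ⬝ᵥ y k) = 0 := by
      refine Finset.sum_eq_zero fun j _ => ?_
      by_cases hj : j ∈ A
      · rw [hA k j hj, mul_zero]
      · have h2 := congrFun hk ⟨j, hj⟩
        have h3 : bas j ⬝ᵥ y k = 0 := h2
        rw [h3, mul_zero]
    rw [h1]; ring
  obtain ⟨ℓ0, hℓ0⟩ := exists_chart (fun k (j : {j // j ∉ A}) => z k j) hz
  -- the case of an empty index set
  rcases isEmpty_or_nonempty κ with hκ | ⟨⟨k0⟩⟩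
  · rw [Fintype.card_eq_zero]; exact Nat.zero_le _
  -- a coordinate with `ℓ0 ≠ 0`
  obtain ⟨⟨j0, hj0⟩, hℓj0⟩ : ∃ j, ℓ0 j ≠ 0 := by
    by_contra hcon
    push Not at hcon
    exact hℓ0 k0 (Finset.sum_eq_zero fun j _ => by rw [hcon j, zero_mul])
  let ℓ : Fin n → ℝ := fun j => if hj : j ∉ A then ℓ0 ⟨j, hj⟩ else 0
  have hℓj0' : ℓ j0 ≠ 0 := by
    simp only [ℓ, dif_pos hj0]; exact hℓj0
  -- the value of the chart function on vectors that vanish on `A`
  let s : κ → ℝ := fun k => ∑ j, ℓ j * z k j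
  have hs : ∀ k, s k ≠ 0 := by
    intro k
    have h1 : s k = ∑ j : {j // j ∉ A}, ℓ0 j * z k j := by
      show ∑ j, ℓ j * z k j = _
      rw [← Finset.sum_filter_add_sum_filter_not univ (fun j => j ∉ A)]
      have h2 : ∑ j ∈ univ.filter (fun j => ¬ (j ∉ A)), ℓ j * z k j = 0 := by
        refine Finset.sum_eq_zero fun j hj => ?_
        have h3 : j ∈ A := not_not.1 (Finset.mem_filter.1 hj).2
        rw [hzA k j h3, mul_zero]
      rw [h2, add_zero, Finset.sum_subtype (univ.filter (fun j => j ∉ A))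
        (p := fun j => j ∉ A) (fun j => by simp)]
      refine Finset.sum_congr rfl fun j _ => ?_
      simp only [ℓ, dif_pos j.2]
    rw [h1]
    exact hℓ0 k
  -- new coefficients
  let c0 : ι → ℝ := fun i => c i j0 / ℓ j0
  let c1 : ι → Fin n → ℝ := fun i l => c i l - c i j0 * ℓ l / ℓ j0
  have hgen : ∀ i (w : Fin n → ℝ), (∀ j ∈ A, w j = 0) → ∑ j, c i j * w j =
      c0 i * (∑ j, ℓ j * w j) + ∑ l : {j // j ∉ A ∧ j ≠ j0}, c1 i l * w l := by
    intro i w hw
    rw [sum_eq_of_pattern A j0 (c i) w hw, sum_eq_of_pattern A j0 ℓ w hw, mul_add,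
      Finset.mul_sum, add_assoc, ← Finset.sum_add_distrib]
    have h1 : c i j0 * w j0 = c0 i * (ℓ j0 * w j0) := by
      simp only [c0]
      field_simp
    rw [h1]
    congr 1
    refine Finset.sum_congr rfl fun l _ => ?_
    simp only [c0, c1]
    field_simp
    ring
  have hxs : ∀ i k, x i ⬝ᵥ y k = c0 i * s k +
      ∑ l : {j // j ∉ A ∧ j ≠ j0}, c1 i l * z k l := by
    intro i k
    rw [hxw]
    exact hgen i (z k) (hzA k)
  obtain ⟨m, β, hβ0, hβ⟩ := exists_relations v
  let lin : ι → MvPolynomial {j // j ∉ A ∧ j ≠ j0} ℝ := fun i =>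
    C (c0 i) + ∑ l : {j // j ∉ A ∧ j ≠ j0}, C (c1 i l) * X l
  let Q : Fin m → MvPolynomial {j // j ∉ A ∧ j ≠ j0} ℝ := fun j =>
    ∑ i, C (β j i) * lin i ^ 2
  let p : κ → {j // j ∉ A ∧ j ≠ j0} → ℝ := fun k l => z k l / s k
  have hlin : ∀ i k, eval (p k) (lin i) = (x i ⬝ᵥ y k) / s k := by
    intro i k
    have h0 := hs k
    simp only [lin, map_add, eval_C, map_sum, map_mul, eval_X, p]
    rw [hxs, add_div, mul_div_cancel_right₀ _ h0, Finset.sum_div]
    congr 1
    exact Finset.sum_congr rfl fun l _ => (mul_div_assoc _ _ _).symm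
  have hcardσ : Fintype.card {j // j ∉ A ∧ j ≠ j0} = n - 1 - A.card := by
    rw [Fintype.card_subtype]
    have h1 : univ.filter (fun j => j ∉ A ∧ j ≠ j0) = univ \ insert j0 A := by
      ext j
      simp only [Finset.mem_filter, Finset.mem_univ, true_and, Finset.mem_sdiff,
        Finset.mem_insert, not_or]
      tauto
    rw [h1, Finset.card_sdiff_of_subset (Finset.subset_univ _), Finset.card_insert_of_notMem hj0,
      Finset.card_univ, Fintype.card_fin]
    omega
  rw [← hcardσ]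
  refine card_zeros_quad_family Q ?_ p ?_ ?_ ?_
  · intro j
    refine totalDegree_finsetSum_le fun i _ => ?_
    refine (totalDegree_mul _ _).trans ?_
    rw [totalDegree_C, zero_add]
    refine (totalDegree_pow _ _).trans ?_
    have h1 : (lin i).totalDegree ≤ 1 := by
      refine (totalDegree_add _ _).trans (max_le ?_ ?_)
      · rw [totalDegree_C]; exact Nat.zero_le _
      · refine totalDegree_finsetSum_le fun l _ => ?_
        refine (totalDegree_mul _ _).trans ?_
        rw [totalDegree_C, zero_add, totalDegree_X]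
    omega
  · intro k k' hkk'
    have hall' : ∀ i, (x i ⬝ᵥ y k) / s k = (x i ⬝ᵥ y k') / s k' := by
      intro i
      rw [← hlin, ← hlin, hkk']
    apply hinj
    intro i
    rw [hS, hS]
    have h2 := hall' i
    rw [div_eq_div_iff (hs k) (hs k')] at h2
    constructor
    · intro h1
      rw [pow_eq_zero_iff two_ne_zero] at h1
      rw [h1, zero_mul] at h2
      rcases mul_eq_zero.1 h2.symm with h3 | h3
      · rw [h3]; ring
      · exact absurd h3 (hs k)
    · intro h1
      rw [pow_eq_zero_iff two_ne_zero] at h1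
      rw [h1, zero_mul] at h2
      rcases mul_eq_zero.1 h2 with h3 | h3
      · rw [h3]; ring
      · exact absurd h3 (hs k')
  · intro k j
    simp only [Q, map_sum, map_mul, eval_C, map_pow, hlin]
    have h1 : ∀ i, β j i * ((x i ⬝ᵥ y k) / s k) ^ 2 = β j i * h k (v i) / s k ^ 2 := by
      intro i
      rw [hS, div_pow, mul_div_assoc]
    rw [Finset.sum_congr rfl fun i _ => h1 i, ← Finset.sum_div]
    have h2 : ∑ i, β j i * h k (v i) = h k (∑ i, β j i • v i) := by
      rw [map_sum]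
      exact Finset.sum_congr rfl fun i _ => by rw [map_smul, smul_eq_mul]
    rw [h2, hβ0, map_zero, zero_div]
  · intro k u hu
    have hpd : ∀ j, ∑ l', u l' * eval (p k) (pderiv l' (Q j)) =
        ∑ i, β j i * (2 * ((x i ⬝ᵥ y k) / s k) * ∑ l : {j // j ∉ A ∧ j ≠ j0}, c1 i l * u l) := by
      intro j
      have h1 : ∀ l', eval (p k) (pderiv l' (Q j)) =
          ∑ i, β j i * (2 * ((x i ⬝ᵥ y k) / s k) * c1 i l') := by
        intro l'
        simp only [Q, map_sum, pderiv_C_mul]
        refine Finset.sum_congr rfl fun i _ => ?_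
        rw [pderiv_pow]
        have h3 : pderiv l' (lin i) = C (c1 i l') := by
          simp only [lin, map_add, pderiv_C, zero_add, map_sum, pderiv_C_mul, pderiv_X]
          rw [Finset.sum_eq_single l']
          · simp
          · intro l _ hl
            rw [Pi.single_eq_of_ne hl]
            simp
          · intro h4
            exact absurd (Finset.mem_univ _) h4
        rw [h3]
        simp only [map_mul, map_pow, eval_C, hlin]
        norm_num
      simp only [h1, Finset.mul_sum]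
      rw [Finset.sum_comm]
      refine Finset.sum_congr rfl fun i _ => Finset.sum_congr rfl fun l _ => ?_
      ring
    obtain ⟨g, hg⟩ := hβ (fun i => 2 * ((x i ⬝ᵥ y k) / s k) *
      ∑ l : {j // j ∉ A ∧ j ≠ j0}, c1 i l * u l) (fun j => by rw [← hpd]; exact hu j)
    obtain ⟨c', hc'⟩ := hfac k g (by
      intro i hi
      rw [← hg i]
      rw [hS, pow_eq_zero_iff two_ne_zero] at hi
      rw [hi]
      simp)
    have key : ∀ i, 2 * ((x i ⬝ᵥ y k) / s k) *
      (∑ l : {j // j ∉ A ∧ j ≠ j0}, c1 i l * u l) = c' * (x i ⬝ᵥ y k) ^ 2 := by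
      intro i
      rw [← hS, ← hc' i]
      exact hg i
    -- the coordinates of the tangent vector
    let U : Fin n → ℝ := fun j => if hj : j ∉ A ∧ j ≠ j0 then u ⟨j, hj⟩ else
      if j = j0 then -(∑ l : {j // j ∉ A ∧ j ≠ j0}, ℓ l * u l) / ℓ j0 else 0
    have hUA : ∀ j ∈ A, U j = 0 := by
      intro j hj
      have h1 : ¬ (j ∉ A ∧ j ≠ j0) := fun h2 => h2.1 hj
      have h3 : j ≠ j0 := fun h4 => hj0 (h4 ▸ hj)
      simp only [U, dif_neg h1, if_neg h3]
    have hUl : ∀ l : {j // j ∉ A ∧ j ≠ j0}, U l = u l := by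
      intro l
      simp only [U]
      rw [dif_pos l.2]
    have hUj0 : U j0 = -(∑ l : {j // j ∉ A ∧ j ≠ j0}, ℓ l * u l) / ℓ j0 := by
      have h1 : ¬ (j0 ∉ A ∧ j0 ≠ j0) := fun h2 => h2.2 rfl
      simp only [U, dif_neg h1, if_true]
    have hℓU : ∑ j, ℓ j * U j = 0 := by
      rw [sum_eq_of_pattern A j0 ℓ U hUA, hUj0, mul_div_cancel₀ _ hℓj0']
      have h1 : ∑ l : {j // j ∉ A ∧ j ≠ j0}, ℓ l * U l =
          ∑ l : {j // j ∉ A ∧ j ≠ j0}, ℓ l * u l :=
        Finset.sum_congr rfl fun l _ => by rw [hUl]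
      rw [h1]; ring
    have hcU : ∀ i, ∑ j, c i j * U j = ∑ l : {j // j ∉ A ∧ j ≠ j0}, c1 i l * u l := by
      intro i
      rw [hgen i U hUA, hℓU, mul_zero, zero_add]
      exact Finset.sum_congr rfl fun l _ => by rw [hUl]
    -- a vector with these coordinates
    obtain ⟨W, hW⟩ : ∃ W : Fin n → ℝ, ∀ j, bas j ⬝ᵥ W = U j := by
      let f : Module.Dual ℝ (Fin n → ℝ) := bas.constr ℝ U
      refine ⟨fun j => f (Pi.single j 1), fun j => ?_⟩
      have h1 : f (bas j) = U j := bas.constr_basis ℝ U j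
      rw [← h1]
      conv_rhs => rw [← LinearMap.sum_single_apply (φ := fun _ : Fin n => ℝ) (bas j)]
      rw [map_sum, dotProduct]
      refine Finset.sum_congr rfl fun l _ => ?_
      have h2 : (Pi.single l (bas j l) : Fin n → ℝ) = bas j l • Pi.single l (1 : ℝ) := by
        rw [← Pi.single_smul, smul_eq_mul, mul_one]
      rw [h2, map_smul, smul_eq_mul]
    have hxW : ∀ i, x i ⬝ᵥ W = ∑ l : {j // j ∉ A ∧ j ≠ j0}, c1 i l * u l := by
      intro i
      rw [hxw, ← hcU]
      exact Finset.sum_congr rfl fun j _ => by rw [hW]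
    have hτ0 := hT k ((2 / s k) • W - c' • y k) (by
      rw [mem_Tsub]
      intro i hi
      rw [dotProduct_sub, dotProduct_smul, dotProduct_smul, hxW, smul_eq_mul, smul_eq_mul]
      have h1 := key i
      have h2 : (x i ⬝ᵥ y k) * ((2 / s k) * (∑ l : {j // j ∉ A ∧ j ≠ j0}, c1 i l * u l) -
          c' * (x i ⬝ᵥ y k)) = 0 := by
        linear_combination h1
      exact (mul_eq_zero.1 h2).resolve_left hi) (by
      intro j hj
      rw [dotProduct_sub, dotProduct_smul, dotProduct_smul, hW, hUA j hj, hA k j hj]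
      simp)
    have hcoord : ∀ j, (2 / s k) * U j = c' * z k j := by
      intro j
      have h1 : bas j ⬝ᵥ ((2 / s k) • W - c' • y k) = 0 := by rw [hτ0, dotProduct_zero]
      rw [dotProduct_sub, dotProduct_smul, dotProduct_smul, hW, smul_eq_mul, smul_eq_mul] at h1
      exact sub_eq_zero.1 h1
    have hc0 : c' = 0 := by
      have h1 : (2 / s k) * ∑ j, ℓ j * U j = c' * s k := by
        show _ = c' * ∑ j, ℓ j * z k j
        rw [Finset.mul_sum, Finset.mul_sum]
        refine Finset.sum_congr rfl fun j _ => ?_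
        have h2 := hcoord j
        linear_combination (ℓ j) * h2
      rw [hℓU, mul_zero] at h1
      rcases mul_eq_zero.1 h1.symm with h3 | h3
      · exact h3
      · exact absurd h3 (hs k)
    funext l
    have h1 := hcoord l
    rw [hc0, zero_mul, hUl] at h1
    rcases mul_eq_zero.1 h1 with h6 | h6
    · exact absurd h6 (div_ne_zero two_ne_zero (hs k))
    · exact h6

/-- **The weighted counting theorem.** -/
theorem sum_pow_finrank_le {ι κ : Type*} [Fintype ι] [Fintype κ] {n : ℕ}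
    {E : Type*} [AddCommGroup E] [Module ℝ E]
    (v : ι → E) (h : κ → Module.Dual ℝ E)
    (hfac : ∀ k (g : Module.Dual ℝ E), (∀ i, h k (v i) = 0 → g (v i) = 0) →
      ∃ c : ℝ, ∀ i, g (v i) = c * h k (v i))
    (hinj : ∀ k l, (∀ i, h k (v i) = 0 ↔ h l (v i) = 0) → k = l)
    (hne : ∀ k, ∃ i, h k (v i) ≠ 0)
    (x : ι → Fin n → ℝ) (y : κ → Fin n → ℝ)
    (hS : ∀ i k, h k (v i) = (x i ⬝ᵥ y k) ^ 2)
    (hspan : Submodule.span ℝ (Set.range x) = ⊤) (a : ℝ) (ha : 0 < a) :
    2 * ∑ k, a ^ Module.finrank ℝ (Tsub x (y k)) + a ^ n ≤ (2 + a) ^ n := by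
  classical
  -- a basis among the `x i`
  obtain ⟨bas, b, hb⟩ : ∃ (bas : Module.Basis (Fin n) ℝ (Fin n → ℝ)) (b : Fin n → ι),
      ∀ j, x (b j) = bas j := by
    let B0 := Module.Basis.ofSpan hspan.ge
    have : Fintype (((linearIndepOn_empty ℝ (id : (Fin n → ℝ) → (Fin n → ℝ))).extend
      (Set.empty_subset (Set.range x)))) := FiniteDimensional.fintypeBasisIndex B0
    have hcard : Fintype.card _ = n := (Module.finrank_eq_card_basis B0).symm.trans (by simp)
    let e := Fintype.equivFinOfCardEq hcard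
    have hmem : ∀ j : Fin n, ∃ i, x i = B0.reindex e j := by
      intro j
      rw [Module.Basis.reindex_apply]
      exact Module.Basis.ofSpan_subset hspan.ge ⟨_, rfl⟩
    choose b hb using hmem
    exact ⟨B0.reindex e, b, hb⟩
  let pat : κ → Finset (Fin n) := fun k => univ.filter fun j => bas j ⬝ᵥ y k = 0
  have hpat : ∀ k, pat k ≠ univ := by
    intro k hk
    obtain ⟨i, hi⟩ := hne k
    apply hi
    rw [hS]
    have h1 : x i ⬝ᵥ y k = 0 := by
      rw [← bas.sum_repr (x i), sum_dotProduct]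
      refine Finset.sum_eq_zero fun j _ => ?_
      have h2 : j ∈ pat k := by rw [hk]; exact Finset.mem_univ j
      rw [smul_dotProduct, (Finset.mem_filter.1 h2).2, smul_zero]
    rw [h1]; ring
  have hzero : ∀ w : Fin n → ℝ, (∀ j, bas j ⬝ᵥ w = 0) → w = 0 := by
    intro w hw
    apply dotProduct_eq_zero
    intro u
    rw [dotProduct_comm, ← bas.sum_repr u, sum_dotProduct]
    refine Finset.sum_eq_zero fun j _ => ?_
    rw [smul_dotProduct, hw j, smul_zero]
  -- the choice of `C k`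
  have hC : ∀ k, ∃ A ⊆ pat k, A.card = Module.finrank ℝ (Tsub x (y k)) ∧
      ∀ τ ∈ Tsub x (y k), (∀ j ∈ A, bas j ⬝ᵥ τ = 0) → τ = 0 := by
    intro k
    obtain ⟨A, hA1, hA2, hA3⟩ := exists_subfamily n _ (Tsub x (y k)) rfl
      (fun j => (dotProductBilin ℝ ℝ (bas j)).comp (Tsub x (y k)).subtype) (pat k) (by
        intro τ hτ
        apply Subtype.ext
        apply hzero
        intro j
        by_cases hj : j ∈ pat k
        · exact hτ j hj
        · have h1 : bas j ⬝ᵥ y k ≠ 0 := fun h2 => hj (Finset.mem_filter.2 ⟨Finset.mem_univ _, h2⟩)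
          rw [← hb] at h1 ⊢
          exact τ.2 (b j) h1)
    refine ⟨A, hA1, hA2, fun τ hτ h1 => ?_⟩
    have h2 := hA3 ⟨τ, hτ⟩ h1
    exact congrArg Subtype.val h2
  choose Cs hCs1 hCs2 hCs3 using hC
  have hCne : ∀ k, Cs k ≠ univ := fun k hk =>
    hpat k (Finset.univ_subset_iff.1 (hk ▸ hCs1 k))
  have hfib : ∀ A ∈ (univ : Finset (Finset (Fin n))).erase univ,
      (univ.filter fun k => Cs k = A).card ≤ 2 ^ (n - 1 - A.card) := by
    intro A hA
    have hAne := (Finset.mem_erase.1 hA).1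
    rw [← Fintype.card_subtype]
    refine card_patternT_le (κ := {k // Cs k = A}) v (fun k => h k) (fun k g hg => hfac k g hg)
      (fun k l hkl => Subtype.ext (hinj k l hkl)) (fun k => hne k) x (fun k => y k)
      (fun i k => hS i k) bas b hb A hAne ?_ ?_
    · rintro ⟨k, rfl⟩ j hj
      exact (Finset.mem_filter.1 (hCs1 k hj)).2
    · rintro ⟨k, rfl⟩ τ hτ h1
      exact hCs3 k τ hτ h1
  have hsum : ∑ k, a ^ Module.finrank ℝ (Tsub x (y k)) ≤
      ∑ A ∈ (univ : Finset (Finset (Fin n))).erase univ, a ^ A.card * 2 ^ (n - 1 - A.card) := by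
    have h1 : ∑ k, a ^ Module.finrank ℝ (Tsub x (y k)) = ∑ k, a ^ (Cs k).card :=
      Finset.sum_congr rfl fun k _ => by rw [hCs2]
    rw [h1, ← Finset.sum_fiberwise_of_maps_to (g := Cs)
      (t := (univ : Finset (Finset (Fin n))).erase univ)
      (fun k _ => Finset.mem_erase.2 ⟨hCne k, Finset.mem_univ _⟩)]
    refine Finset.sum_le_sum fun A hA => ?_
    have h2 : ∑ k ∈ univ.filter (fun k => Cs k = A), a ^ (Cs k).card =
        ((univ.filter fun k => Cs k = A).card : ℝ) * a ^ A.card := by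
      rw [Finset.sum_congr rfl (g := fun _ => a ^ A.card) (fun k hk => by
        rw [(Finset.mem_filter.1 hk).2]), Finset.sum_const, nsmul_eq_mul]
    rw [h2, mul_comm]
    refine mul_le_mul_of_nonneg_left ?_ (pow_nonneg ha.le _)
    exact_mod_cast hfib A hA
  have htot : 2 * (∑ A ∈ (univ : Finset (Finset (Fin n))).erase univ,
      a ^ A.card * 2 ^ (n - 1 - A.card)) + a ^ n = (2 + a) ^ n := by
    have h1 : ∑ A : Finset (Fin n), a ^ A.card * 2 ^ (n - A.card) = (a + 2) ^ n :=
      Fin.sum_pow_mul_eq_add_pow a 2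
    rw [← Finset.sum_erase_add _ _ (Finset.mem_univ (univ : Finset (Fin n)))] at h1
    rw [Finset.mul_sum]
    have h2 : ∀ A ∈ (univ : Finset (Finset (Fin n))).erase univ,
        2 * (a ^ A.card * 2 ^ (n - 1 - A.card)) = a ^ A.card * 2 ^ (n - A.card) := by
      intro A hA
      have hAne := (Finset.mem_erase.1 hA).1
      have hlt : A.card < n := by
        obtain ⟨j0, hj0⟩ : ∃ j0, j0 ∉ A := by
          by_contra hcon
          push Not at hcon
          exact hAne (Finset.eq_univ_iff_forall.2 hcon)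
        have := Finset.card_lt_univ_of_notMem hj0
        simpa using this
      have h3 : n - A.card = (n - 1 - A.card) + 1 := by omega
      rw [h3, pow_succ]
      ring
    rw [Finset.sum_congr rfl h2]
    have h3 : a ^ (univ : Finset (Fin n)).card * 2 ^ (n - (univ : Finset (Fin n)).card) = a ^ n := by
      simp
    rw [h3] at h1
    rw [h1, add_comm a 2]
  linarith

end Pool.Agent.Helper73.Psd
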