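import Mathlib
import Pool.Agent.Helper73.PsdCfg
import Pool.Agent.Helper73.PsdCountT

/-!
# Induction over faces

`combine` (an abstract statement on vectors and forms) implies that a configuration with a psd factorization of
minimal size has at most `(29/10)^n` vertices.
-/

namespace Pool.Agent.Helper73.Psd

open Finset Matrix

set_option linter.unusedSectionVars false
set_option maxHeartbeats 400000

section

variable {ι κ E : Type} [Fintype ι] [Fintype κ] [DecidableEq ι] [DecidableEq κ] [AddCommGroup E]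
  [Module ℝ E] [FiniteDimensional ℝ E]

/-- The slack matrix has a psd factorization of size `n`. -/
def PsdFac (v : ι → E) (h : κ → Module.Dual ℝ E) (n : ℕ) : Prop :=
  ∃ (A : ι → Matrix (Fin n) (Fin n) ℝ) (B : κ → Matrix (Fin n) (Fin n) ℝ),
    (∀ i, (A i).PosSemidef) ∧ (∀ k, (B k).PosSemidef) ∧ ∀ i k, h k (v i) = (A i * B k).trace

theorem psdFac_of_rank_one {v : ι → E} {h : κ → Module.Dual ℝ E} {n : ℕ} (x : ι → Fin n → ℝ)
    (y : κ → Fin n → ℝ) (hS : ∀ i k, h k (v i) = (x i ⬝ᵥ y k) ^ 2) : PsdFac v h n := by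
  refine ⟨fun i => vecMulVec (x i) (x i), fun k => vecMulVec (y k) (y k), fun i => ?_,
    fun k => ?_, fun i k => ?_⟩
  · have h1 := posSemidef_vecMulVec_self_star (x i)
    rwa [star_trivial] at h1
  · have h1 := posSemidef_vecMulVec_self_star (y k)
    rwa [star_trivial] at h1
  · rw [trace_vecMulVec, hS]

theorem PsdFac.swap {v : ι → E} {h : κ → Module.Dual ℝ E} {n : ℕ} (P : PsdFac v h n) :
    PsdFac h (fun i => Module.Dual.eval ℝ E (v i)) n := by
  obtain ⟨A, B, hA, hB, hS⟩ := P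
  exact ⟨B, A, hB, hA, fun k i => by
    show h k (v i) = _
    rw [hS, Matrix.trace_mul_comm]⟩

namespace Cfg

variable {v : ι → E} {h : κ → Module.Dual ℝ E} {n : ℕ}

theorem rank_one (C : Cfg v h n) (P : PsdFac v h n) :
    ∃ (x : ι → Fin n → ℝ) (y : κ → Fin n → ℝ), (∀ i k, h k (v i) = (x i ⬝ᵥ y k) ^ 2) ∧
      Submodule.span ℝ (Set.range x) = ⊤ ∧ Submodule.span ℝ (Set.range y) = ⊤ := by
  obtain ⟨A, B, hA, hB, hS⟩ := P
  exact exists_rank_one v h C.rank C.pos C.vert
    (fun k => ⟨C.nonneg k, (C.fac k).trans C.rank.symm⟩)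
    (fun g hg hr => C.facet g hg (hr.trans C.rank)) A B hA hB hS

theorem zero_iff {x : ι → Fin n → ℝ} {y : κ → Fin n → ℝ}
    (hS : ∀ i k, h k (v i) = (x i ⬝ᵥ y k) ^ 2) (i : ι) (k : κ) :
    h k (v i) = 0 ↔ x i ⬝ᵥ y k = 0 := by
  rw [hS, pow_eq_zero_iff two_ne_zero]

/-- The dimension of the span of the `x i` over a face. -/
theorem finrank_face (C : Cfg v h n) {x : ι → Fin n → ℝ} {y : κ → Fin n → ℝ}
    (hS : ∀ i k, h k (v i) = (x i ⬝ᵥ y k) ^ 2) (T : Finset ι) (hT : IsFace v T) :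
    Module.finrank ℝ (Submodule.span ℝ (x '' (T : Set ι))) = rk v T := by
  have hfacet' : ∀ g : Module.Dual ℝ E, (∀ i, 0 ≤ g (v i)) →
      rk v (zs v g univ) + 1 = rk v univ → ∃ k, zs v (h k) univ = zs v g univ := by
    intro g hg hr
    exact C.facet g hg (hr.trans C.rank)
  apply le_antisymm
  · have h1 := rk_add_finrank_ge v h hfacet' (fun k => Submodule.span ℝ {y k})
      (fun i => LinearMap.ker (dotProductBilin ℝ ℝ (x i))) (fun i k => by
        rw [Submodule.span_singleton_le_iff_mem, LinearMap.mem_ker]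
        exact (zero_iff hS i k).symm) _ T rfl hT
    have h2 : Disjoint (Submodule.span ℝ (x '' (T : Set ι)))
        (⨆ k ∈ {k | T ⊆ zs v (h k) univ}, Submodule.span ℝ {y k}) := by
      rw [Submodule.disjoint_def]
      intro z hz1 hz2
      have h3 : ∀ i ∈ T, x i ⬝ᵥ z = 0 := by
        intro i hi
        have h4 : (⨆ k ∈ {k | T ⊆ zs v (h k) univ}, Submodule.span ℝ {y k}) ≤
            LinearMap.ker (dotProductBilin ℝ ℝ (x i)) := by
          refine iSup₂_le fun k hk => ?_
          rw [Submodule.span_singleton_le_iff_mem, LinearMap.mem_ker]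
          exact (zero_iff hS i k).1 (mem_zs.1 (hk hi)).2
        exact h4 hz2
      have h5 : Submodule.span ℝ (x '' (T : Set ι)) ≤
          LinearMap.ker (dotProductBilin ℝ ℝ z) := by
        rw [Submodule.span_le]
        rintro _ ⟨i, hi, rfl⟩
        show z ⬝ᵥ x i = 0
        rw [dotProduct_comm]
        exact h3 i hi
      have h6 : z ⬝ᵥ z = 0 := h5 hz1
      exact dotProduct_self_eq_zero.1 h6
    have h3 := Submodule.finrank_add_finrank_le_of_disjoint h2
    rw [Module.finrank_fintype_fun_eq_card, Fintype.card_fin] at h3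
    have h4 := C.rank
    omega
  · have h1 := rk_le_finrank v h C.pos hfacet' (fun i => Submodule.span ℝ {x i})
      (fun k => LinearMap.ker (dotProductBilin ℝ ℝ (y k))) (fun i k => by
        rw [Submodule.span_singleton_le_iff_mem, LinearMap.mem_ker, zero_iff hS, dotProduct_comm]
        rfl) _ T rfl hT
    refine h1.trans (Submodule.finrank_mono ?_)
    refine iSup₂_le fun i hi => ?_
    rw [Submodule.span_singleton_le_iff_mem]
    exact Submodule.subset_span ⟨i, hi, rfl⟩

/-- A face has a psd factorization of size its rank. -/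
theorem face_fac (C : Cfg v h n) {x : ι → Fin n → ℝ} {y : κ → Fin n → ℝ}
    (hS : ∀ i k, h k (v i) = (x i ⬝ᵥ y k) ^ 2) (T : Finset ι) (hT : IsFace v T)
    {κ' : Type} [Fintype κ'] [DecidableEq κ'] (c : κ' → κ) :
    PsdFac (fv v T) (fun Z : κ' => (h (c Z)).comp
        (Submodule.span ℝ (v '' (T : Set ι))).subtype) (rk v T) := by
  let X := Submodule.span ℝ (x '' (T : Set ι))
  let e : Module.Basis (Fin (rk v T)) ℝ X := Module.finBasisOfFinrankEq ℝ X (C.finrank_face hS T hT)
  let x' : ↥T → Fin (rk v T) → ℝ := fun i =>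
    e.repr ⟨x i, Submodule.subset_span ⟨i, i.2, rfl⟩⟩
  let y' : κ' → Fin (rk v T) → ℝ := fun Z l => (e l : Fin n → ℝ) ⬝ᵥ y (c Z)
  apply psdFac_of_rank_one x' y'
  intro i Z
  show h (c Z) (v i) = _
  rw [hS]
  congr 1
  have h1 : (x i : Fin n → ℝ) = ∑ l, x' i l • (e l : Fin n → ℝ) := by
    have h2 := congrArg Subtype.val (e.sum_repr ⟨x i, Submodule.subset_span ⟨i, i.2, rfl⟩⟩)
    rw [AddSubmonoidClass.coe_finset_sum] at h2
    exact h2.symm
  rw [h1, sum_dotProduct, dotProduct]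
  exact Finset.sum_congr rfl fun l _ => by rw [smul_dotProduct, smul_eq_mul]

end Cfg

end

/-- The abstract statement used in the induction step. -/
def Combine : Prop :=
  ∀ (n : ℕ) (_ : 8 ≤ n) (V κ : Type) [Fintype V] [Fintype κ] (w : κ → Fin n → ℝ)
    (x : V → Fin n → ℝ) (_ : (29 / 10 : ℝ) ^ n < Fintype.card V)
    (_ : ∀ (k : κ) (S : Finset V), (∀ v ∈ S, w k ⬝ᵥ x v = 0) →
      (S.card : ℝ) ≤ (29 / 10) ^ (n - 1))
    (_ : ∀ (k l : κ) (S : Finset V), k ≠ l → (∀ v ∈ S, w k ⬝ᵥ x v = 0 ∧ w l ⬝ᵥ x v = 0) →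
      (S.card : ℝ) ≤ (29 / 10) ^ (n - 2))
    (_ : ∀ k, w k ≠ 0) (_ : ∀ k l, k ≠ l → ∀ c : ℝ, w l ≠ c • w k) (_ : ∀ v, x v ≠ 0)
    (_ : ∀ v, Module.finrank ℝ (Submodule.span ℝ (w '' {k | w k ⬝ᵥ x v = 0})) = n - 1)
    (_ : Submodule.span ℝ (Set.range w) = ⊤)
    (_ : 2 * ∑ v, (53 / 100 : ℝ) ^ Module.finrank ℝ (Tsub w (x v)) + (53 / 100) ^ n ≤
      (2 + 53 / 100) ^ n), False

theorem card_vert_le (hcomb : Combine) : ∀ (n : ℕ) (ι κ E : Type) [Fintype ι] [Fintype κ]
    [DecidableEq ι] [DecidableEq κ] [AddCommGroup E] [Module ℝ E] [FiniteDimensional ℝ E]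
    (v : ι → E) (h : κ → Module.Dual ℝ E) (_ : Cfg v h n) (_ : PsdFac v h n),
    (Fintype.card ι : ℝ) ≤ (29 / 10) ^ n := by
  classical
  intro n
  induction n using Nat.strong_induction_on with
  | _ n ih =>
  intro ι κ E _ _ _ _ _ _ _ v h C P
  by_cases hn : n < 8
  · obtain ⟨A, B, hA, hB, hS⟩ := P
    have h1 := (card_facets_and_vertices_le C.dim v h C.rank C.pos C.vert
      (fun k => ⟨C.nonneg k, (C.fac k).trans C.rank.symm⟩)
      (fun g hg hr => C.facet g hg (hr.trans C.rank)) C.inj A B hA hB hS).2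
    have h2 : 2 * (Fintype.card ι : ℝ) + 1 ≤ 3 ^ n := by exact_mod_cast h1
    have h3 : (3 : ℝ) ^ n ≤ 2 * (29 / 10) ^ n + 1 := by
      interval_cases n <;> norm_num
    linarith
  push Not at hn
  by_contra hcon
  push Not at hcon
  obtain ⟨x, y, hS, hx, hy⟩ := C.rank_one P
  -- faces
  have hface : ∀ T : Finset ι, IsFace v T → rk v T < n → (T.card : ℝ) ≤ (29 / 10) ^ rk v T := by
    intro T hT hr
    obtain ⟨κ', hκ', c, hc⟩ := C.face T hT
    have h1 := ih (rk v T) hr ↥T κ' _ (fv v T) _ hc (C.face_fac hS T hT c)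
    rwa [Fintype.card_coe] at h1
  have hmono : ∀ a b : ℕ, a ≤ b → (29 / 10 : ℝ) ^ a ≤ (29 / 10) ^ b := fun a b hab =>
    pow_le_pow_right₀ (by norm_num) hab
  refine hcomb n hn ι κ y x hcon ?_ ?_ ?_ ?_ ?_ ?_ hy ?_
  · intro k S hSk
    have h1 : S ⊆ zs v (h k) univ := fun i hi => mem_zs.2 ⟨Finset.mem_univ _, by
      rw [Cfg.zero_iff hS, dotProduct_comm]; exact hSk i hi⟩
    have h2 := hface _ (C.facet_face k) (by have := C.fac k; omega)
    have h3 : ((S.card : ℕ) : ℝ) ≤ ((zs v (h k) univ).card : ℝ) := by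
      exact_mod_cast Finset.card_le_card h1
    exact (h3.trans h2).trans (hmono _ _ (by have := C.fac k; omega))
  · intro k l S hkl hSkl
    have h1 : S ⊆ zs v (h l) (zs v (h k) univ) := fun i hi => mem_zs.2 ⟨mem_zs.2
      ⟨Finset.mem_univ _, by rw [Cfg.zero_iff hS, dotProduct_comm]; exact (hSkl i hi).1⟩, by
      rw [Cfg.zero_iff hS, dotProduct_comm]; exact (hSkl i hi).2⟩
    obtain ⟨hf, hr⟩ := C.rk_inter hkl
    have h2 := hface _ hf (by omega)
    have h3 : ((S.card : ℕ) : ℝ) ≤ ((zs v (h l) (zs v (h k) univ)).card : ℝ) := by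
      exact_mod_cast Finset.card_le_card h1
    exact (h3.trans h2).trans (hmono _ _ (by omega))
  · intro k hk
    obtain ⟨i, hi⟩ := C.exists_ne' k
    apply hi
    rw [Cfg.zero_iff hS, hk, dotProduct_zero]
  · intro k l hkl c hc
    obtain ⟨i, hi1, hi2⟩ := C.exists_mem_not_mem hkl
    apply hi2.ne'
    rw [Cfg.zero_iff hS, hc, dotProduct_smul, (Cfg.zero_iff hS i k).1 hi1, smul_zero]
  · intro i hi
    obtain ⟨k, hk⟩ := C.exists_ne i
    apply hk
    rw [Cfg.zero_iff hS, hi, zero_dotProduct]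
  · intro i
    obtain ⟨k0, hk0⟩ := C.exists_ne i
    apply le_antisymm
    · have h1 : Submodule.span ℝ (y '' {k | y k ⬝ᵥ x i = 0}) ≤
          LinearMap.ker (dotProductBilin ℝ ℝ (x i)) := by
        rw [Submodule.span_le]
        rintro _ ⟨k, hk, rfl⟩
        show x i ⬝ᵥ y k = 0
        rw [dotProduct_comm]
        exact hk
      have h2 : Submodule.span ℝ (y '' {k | y k ⬝ᵥ x i = 0}) < ⊤ := by
        rw [lt_top_iff_ne_top]
        intro h3
        rw [h3, top_le_iff] at h1
        have h4 : y k0 ∈ LinearMap.ker (dotProductBilin ℝ ℝ (x i)) := by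
          rw [h1]; exact Submodule.mem_top
        exact hk0 ((Cfg.zero_iff hS i k0).2 h4)
      have h3 := Submodule.finrank_lt h2.ne
      rw [Module.finrank_fintype_fun_eq_card, Fintype.card_fin] at h3
      omega
    · have h1 := rk_add_finrank_ge v h (fun g hg hr => C.facet g hg (hr.trans C.rank))
        (fun k => Submodule.span ℝ {y k})
        (fun i => LinearMap.ker (dotProductBilin ℝ ℝ (x i))) (fun i k => by
          rw [Submodule.span_singleton_le_iff_mem, LinearMap.mem_ker]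
          exact (Cfg.zero_iff hS i k).symm) _ {i} rfl (C.vert i)
      have h2 : (⨆ k ∈ {k | ({i} : Finset ι) ⊆ zs v (h k) univ}, Submodule.span ℝ {y k}) ≤
          Submodule.span ℝ (y '' {k | y k ⬝ᵥ x i = 0}) := by
        refine iSup₂_le fun k hk' => ?_
        rw [Submodule.span_singleton_le_iff_mem]
        refine Submodule.subset_span ⟨k, ?_, rfl⟩
        show y k ⬝ᵥ x i = 0
        rw [dotProduct_comm]
        exact (Cfg.zero_iff hS i k).1 (mem_zs.1 (Finset.singleton_subset_iff.1 hk')).2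
      have h3 := Submodule.finrank_mono h2
      have hrk0 : rk v (∅ : Finset ι) = 0 := by
        rw [rk, Finset.coe_empty, Set.image_empty, Submodule.span_empty, finrank_bot]
      have h4 : rk v ({i} : Finset ι) ≤ 1 := by
        have h5 := rk_insert_le v ∅ i
        rw [hrk0] at h5
        simpa using h5
      have h5 := C.rank
      omega
  · refine sum_pow_finrank_le h (fun i => Module.Dual.eval ℝ E (v i)) ?_ ?_ ?_ y x ?_ hy (53 / 100)
      (by norm_num)
    · intro i g hg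
      refine exists_mul_of_facet h (Module.Dual.eval ℝ E (v i)) g ?_ hg
      rw [C.dual.fac i, C.dual.rank]
    · intro i j hij
      apply C.dual.inj
      ext k
      simp only [mem_zs, Finset.mem_univ, true_and]
      exact hij k
    · intro i
      exact C.exists_ne i
    · intro k i
      show h k (v i) = _
      rw [hS, dotProduct_comm]

/-- Both bounds. -/
theorem card_le (hcomb : Combine) {n : ℕ} {ι κ E : Type} [Fintype ι] [Fintype κ]
    [DecidableEq ι] [DecidableEq κ] [AddCommGroup E] [Module ℝ E] [FiniteDimensional ℝ E]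
    (v : ι → E) (h : κ → Module.Dual ℝ E) (C : Cfg v h n) (P : PsdFac v h n) :
    (Fintype.card ι : ℝ) ≤ (29 / 10) ^ n ∧ (Fintype.card κ : ℝ) ≤ (29 / 10) ^ n :=
  ⟨card_vert_le hcomb n ι κ E v h C P,
    card_vert_le hcomb n κ ι (Module.Dual ℝ E) h _ C.dual P.swap⟩

end Pool.Agent.Helper73.Psd
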