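import Mathlib
import Pool.Agent.Helper73.PsdCountT

/-!
# The weighted count in a subspace
-/

namespace Pool.Agent.Helper73.Psd

open Finset Matrix

set_option maxHeartbeats 400000

/-- The weighted count for the points in a subspace `W`. -/
theorem sum_pow_finrank_le_sub {ι κ : Type*} [Fintype ι] [Fintype κ] {n : ℕ}
    {E : Type*} [AddCommGroup E] [Module ℝ E]
    (v : ι → E) (h : κ → Module.Dual ℝ E)
    (hfac : ∀ k (g : Module.Dual ℝ E), (∀ i, h k (v i) = 0 → g (v i) = 0) →
      ∃ c : ℝ, ∀ i, g (v i) = c * h k (v i))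
    (hinj : ∀ k l, (∀ i, h k (v i) = 0 ↔ h l (v i) = 0) → k = l)
    (hne : ∀ k, ∃ i, h k (v i) ≠ 0)
    (x : ι → Fin n → ℝ) (y : κ → Fin n → ℝ)
    (hS : ∀ i k, h k (v i) = (x i ⬝ᵥ y k) ^ 2)
    (hspan : Submodule.span ℝ (Set.range x) = ⊤) (W : Submodule ℝ (Fin n → ℝ)) (S : Finset κ)
    (hW : ∀ k ∈ S, y k ∈ W) (a : ℝ) (ha : 0 < a) :
    2 * ∑ k ∈ S, a ^ Module.finrank ℝ ↥(Tsub x (y k) ⊓ W) + a ^ Module.finrank ℝ W ≤
      (2 + a) ^ Module.finrank ℝ W := by
  classical
  let β : Module.Basis (Fin (Module.finrank ℝ W)) ℝ W := Module.finBasis ℝ W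
  let x' : ι → Fin (Module.finrank ℝ W) → ℝ := fun i l => x i ⬝ᵥ (β l : Fin n → ℝ)
  have hx' : ∀ i (z : W), x' i ⬝ᵥ (β.repr z) = x i ⬝ᵥ (z : Fin n → ℝ) := by
    intro i z
    have h1 : (z : Fin n → ℝ) = ∑ l, β.repr z l • (β l : Fin n → ℝ) := by
      have h2 := congrArg Subtype.val (β.sum_repr z)
      rw [AddSubmonoidClass.coe_finset_sum] at h2
      exact h2.symm
    rw [h1, dotProduct_sum, dotProduct]
    refine Finset.sum_congr rfl fun l _ => ?_
    rw [dotProduct_smul, smul_eq_mul, mul_comm]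
  let y' : {k // k ∈ S} → Fin (Module.finrank ℝ W) → ℝ := fun k => β.repr ⟨y k, hW k k.2⟩
  have hxy : ∀ i k, x' i ⬝ᵥ y' k = x i ⬝ᵥ y k := fun i k => hx' i ⟨y k, hW k k.2⟩
  have hspan' : Submodule.span ℝ (Set.range x') = ⊤ := by
    by_contra hcon
    obtain ⟨f, hf0, hf⟩ := Submodule.exists_le_ker_of_lt_top _ (lt_top_iff_ne_top.2 hcon)
    apply hf0
    have hfz : ∀ u, f u = ∑ l, u l * f (Pi.single l 1) := by
      intro u
      conv_lhs => rw [← LinearMap.sum_single_apply
        (φ := fun _ : Fin (Module.finrank ℝ W) => ℝ) u]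
      rw [map_sum]
      refine Finset.sum_congr rfl fun j _ => ?_
      have h2 : (Pi.single j (u j) : Fin (Module.finrank ℝ W) → ℝ) =
          u j • Pi.single j (1 : ℝ) := by
        rw [← Pi.single_smul, smul_eq_mul, mul_one]
      rw [h2, map_smul, smul_eq_mul]
    let z : W := β.equivFun.symm fun l => f (Pi.single l 1)
    have hz : ∀ l, β.repr z l = f (Pi.single l 1) := by
      intro l
      have h1 := β.equivFun.apply_symm_apply fun l => f (Pi.single l 1)
      exact congrFun h1 l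
    have h1 : ∀ i, x i ⬝ᵥ (z : Fin n → ℝ) = 0 := by
      intro i
      rw [← hx' i z, dotProduct]
      have h2 : f (x' i) = 0 := hf (Submodule.subset_span ⟨i, rfl⟩)
      rw [hfz] at h2
      rw [← h2]
      exact Finset.sum_congr rfl fun l _ => by rw [hz]
    have h3 : (z : Fin n → ℝ) = 0 := by
      apply dotProduct_eq_zero
      intro u
      have h4 : u ∈ Submodule.span ℝ (Set.range x) := by rw [hspan]; exact Submodule.mem_top
      have h5 : Submodule.span ℝ (Set.range x) ≤
          LinearMap.ker (dotProductBilin ℝ ℝ (z : Fin n → ℝ)) := by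
        rw [Submodule.span_le]
        rintro _ ⟨i, rfl⟩
        show (z : Fin n → ℝ) ⬝ᵥ x i = 0
        rw [dotProduct_comm]
        exact h1 i
      exact h5 h4
    have h6 : z = 0 := Subtype.ext h3
    apply LinearMap.ext
    intro u
    rw [hfz, LinearMap.zero_apply]
    refine Finset.sum_eq_zero fun l _ => ?_
    rw [← hz, h6, map_zero, Finsupp.zero_apply, mul_zero]
  have hdim : ∀ k : {k // k ∈ S}, Module.finrank ℝ (Tsub x' (y' k)) =
      Module.finrank ℝ ↥(Tsub x (y k) ⊓ W) := by
    intro k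
    have h1 : (Tsub x' (y' k)).comap β.equivFun.toLinearMap =
        (Tsub x (y k) ⊓ W).comap W.subtype := by
      ext z
      constructor
      · intro hz
        refine ⟨fun i hi => ?_, z.2⟩
        have h2 := hz i (by rw [hxy]; exact hi)
        exact (hx' i z).symm.trans h2
      · intro hz i hi
        rw [hxy] at hi
        have h2 := hz.1 i hi
        exact (hx' i z).trans h2
    have h2 : Module.finrank ℝ ((Tsub x' (y' k)).comap β.equivFun.toLinearMap) =
        Module.finrank ℝ (Tsub x' (y' k)) :=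
      (β.equivFun.submoduleMap _).finrank_eq.trans (by
        rw [Submodule.map_comap_eq_of_surjective β.equivFun.surjective])
    have h3 : Module.finrank ℝ ((Tsub x (y k) ⊓ W).comap W.subtype) =
        Module.finrank ℝ ↥(Tsub x (y k) ⊓ W) := by
      rw [← Submodule.finrank_map_subtype_eq W, Submodule.map_comap_subtype, inf_comm W, inf_assoc,
        inf_idem]
    rw [← h2, h1, h3]
  have h1 := sum_pow_finrank_le (κ := {k // k ∈ S}) v (fun k => h k) (fun k g hg => hfac k g hg)
    (fun k l hkl => Subtype.ext (hinj k l hkl)) (fun k => hne k) x' y'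
    (fun i k => by rw [hxy]; exact hS i k) hspan' a ha
  have h2 : ∑ k : {k // k ∈ S}, a ^ Module.finrank ℝ (Tsub x' (y' k)) =
      ∑ k ∈ S, a ^ Module.finrank ℝ ↥(Tsub x (y k) ⊓ W) := by
    rw [← Finset.sum_coe_sort S]
    exact Finset.sum_congr rfl fun k _ => by rw [hdim]
  rw [h2] at h1
  exact h1

end Pool.Agent.Helper73.Psd
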