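import Mathlib
import Pool.Agent.Helper73.PsdInd
import Pool.Agent.Helper73.PsdSub

/-!
# From the abstract bound to configurations
-/

namespace Pool.Agent.Helper73.Psd

open Finset Matrix

set_option linter.unusedSectionVars false
set_option maxHeartbeats 400000

namespace Cfg

variable {ι κ E : Type} [Fintype ι] [Fintype κ] [DecidableEq ι] [DecidableEq κ] [AddCommGroup E]
  [Module ℝ E] [FiniteDimensional ℝ E] {v : ι → E} {h : κ → Module.Dual ℝ E} {n : ℕ}

/-- The vertices of a facet determine the vector of the facet. -/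
theorem F1 (C : Cfg v h n) {x : ι → Fin n → ℝ} {y : κ → Fin n → ℝ}
    (hS : ∀ i k, h k (v i) = (x i ⬝ᵥ y k) ^ 2) (k : κ) (z : Fin n → ℝ)
    (hz : ∀ i, x i ⬝ᵥ y k = 0 → x i ⬝ᵥ z = 0) : ∃ c : ℝ, z = c • y k := by
  let T := zs v (h k) univ
  let U := Submodule.span ℝ (x '' (T : Set ι))
  have hU : Module.finrank ℝ U + 1 = n := by
    rw [C.finrank_face hS T (C.facet_face k)]
    exact C.fac k
  have horth : ∀ w : Fin n → ℝ, (∀ i, x i ⬝ᵥ y k = 0 → x i ⬝ᵥ w = 0) → ∀ u ∈ U, u ⬝ᵥ w = 0 := by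
    intro w hw u hu
    have h1 : U ≤ LinearMap.ker (dotProductBilin ℝ ℝ w) := by
      rw [Submodule.span_le]
      rintro _ ⟨i, hi, rfl⟩
      show w ⬝ᵥ x i = 0
      rw [dotProduct_comm]
      exact hw i ((zero_iff hS i k).1 (mem_zs.1 hi).2)
    have h2 : w ⬝ᵥ u = 0 := h1 hu
    rw [dotProduct_comm]
    exact h2
  have hyk : y k ≠ 0 := by
    intro hk
    obtain ⟨i, hi⟩ := C.exists_ne' k
    apply hi
    rw [zero_iff hS, hk, dotProduct_zero]
  have hyU : y k ∉ U := by
    intro hcon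
    exact hyk (dotProduct_self_eq_zero.1 (horth (y k) (fun i hi => hi) _ hcon))
  have htop : U ⊔ Submodule.span ℝ {y k} = ⊤ := by
    apply Submodule.eq_top_of_finrank_eq
    have h1 : U < U ⊔ Submodule.span ℝ {y k} := by
      refine lt_of_le_of_ne le_sup_left fun heq => hyU ?_
      rw [heq]
      exact (le_sup_right : Submodule.span ℝ {y k} ≤ _) (Submodule.mem_span_singleton_self _)
    have h2 := Submodule.finrank_lt_finrank_of_lt h1
    have h3 := Submodule.finrank_le (U ⊔ Submodule.span ℝ {y k})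
    rw [Module.finrank_fintype_fun_eq_card, Fintype.card_fin] at h3 ⊢
    omega
  have hzt : z ∈ U ⊔ Submodule.span ℝ {y k} := by rw [htop]; exact Submodule.mem_top
  obtain ⟨u, hu, w, hw, huw⟩ := Submodule.mem_sup.1 hzt
  obtain ⟨c, rfl⟩ := Submodule.mem_span_singleton.1 hw
  refine ⟨c, ?_⟩
  have h1 : u ⬝ᵥ u = 0 := by
    have h2 : u = z - c • y k := by rw [← huw]; abel
    conv_lhs => arg 2; rw [h2]
    rw [dotProduct_sub, dotProduct_smul, horth z hz u hu, horth (y k) (fun i hi => hi) u hu]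
    simp
  rw [dotProduct_self_eq_zero.1 h1, zero_add] at huw
  exact huw.symm

/-- An abstract bound `f` for the counted index of a rank one factorization gives the bound for the
facets and the vertices. -/
theorem card_le_of (f : ℕ → ℝ)
    (hf : ∀ (ι κ : Type) [Fintype ι] [Fintype κ] (n : ℕ) (E : Type) [AddCommGroup E] [Module ℝ E]
      (v : ι → E) (h : κ → Module.Dual ℝ E)
      (_ : ∀ k (g : Module.Dual ℝ E), (∀ i, h k (v i) = 0 → g (v i) = 0) →
        ∃ c : ℝ, ∀ i, g (v i) = c * h k (v i))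
      (_ : ∀ k l, (∀ i, h k (v i) = 0 ↔ h l (v i) = 0) → k = l)
      (_ : ∀ k, ∃ i, h k (v i) ≠ 0)
      (x : ι → Fin n → ℝ) (y : κ → Fin n → ℝ)
      (_ : ∀ i k, h k (v i) = (x i ⬝ᵥ y k) ^ 2)
      (_ : Submodule.span ℝ (Set.range x) = ⊤)
      (_ : ∀ k z, (∀ i, x i ⬝ᵥ y k = 0 → x i ⬝ᵥ z = 0) → ∃ c : ℝ, z = c • y k),
      (Fintype.card κ : ℝ) ≤ f n)
    (C : Cfg v h n) (P : PsdFac v h n) :
    (Fintype.card κ : ℝ) ≤ f n ∧ (Fintype.card ι : ℝ) ≤ f n := by
  have main : ∀ (ι κ E : Type) [Fintype ι] [Fintype κ] [DecidableEq ι] [DecidableEq κ]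
      [AddCommGroup E] [Module ℝ E] [FiniteDimensional ℝ E] (v : ι → E)
      (h : κ → Module.Dual ℝ E) (_ : Cfg v h n) (_ : PsdFac v h n),
      (Fintype.card κ : ℝ) ≤ f n := by
    intro ι κ E _ _ _ _ _ _ _ v h C P
    obtain ⟨x, y, hS, hx, hy⟩ := C.rank_one P
    refine hf ι κ n E v h ?_ ?_ C.exists_ne' x y hS hx ?_
    · intro k g hg
      exact exists_mul_of_facet v (h k) g ((C.fac k).trans C.rank.symm) hg
    · intro k l hkl
      apply C.inj
      ext i
      simp only [mem_zs, Finset.mem_univ, true_and]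
      exact hkl i
    · intro k z hz
      exact C.F1 hS k z hz
  exact ⟨main ι κ E v h C P, main κ ι (Module.Dual ℝ E) h _ C.dual P.swap⟩

end Cfg

end Pool.Agent.Helper73.Psd
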