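import Mathlib
import Pool.Agent.Helper73.PsdRankOne

/-!
# Geometry: from polytopes to the homogenised configuration
-/

namespace Pool.Agent.Helper73.Psd

open Finset

set_option linter.unusedSectionVars false

section homog

variable {X : Type*} [AddCommGroup X] [Module ℝ X] [FiniteDimensional ℝ X]

theorem finrank_span_homog (S : Set X) (hS : S.Nonempty) :
    Module.finrank ℝ (Submodule.span ℝ ((fun x : X => (x, (1 : ℝ))) '' S)) =
      Module.finrank ℝ (vectorSpan ℝ S) + 1 := by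
  obtain ⟨x0, hx0⟩ := hS
  have hspan : Submodule.span ℝ ((fun x : X => (x, (1 : ℝ))) '' S) =
      (vectorSpan ℝ S).map (LinearMap.inl ℝ X ℝ) ⊔ Submodule.span ℝ {(x0, (1 : ℝ))} := by
    apply le_antisymm
    · rw [Submodule.span_le]
      rintro _ ⟨x, hx, rfl⟩
      have h1 : ((x, (1 : ℝ)) : X × ℝ) = (x - x0, 0) + (x0, 1) := by
        ext <;> simp
      show ((x, (1 : ℝ)) : X × ℝ) ∈ _
      rw [h1]
      refine Submodule.add_mem_sup ?_ (Submodule.mem_span_singleton_self _)
      exact ⟨x - x0, vsub_mem_vectorSpan ℝ hx hx0, rfl⟩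
    · rw [sup_le_iff]
      constructor
      · rw [vectorSpan_def, Submodule.map_span, Submodule.span_le]
        rintro _ ⟨_, ⟨x, hx, y, hy, rfl⟩, rfl⟩
        have h1 : (LinearMap.inl ℝ X ℝ) (x -ᵥ y) = (x, (1 : ℝ)) - (y, (1 : ℝ)) := by
          ext <;> simp
        show (LinearMap.inl ℝ X ℝ) (x -ᵥ y) ∈ _
        rw [h1]
        exact Submodule.sub_mem _ (Submodule.subset_span ⟨x, hx, rfl⟩)
          (Submodule.subset_span ⟨y, hy, rfl⟩)
      · rw [Submodule.span_singleton_le_iff_mem]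
        exact Submodule.subset_span ⟨x0, hx0, rfl⟩
  rw [hspan]
  have hinf : (vectorSpan ℝ S).map (LinearMap.inl ℝ X ℝ) ⊓
      Submodule.span ℝ {((x0, (1 : ℝ)) : X × ℝ)} = ⊥ := by
    rw [eq_bot_iff]
    rintro _ ⟨⟨w, _, rfl⟩, hz2⟩
    obtain ⟨c, hc⟩ := Submodule.mem_span_singleton.1 hz2
    have h1 := congrArg Prod.snd hc
    simp only [Prod.smul_snd, smul_eq_mul, mul_one, LinearMap.inl_apply] at h1
    rw [h1, zero_smul] at hc
    rw [← hc]
    exact Submodule.zero_mem _
  have h1 := Submodule.finrank_sup_add_finrank_inf_eq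
    ((vectorSpan ℝ S).map (LinearMap.inl ℝ X ℝ)) (Submodule.span ℝ {((x0, (1 : ℝ)) : X × ℝ)})
  rw [hinf, finrank_bot, add_zero] at h1
  rw [h1, finrank_span_singleton (by
    intro hcon
    have := congrArg Prod.snd hcon
    simp at this)]
  congr 1
  exact (Submodule.equivMapOfInjective (LinearMap.inl ℝ X ℝ)
    LinearMap.inl_injective (vectorSpan ℝ S)).finrank_eq.symm

theorem vectorSpan_convexHull (S : Set X) : vectorSpan ℝ (convexHull ℝ S) = vectorSpan ℝ S := by
  rw [← direction_affineSpan, affineSpan_convexHull, direction_affineSpan]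

/-- A point of a convex hull at which a nonnegative affine function vanishes lies in the convex
hull of the zeros of the function. -/
theorem mem_convexHull_zeros (S : Set X) (f : Module.Dual ℝ X) (c : ℝ)
    (hf : ∀ s ∈ S, 0 ≤ c - f s) (x : X) (hx : x ∈ convexHull ℝ S) (hx0 : c - f x = 0) :
    x ∈ convexHull ℝ {s ∈ S | c - f s = 0} := by
  rw [_root_.convexHull_eq] at hx
  obtain ⟨ι, t, w, z, hw0, hw1, hz, hcm⟩ := hx
  have hx' : x = ∑ i ∈ t, w i • z i := by
    rw [← hcm, Finset.centerMass_eq_of_sum_1 _ _ hw1]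
  have h1 : ∑ i ∈ t, w i * (c - f (z i)) = 0 := by
    have h2 : ∑ i ∈ t, w i * (c - f (z i)) = (∑ i ∈ t, w i) * c - f (∑ i ∈ t, w i • z i) := by
      rw [map_sum, Finset.sum_mul, ← Finset.sum_sub_distrib]
      refine Finset.sum_congr rfl fun i _ => ?_
      rw [map_smul, smul_eq_mul]; ring
    rw [h2, hw1, ← hx', one_mul, hx0]
  have h3 : ∀ i ∈ t, w i * (c - f (z i)) = 0 :=
    (Finset.sum_eq_zero_iff_of_nonneg fun i hi => mul_nonneg (hw0 i hi) (hf _ (hz i hi))).1 h1
  classical
  have h4 : x = ∑ i ∈ t.filter (fun i => w i ≠ 0), w i • z i := by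
    rw [hx', Finset.sum_filter_of_ne]
    intro i _ hne hcon
    exact hne (by rw [hcon, zero_smul])
  have h5 : ∑ i ∈ t.filter (fun i => w i ≠ 0), w i = 1 := by
    rw [← hw1, Finset.sum_filter_of_ne]
    intro i _ hne
    exact hne
  rw [h4]
  refine (convex_convexHull ℝ _).sum_mem (fun i hi => hw0 i (Finset.mem_filter.1 hi).1) h5 ?_
  intro i hi
  obtain ⟨hit, hwi⟩ := Finset.mem_filter.1 hi
  refine subset_convexHull ℝ _ ⟨hz i hit, ?_⟩
  rcases mul_eq_zero.1 (h3 i hit) with h6 | h6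
  · exact absurd h6 hwi
  · exact h6

end homog

section polytope

variable {d : ℕ}

/-- The convex hull of the extreme points of the convex hull of a finite set. -/
theorem convexHull_extremePoints {P : Set (EuclideanSpace ℝ (Fin d))}
    (hP : ∃ V : Set (EuclideanSpace ℝ (Fin d)), V.Finite ∧ P = convexHull ℝ V) :
    (P.extremePoints ℝ).Finite ∧ convexHull ℝ (P.extremePoints ℝ) = P := by
  obtain ⟨V, hV, rfl⟩ := hP
  have hfin : ((convexHull ℝ V).extremePoints ℝ).Finite :=
    hV.subset extremePoints_convexHull_subset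
  refine ⟨hfin, ?_⟩
  have h1 := closure_convexHull_extremePoints (hV.isCompact_convexHull (𝕜 := ℝ))
    (convex_convexHull ℝ V)
  rwa [(hfin.isCompact_convexHull (𝕜 := ℝ)).isClosed.closure_eq] at h1

/-- Vertices are exposed. -/
theorem exists_exposing {P : Set (EuclideanSpace ℝ (Fin d))}
    (hfin : (P.extremePoints ℝ).Finite) (hP : convexHull ℝ (P.extremePoints ℝ) = P)
    (x : EuclideanSpace ℝ (Fin d)) (hx : x ∈ P.extremePoints ℝ) :
    ∃ f : EuclideanSpace ℝ (Fin d) →L[ℝ] ℝ, ∀ y ∈ P.extremePoints ℝ, y ≠ x → f x < f y := by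
  have hconv : Convex ℝ P := by rw [← hP]; exact convex_convexHull ℝ _
  have h1 := (hconv.mem_extremePoints_iff_mem_sdiff_convexHull_sdiff).1 hx
  have h2 : x ∉ convexHull ℝ (P.extremePoints ℝ \ {x}) := fun hcon =>
    h1.2 (convexHull_mono (Set.sdiff_subset_sdiff_left extremePoints_subset) hcon)
  have hcl : IsClosed (convexHull ℝ (P.extremePoints ℝ \ {x})) :=
    ((hfin.subset Set.sdiff_subset).isCompact_convexHull (𝕜 := ℝ)).isClosed
  obtain ⟨f, u, hfu, hf⟩ := geometric_hahn_banach_point_closed (convex_convexHull ℝ _) hcl h2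
  exact ⟨f, fun y hy hne => hfu.trans (hf y (subset_convexHull ℝ _ ⟨hy, hne⟩))⟩

end polytope

end Pool.Agent.Helper73.Psd
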