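import Mathlib
import Pool.Agent.Helper73.PsdRankOne

/-!
# Polytopes whose non-incidence matrix has rank `d + 1`
-/

namespace Pool.Agent.Helper73.Psd

open Finset

/-- A subspace of dimension at most `m` of `ι → ℝ` contains at most `2 ^ m` zero-one vectors. -/
theorem card_zero_one_le {ι κ : Type*} [Fintype ι] [Fintype κ] (W : Submodule ℝ (ι → ℝ)) (m : ℕ)
    (hW : Module.finrank ℝ W ≤ m) (w : κ → ι → ℝ) (hw : ∀ k, w k ∈ W)
    (h01 : ∀ k i, w k i = 0 ∨ w k i = 1) (hinj : Function.Injective w) :
    Fintype.card κ ≤ 2 ^ m := by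
  classical
  -- evaluation functionals span the dual
  let ev : ι → Module.Dual ℝ W := fun i => (LinearMap.proj i).comp W.subtype
  have hspan : Submodule.span ℝ (Set.range ev) = ⊤ := by
    have h1 : (Submodule.span ℝ (Set.range ev)).dualCoannihilator = ⊥ := by
      rw [eq_bot_iff]
      intro x hx
      rw [Submodule.mem_dualCoannihilator] at hx
      rw [Submodule.mem_bot]
      apply Subtype.ext
      funext i
      exact hx (ev i) (Submodule.subset_span ⟨i, rfl⟩)
    have h2 := Subspace.finrank_dualCoannihilator_eq (Φ := Submodule.span ℝ (Set.range ev))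
    have h3 := Subspace.finrank_add_finrank_dualCoannihilator_eq (Submodule.span ℝ (Set.range ev))
    rw [h1, finrank_bot, add_zero] at h3
    apply Submodule.eq_top_of_finrank_eq
    rw [h3, Subspace.dual_finrank_eq]
  let B0 := Module.Basis.ofSpan hspan.ge
  have : Fintype (((linearIndepOn_empty ℝ (id : Module.Dual ℝ W → Module.Dual ℝ W)).extend
    (Set.empty_subset (Set.range ev)))) := FiniteDimensional.fintypeBasisIndex B0
  have hcard : Fintype.card _ = Module.finrank ℝ W :=
    (Module.finrank_eq_card_basis B0).symm.trans Subspace.dual_finrank_eq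
  let e := Fintype.equivFinOfCardEq hcard
  have hmem : ∀ j : Fin (Module.finrank ℝ W), ∃ i, ev i = B0.reindex e j := by
    intro j
    rw [Module.Basis.reindex_apply]
    exact Module.Basis.ofSpan_subset hspan.ge ⟨_, rfl⟩
  choose b hb using hmem
  let f : κ → Fin (Module.finrank ℝ W) → Bool := fun k j => decide (w k (b j) = 1)
  have hf : Function.Injective f := by
    intro k l hkl
    apply hinj
    have h1 : (⟨w k, hw k⟩ : W) = ⟨w l, hw l⟩ := by
      have h2 : ∀ φ : Module.Dual ℝ W, φ (⟨w k, hw k⟩ - ⟨w l, hw l⟩) = 0 := by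
        intro φ
        rw [← (B0.reindex e).sum_repr φ, LinearMap.sum_apply]
        refine Finset.sum_eq_zero fun j _ => ?_
        rw [LinearMap.smul_apply, ← hb j]
        have h3 : ev (b j) (⟨w k, hw k⟩ - ⟨w l, hw l⟩) = w k (b j) - w l (b j) := rfl
        have h4 : w k (b j) = w l (b j) := by
          have h5 := congrFun hkl j
          simp only [f, decide_eq_decide] at h5
          rcases h01 k (b j) with h6 | h6 <;> rcases h01 l (b j) with h7 | h7
          · rw [h6, h7]
          · rw [h6, h7] at h5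
            exact absurd (h5.2 rfl) zero_ne_one
          · rw [h6, h7] at h5
            exact absurd (h5.1 rfl) zero_ne_one
          · rw [h6, h7]
        rw [h3, h4, sub_self, smul_zero]
      have h8 := (Module.forall_dual_apply_eq_zero_iff ℝ
        ((⟨w k, hw k⟩ : W) - ⟨w l, hw l⟩)).1 h2
      exact sub_eq_zero.1 h8
    exact congrArg Subtype.val h1
  have h9 := Fintype.card_le_of_injective f hf
  rw [Fintype.card_fun, Fintype.card_bool, Fintype.card_fin] at h9
  exact h9.trans (Nat.pow_le_pow_right (by norm_num) hW)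

theorem exists_smul_of_finrank_le_one {V : Type*} [AddCommGroup V] [Module ℝ V]
    [FiniteDimensional ℝ V] (U : Submodule ℝ V) (hU : Module.finrank ℝ U ≤ 1) (a c : V)
    (ha : a ∈ U) (hc : c ∈ U) (ha0 : a ≠ 0) : ∃ r : ℝ, c = r • a := by
  have h1 : Submodule.span ℝ {a} = U := by
    apply Submodule.eq_of_le_of_finrank_le
    · rwa [Submodule.span_singleton_le_iff_mem]
    · rw [finrank_span_singleton ha0]
      exact hU
  rw [← h1] at hc
  obtain ⟨r, hr⟩ := Submodule.mem_span_singleton.1 hc
  exact ⟨r, hr.symm⟩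

theorem finrank_pos_of_mem {V : Type*} [AddCommGroup V] [Module ℝ V]
    [FiniteDimensional ℝ V] (U : Submodule ℝ V) (a : V) (ha : a ∈ U) (ha0 : a ≠ 0) :
    0 < Module.finrank ℝ U := by
  have h1 : Submodule.span ℝ {a} ≤ U := by rwa [Submodule.span_singleton_le_iff_mem]
  have h2 := Submodule.finrank_mono h1
  rw [finrank_span_singleton ha0] at h2
  omega

/-- **Main abstract bound** for zero-one non-incidence matrices of minimal rank. -/
theorem card_le_two_pow_of_support {ι κ : Type*} [Fintype ι] [Fintype κ] [DecidableEq ι]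
    {n : ℕ} {E : Type*} [AddCommGroup E] [Module ℝ E] [FiniteDimensional ℝ E]
    (v : ι → E) (h : κ → Module.Dual ℝ E) (hrank : rk v univ = n + 1)
    (hpos : ∃ g0 : Module.Dual ℝ E, ∀ i, 0 < g0 (v i))
    (hk : ∀ k, (∀ i, 0 ≤ h k (v i)) ∧ rk v (zs v (h k) univ) + 1 = rk v univ)
    (hfacet : ∀ g : Module.Dual ℝ E, (∀ i, 0 ≤ g (v i)) → rk v (zs v g univ) + 1 = rk v univ →
      ∃ k, zs v (h k) univ = zs v g univ)
    (hinj : ∀ k l, zs v (h k) univ = zs v (h l) univ → k = l)
    (N : κ → ι → ℝ) (hN : ∀ k i, (N k i = 0 ∧ h k (v i) = 0) ∨ (N k i = 1 ∧ h k (v i) ≠ 0))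
    (Csp : Submodule ℝ (ι → ℝ)) (hNC : ∀ k, N k ∈ Csp) (hC : Module.finrank ℝ Csp = n + 1) :
    Fintype.card κ ≤ 2 ^ n := by
  classical
  rcases isEmpty_or_nonempty κ with hκ | ⟨⟨k0⟩⟩
  · rw [Fintype.card_eq_zero]; exact Nat.zero_le _
  have hN0 : ∀ k i, N k i = 0 ↔ h k (v i) = 0 := by
    intro k i
    rcases hN k i with ⟨h1, h2⟩ | ⟨h1, h2⟩
    · simp [h1, h2]
    · simp [h1, h2]
  have hN01 : ∀ k i, N k i = 0 ∨ N k i = 1 := by
    intro k i
    rcases hN k i with ⟨h1, h2⟩ | ⟨h1, h2⟩
    · exact Or.inl h1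
    · exact Or.inr h1
  let Nc : κ → Csp := fun k => ⟨N k, hNC k⟩
  let ev : ι → Module.Dual ℝ Csp := fun i => (LinearMap.proj i).comp Csp.subtype
  have hev : ∀ i k, ev i (Nc k) = N k i := fun i k => rfl
  let T0 : Finset ι := zs v (h k0) univ
  have h1 := rk_le_finrank v h hpos hfacet (fun i => Submodule.span ℝ {ev i})
    (fun k => LinearMap.ker (Module.Dual.eval ℝ Csp (Nc k))) (fun i k => by
      rw [Submodule.span_singleton_le_iff_mem, LinearMap.mem_ker, Module.Dual.eval_apply, hev,
        hN0]) _ T0 rfl ⟨h k0, (hk k0).1, rfl⟩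
  let U0 : Submodule ℝ (Module.Dual ℝ Csp) := ⨆ i ∈ (T0 : Set ι), Submodule.span ℝ {ev i}
  have h2 := Subspace.finrank_add_finrank_dualCoannihilator_eq U0
  have h3 : rk v T0 + 1 = n + 1 := by rw [← hrank]; exact (hk k0).2
  have h4 : Module.finrank ℝ U0.dualCoannihilator ≤ 1 := by
    have h5 : n ≤ Module.finrank ℝ U0 := by
      have : rk v T0 ≤ Module.finrank ℝ U0 := h1
      omega
    omega
  have hmemU : ∀ c : Csp, (∀ i ∈ T0, ev i c = 0) → c ∈ U0.dualCoannihilator := by
    intro c hc
    rw [Submodule.mem_dualCoannihilator]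
    intro φ hφ
    have h6 : U0 ≤ LinearMap.ker (Module.Dual.eval ℝ Csp c) := by
      refine iSup₂_le fun i hi => ?_
      rw [Submodule.span_singleton_le_iff_mem, LinearMap.mem_ker, Module.Dual.eval_apply]
      exact hc i hi
    exact h6 hφ
  obtain ⟨i0, hi0⟩ : ∃ i0, h k0 (v i0) ≠ 0 := by
    by_contra hcon
    push Not at hcon
    have : zs v (h k0) univ = univ := by
      ext i
      simp [mem_zs, hcon]
    have h5 := (hk k0).2
    rw [this] at h5
    omega
  have hNk0 : N k0 i0 = 1 := by
    rcases hN k0 i0 with ⟨_, h5⟩ | ⟨h5, _⟩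
    · exact absurd h5 hi0
    · exact h5
  have hmem0 : Nc k0 ∈ U0.dualCoannihilator := by
    apply hmemU
    intro i hi
    rw [hev, hN0]
    exact (mem_zs.1 hi).2
  have hNc0 : Nc k0 ≠ 0 := by
    intro hcon
    have h5 := congrFun (congrArg Subtype.val hcon) i0
    rw [show ((Nc k0 : Csp) : ι → ℝ) i0 = N k0 i0 from rfl, hNk0] at h5
    exact one_ne_zero h5
  -- the kernel of the restriction to `T0` is spanned by `N k0`
  have hker : ∀ c : Csp, (∀ i ∈ T0, ev i c = 0) → ∃ r : ℝ, c = r • Nc k0 := fun c hc =>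
    exists_smul_of_finrank_le_one U0.dualCoannihilator h4 (Nc k0) c hmem0 (hmemU c hc) hNc0
  -- nested facets are equal
  have hnest : ∀ k l, (∀ i, N k i = 0 → N l i = 0) → k = l := by
    intro k l hkl
    obtain ⟨c, hc⟩ := exists_mul_of_facet v (h k) (h l) (hk k).2 (fun i hi => by
      rw [← hN0]; exact hkl i (by rw [hN0]; exact hi))
    have hc0 : c ≠ 0 := by
      rintro rfl
      have : zs v (h l) univ = univ := by
        ext i
        simp [mem_zs, hc]
      have h5 := (hk l).2
      rw [this] at h5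
      omega
    apply hinj
    ext i
    rw [mem_zs, mem_zs, hc]
    simp [hc0]
  -- restriction to `T0`
  let res : (ι → ℝ) →ₗ[ℝ] ({i // i ∈ T0} → ℝ) :=
    LinearMap.funLeft ℝ ℝ (fun i : {i // i ∈ T0} => (i : ι))
  have hresinj : Function.Injective fun k => res (N k) := by
    intro k l hkl
    have h5 : ∀ i ∈ T0, N k i = N l i := fun i hi => congrFun hkl ⟨i, hi⟩
    obtain ⟨r, hr⟩ := hker (Nc k - Nc l) (fun i hi => by
      rw [map_sub, hev, hev, h5 i hi, sub_self])
    have h6 : ∀ i, N k i - N l i = r * N k0 i := fun i => congrFun (congrArg Subtype.val hr) i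
    have h7 := h6 i0
    rw [hNk0, mul_one] at h7
    rcases hN01 k i0 with h8 | h8 <;> rcases hN01 l i0 with h9 | h9
    · have hr0 : r = 0 := by rw [← h7, h8, h9, sub_self]
      refine hnest k l fun i hi => ?_
      have := h6 i
      rw [hr0, zero_mul, hi] at this
      linarith
    · have hr0 : r = -1 := by rw [← h7, h8, h9, zero_sub]
      refine (hnest l k fun i hi => ?_).symm
      have h10 := h6 i
      rw [hr0, hi] at h10
      rcases hN01 k i with h11 | h11
      · exact h11
      · rcases hN01 k0 i with h12 | h12 <;> rw [h11, h12] at h10 <;> norm_num at h10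
    · have hr0 : r = 1 := by rw [← h7, h8, h9, sub_zero]
      refine hnest k l fun i hi => ?_
      have h10 := h6 i
      rw [hr0, hi] at h10
      rcases hN01 l i with h11 | h11
      · exact h11
      · rcases hN01 k0 i with h12 | h12 <;> rw [h11, h12] at h10 <;> norm_num at h10
    · have hr0 : r = 0 := by rw [← h7, h8, h9, sub_self]
      refine hnest k l fun i hi => ?_
      have := h6 i
      rw [hr0, zero_mul, hi] at this
      linarith
  have hdim : Module.finrank ℝ (Csp.map res) ≤ n := by
    have h5 := LinearMap.finrank_range_add_finrank_ker (res.comp Csp.subtype)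
    rw [hC, LinearMap.range_comp, Submodule.range_subtype] at h5
    have h6 : 0 < Module.finrank ℝ (LinearMap.ker (res.comp Csp.subtype)) := by
      refine finrank_pos_of_mem _ (Nc k0) ?_ hNc0
      rw [LinearMap.mem_ker]
      funext i
      show N k0 i = 0
      rw [hN0]
      exact (mem_zs.1 i.2).2
    omega
  exact card_zero_one_le (Csp.map res) n hdim (fun k => res (N k))
    (fun k => ⟨N k, hNC k, rfl⟩) (fun k i => hN01 k i) hresinj

end Pool.Agent.Helper73.Psd
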