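import Mathlib

set_option autoImplicit false

open Finset
open scoped BigOperators

namespace Pool.Agent.Helper73

/-- the group `⨁_ℕ 𝔽₅` -/
abbrev G := ℕ →₀ ZMod 5

/-- the finite subgroup of elements supported in `[0,N)` -/
noncomputable def H (N : ℕ) : Finset G := (Finset.range N).finsupp (fun _ => Finset.univ)

lemma mem_H {N : ℕ} {g : G} : g ∈ H N ↔ ∀ i, N ≤ i → g i = 0 := by
  constructor
  · intro h i hi
    rw [H, Finset.mem_finsupp_iff] at h
    by_contra hne
    have := h.1 (Finsupp.mem_support_iff.2 hne)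
    simp at this
    omega
  · intro h
    rw [H, Finset.mem_finsupp_iff]
    refine ⟨fun i hi => ?_, fun i _ => Finset.mem_univ _⟩
    rw [Finset.mem_range]
    by_contra hlt
    exact (Finsupp.mem_support_iff.1 hi) (h i (by omega))

lemma card_H (N : ℕ) : (H N).card = 5 ^ N := by
  rw [H, Finset.card_finsupp]
  simp [ZMod.card]

lemma zero_mem_H (N : ℕ) : (0 : G) ∈ H N := mem_H.2 (by simp)

lemma add_mem_H {N : ℕ} {g h : G} (hg : g ∈ H N) (hh : h ∈ H N) : g + h ∈ H N := by
  rw [mem_H] at *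
  intro i hi
  simp [hg i hi, hh i hi]

lemma neg_mem_H {N : ℕ} {g : G} (hg : g ∈ H N) : -g ∈ H N := by
  rw [mem_H] at *
  intro i hi
  simp [hg i hi]

lemma sub_mem_H {N : ℕ} {g h : G} (hg : g ∈ H N) (hh : h ∈ H N) : g - h ∈ H N := by
  rw [mem_H] at *
  intro i hi
  simp [hg i hi, hh i hi]

lemma H_mono {M N : ℕ} (h : M ≤ N) : H M ⊆ H N := by
  intro g hg
  rw [mem_H] at *
  intro i hi
  exact hg i (by omega)

/-- basis vector -/
noncomputable def e (N : ℕ) : G := Finsupp.single N 1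

lemma e_apply_self (N : ℕ) : e N N = 1 := by simp [e]
lemma e_apply_ne {N i : ℕ} (h : i ≠ N) : e N i = 0 := by
  simp [e, h.symm]

lemma e_mem_H {M N : ℕ} (h : M < N) : e M ∈ H N := by
  rw [mem_H]
  intro i hi
  exact e_apply_ne (by omega)

/-- the coset `e_N + H_N` -/
noncomputable def I (N : ℕ) : Finset G := (H N).map (addLeftEmbedding (e N))

lemma mem_I {N : ℕ} {g : G} : g ∈ I N ↔ g - e N ∈ H N := by
  simp only [I, Finset.mem_map, addLeftEmbedding_apply]
  constructor
  · rintro ⟨h, hh, rfl⟩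
    simpa using hh
  · intro h
    exact ⟨g - e N, h, by abel⟩

lemma mem_I' {N : ℕ} {g : G} : g ∈ I N ↔ g N = 1 ∧ ∀ i, N < i → g i = 0 := by
  rw [mem_I, mem_H]
  constructor
  · intro h
    refine ⟨?_, ?_⟩
    · have := h N le_rfl
      simp only [Finsupp.sub_apply, e_apply_self] at this
      exact sub_eq_zero.1 this
    · intro i hi
      have := h i hi.le
      simpa [e_apply_ne (show i ≠ N by omega)] using this
  · rintro ⟨h1, h2⟩ i hi
    rcases Nat.eq_or_lt_of_le hi with rfl | hlt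
    · simp [h1, e_apply_self]
    · simp [h2 i hlt, e_apply_ne (show i ≠ N by omega)]

lemma card_I (N : ℕ) : (I N).card = 5 ^ N := by
  simp [I, card_H]

lemma I_nonempty (N : ℕ) : (I N).Nonempty := by
  rw [← Finset.card_pos, card_I]; positivity

lemma I_subset_H {M N : ℕ} (h : M < N) : I M ⊆ H N := by
  intro g hg
  rw [mem_I] at hg
  have : g = (g - e M) + e M := by abel
  rw [this]
  exact add_mem_H (H_mono h.le hg) (e_mem_H h)

lemma add_mem_I {N : ℕ} {g h : G} (hg : g ∈ I N) (hh : h ∈ H N) : h + g ∈ I N := by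
  rw [mem_I] at *
  have : h + g - e N = h + (g - e N) := by abel
  rw [this]
  exact add_mem_H hh hg

lemma add_mem_I_iff {N : ℕ} {g h : G} (hh : h ∈ H N) : h + g ∈ I N ↔ g ∈ I N := by
  constructor
  · intro h'
    have := add_mem_I h' (neg_mem_H hh)
    simpa using this
  · exact fun hg => add_mem_I hg hh

/-- translation invariance of sums over `I N` by elements of `H N` -/
lemma sum_I_add {β : Type*} [AddCommMonoid β] {N : ℕ} {h : G} (hh : h ∈ H N) (F : G → β) :
    ∑ b ∈ I N, F (h + b) = ∑ b ∈ I N, F b := by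
  refine Finset.sum_bij' (fun b _ => h + b) (fun b _ => -h + b) ?_ ?_ ?_ ?_ ?_
  · intro b hb; exact add_mem_I hb hh
  · intro b hb; exact add_mem_I hb (neg_mem_H hh)
  · intro b _; simp
  · intro b _; simp
  · intro b _; rfl

/-- the pairing -/
noncomputable def ip (y : ℕ → ZMod 5) : G →ₗ[ZMod 5] ZMod 5 := Finsupp.linearCombination (ZMod 5) y

lemma ip_apply (y : ℕ → ZMod 5) (g : G) : ip y g = g.sum fun i a => a * y i := by
  simp [ip, Finsupp.linearCombination_apply]

lemma ip_single (y : ℕ → ZMod 5) (i : ℕ) (a : ZMod 5) : ip y (Finsupp.single i a) = a * y i := by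
  simp [ip]

lemma ip_e (y : ℕ → ZMod 5) (i : ℕ) : ip y (e i) = y i := by
  simp [e, ip_single]

lemma ip_add_left (y y' : ℕ → ZMod 5) (g : G) : ip (y + y') g = ip y g + ip y' g := by
  simp only [ip_apply, Finsupp.sum, Pi.add_apply, mul_add, Finset.sum_add_distrib]

lemma ip_neg_left (y : ℕ → ZMod 5) (g : G) : ip (-y) g = - ip y g := by
  simp only [ip_apply, Finsupp.sum, Pi.neg_apply, mul_neg, Finset.sum_neg_distrib]

lemma ip_sub_left (y y' : ℕ → ZMod 5) (g : G) : ip (y - y') g = ip y g - ip y' g := by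
  rw [sub_eq_add_neg, ip_add_left, ip_neg_left, sub_eq_add_neg]

lemma ip_zero_left (g : G) : ip 0 g = 0 := by
  simp [ip_apply]

/-- pairing on `H N` only depends on the first `N` coordinates -/
lemma ip_congr {N : ℕ} {y y' : ℕ → ZMod 5} (h : ∀ i < N, y i = y' i) {g : G} (hg : g ∈ H N) :
    ip y g = ip y' g := by
  simp only [ip_apply, Finsupp.sum]
  refine Finset.sum_congr rfl fun i hi => ?_
  have : i < N := by
    by_contra hlt
    exact (Finsupp.mem_support_iff.1 hi) (mem_H.1 hg i (by omega))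
  rw [h i this]

lemma ip_comm (c g : G) : ip (⇑c) g = ip (⇑g) c := by
  simp only [ip_apply, Finsupp.sum]
  rw [Finset.sum_subset (Finset.subset_union_left (s₂ := c.support)),
    Finset.sum_subset (Finset.subset_union_right (s₁ := g.support) (s₂ := c.support))]
  · exact Finset.sum_congr rfl fun i _ => mul_comm _ _
  · intro i _ hi
    simp [Finsupp.notMem_support_iff.1 hi]
  · intro i _ hi
    simp [Finsupp.notMem_support_iff.1 hi]

/-- the characters of `G` -/
noncomputable def χ (y : ℕ → ZMod 5) (g : G) : ℂ := ZMod.stdAddChar (ip y g)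

lemma χ_add (y : ℕ → ZMod 5) (g h : G) : χ y (g + h) = χ y g * χ y h := by
  simp [χ, AddChar.map_add_eq_mul]

lemma χ_zero (y : ℕ → ZMod 5) : χ y 0 = 1 := by
  simp [χ]

lemma χ_zero_left (g : G) : χ 0 g = 1 := by
  simp [χ, ip_zero_left]

lemma χ_add_left (y y' : ℕ → ZMod 5) (g : G) : χ (y + y') g = χ y g * χ y' g := by
  simp [χ, ip_add_left, AddChar.map_add_eq_mul]

lemma norm_χ (y : ℕ → ZMod 5) (g : G) : ‖χ y g‖ = 1 := by
  simp [χ, AddChar.norm_apply]

lemma conj_χ (y : ℕ → ZMod 5) (g : G) : (starRingEnd ℂ) (χ y g) = χ y (-g) := by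
  have h1 : χ y g * χ y (-g) = 1 := by rw [← χ_add]; simp [χ_zero]
  have h2 : χ y g * (starRingEnd ℂ) (χ y g) = 1 := by
    rw [Complex.mul_conj, Complex.normSq_eq_norm_sq, norm_χ]; simp
  have h3 : χ y g ≠ 0 := by
    intro h; rw [h] at h1; simp at h1
  exact mul_left_cancel₀ h3 (h2.trans h1.symm)

lemma conj_χ' (y : ℕ → ZMod 5) (g : G) : (starRingEnd ℂ) (χ y g) = χ (-y) g := by
  rw [conj_χ]
  simp [χ, ip_neg_left]

lemma χ_congr {N : ℕ} {y y' : ℕ → ZMod 5} (h : ∀ i < N, y i = y' i) {g : G} (hg : g ∈ H N) :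
    χ y g = χ y' g := by
  rw [χ, χ, ip_congr h hg]

lemma χ_comm (c g : G) : χ (⇑c) g = χ (⇑g) c := by
  rw [χ, χ, ip_comm]

lemma χ_single_ne {y : ℕ → ZMod 5} {i : ℕ} (h : y i ≠ 0) : χ y (Finsupp.single i 1) ≠ 1 := by
  rw [χ, ip_single, one_mul]
  intro h1
  apply h
  have hinj := ZMod.injective_stdAddChar (N := 5)
  apply hinj
  rw [h1, AddChar.map_zero_eq_one]

/-- orthogonality on `H N` -/
lemma sum_H_χ (N : ℕ) (y : ℕ → ZMod 5) :
    ∑ h ∈ H N, χ y h = if (∀ i < N, y i = 0) then (5 : ℂ) ^ N else 0 := by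
  split_ifs with hy
  · have : ∀ h ∈ H N, χ y h = 1 := by
      intro h hh
      rw [χ_congr (y' := 0) (by simpa using hy) hh, χ_zero_left]
    rw [Finset.sum_congr rfl this]
    simp [card_H]
  · push Not at hy
    obtain ⟨i, hi, hyi⟩ := hy
    have hk : (Finsupp.single i 1 : G) ∈ H N := e_mem_H hi
    have key : ∑ h ∈ H N, χ y h = χ y (Finsupp.single i 1) * ∑ h ∈ H N, χ y h := by
      rw [Finset.mul_sum]
      symm
      refine Finset.sum_bij' (fun b _ => Finsupp.single i 1 + b) (fun b _ => - Finsupp.single i 1 + b) ?_ ?_ ?_ ?_ ?_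
      · intro b hb; exact add_mem_H hk hb
      · intro b hb; exact add_mem_H (neg_mem_H hk) hb
      · intro b _; simp
      · intro b _; simp
      · intro b _; rw [χ_add]
    have h1 := χ_single_ne hyi
    have h2 : (1 - χ y (Finsupp.single i 1)) * ∑ h ∈ H N, χ y h = 0 := by
      rw [sub_mul, one_mul, ← key, sub_self]
    rcases mul_eq_zero.1 h2 with h3 | h3
    · exact absurd (sub_eq_zero.1 h3).symm h1
    · exact h3

/-- orthogonality on `I N` for characters indexed by `H N`-/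
lemma sum_I_χ (N : ℕ) {c : G} (hc : c ∈ H N) :
    ∑ x ∈ I N, χ c x = if c = 0 then (5 : ℂ) ^ N else 0 := by
  have h1 : ∑ x ∈ I N, χ c x = ∑ h ∈ H N, χ c h := by
    rw [I, Finset.sum_map]
    refine Finset.sum_congr rfl fun h _ => ?_
    rw [addLeftEmbedding_apply, χ_add]
    have : χ c (e N) = 1 := by
      rw [χ, ip_e, mem_H.1 hc N le_rfl]; simp
    rw [this, one_mul]
  rw [h1, sum_H_χ]
  have : (∀ i < N, c i = 0) ↔ c = 0 := by
    constructor
    · intro h
      ext i
      rcases lt_or_ge i N with hi | hi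
      · exact h i hi
      · exact mem_H.1 hc i hi
    · rintro rfl i _; rfl
  simp only [this]

/-- dual orthogonality -/
lemma sum_H_χ_dual (N : ℕ) {g : G} (hg : ∀ i, N ≤ i → g i = 0) :
    ∑ c ∈ H N, χ c g = if g = 0 then (5 : ℂ) ^ N else 0 := by
  have h1 : ∑ c ∈ H N, χ c g = ∑ c ∈ H N, χ g c := Finset.sum_congr rfl fun c _ => χ_comm c g
  rw [h1, sum_H_χ]
  have : (∀ i < N, g i = 0) ↔ g = 0 := by
    constructor
    · intro h
      ext i
      rcases lt_or_ge i N with hi | hi
      · exact h i hi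
      · exact hg i hi
    · rintro rfl i _; rfl
  simp only [this]

end Pool.Agent.Helper73
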