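import Pool.Agent.Helper73.SumsetA

set_option autoImplicit false

open Finset
open scoped BigOperators

namespace Pool.Agent.Helper73

/-- Fourier coefficient on `I N` -/
noncomputable def fh (N : ℕ) (f : G → ℂ) (c : G) : ℂ :=
  (∑ x ∈ I N, f x * (starRingEnd ℂ) (χ c x)) / 5 ^ N

lemma five_pow_ne (N : ℕ) : (5 : ℂ) ^ N ≠ 0 := pow_ne_zero _ (by norm_num)

/-- inversion -/
lemma inversion {N : ℕ} (f : G → ℂ) {x : G} (hx : x ∈ I N) :
    f x = ∑ c ∈ H N, fh N f c * χ c x := by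
  have h1 : ∑ c ∈ H N, fh N f c * χ c x
      = (∑ x' ∈ I N, f x' * ∑ c ∈ H N, χ c (x - x')) / 5 ^ N := by
    simp only [fh, div_mul_eq_mul_div, Finset.sum_mul, Finset.mul_sum]
    rw [← Finset.sum_div, Finset.sum_comm]
    congr 1
    refine Finset.sum_congr rfl fun x' _ => Finset.sum_congr rfl fun c _ => ?_
    rw [sub_eq_add_neg, χ_add, conj_χ]
    ring
  rw [h1]
  have h2 : ∀ x' ∈ I N, f x' * ∑ c ∈ H N, χ c (x - x') = if x' = x then f x * 5 ^ N else 0 := by
    intro x' hx'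
    have hd : ∀ i, N ≤ i → (x - x') i = 0 := by
      intro i hi
      rw [mem_I'] at hx hx'
      rcases Nat.eq_or_lt_of_le hi with rfl | hlt
      · simp [hx.1, hx'.1]
      · simp [hx.2 i hlt, hx'.2 i hlt]
    rw [sum_H_χ_dual N hd]
    by_cases h : x' = x
    · subst h; simp
    · have : x - x' ≠ 0 := fun h' => h (sub_eq_zero.1 h').symm
      simp [h, this]
  rw [Finset.sum_congr rfl h2, Finset.sum_ite_eq' (I N) x, if_pos hx,
    mul_div_assoc, div_self (five_pow_ne N), mul_one]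

/-- Parseval -/
lemma parseval {N : ℕ} {S : Finset G} (hS : S ⊆ H N) (a : G → ℂ) :
    ∑ x ∈ I N, ‖∑ c ∈ S, a c * χ c x‖ ^ 2 = 5 ^ N * ∑ c ∈ S, ‖a c‖ ^ 2 := by
  have key : ∑ x ∈ I N, ((‖∑ c ∈ S, a c * χ c x‖ ^ 2 : ℝ) : ℂ)
      = 5 ^ N * ∑ c ∈ S, ((‖a c‖ ^ 2 : ℝ) : ℂ) := by
    have h1 : ∀ x, ((‖∑ c ∈ S, a c * χ c x‖ ^ 2 : ℝ) : ℂ)
        = ∑ c ∈ S, ∑ d ∈ S, a c * (starRingEnd ℂ) (a d) * χ (c - d : G) x := by
      intro x
      rw [← Complex.normSq_eq_norm_sq, ← Complex.mul_conj, map_sum, Finset.sum_mul_sum]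
      refine Finset.sum_congr rfl fun c _ => Finset.sum_congr rfl fun d _ => ?_
      rw [map_mul, conj_χ']
      have : χ (⇑(c - d)) x = χ c x * χ (-⇑d) x := by
        rw [← χ_add_left]
        congr 1
        ext i; simp [sub_eq_add_neg]
      rw [this]; ring
    simp only [h1]
    rw [Finset.sum_comm]
    rw [Finset.mul_sum]
    refine Finset.sum_congr rfl fun c hc => ?_
    rw [Finset.sum_comm]
    have h2 : ∀ d ∈ S, ∑ x ∈ I N, a c * (starRingEnd ℂ) (a d) * χ (c - d : G) x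
        = if d = c then 5 ^ N * ((‖a c‖ ^ 2 : ℝ) : ℂ) else 0 := by
      intro d hd
      rw [← Finset.mul_sum, sum_I_χ N (sub_mem_H (hS hc) (hS hd))]
      by_cases h : d = c
      · subst h
        simp only [sub_self, if_true]
        rw [Complex.mul_conj, Complex.normSq_eq_norm_sq]; ring
      · have : c - d ≠ 0 := fun h' => h (sub_eq_zero.1 h').symm
        simp [h, this]
    rw [Finset.sum_congr rfl h2, Finset.sum_ite_eq' S c, if_pos hc]
  have := congrArg Complex.re key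
  rw [← Complex.ofReal_sum, ← Complex.ofReal_sum, Complex.ofReal_re] at this
  rw [this]
  have h5 : (5 : ℂ) ^ N = ((5 ^ N : ℝ) : ℂ) := by push_cast; rfl
  rw [h5, ← Complex.ofReal_mul, Complex.ofReal_re]

/-- Parseval for `f` -/
lemma parseval_f (N : ℕ) (f : G → ℂ) :
    ∑ x ∈ I N, ‖f x‖ ^ 2 = 5 ^ N * ∑ c ∈ H N, ‖fh N f c‖ ^ 2 := by
  rw [← parseval (Finset.Subset.refl _)]
  refine Finset.sum_congr rfl fun x hx => ?_
  rw [← inversion f hx]

/-- For `b ∈ I M` and `c ∈ H N`, the character at `b` is determined up to phase by the restriction. -/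
lemma χ_I {M : ℕ} {b : G} (hb : b ∈ I M) (c : ℕ → ZMod 5) {c' : G} (hc' : c' ∈ H M)
    (h : ∀ i < M, c i = c' i) : χ c b = χ c (e M) * χ c' b := by
  have hb' : b = (b - e M) + e M := by abel
  have hbM : b - e M ∈ H M := mem_I.1 hb
  have h1 : χ c' b = χ c' (b - e M) := by
    conv_lhs => rw [hb']
    rw [χ_add]
    have : χ c' (e M) = 1 := by
      rw [χ, ip_e, mem_H.1 hc' M le_rfl]; simp
    rw [this, mul_one]
  rw [h1]
  conv_lhs => rw [hb']
  rw [χ_add, χ_congr h hbM]; ring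

/-- truncation of a sequence to an element of `H M` -/
noncomputable def tr (M : ℕ) (y : ℕ → ZMod 5) : G :=
  Finsupp.onFinset (Finset.range M) (fun i => if i < M then y i else 0) (by
    intro i hi
    simp only [Finset.mem_range]
    by_contra h
    simp [h] at hi)

lemma tr_apply (M : ℕ) (y : ℕ → ZMod 5) (i : ℕ) : tr M y i = if i < M then y i else 0 := rfl

lemma tr_mem_H (M : ℕ) (y : ℕ → ZMod 5) : tr M y ∈ H M := by
  rw [mem_H]; intro i hi
  rw [tr_apply, if_neg (by omega)]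

lemma tr_apply_lt {M : ℕ} (y : ℕ → ZMod 5) {i : ℕ} (hi : i < M) : y i = tr M y i := by
  rw [tr_apply, if_pos hi]

/-- averaging multiplier -/
noncomputable def mult (M : ℕ) (u : G → ℝ) (c : ℕ → ZMod 5) : ℂ :=
  (∑ b ∈ I M, (u b : ℂ) * χ c b) / 5 ^ M

lemma norm_mult (M : ℕ) (u : G → ℝ) (c : ℕ → ZMod 5) :
    ‖mult M u c‖ = ‖fh M (fun b => (u b : ℂ)) (tr M c)‖ := by
  have h1 : mult M u c = χ c (e M) * (starRingEnd ℂ) (fh M (fun b => (u b : ℂ)) (tr M c)) := by
    rw [mult, fh, map_div₀, map_sum, map_pow, mul_div_assoc', Finset.mul_sum]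
    simp only [map_ofNat]
    congr 1
    refine Finset.sum_congr rfl fun b hb => ?_
    rw [map_mul, Complex.conj_conj, Complex.conj_ofReal,
      χ_I hb c (tr_mem_H M c) (fun i hi => tr_apply_lt c hi)]
    ring
  rw [h1, norm_mul, norm_χ, one_mul, RCLike.norm_conj]

end Pool.Agent.Helper73
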