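import Pool.Agent.Helper73.SumsetB

set_option autoImplicit false

open Finset
open scoped BigOperators

namespace Pool.Agent.Helper73

/-- average over a finite set -/
noncomputable def avg (s : Finset G) (g : G → ℝ) : ℝ := (∑ b ∈ s, g b) / s.card

lemma avg_nonneg {s : Finset G} {g : G → ℝ} (h : ∀ b ∈ s, 0 ≤ g b) : 0 ≤ avg s g :=
  div_nonneg (Finset.sum_nonneg h) (by positivity)

lemma avg_le_one {s : Finset G} {g : G → ℝ} (h : ∀ b ∈ s, g b ≤ 1) : avg s g ≤ 1 := by
  rcases s.eq_empty_or_nonempty with rfl | hs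
  · simp [avg]
  · rw [avg, div_le_one (by exact_mod_cast hs.card_pos)]
    calc ∑ b ∈ s, g b ≤ ∑ b ∈ s, (1 : ℝ) := Finset.sum_le_sum h
      _ = s.card := by simp

lemma avg_add (s : Finset G) (g h : G → ℝ) : avg s (fun b => g b + h b) = avg s g + avg s h := by
  simp [avg, Finset.sum_add_distrib, add_div]

lemma avg_mono {s : Finset G} {g h : G → ℝ} (H : ∀ b ∈ s, g b ≤ h b) : avg s g ≤ avg s h :=
  div_le_div_of_nonneg_right (Finset.sum_le_sum H) (by positivity)

lemma avg_congr {s : Finset G} {g h : G → ℝ} (H : ∀ b ∈ s, g b = h b) : avg s g = avg s h := by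
  rw [avg, avg, Finset.sum_congr rfl H]

lemma avg_const {s : Finset G} (hs : s.Nonempty) (c : ℝ) : avg s (fun _ => c) = c := by
  have : (s.card : ℝ) ≠ 0 := by exact_mod_cast hs.card_pos.ne'
  simp [avg, this]

lemma abs_avg_le (s : Finset G) (g : G → ℝ) : |avg s g| ≤ avg s (fun b => |g b|) := by
  rw [avg, avg, abs_div, abs_of_nonneg (show (0:ℝ) ≤ (s.card : ℝ) by positivity)]
  exact div_le_div_of_nonneg_right (Finset.abs_sum_le_sum_abs _ _) (by positivity)

/-- the finite quotient given by finitely many characters -/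
noncomputable def zz (F : Finset (ℕ → ZMod 5)) (b : G) : F → ZMod 5 := fun y => ip y.1 b

lemma zz_add (F : Finset (ℕ → ZMod 5)) (b c : G) : zz F (b + c) = zz F b + zz F c := by
  ext y; simp [zz]

lemma zz_zero (F : Finset (ℕ → ZMod 5)) : zz F 0 = 0 := by
  ext y; simp [zz]

lemma zz_neg (F : Finset (ℕ → ZMod 5)) (b : G) : zz F (-b) = - zz F b := by
  ext y; simp [zz]

lemma zz_sub (F : Finset (ℕ → ZMod 5)) (b c : G) : zz F (b - c) = zz F b - zz F c := by
  ext y; simp [zz]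

/-- members of `I M` in a given class of the finite quotient -/
noncomputable def R (F : Finset (ℕ → ZMod 5)) (M : ℕ) (v : F → ZMod 5) : Finset G :=
  (I M).filter (fun b => zz F b = v)

lemma mem_R {F : Finset (ℕ → ZMod 5)} {M : ℕ} {v : F → ZMod 5} {b : G} :
    b ∈ R F M v ↔ b ∈ I M ∧ zz F b = v := by simp [R]


lemma double_eq_iff {F : Finset (ℕ → ZMod 5)} (v : F → ZMod 5) (x : G) :
    v + v = zz F x ↔ v = zz F (x + x + x) := by
  constructor
  · intro h
    rw [zz_add, zz_add, ← h]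
    ext y
    simp only [Pi.add_apply]
    generalize v y = a
    revert a; decide
  · rintro rfl
    rw [zz_add, zz_add]
    ext y
    simp only [Pi.add_apply]
    generalize zz F x y = a
    revert a; decide

/-- key exactness: averaging over the matching class of `I M` preserves the sum over `I N` -/
lemma sum_avgR {F : Finset (ℕ → ZMod 5)} {M N : ℕ} (hMN : M < N)
    (hR : ∀ b' : G, (R F M (zz F b')).Nonempty) (g : G → ℝ) :
    ∑ b' ∈ I N, avg (R F M (zz F b')) (fun b => g (b + b')) = ∑ x ∈ I N, g x := by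
  have h1 : ∀ b' : G, avg (R F M (zz F b')) (fun b => g (b + b'))
      = ∑ b ∈ I M, if zz F b = zz F b' then g (b + b') / (R F M (zz F b)).card else 0 := by
    intro b'
    rw [avg, R, Finset.sum_filter, Finset.sum_div]
    refine Finset.sum_congr rfl fun b _ => ?_
    split_ifs with h
    · rw [h]; rfl
    · simp
  simp only [h1]
  rw [Finset.sum_comm]
  have h2 : ∀ b ∈ I M, ∑ b' ∈ I N, (if zz F b = zz F b' then g (b + b') / (R F M (zz F b)).card else 0)
      = ∑ x ∈ I N, if zz F b + zz F b = zz F x then g x / (R F M (zz F b)).card else 0 := by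
    intro b hb
    have hbN : b ∈ H N := I_subset_H hMN hb
    rw [← sum_I_add hbN (fun x => if zz F b + zz F b = zz F x then g x / (R F M (zz F b)).card else 0)]
    refine Finset.sum_congr rfl fun b' _ => ?_
    simp only [zz_add, add_right_inj]
  rw [Finset.sum_congr rfl h2, Finset.sum_comm]
  refine Finset.sum_congr rfl fun x _ => ?_
  simp only [double_eq_iff]
  rw [← Finset.sum_filter]
  have h3 : ∀ b ∈ (I M).filter (fun b => zz F b = zz F (x + x + x)),
      g x / ((R F M (zz F b)).card : ℝ) = g x / ((R F M (zz F (x + x + x))).card : ℝ) := by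
    intro b hb
    rw [(Finset.mem_filter.1 hb).2]
  rw [Finset.sum_congr rfl h3, Finset.sum_const, nsmul_eq_mul]
  have h4 : ((I M).filter (fun b => zz F b = zz F (x + x + x))) = R F M (zz F (x + x + x)) := rfl
  rw [h4]
  have h5 : ((R F M (zz F (x + x + x))).card : ℝ) ≠ 0 := by
    exact_mod_cast (hR _).card_pos.ne'
  field_simp

/-- the finite subgroup annihilated by `F` -/
noncomputable def K (F : Finset (ℕ → ZMod 5)) (M : ℕ) : Finset G :=
  (H M).filter (fun k => zz F k = 0)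

lemma mem_K {F : Finset (ℕ → ZMod 5)} {M : ℕ} {k : G} : k ∈ K F M ↔ k ∈ H M ∧ zz F k = 0 := by
  simp [K]

lemma zero_mem_K (F : Finset (ℕ → ZMod 5)) (M : ℕ) : (0 : G) ∈ K F M :=
  mem_K.2 ⟨zero_mem_H M, zz_zero F⟩

lemma sum_K_χ (F : Finset (ℕ → ZMod 5)) (M : ℕ) (c : ℕ → ZMod 5) :
    (∑ k ∈ K F M, χ c k) / ((K F M).card : ℂ) = if (∀ k ∈ K F M, χ c k = 1) then 1 else 0 := by
  have hcard : ((K F M).card : ℂ) ≠ 0 := by
    exact_mod_cast (Finset.card_pos.2 ⟨0, zero_mem_K F M⟩).ne'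
  split_ifs with h
  · rw [Finset.sum_congr rfl h]; simp [hcard]
  · push Not at h
    obtain ⟨k₀, hk₀, hne⟩ := h
    have key : ∑ k ∈ K F M, χ c k = χ c k₀ * ∑ k ∈ K F M, χ c k := by
      rw [Finset.mul_sum]
      symm
      rw [mem_K] at hk₀
      refine Finset.sum_bij' (fun b _ => k₀ + b) (fun b _ => - k₀ + b) ?_ ?_ ?_ ?_ ?_
      · intro b hb
        rw [mem_K] at hb ⊢
        exact ⟨add_mem_H hk₀.1 hb.1, by rw [zz_add, hk₀.2, hb.2, add_zero]⟩
      · intro b hb
        rw [mem_K] at hb ⊢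
        exact ⟨add_mem_H (neg_mem_H hk₀.1) hb.1, by rw [zz_add, zz_neg, hk₀.2, hb.2]; simp⟩
      · intro b _; simp
      · intro b _; simp
      · intro b _; rw [χ_add]
    have h2 : (1 - χ c k₀) * ∑ k ∈ K F M, χ c k = 0 := by
      rw [sub_mul, one_mul, ← key, sub_self]
    rcases mul_eq_zero.1 h2 with h3 | h3
    · exact absurd (sub_eq_zero.1 h3).symm hne
    · rw [h3, zero_div]

/-- structured part -/
noncomputable def f1 (F : Finset (ℕ → ZMod 5)) (M : ℕ) (f : G → ℝ) (x : G) : ℝ :=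
  avg (K F M) (fun k => f (k + x))

/-- the frequencies of the structured part -/
def IsS1 (F : Finset (ℕ → ZMod 5)) (M : ℕ) (c : ℕ → ZMod 5) : Prop := ∀ k ∈ K F M, χ c k = 1

open Classical in
lemma f1_expand {F : Finset (ℕ → ZMod 5)} {M N : ℕ} (hMN : M < N) (f : G → ℝ) {x : G} (hx : x ∈ I N) :
    ((f1 F M f x : ℝ) : ℂ) = ∑ c ∈ (H N).filter (fun c : G => IsS1 F M ⇑c),
      fh N (fun b => (f b : ℂ)) c * χ c x := by
  rw [f1, avg]
  push_cast
  have h1 : ∀ k ∈ K F M, ((f (k + x) : ℝ) : ℂ)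
      = ∑ c ∈ H N, fh N (fun b => (f b : ℂ)) c * χ c k * χ c x := by
    intro k hk
    have hkN : k ∈ H N := H_mono hMN.le (mem_K.1 hk).1
    rw [inversion (N := N) (fun b => (f b : ℂ)) (add_mem_I hx hkN)]
    refine Finset.sum_congr rfl fun c _ => ?_
    rw [χ_add]; ring
  rw [Finset.sum_congr rfl h1, Finset.sum_comm, Finset.sum_div, Finset.sum_filter]
  refine Finset.sum_congr rfl fun c _ => ?_
  have h2 : (∑ k ∈ K F M, fh N (fun b => (f b : ℂ)) c * χ c k * χ c x) / ((K F M).card : ℂ)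
      = fh N (fun b => (f b : ℂ)) c * ((∑ k ∈ K F M, χ c k) / ((K F M).card : ℂ)) * χ c x := by
    rw [← Finset.sum_mul, ← Finset.mul_sum]; ring
  rw [h2, sum_K_χ]
  unfold IsS1
  split_ifs <;> simp

lemma isS1_of_mem {F : Finset (ℕ → ZMod 5)} {M : ℕ} {c : ℕ → ZMod 5} {y : ℕ → ZMod 5} (hy : y ∈ F)
    (h : ∀ i < M, c i = y i) : IsS1 F M c := by
  intro k hk
  rw [mem_K] at hk
  rw [χ_congr h hk.1, χ]
  have : ip y k = 0 := congrFun hk.2 ⟨y, hy⟩
  rw [this]; simp

/-- Cauchy-Schwarz for averages over `I N` -/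
lemma sum_norm_le (N : ℕ) (g : G → ℂ) (B : ℝ) (hB : ∑ x ∈ I N, ‖g x‖ ^ 2 ≤ 5 ^ N * B) :
    ∑ x ∈ I N, ‖g x‖ ≤ 5 ^ N * Real.sqrt B := by
  have h1 : (∑ x ∈ I N, ‖g x‖) ^ 2 ≤ (5 ^ N : ℝ) ^ 2 * B := by
    calc (∑ x ∈ I N, ‖g x‖) ^ 2 ≤ (I N).card * ∑ x ∈ I N, ‖g x‖ ^ 2 := sq_sum_le_card_mul_sum_sq
      _ = (5 ^ N : ℝ) * ∑ x ∈ I N, ‖g x‖ ^ 2 := by rw [card_I]; push_cast; rfl
      _ ≤ (5 ^ N : ℝ) * (5 ^ N * B) := by gcongr
      _ = (5 ^ N : ℝ) ^ 2 * B := by ring
  have h2 : 0 ≤ ∑ x ∈ I N, ‖g x‖ := Finset.sum_nonneg fun _ _ => norm_nonneg _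
  have h3 := Real.sqrt_le_sqrt h1
  rw [Real.sqrt_sq h2, Real.sqrt_mul (by positivity), Real.sqrt_sq (by positivity)] at h3
  exact h3

end Pool.Agent.Helper73
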