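import Pool.Agent.Helper73.SumsetC

set_option autoImplicit false

open Finset
open scoped BigOperators

namespace Pool.Agent.Helper73

section

variable {T0 : Type} [DecidableEq T0]

/-- the type of an element -/
noncomputable def tau (F : Finset (ℕ → ZMod 5)) (τ0 : G → T0) (b : G) : T0 × (F → ZMod 5) :=
  (τ0 b, zz F b)

/-- elements of `I M` of a given type -/
noncomputable def Q (F : Finset (ℕ → ZMod 5)) (τ0 : G → T0) (M : ℕ) (t : T0 × (F → ZMod 5)) :
    Finset G :=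
  (I M).filter (fun b => tau F τ0 b = t)

lemma mem_Q {F : Finset (ℕ → ZMod 5)} {τ0 : G → T0} {M : ℕ} {t : T0 × (F → ZMod 5)} {b : G} :
    b ∈ Q F τ0 M t ↔ b ∈ I M ∧ tau F τ0 b = t := by simp [Q]

lemma Q_subset_R {F : Finset (ℕ → ZMod 5)} {τ0 : G → T0} {M : ℕ} {t : T0 × (F → ZMod 5)} :
    Q F τ0 M t ⊆ R F M t.2 := by
  intro b hb
  rw [mem_Q] at hb
  rw [mem_R]
  refine ⟨hb.1, ?_⟩
  rw [← hb.2]; rfl

/-- weights -/
noncomputable def wt (F : Finset (ℕ → ZMod 5)) (τ0 : G → T0) (M : ℕ) (t : T0 × (F → ZMod 5)) : ℝ :=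
  (Q F τ0 M t).card / 5 ^ M

lemma wt_nonneg (F : Finset (ℕ → ZMod 5)) (τ0 : G → T0) (M : ℕ) (t : T0 × (F → ZMod 5)) :
    0 ≤ wt F τ0 M t := by unfold wt; positivity

lemma wt_le_one (F : Finset (ℕ → ZMod 5)) (τ0 : G → T0) (M : ℕ) (t : T0 × (F → ZMod 5)) :
    wt F τ0 M t ≤ 1 := by
  unfold wt
  rw [div_le_one (by positivity)]
  have := Finset.card_le_card (Finset.filter_subset (fun b => tau F τ0 b = t) (I M))
  rw [card_I] at this
  exact_mod_cast this

/-- good types -/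
def Good (F : Finset (ℕ → ZMod 5)) (τ0 : G → T0) (M : ℕ) (θ θ2 : ℝ) (t : T0 × (F → ZMod 5)) : Prop :=
  θ2 * 5 ^ M ≤ ((Q F τ0 M t).card : ℝ) ∧ θ * (R F M t.2).card ≤ ((Q F τ0 M t).card : ℝ)

open Classical in
/-- the total weight of a family of types at level `N`, as a count -/
lemma count_types [Fintype T0] (F : Finset (ℕ → ZMod 5)) (τ0 : G → T0) (N : ℕ)
    (g : T0 × (F → ZMod 5) → ℝ) :
    ∑ b ∈ I N, g (tau F τ0 b) = 5 ^ N * ∑ t, wt F τ0 N t * g t := by
  have h := Finset.sum_fiberwise_of_maps_to (s := I N) (t := (Finset.univ : Finset (T0 × (F → ZMod 5))))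
    (g := tau F τ0) (fun _ _ => Finset.mem_univ _) (fun b => g (tau F τ0 b))
  rw [← h, Finset.mul_sum]
  refine Finset.sum_congr rfl fun t _ => ?_
  have h2 : ∀ b ∈ (I N).filter (fun b => tau F τ0 b = t), g (tau F τ0 b) = g t := by
    intro b hb; rw [(Finset.mem_filter.1 hb).2]
  rw [Finset.sum_congr rfl h2, Finset.sum_const, nsmul_eq_mul, wt, Q]
  field_simp

open Classical in
/-- the weight of the bad types -/
lemma bad_bound [Fintype T0] {F : Finset (ℕ → ZMod 5)} {τ0 : G → T0} {M N : ℕ} {θ θ2 κ : ℝ}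
    (hθ : 0 ≤ θ) (hθ2 : 0 ≤ θ2) (hκ0 : 0 ≤ κ)
    (hκ : ∀ t, |wt F τ0 N t - wt F τ0 M t| ≤ κ) :
    ∑ t, wt F τ0 N t * (if Good F τ0 M θ θ2 t then 0 else 1)
      ≤ Fintype.card T0 * θ + Fintype.card (T0 × (F → ZMod 5)) * θ2
        + Fintype.card (T0 × (F → ZMod 5)) * κ := by
  have h1 : ∀ t : T0 × (F → ZMod 5), wt F τ0 N t * (if Good F τ0 M θ θ2 t then 0 else 1)
      ≤ θ * ((R F M t.2).card / 5 ^ M) + θ2 + κ := by
    intro t
    have hk := abs_le.1 (hκ t)
    have hR : 0 ≤ θ * ((R F M t.2).card / 5 ^ M : ℝ) := by positivity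
    have h5 : (0 : ℝ) < 5 ^ M := by positivity
    split_ifs with hg
    · simp only [mul_zero]; linarith
    · rw [mul_one]
      have hm : wt F τ0 M t ≤ θ * ((R F M t.2).card / 5 ^ M) + θ2 := by
        unfold Good at hg
        rw [not_and_or, not_le, not_le] at hg
        rcases hg with hg | hg
        · have : wt F τ0 M t ≤ θ2 := by
            rw [wt, div_le_iff₀ h5]; exact hg.le
          linarith
        · have : wt F τ0 M t ≤ θ * ((R F M t.2).card / 5 ^ M) := by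
            rw [wt, mul_div_assoc', div_le_div_iff_of_pos_right h5]; exact hg.le
          linarith
      linarith [hk.2]
  calc ∑ t, wt F τ0 N t * (if Good F τ0 M θ θ2 t then 0 else 1)
      ≤ ∑ t : T0 × (F → ZMod 5), (θ * ((R F M t.2).card / 5 ^ M) + θ2 + κ) :=
        Finset.sum_le_sum fun t _ => h1 t
    _ = θ * (∑ t : T0 × (F → ZMod 5), ((R F M t.2).card / 5 ^ M : ℝ))
          + Fintype.card (T0 × (F → ZMod 5)) * θ2 + Fintype.card (T0 × (F → ZMod 5)) * κ := by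
        simp only [Finset.sum_add_distrib, Finset.sum_const, nsmul_eq_mul, Finset.card_univ,
          Finset.mul_sum]
    _ = θ * Fintype.card T0 + Fintype.card (T0 × (F → ZMod 5)) * θ2
          + Fintype.card (T0 × (F → ZMod 5)) * κ := by
        congr 3
        rw [Fintype.sum_prod_type]
        simp only
        rw [Finset.sum_const, nsmul_eq_mul, Finset.card_univ]
        have h6 : ∑ v : F → ZMod 5, ((R F M v).card / 5 ^ M : ℝ) = 1 := by
          rw [← Finset.sum_div, ← Nat.cast_sum]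
          have := Finset.card_eq_sum_card_fiberwise (s := I M)
            (t := (Finset.univ : Finset (F → ZMod 5))) (f := zz F) (fun _ _ => Finset.mem_coe.2 (Finset.mem_univ _))
          rw [card_I] at this
          have h7 : ∑ v : F → ZMod 5, (R F M v).card = 5 ^ M := this.symm
          rw [h7]; push_cast
          exact div_self (by positivity)
        rw [h6, mul_one]
    _ = _ := by ring

/-- convolution with a weight on `I M` as a multiplier -/
lemma conv_expand {M : ℕ} {S : Finset G} (a : G → ℂ) (u : G → ℝ)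
    (b' : G) :
    (∑ b ∈ I M, (u b : ℂ) * ∑ c ∈ S, a c * χ c (b + b')) / 5 ^ M
      = ∑ c ∈ S, (a c * mult M u c) * χ c b' := by
  simp only [mult, Finset.mul_sum]
  rw [Finset.sum_comm, Finset.sum_div]
  refine Finset.sum_congr rfl fun c _ => ?_
  rw [mul_div_assoc', div_mul_eq_mul_div, Finset.mul_sum, Finset.sum_mul]
  congr 1
  refine Finset.sum_congr rfl fun b _ => ?_
  rw [χ_add]; ring

open Classical in
lemma conv_bound {M N : ℕ} {S : Finset G} (hS : S ⊆ H N) (a : G → ℂ) (u : G → ℝ) {P : G → Prop}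
    {η : ℝ} (hη : 0 ≤ η) (hSP : ∀ c ∈ S, ¬ P (tr M c))
    (h3 : ∀ c0 ∈ H M, ¬ P c0 → ∑ c ∈ (H N).filter (fun c : G => tr M c = c0), ‖a c‖ ^ 2 ≤ η) :
    ∑ b' ∈ I N, ‖(∑ b ∈ I M, (u b : ℂ) * ∑ c ∈ S, a c * χ c (b + b')) / 5 ^ M‖ ^ 2
      ≤ 5 ^ N * (η * ((∑ b ∈ I M, u b ^ 2) / 5 ^ M)) := by
  have h1 : ∑ b' ∈ I N, ‖(∑ b ∈ I M, (u b : ℂ) * ∑ c ∈ S, a c * χ c (b + b')) / 5 ^ M‖ ^ 2
      = 5 ^ N * ∑ c ∈ S, ‖a c * mult M u c‖ ^ 2 := by
    rw [← parseval hS]
    refine Finset.sum_congr rfl fun b' _ => ?_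
    rw [conv_expand a u b']
  rw [h1]
  refine mul_le_mul_of_nonneg_left ?_ (by positivity)
  have h2 : ∀ c ∈ S, ‖a c * mult M u c‖ ^ 2 = ‖a c‖ ^ 2 * ‖fh M (fun b => (u b : ℂ)) (tr M c)‖ ^ 2 := by
    intro c _
    rw [norm_mul, norm_mult, mul_pow]
  rw [Finset.sum_congr rfl h2]
  have h4 := Finset.sum_fiberwise_of_maps_to (s := S) (t := H M) (g := fun c : G => tr M c)
    (fun c _ => tr_mem_H M c) (fun c => ‖a c‖ ^ 2 * ‖fh M (fun b => (u b : ℂ)) (tr M c)‖ ^ 2)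
  rw [← h4]
  have h5 : ∑ b ∈ I M, u b ^ 2 = 5 ^ M * ∑ c ∈ H M, ‖fh M (fun b => (u b : ℂ)) c‖ ^ 2 := by
    rw [← parseval_f]
    refine Finset.sum_congr rfl fun b _ => ?_
    rw [Complex.norm_real, Real.norm_eq_abs, sq_abs]
  have h55 : (∑ b ∈ I M, u b ^ 2) / 5 ^ M = ∑ c ∈ H M, ‖fh M (fun b => (u b : ℂ)) c‖ ^ 2 := by
    rw [h5]; exact mul_div_cancel_left₀ _ (by positivity)
  rw [h55, Finset.mul_sum]
  refine Finset.sum_le_sum fun c0 hc0 => ?_
  have h6 : ∀ c ∈ S.filter (fun c : G => tr M c = c0),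
      ‖a c‖ ^ 2 * ‖fh M (fun b => (u b : ℂ)) (tr M c)‖ ^ 2
        = ‖a c‖ ^ 2 * ‖fh M (fun b => (u b : ℂ)) c0‖ ^ 2 := by
    intro c hc; rw [(Finset.mem_filter.1 hc).2]
  rw [Finset.sum_congr rfl h6, ← Finset.sum_mul]
  refine mul_le_mul_of_nonneg_right ?_ (by positivity)
  by_cases hP : P c0
  · have : S.filter (fun c : G => tr M c = c0) = ∅ := by
      rw [Finset.filter_eq_empty_iff]
      intro c hc h
      exact hSP c hc (h ▸ hP)
    rw [this]; simpa using hη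
  · refine le_trans ?_ (h3 c0 hc0 hP)
    refine Finset.sum_le_sum_of_subset_of_nonneg ?_ (fun _ _ _ => by positivity)
    intro c hc
    rw [Finset.mem_filter] at hc ⊢
    exact ⟨hS hc.1, hc.2⟩

end

end Pool.Agent.Helper73
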