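import Pool.Agent.Helper73.SumsetD

set_option autoImplicit false

open Finset
open scoped BigOperators

namespace Pool.Agent.Helper73

lemma f1_nonneg {F : Finset (ℕ → ZMod 5)} {M : ℕ} {f : G → ℝ} (hf : ∀ b, 0 ≤ f b) (x : G) :
    0 ≤ f1 F M f x := avg_nonneg fun _ _ => hf _

lemma f1_le_one {F : Finset (ℕ → ZMod 5)} {M : ℕ} {f : G → ℝ} (hf : ∀ b, f b ≤ 1) (x : G) :
    f1 F M f x ≤ 1 := avg_le_one fun _ _ => hf _

lemma f1_inv {F : Finset (ℕ → ZMod 5)} {M : ℕ} (f : G → ℝ) {k : G} (hk : k ∈ K F M) (x : G) :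
    f1 F M f (k + x) = f1 F M f x := by
  rw [f1, f1, avg, avg]
  congr 1
  rw [mem_K] at hk
  refine Finset.sum_bij' (fun b _ => b + k) (fun b _ => b - k) ?_ ?_ ?_ ?_ ?_
  · intro b hb
    rw [mem_K] at hb ⊢
    exact ⟨add_mem_H hb.1 hk.1, by rw [zz_add, hk.2, hb.2, add_zero]⟩
  · intro b hb
    rw [mem_K] at hb ⊢
    exact ⟨sub_mem_H hb.1 hk.1, by rw [zz_sub, hk.2, hb.2, sub_zero]⟩
  · intro b _; simp
  · intro b _; simp
  · intro b _; rw [add_assoc]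

lemma sub_mem_K {F : Finset (ℕ → ZMod 5)} {M : ℕ} {v : F → ZMod 5} {b b0 : G}
    (hb : b ∈ R F M v) (hb0 : b0 ∈ R F M v) : b - b0 ∈ K F M := by
  rw [mem_R, mem_I] at *
  rw [mem_K]
  refine ⟨?_, ?_⟩
  · have : b - b0 = (b - e M) - (b0 - e M) := by abel
    rw [this]; exact sub_mem_H hb.1 hb0.1
  · rw [zz_sub, hb.2, hb0.2, sub_self]

lemma f1_const {F : Finset (ℕ → ZMod 5)} {M : ℕ} (f : G → ℝ) {v : F → ZMod 5} {b b0 : G}
    (hb : b ∈ R F M v) (hb0 : b0 ∈ R F M v) (x : G) :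
    f1 F M f (b + x) = f1 F M f (b0 + x) := by
  have h := f1_inv f (sub_mem_K hb hb0) (b0 + x)
  rw [← h]; congr 1; abel

lemma sum_f1 {F : Finset (ℕ → ZMod 5)} {M N : ℕ} (hMN : M < N) (f : G → ℝ) :
    ∑ x ∈ I N, f1 F M f x = ∑ x ∈ I N, f x := by
  simp only [f1, avg]
  rw [← Finset.sum_div, Finset.sum_comm]
  have h1 : ∀ k ∈ K F M, ∑ x ∈ I N, f (k + x) = ∑ x ∈ I N, f x := by
    intro k hk
    exact sum_I_add (H_mono hMN.le (mem_K.1 hk).1) f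
  rw [Finset.sum_congr rfl h1, Finset.sum_const, nsmul_eq_mul]
  have : ((K F M).card : ℝ) ≠ 0 := by
    exact_mod_cast (Finset.card_pos.2 ⟨0, zero_mem_K F M⟩).ne'
  field_simp

section

variable {T0 : Type} [DecidableEq T0]

/-- the normalised indicator of a type class -/
noncomputable def ut (F : Finset (ℕ → ZMod 5)) (τ0 : G → T0) (M : ℕ) (t : T0 × (F → ZMod 5)) (b : G) : ℝ :=
  if tau F τ0 b = t then 5 ^ M / (Q F τ0 M t).card else 0

lemma sum_ut_sq {F : Finset (ℕ → ZMod 5)} {τ0 : G → T0} {M : ℕ} {t : T0 × (F → ZMod 5)} {θ θ2 : ℝ}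
    (hθ2 : 0 < θ2) (hg : Good F τ0 M θ θ2 t) :
    (∑ b ∈ I M, ut F τ0 M t b ^ 2) / 5 ^ M ≤ 1 / θ2 := by
  have h5 : (0 : ℝ) < 5 ^ M := by positivity
  have hQ : (0 : ℝ) < (Q F τ0 M t).card := lt_of_lt_of_le (by positivity) hg.1
  have h1 : ∑ b ∈ I M, ut F τ0 M t b ^ 2 = (Q F τ0 M t).card * (5 ^ M / (Q F τ0 M t).card) ^ 2 := by
    simp only [ut, ite_pow]
    rw [zero_pow (by norm_num), ← Finset.sum_filter, Finset.sum_const, nsmul_eq_mul]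
    rfl
  rw [h1, div_le_div_iff₀ h5 hθ2]
  have h2 : ((Q F τ0 M t).card : ℝ) * (5 ^ M / (Q F τ0 M t).card) ^ 2 * θ2
      = 5 ^ M * (θ2 * 5 ^ M / (Q F τ0 M t).card) := by
    field_simp
  rw [h2, one_mul]
  have h3 : θ2 * 5 ^ M / ((Q F τ0 M t).card : ℝ) ≤ 1 := by
    rw [div_le_one hQ]; exact hg.1
  calc 5 ^ M * (θ2 * 5 ^ M / ((Q F τ0 M t).card : ℝ)) ≤ 5 ^ M * 1 := by gcongr
    _ = 5 ^ M := mul_one _

lemma avgQ_re (F : Finset (ℕ → ZMod 5)) (τ0 : G → T0) (M : ℕ) (t : T0 × (F → ZMod 5)) (g : G → ℂ)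
    (b' : G) :
    avg (Q F τ0 M t) (fun b => (g (b + b')).re)
      = ((∑ b ∈ I M, (ut F τ0 M t b : ℂ) * g (b + b')) / 5 ^ M).re := by
  have h5 : (5 : ℝ) ^ M ≠ 0 := by positivity
  have h1 : (∑ b ∈ I M, (ut F τ0 M t b : ℂ) * g (b + b')) / 5 ^ M
      = (∑ b ∈ Q F τ0 M t, g (b + b')) / ((Q F τ0 M t).card : ℝ) := by
    simp only [ut]
    rw [Q, Finset.sum_filter, Finset.sum_div, Finset.sum_div]
    refine Finset.sum_congr rfl fun b _ => ?_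
    split_ifs with h
    · push_cast
      have : (5 : ℂ) ^ M ≠ 0 := five_pow_ne M
      field_simp
    · simp
  rw [h1, Complex.div_ofReal_re, Complex.re_sum, avg]

lemma avgQ_abs_le (F : Finset (ℕ → ZMod 5)) (τ0 : G → T0) (M : ℕ) (t : T0 × (F → ZMod 5)) (g : G → ℂ)
    (b' : G) :
    |avg (Q F τ0 M t) (fun b => (g (b + b')).re)|
      ≤ ‖(∑ b ∈ I M, (ut F τ0 M t b : ℂ) * g (b + b')) / 5 ^ M‖ := by
  rw [avgQ_re]; exact Complex.abs_re_le_norm _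

lemma avgQ_le_avgR {F : Finset (ℕ → ZMod 5)} {τ0 : G → T0} {M : ℕ} {t : T0 × (F → ZMod 5)} {θ θ2 : ℝ}
    (hθ : 0 < θ) (hθ2 : 0 < θ2) (hg : Good F τ0 M θ θ2 t) {h : G → ℝ} (hh : ∀ b, 0 ≤ h b) :
    avg (Q F τ0 M t) h ≤ (1 / θ) * avg (R F M t.2) h := by
  have hQ : (0 : ℝ) < (Q F τ0 M t).card := lt_of_lt_of_le (by positivity) hg.1
  have hR : (0 : ℝ) < (R F M t.2).card := by
    have := Finset.card_le_card (Q_subset_R (F := F) (τ0 := τ0) (M := M) (t := t))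
    exact lt_of_lt_of_le hQ (by exact_mod_cast this)
  have h1 : ∑ b ∈ Q F τ0 M t, h b ≤ ∑ b ∈ R F M t.2, h b :=
    Finset.sum_le_sum_of_subset_of_nonneg Q_subset_R (fun b _ _ => hh b)
  have h0 : 0 ≤ ∑ b ∈ R F M t.2, h b := Finset.sum_nonneg fun b _ => hh b
  rw [avg, avg]
  calc (∑ b ∈ Q F τ0 M t, h b) / ((Q F τ0 M t).card : ℝ)
      ≤ (∑ b ∈ R F M t.2, h b) / ((Q F τ0 M t).card : ℝ) := by gcongr
    _ ≤ (∑ b ∈ R F M t.2, h b) / (θ * (R F M t.2).card) := by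
        apply div_le_div_of_nonneg_left h0 (by positivity) hg.2
    _ = _ := by field_simp

lemma Good.pos {F : Finset (ℕ → ZMod 5)} {τ0 : G → T0} {M : ℕ} {t : T0 × (F → ZMod 5)} {θ θ2 : ℝ}
    (hθ2 : 0 < θ2) (hg : Good F τ0 M θ θ2 t) : (Q F τ0 M t).Nonempty := by
  rw [← Finset.card_pos]
  have h1 : (0 : ℝ) < θ2 * 5 ^ M := by positivity
  have : (0 : ℝ) < (Q F τ0 M t).card := lt_of_lt_of_le h1 hg.1
  exact_mod_cast this

lemma avgQ_f1 {F : Finset (ℕ → ZMod 5)} {τ0 : G → T0} {M : ℕ} (f : G → ℝ) {t : T0 × (F → ZMod 5)}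
    (hQ : (Q F τ0 M t).Nonempty) (b' : G) :
    avg (Q F τ0 M t) (fun b => f1 F M f (b + b'))
      = avg (R F M t.2) (fun b => f1 F M f (b + b')) := by
  obtain ⟨b0, hb0⟩ := hQ
  have hb0R : b0 ∈ R F M t.2 := Q_subset_R hb0
  have q1 : avg (Q F τ0 M t) (fun b => f1 F M f (b + b')) = f1 F M f (b0 + b') := by
    have hh : ∀ b ∈ Q F τ0 M t, f1 F M f (b + b') = f1 F M f (b0 + b') :=
      fun b hb => f1_const f (Q_subset_R hb) hb0R b'
    exact (avg_congr hh).trans (avg_const ⟨b0, hb0⟩ _)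
  have q2 : avg (R F M t.2) (fun b => f1 F M f (b + b')) = f1 F M f (b0 + b') := by
    have hh : ∀ b ∈ R F M t.2, f1 F M f (b + b') = f1 F M f (b0 + b') :=
      fun b hb => f1_const f hb hb0R b'
    exact (avg_congr hh).trans (avg_const ⟨b0, hb0R⟩ _)
  rw [q1, q2]

open Classical in
lemma pointwise [Fintype T0] {F : Finset (ℕ → ZMod 5)} {τ0 : G → T0} {M N : ℕ} (hMN : M < N)
    {f : G → ℝ} (hf0 : ∀ b, 0 ≤ f b) (hf1 : ∀ b, f b ≤ 1) {θ θ2 : ℝ}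
    (hθ : 0 < θ) (hθ2 : 0 < θ2) {G2 G3 : G → ℂ}
    (hsplit : ∀ x ∈ I N, f x = f1 F M f x + (G2 x).re + (G3 x).re) {b' : G} (hb' : b' ∈ I N) :
    avg (R F M (zz F b')) (fun b => f1 F M f (b + b'))
        - (if Good F τ0 M θ θ2 (tau F τ0 b') then 0 else 1)
        - (1 / θ) * avg (R F M (zz F b')) (fun b => ‖G2 (b + b')‖)
        - ∑ t ∈ (Finset.univ.filter (fun t => Good F τ0 M θ θ2 t)),
            ‖(∑ b ∈ I M, (ut F τ0 M t b : ℂ) * G3 (b + b')) / 5 ^ M‖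
      ≤ avg (Q F τ0 M (tau F τ0 b')) (fun b => f (b + b')) := by
  have hnn2 : 0 ≤ avg (R F M (zz F b')) (fun b => ‖G2 (b + b')‖) :=
    avg_nonneg fun _ _ => norm_nonneg _
  have hnn3 : 0 ≤ ∑ t ∈ (Finset.univ.filter (fun t => Good F τ0 M θ θ2 t)),
          ‖(∑ b ∈ I M, (ut F τ0 M t b : ℂ) * G3 (b + b')) / 5 ^ M‖ :=
    Finset.sum_nonneg fun _ _ => norm_nonneg _
  have hnn4 : 0 ≤ (1 / θ) * avg (R F M (zz F b')) (fun b => ‖G2 (b + b')‖) := by positivity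
  by_cases hg : Good F τ0 M θ θ2 (tau F τ0 b')
  · -- good case
    rw [if_pos hg]
    have hQ := hg.pos hθ2
    have e1 : avg (Q F τ0 M (tau F τ0 b')) (fun b => f (b + b'))
        = avg (Q F τ0 M (tau F τ0 b')) (fun b => f1 F M f (b + b'))
          + avg (Q F τ0 M (tau F τ0 b')) (fun b => (G2 (b + b')).re)
          + avg (Q F τ0 M (tau F τ0 b')) (fun b => (G3 (b + b')).re) := by
      rw [← avg_add, ← avg_add]
      refine avg_congr fun b hb => ?_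
      have hbI : b ∈ I M := (mem_Q.1 hb).1
      exact hsplit _ (add_mem_I hb' (I_subset_H hMN hbI))
    have e2 := avgQ_f1 f hQ b'
    have e2' : (tau F τ0 b').2 = zz F b' := rfl
    rw [e2'] at e2
    have e3 : |avg (Q F τ0 M (tau F τ0 b')) (fun b => (G2 (b + b')).re)|
        ≤ (1 / θ) * avg (R F M (zz F b')) (fun b => ‖G2 (b + b')‖) := by
      refine (abs_avg_le _ _).trans ?_
      refine (avg_mono (h := fun b => ‖G2 (b + b')‖) fun b _ => Complex.abs_re_le_norm _).trans ?_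
      exact avgQ_le_avgR hθ hθ2 hg fun _ => norm_nonneg _
    have e4 : |avg (Q F τ0 M (tau F τ0 b')) (fun b => (G3 (b + b')).re)|
        ≤ ∑ t ∈ (Finset.univ.filter (fun t => Good F τ0 M θ θ2 t)),
          ‖(∑ b ∈ I M, (ut F τ0 M t b : ℂ) * G3 (b + b')) / 5 ^ M‖ := by
      refine (avgQ_abs_le F τ0 M (tau F τ0 b') G3 b').trans ?_
      exact Finset.single_le_sum (f := fun t =>
        ‖(∑ b ∈ I M, (ut F τ0 M t b : ℂ) * G3 (b + b')) / 5 ^ M‖)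
        (fun _ _ => norm_nonneg _) (Finset.mem_filter.2 ⟨Finset.mem_univ _, hg⟩)
    have e5 := abs_le.1 e3
    have e6 := abs_le.1 e4
    rw [e1, e2]; linarith [e5.1, e6.1]
  · rw [if_neg hg]
    have e1 : avg (R F M (zz F b')) (fun b => f1 F M f (b + b')) ≤ 1 :=
      avg_le_one fun _ _ => f1_le_one hf1 _
    have e2 : 0 ≤ avg (Q F τ0 M (tau F τ0 b')) (fun b => f (b + b')) :=
      avg_nonneg fun _ _ => hf0 _
    linarith

open Classical in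
/-- the finite-level inequality -/
theorem finite_level [Fintype T0] {F : Finset (ℕ → ZMod 5)} {τ0 : G → T0} {M N : ℕ} (hMN : M < N)
    {f : G → ℝ} (hf0 : ∀ b, 0 ≤ f b) (hf1 : ∀ b, f b ≤ 1) {θ θ2 ε2 η κ : ℝ}
    (hθ : 0 < θ) (hθ2 : 0 < θ2) (hη : 0 ≤ η) (hκ0 : 0 ≤ κ)
    (hR : ∀ b' : G, (R F M (zz F b')).Nonempty)
    (hκ : ∀ t, |wt F τ0 N t - wt F τ0 M t| ≤ κ) {P : G → Prop}
    (h2 : ∑ c ∈ (H N).filter (fun c : G => ¬ IsS1 F M c ∧ P (tr M c)),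
      ‖fh N (fun b => (f b : ℂ)) c‖ ^ 2 ≤ ε2)
    (h3 : ∀ c0 ∈ H M, ¬ P c0 → ∑ c ∈ (H N).filter (fun c : G => tr M c = c0),
      ‖fh N (fun b => (f b : ℂ)) c‖ ^ 2 ≤ η) :
    (∑ b' ∈ I N, f b') / 5 ^ N
      - (Fintype.card T0 * θ + Fintype.card (T0 × (F → ZMod 5)) * θ2
        + Fintype.card (T0 × (F → ZMod 5)) * κ)
      - (1 / θ) * Real.sqrt ε2 - Fintype.card (T0 × (F → ZMod 5)) * Real.sqrt (η * (1 / θ2))
    ≤ (∑ b' ∈ I N, avg (Q F τ0 M (tau F τ0 b')) (fun b => f (b + b'))) / 5 ^ N := by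
  have h5 : (0 : ℝ) < 5 ^ N := by positivity
  let a : G → ℂ := fun c => fh N (fun b => (f b : ℂ)) c
  let S2 := (H N).filter (fun c : G => ¬ IsS1 F M c ∧ P (tr M c))
  let S3 := (H N).filter (fun c : G => ¬ IsS1 F M c ∧ ¬ P (tr M c))
  let G2 : G → ℂ := fun x => ∑ c ∈ S2, a c * χ c x
  let G3 : G → ℂ := fun x => ∑ c ∈ S3, a c * χ c x
  have hS2H : S2 ⊆ H N := Finset.filter_subset _ _
  have hS3H : S3 ⊆ H N := Finset.filter_subset _ _
  -- splitting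
  have hsplit : ∀ x ∈ I N, f x = f1 F M f x + (G2 x).re + (G3 x).re := by
    intro x hx
    have e1 := inversion (N := N) (fun b => (f b : ℂ)) hx
    have e2 := f1_expand (F := F) hMN f hx
    have e3 : ∑ c ∈ H N, a c * χ c x
        = ∑ c ∈ (H N).filter (fun c : G => IsS1 F M c), a c * χ c x + G2 x + G3 x := by
      rw [← Finset.sum_filter_add_sum_filter_not (H N) (fun c : G => IsS1 F M c), add_assoc]
      congr 1
      rw [← Finset.sum_filter_add_sum_filter_not ((H N).filter (fun c : G => ¬ IsS1 F M c))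
        (fun c : G => P (tr M c)), Finset.filter_filter, Finset.filter_filter]
    have e4 : (f x : ℂ) = ((f1 F M f x : ℝ) : ℂ) + G2 x + G3 x := by
      rw [e2]; rw [← e3]; exact e1
    have e5 := congrArg Complex.re e4
    simpa using e5
  -- L2 bounds
  have hG2b : ∑ x ∈ I N, ‖G2 x‖ ≤ 5 ^ N * Real.sqrt ε2 := by
    apply sum_norm_le
    change ∑ x ∈ I N, ‖∑ c ∈ S2, a c * χ c x‖ ^ 2 ≤ _
    rw [parseval hS2H]
    gcongr
  have hG3b : ∀ t, Good F τ0 M θ θ2 t →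
      ∑ b' ∈ I N, ‖(∑ b ∈ I M, (ut F τ0 M t b : ℂ) * G3 (b + b')) / 5 ^ M‖
        ≤ 5 ^ N * Real.sqrt (η * (1 / θ2)) := by
    intro t ht
    apply sum_norm_le
    refine (conv_bound (N := N) hS3H a (ut F τ0 M t) (P := P) hη ?_ h3).trans ?_
    · intro c hc
      exact (Finset.mem_filter.1 hc).2.2
    · have := sum_ut_sq hθ2 ht
      gcongr
  have hsum := Finset.sum_le_sum (fun b' hb' =>
    pointwise (τ0 := τ0) (b' := b') hMN hf0 hf1 hθ hθ2 hsplit hb')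
  rw [Finset.sum_sub_distrib, Finset.sum_sub_distrib, Finset.sum_sub_distrib,
    sum_avgR hMN hR, sum_f1 hMN, ← Finset.mul_sum, sum_avgR hMN hR (fun x => ‖G2 x‖),
    count_types F τ0 N (fun t => if Good F τ0 M θ θ2 t then 0 else 1)] at hsum
  have hbad := bad_bound (F := F) (τ0 := τ0) (M := M) (N := N) hθ.le hθ2.le hκ0 hκ
  have h6 : ∑ b' ∈ I N, ∑ t ∈ (Finset.univ.filter (fun t => Good F τ0 M θ θ2 t)),
        ‖(∑ b ∈ I M, (ut F τ0 M t b : ℂ) * G3 (b + b')) / 5 ^ M‖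
      ≤ Fintype.card (T0 × (F → ZMod 5)) * (5 ^ N * Real.sqrt (η * (1 / θ2))) := by
    rw [Finset.sum_comm]
    calc ∑ t ∈ (Finset.univ.filter (fun t => Good F τ0 M θ θ2 t)), ∑ b' ∈ I N,
        ‖(∑ b ∈ I M, (ut F τ0 M t b : ℂ) * G3 (b + b')) / 5 ^ M‖
        ≤ ∑ t ∈ (Finset.univ.filter (fun t => Good F τ0 M θ θ2 t)),
            5 ^ N * Real.sqrt (η * (1 / θ2)) :=
          Finset.sum_le_sum fun t ht => hG3b t (Finset.mem_filter.1 ht).2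
      _ ≤ ∑ t : T0 × (F → ZMod 5), 5 ^ N * Real.sqrt (η * (1 / θ2)) :=
          Finset.sum_le_sum_of_subset_of_nonneg (Finset.filter_subset _ _)
            (fun _ _ _ => by positivity)
      _ = _ := by rw [Finset.sum_const, nsmul_eq_mul, Finset.card_univ]
  have h7 : (1 / θ) * ∑ x ∈ I N, ‖G2 x‖ ≤ (1 / θ) * (5 ^ N * Real.sqrt ε2) := by gcongr
  have h8 := mul_le_mul_of_nonneg_left hbad h5.le
  rw [le_div_iff₀ h5]
  have h9 : (∑ b' ∈ I N, f b') / 5 ^ N * 5 ^ N = ∑ b' ∈ I N, f b' := by field_simp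
  nlinarith [hsum, h6, h7, h8, h9]

end

end Pool.Agent.Helper73
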