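import Pool.Agent.Helper73.SumsetE

set_option autoImplicit false

open Finset Filter Topology MeasureTheory
open scoped BigOperators ENNReal

namespace Pool.Agent.Helper73

/-- cylinder -/
def cyl (M : ℕ) (y : ℕ → ZMod 5) : Set (ℕ → ZMod 5) := {y' | ∀ i < M, y' i = y i}

lemma mem_cyl {M : ℕ} {y y' : ℕ → ZMod 5} : y' ∈ cyl M y ↔ ∀ i < M, y' i = y i := Iff.rfl

lemma self_mem_cyl (M : ℕ) (y : ℕ → ZMod 5) : y ∈ cyl M y := fun _ _ => rfl

lemma cyl_eq {M : ℕ} {y y' : ℕ → ZMod 5} (h : y' ∈ cyl M y) : cyl M y' = cyl M y := by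
  ext w
  constructor
  · intro hw i hi; exact (hw i hi).trans (h i hi)
  · intro hw i hi; exact (hw i hi).trans (h i hi).symm

lemma isClopen_cyl (M : ℕ) (y : ℕ → ZMod 5) : IsClopen (cyl M y) := by
  have : cyl M y = ⋂ i ∈ Finset.range M, (fun y' : ℕ → ZMod 5 => y' i) ⁻¹' {y i} := by
    ext w; simp [cyl]
  rw [this]
  refine isClopen_biInter_finset fun i _ => ?_
  exact (isClopen_discrete _).preimage (continuous_apply i)

lemma cyl_antitone (y : ℕ → ZMod 5) : Antitone (fun M => cyl M y) := by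
  intro M N h w hw i hi
  exact hw i (by omega)

lemma iInter_cyl (y : ℕ → ZMod 5) : ⋂ M, cyl M y = {y} := by
  ext w
  simp only [Set.mem_iInter, Set.mem_singleton_iff]
  constructor
  · intro h; ext i; exact h (i + 1) i (by omega)
  · rintro rfl M; exact self_mem_cyl M w

lemma isOpen_of_cyl {M : ℕ} {s : Set (ℕ → ZMod 5)} (h : ∀ y ∈ s, cyl M y ⊆ s) : IsOpen s := by
  rw [isOpen_iff_mem_nhds]
  intro y hy
  exact mem_of_superset ((isClopen_cyl M y).isOpen.mem_nhds (self_mem_cyl M y)) (h y hy)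

/-- a set determined by the first `M` coordinates is clopen -/
lemma isClopen_of_cyl {M : ℕ} {s : Set (ℕ → ZMod 5)} (h : ∀ y ∈ s, cyl M y ⊆ s) : IsClopen s := by
  refine ⟨?_, isOpen_of_cyl h⟩
  rw [← isOpen_compl_iff]
  apply isOpen_of_cyl (M := M)
  intro y hy w hw hws
  apply hy
  have : y ∈ cyl M w := by
    intro i hi; exact (hw i hi).symm
  exact h w hws this

/-- **Lemma W**: for a finite measure on the dual group, the frequencies outside a finite set which
carry cylinders of mass at least `η` have small total mass, once the level is large. -/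
lemma lemmaW (σ : Measure (ℕ → ZMod 5)) [IsFiniteMeasure σ] {ε : ℝ≥0∞} (hε : 0 < ε) :
    ∃ F : Finset (ℕ → ZMod 5), ∀ η : ℝ≥0∞, 0 < η → ∀ᶠ M in atTop,
      σ {y | η ≤ σ (cyl M y) ∧ ∀ y' ∈ F, y ∉ cyl M y'} < ε := by
  -- atoms
  let At : ℕ → Set (ℕ → ZMod 5) := fun k => {y | (k + 1 : ℝ≥0∞)⁻¹ ≤ σ {y}}
  have hAtfin : ∀ k, (At k).Finite := by
    intro k
    have := Measure.finite_const_le_meas_of_disjoint_iUnion σ (ε := (k + 1 : ℝ≥0∞)⁻¹)
      (by simp) (As := fun y : ℕ → ZMod 5 => {y}) (fun y => measurableSet_singleton y)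
      (by
        intro a b hab
        simpa [Function.onFun] using hab)
      (measure_ne_top _ _)
    exact this
  have hAtmono : Monotone At := by
    intro k l hkl y hy
    have hy' : ((k : ℝ≥0∞) + 1)⁻¹ ≤ σ {y} := hy
    change ((l : ℝ≥0∞) + 1)⁻¹ ≤ σ {y}
    refine le_trans ?_ hy'
    rw [ENNReal.inv_le_inv]
    gcongr
  let All : Set (ℕ → ZMod 5) := ⋃ k, At k
  have hAllmeas : MeasurableSet All := MeasurableSet.iUnion fun k => (hAtfin k).measurableSet
  have hlim : Tendsto (fun k => σ (All \ At k)) atTop (𝓝 0) := by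
    have h1 := tendsto_measure_iInter_atTop (μ := σ) (s := fun k => All \ At k)
      (fun k => (hAllmeas.diff (hAtfin k).measurableSet).nullMeasurableSet)
      (fun k l hkl => Set.sdiff_subset_sdiff_right (hAtmono hkl)) ⟨0, measure_ne_top _ _⟩
    have h2 : ⋂ k, All \ At k = ∅ := by
      ext y
      simp only [Set.mem_iInter, Set.mem_sdiff, Set.mem_empty_iff_false, iff_false, not_forall]
      by_cases hy : y ∈ All
      · obtain ⟨k, hk⟩ := Set.mem_iUnion.1 hy
        exact ⟨k, fun h => h.2 hk⟩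
      · exact ⟨0, fun h => hy h.1⟩
    rw [h2, measure_empty] at h1
    exact h1
  obtain ⟨k, hk⟩ := ((tendsto_order.1 hlim).2 ε hε).exists
  refine ⟨(hAtfin k).toFinset, fun η hη => ?_⟩
  let C : ℕ → Set (ℕ → ZMod 5) := fun M => {y | η ≤ σ (cyl M y)} \ At k
  have hCmeas : ∀ M, MeasurableSet (C M) := by
    intro M
    refine MeasurableSet.diff ?_ (hAtfin k).measurableSet
    refine (isOpen_of_cyl (M := M) ?_).measurableSet
    intro y hy w hw
    simp only [Set.mem_ofPred_eq] at hy ⊢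
    rwa [cyl_eq hw]
  have hCanti : Antitone C := by
    intro M N hMN
    refine Set.sdiff_subset_sdiff_left ?_
    intro y hy
    exact le_trans hy (measure_mono (cyl_antitone y hMN))
  have h1 := tendsto_measure_iInter_atTop (μ := σ) (s := C)
      (fun M => (hCmeas M).nullMeasurableSet) hCanti ⟨0, measure_ne_top _ _⟩
  have h2 : σ (⋂ M, C M) ≤ σ (All \ At k) := by
    refine measure_mono ?_
    intro y hy
    rw [Set.mem_iInter] at hy
    refine ⟨?_, (hy 0).2⟩
    have h3 := tendsto_measure_iInter_atTop (μ := σ) (s := fun M => cyl M y)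
      (fun M => (isClopen_cyl M y).isOpen.measurableSet.nullMeasurableSet) (cyl_antitone y)
      ⟨0, measure_ne_top _ _⟩
    rw [iInter_cyl] at h3
    have h4 : η ≤ σ {y} := ge_of_tendsto' h3 fun M => (hy M).1
    have h5 : Tendsto (fun k : ℕ => ((k : ℝ≥0∞) + 1)⁻¹) atTop (𝓝 0) := by
      have := ENNReal.tendsto_inv_nat_nhds_zero.comp (tendsto_add_atTop_nat 1)
      refine this.congr fun n => ?_
      simp
    obtain ⟨l, hl⟩ := ((tendsto_order.1 h5).2 η hη).exists
    exact Set.mem_iUnion.2 ⟨l, hl.le.trans h4⟩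
  have h6 : σ (⋂ M, C M) < ε := lt_of_le_of_lt h2 hk
  have h7 := (tendsto_order.1 h1).2 ε h6
  filter_upwards [h7] with M hM
  refine lt_of_le_of_lt (measure_mono ?_) hM
  intro y hy
  refine ⟨hy.1, fun hyk => ?_⟩
  exact hy.2 y ((hAtfin k).mem_toFinset.2 hyk) (self_mem_cyl M y)

end Pool.Agent.Helper73
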