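import Pool.Agent.Helper73.SumsetF

set_option autoImplicit false

open Finset Filter Topology MeasureTheory
open scoped BigOperators ENNReal

namespace Pool.Agent.Helper73

lemma exists_mem_H (g : G) : ∃ m, g ∈ H m := by
  refine ⟨g.support.sup id + 1, ?_⟩
  rw [mem_H]
  intro i hi
  by_contra h
  have := Finset.le_sup (f := id) (Finsupp.mem_support_iff.2 h)
  simp only [id] at this
  omega

/-- for large `M` every class of the quotient is represented in `I M` -/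
lemma exists_R_nonempty (F : Finset (ℕ → ZMod 5)) :
    ∃ m0, ∀ M, m0 ≤ M → ∀ b' : G, (R F M (zz F b')).Nonempty := by
  classical
  have hfin : (Set.univ : Set (F → ZMod 5)).Finite := Set.toFinite _
  let g : (F → ZMod 5) → G := fun v => if h : ∃ b, zz F b = v then h.choose else 0
  have hg : ∀ b : G, zz F (g (zz F b)) = zz F b := by
    intro b
    have h : ∃ b', zz F b' = zz F b := ⟨b, rfl⟩
    simp only [g, dif_pos h]
    exact h.choose_spec
  choose m hm using exists_mem_H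
  refine ⟨hfin.toFinset.sup (fun v => m (g v)), fun M hM b' => ?_⟩
  have hgH : g (zz F (b' - e M)) ∈ H M := by
    refine H_mono ?_ (hm _)
    refine le_trans ?_ hM
    exact Finset.le_sup (f := fun v => m (g v)) (by simp)
  refine ⟨g (zz F (b' - e M)) + e M, ?_⟩
  rw [mem_R, mem_I]
  refine ⟨by simpa using hgH, ?_⟩
  rw [zz_add, hg, zz_sub]; abel

/-- spectral measure at level `N`, padded to a probability measure -/
noncomputable def nu (f : G → ℝ) (N : ℕ) : Measure (ℕ → ZMod 5) :=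
  ∑ c ∈ H N, ENNReal.ofReal (‖fh N (fun b => (f b : ℂ)) c‖ ^ 2) • Measure.dirac (⇑c)
    + ENNReal.ofReal (1 - ∑ c ∈ H N, ‖fh N (fun b => (f b : ℂ)) c‖ ^ 2) • Measure.dirac 0

lemma sum_fh_le {f : G → ℝ} (hf0 : ∀ b, 0 ≤ f b) (hf1 : ∀ b, f b ≤ 1) (N : ℕ) :
    ∑ c ∈ H N, ‖fh N (fun b => (f b : ℂ)) c‖ ^ 2 ≤ 1 := by
  have h := parseval_f N (fun b => (f b : ℂ))
  have h5 : (0 : ℝ) < 5 ^ N := by positivity
  have h1 : ∑ x ∈ I N, ‖((f x : ℝ) : ℂ)‖ ^ 2 ≤ 5 ^ N := by
    calc ∑ x ∈ I N, ‖((f x : ℝ) : ℂ)‖ ^ 2 ≤ ∑ x ∈ I N, (1 : ℝ) := by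
          refine Finset.sum_le_sum fun x _ => ?_
          rw [Complex.norm_real, Real.norm_eq_abs, sq_abs]
          have := hf0 x
          have := hf1 x
          nlinarith
      _ = 5 ^ N := by rw [Finset.sum_const, card_I]; simp
  rw [h] at h1
  by_contra hlt
  push Not at hlt
  nlinarith

lemma isProb_nu {f : G → ℝ} (hf0 : ∀ b, 0 ≤ f b) (hf1 : ∀ b, f b ≤ 1) (N : ℕ) :
    IsProbabilityMeasure (nu f N) := by
  constructor
  have h := sum_fh_le hf0 hf1 N
  simp only [nu, Measure.coe_add, Measure.coe_finsetSum, Measure.coe_smul, Pi.add_apply,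
    Finset.sum_apply, Pi.smul_apply, measure_univ, smul_eq_mul, mul_one]
  rw [← ENNReal.ofReal_sum_of_nonneg (fun _ _ => by positivity),
    ← ENNReal.ofReal_add (Finset.sum_nonneg fun _ _ => by positivity) (by linarith)]
  simp

lemma sum_le_nu (f : G → ℝ) (N : ℕ) (C : Set (ℕ → ZMod 5)) (hC : MeasurableSet C)
    (S : Finset G) (hS : S ⊆ H N) (hSC : ∀ c ∈ S, (⇑c : ℕ → ZMod 5) ∈ C) :
    ENNReal.ofReal (∑ c ∈ S, ‖fh N (fun b => (f b : ℂ)) c‖ ^ 2) ≤ nu f N C := by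
  rw [ENNReal.ofReal_sum_of_nonneg (fun _ _ => by positivity)]
  simp only [nu, Measure.coe_add, Measure.coe_finsetSum, Measure.coe_smul, Pi.add_apply,
    Finset.sum_apply, Pi.smul_apply, smul_eq_mul]
  refine le_trans ?_ le_self_add
  calc ∑ c ∈ S, ENNReal.ofReal (‖fh N (fun b => (f b : ℂ)) c‖ ^ 2)
      = ∑ c ∈ S, ENNReal.ofReal (‖fh N (fun b => (f b : ℂ)) c‖ ^ 2) * Measure.dirac (⇑c) C := by
        refine Finset.sum_congr rfl fun c hc => ?_
        rw [Measure.dirac_apply' _ hC, Set.indicator_of_mem (hSC c hc)]; simp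
    _ ≤ _ := Finset.sum_le_sum_of_subset hS

section

variable {T0 : Type} [DecidableEq T0]

open Classical in
/-- **Claim A** -/
theorem claimA [Fintype T0] (𝓤 : Ultrafilter ℕ) (h𝓤 : (𝓤 : Filter ℕ) ≤ atTop) {f : G → ℝ}
    (hf0 : ∀ b, 0 ≤ f b) (hf1 : ∀ b, f b ≤ 1) (τ0 : G → T0) {ε : ℝ} (hε : 0 < ε) :
    ∃ F : Finset (ℕ → ZMod 5), ∀ κ : ℝ, 0 < κ → ∀ᶠ M in (𝓤 : Filter ℕ), ∀ᶠ N in (𝓤 : Filter ℕ),
      (∀ t, |wt F τ0 N t - wt F τ0 M t| ≤ κ) ∧
      (∑ b' ∈ I N, f b') / 5 ^ N - ε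
        ≤ (∑ b' ∈ I N, avg (Q F τ0 M (tau F τ0 b')) (fun b => f (b + b'))) / 5 ^ N := by
  -- limiting spectral measure
  let P' : ℕ → ProbabilityMeasure (ℕ → ZMod 5) := fun N => ⟨nu f N, isProb_nu hf0 hf1 N⟩
  obtain ⟨σ, hσ⟩ : ∃ σ : ProbabilityMeasure (ℕ → ZMod 5), Tendsto P' 𝓤 (𝓝 σ) :=
    ⟨_, (𝓤.map P').le_nhds_lim⟩
  have hclopen : ∀ C : Set (ℕ → ZMod 5), IsClopen C → ∀ r : ℝ≥0∞, (σ : Measure (ℕ → ZMod 5)) C < r →
      ∀ᶠ N in (𝓤 : Filter ℕ), nu f N C < r := by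
    intro C hC r hr
    have h1 := ProbabilityMeasure.tendsto_measure_of_null_frontier_of_tendsto' hσ (E := C)
      (by rw [hC.frontier_eq]; simp)
    exact (tendsto_order.1 h1).2 r hr
  -- constants
  have hs : 0 < Fintype.card T0 := Fintype.card_pos_iff.2 ⟨τ0 0⟩
  set s : ℝ := (Fintype.card T0 : ℝ) with hsdef
  have hs' : 0 < s := by rw [hsdef]; exact_mod_cast hs
  set θ : ℝ := ε / (5 * s) with hθdef
  have hθ : 0 < θ := by positivity
  set ε2 : ℝ := (ε * θ / 5) ^ 2 with hε2def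
  have hε2 : 0 < ε2 := by positivity
  obtain ⟨F, hF⟩ := lemmaW (σ : Measure (ℕ → ZMod 5)) (ε := ENNReal.ofReal ε2)
    (by simpa using hε2)
  refine ⟨F, fun κ₀ hκ₀ => ?_⟩
  have ht : 0 < Fintype.card (T0 × (F → ZMod 5)) := Fintype.card_pos_iff.2 ⟨(τ0 0, 0)⟩
  set t : ℝ := (Fintype.card (T0 × (F → ZMod 5)) : ℝ) with htdef
  have ht' : 0 < t := by rw [htdef]; exact_mod_cast ht
  set θ2 : ℝ := ε / (5 * t) with hθ2def
  have hθ2 : 0 < θ2 := by positivity
  set κ : ℝ := min κ₀ (ε / (5 * t)) with hκdef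
  have hκ : 0 < κ := lt_min hκ₀ (by positivity)
  set η : ℝ := θ2 * (ε / (5 * t)) ^ 2 with hηdef
  have hη : 0 < η := by positivity
  -- the large cylinders
  have hW := hF (ENNReal.ofReal (η / 2)) (by simpa using hη)
  obtain ⟨m0, hm0⟩ := exists_R_nonempty F
  -- weights converge
  have hwt : ∀ u : T0 × (F → ZMod 5), ∃ w : ℝ, Tendsto (fun N => wt F τ0 N u) 𝓤 (𝓝 w) := by
    intro u
    have hc : IsCompact (Set.Icc (0:ℝ) 1) := isCompact_Icc
    obtain ⟨w, _, hw⟩ := hc.ultrafilter_le_nhds (𝓤.map fun N => wt F τ0 N u) (by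
      rw [le_principal_iff]
      exact Filter.Eventually.of_forall (f := (𝓤 : Filter ℕ)) fun N => ⟨wt_nonneg F τ0 N u, wt_le_one F τ0 N u⟩)
    exact ⟨w, hw⟩
  choose w hw using hwt
  have hwclose : ∀ᶠ N in (𝓤 : Filter ℕ), ∀ u, |wt F τ0 N u - w u| < κ / 2 := by
    rw [Filter.eventually_all]
    intro u
    have := (Metric.tendsto_nhds.1 (hw u)) (κ / 2) (by positivity)
    simpa [Real.dist_eq] using this
  filter_upwards [h𝓤 hW, h𝓤 (eventually_ge_atTop m0), hwclose] with M hM1 hM2 hM3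
  -- now choose N
  set P : G → Prop := fun c => ENNReal.ofReal (η / 2) ≤ (σ : Measure (ℕ → ZMod 5)) (cyl M c) with hP
  have hclW : IsClopen {y | ENNReal.ofReal (η / 2) ≤ (σ : Measure (ℕ → ZMod 5)) (cyl M y)
      ∧ ∀ y' ∈ F, y ∉ cyl M y'} := by
    refine isClopen_of_cyl (M := M) ?_
    intro y hy y1 hy1
    refine ⟨?_, ?_⟩
    · rw [cyl_eq hy1]; exact hy.1
    · intro y' hy' h
      apply hy.2 y' hy'
      intro i hi
      exact (hy1 i hi).symm.trans (h i hi)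
  have hN2 := hclopen _ hclW _ hM1
  have hN3 : ∀ᶠ N in (𝓤 : Filter ℕ), ∀ c0 ∈ H M, ¬ P c0 → nu f N (cyl M c0) < ENNReal.ofReal η := by
    rw [Filter.eventually_all_finset]
    intro c0 _
    by_cases hp : P c0
    · exact Filter.Eventually.of_forall fun _ h => absurd hp h
    · have : (σ : Measure (ℕ → ZMod 5)) (cyl M c0) < ENNReal.ofReal η := by
        refine lt_trans (not_le.1 hp) ?_
        rw [ENNReal.ofReal_lt_ofReal_iff hη]; linarith
      filter_upwards [hclopen _ (isClopen_cyl M c0) _ this] with N hN _ using hN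
  filter_upwards [hN2, hN3, hwclose, h𝓤 (eventually_gt_atTop M)] with N hN2 hN3 hN4 hMN
  have hκ' : ∀ u, |wt F τ0 N u - wt F τ0 M u| ≤ κ := by
    intro u
    have h1 := hN4 u
    have h2 := hM3 u
    rw [abs_lt] at h1 h2
    rw [abs_le]
    constructor <;> linarith [h1.1, h1.2, h2.1, h2.2]
  refine ⟨fun u => (hκ' u).trans (min_le_left _ _), ?_⟩
  have hfin := finite_level (F := F) (τ0 := τ0) hMN hf0 hf1 hθ hθ2 hη.le hκ.le (hm0 M hM2) hκ'
    (P := P) (ε2 := ε2) ?_ ?_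
  · refine le_trans ?_ hfin
    have e1 : s * θ = ε / 5 := by rw [hθdef]; field_simp
    have e2 : t * θ2 = ε / 5 := by rw [hθ2def]; field_simp
    have e3 : t * κ ≤ ε / 5 := by
      calc t * κ ≤ t * (ε / (5 * t)) := by gcongr; exact min_le_right _ _
        _ = ε / 5 := by field_simp
    have e4 : (1 / θ) * Real.sqrt ε2 = ε / 5 := by
      rw [hε2def, Real.sqrt_sq (by positivity)]; field_simp
    have e5 : t * Real.sqrt (η * (1 / θ2)) = ε / 5 := by
      have : η * (1 / θ2) = (ε / (5 * t)) ^ 2 := by rw [hηdef]; field_simp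
      rw [this, Real.sqrt_sq (by positivity)]; field_simp
    rw [← hsdef, ← htdef, e1, e2, e4, e5]
    linarith
  · -- h2
    have h1 := sum_le_nu f N _ hclW.isOpen.measurableSet
      ((H N).filter (fun c : G => ¬ IsS1 F M c ∧ P (tr M c))) (Finset.filter_subset _ _) ?_
    · have h2 := lt_of_le_of_lt h1 hN2
      rw [ENNReal.ofReal_lt_ofReal_iff hε2] at h2
      refine le_trans (le_of_eq ?_) h2.le
      refine Finset.sum_congr ?_ fun _ _ => rfl
      ext c; simp only [Finset.mem_filter]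
    · intro c hc
      rw [Finset.mem_filter] at hc
      obtain ⟨_, hc1, hc2⟩ := hc
      refine ⟨?_, ?_⟩
      · have : cyl M (tr M c) = cyl M c := cyl_eq (fun i hi => (tr_apply_lt (⇑c) hi).symm)
        simp only [hP] at hc2
        rwa [this] at hc2
      · intro y' hy' h
        exact hc1 (isS1_of_mem hy' h)
  · -- h3
    intro c0 hc0 hp
    have h1 := sum_le_nu f N (cyl M c0) (isClopen_cyl M c0).isOpen.measurableSet
      ((H N).filter (fun c : G => tr M c = c0)) (Finset.filter_subset _ _) ?_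
    · have h2 := lt_of_le_of_lt h1 (hN3 c0 hc0 hp)
      rw [ENNReal.ofReal_lt_ofReal_iff hη] at h2
      exact h2.le
    · intro c hc
      rw [Finset.mem_filter] at hc
      intro i hi
      rw [← hc.2]; exact tr_apply_lt (⇑c) hi

end

end Pool.Agent.Helper73
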