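import Pool.Agent.Helper73.SumsetG

set_option autoImplicit false

open Finset Filter Topology MeasureTheory
open scoped BigOperators ENNReal Pointwise

namespace Pool.Agent.Helper73

open Classical in
/-- indicator -/
noncomputable def ind (A : Set G) (b : G) : ℝ := if b ∈ A then 1 else 0

lemma ind_nonneg (A : Set G) (b : G) : 0 ≤ ind A b := by unfold ind; split_ifs <;> norm_num
lemma ind_le_one (A : Set G) (b : G) : ind A b ≤ 1 := by unfold ind; split_ifs <;> norm_num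

lemma exists_lim (𝓤 : Ultrafilter ℕ) (g : ℕ → ℝ) (h0 : ∀ n, 0 ≤ g n) (h1 : ∀ n, g n ≤ 1) :
    ∃ w : ℝ, Tendsto g 𝓤 (𝓝 w) := by
  have hc : IsCompact (Set.Icc (0:ℝ) 1) := isCompact_Icc
  obtain ⟨w, _, hw⟩ := hc.ultrafilter_le_nhds (𝓤.map g) (by
    rw [le_principal_iff]
    exact Filter.Eventually.of_forall (f := (𝓤 : Filter ℕ)) fun N => ⟨h0 N, h1 N⟩)
  exact ⟨w, hw⟩

lemma avg_I_le_one (N : ℕ) (g : G → ℝ) (h : ∀ b, g b ≤ 1) : (∑ b ∈ I N, g b) / 5 ^ N ≤ 1 := by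
  rw [div_le_one (by positivity)]
  calc ∑ b ∈ I N, g b ≤ ∑ b ∈ I N, (1:ℝ) := Finset.sum_le_sum fun b _ => h b
    _ = 5 ^ N := by rw [Finset.sum_const, card_I]; simp

lemma avg_I_nonneg (N : ℕ) (g : G → ℝ) (h : ∀ b, 0 ≤ g b) : 0 ≤ (∑ b ∈ I N, g b) / 5 ^ N :=
  div_nonneg (Finset.sum_nonneg fun b _ => h b) (by positivity)

section

variable {T0 : Type} [DecidableEq T0]

open Classical in
lemma sum_types (F : Finset (ℕ → ZMod 5)) [Fintype T0] (τ0 : G → T0) (M : ℕ) (g : G → ℝ) :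
    (∑ b ∈ I M, g b) / 5 ^ M = ∑ t, wt F τ0 M t * avg (Q F τ0 M t) g := by
  have h := Finset.sum_fiberwise_of_maps_to (s := I M)
    (t := (Finset.univ : Finset (T0 × (F → ZMod 5))))
    (g := tau F τ0) (fun _ _ => Finset.mem_univ _) g
  rw [← h, Finset.sum_div]
  refine Finset.sum_congr rfl fun t _ => ?_
  have h1 : ((I M).filter (fun b => tau F τ0 b = t)) = Q F τ0 M t := by
    ext b; simp [Q]
  rw [h1, wt, avg]
  rcases (Q F τ0 M t).eq_empty_or_nonempty with h0 | h0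
  · simp [h0]
  · have : ((Q F τ0 M t).card : ℝ) ≠ 0 := by exact_mod_cast h0.card_pos.ne'
    field_simp

open Classical in
/-- **Claim E** -/
theorem claimE [Fintype T0] (𝓤 : Ultrafilter ℕ) (h𝓤 : (𝓤 : Filter ℕ) ≤ atTop) (A : Set G)
    (τ0 : G → T0) {δ : ℝ} (hδ : 0 < δ)
    (hx : ∀ᶠ N in (𝓤 : Filter ℕ),
      1 + δ ≤ (∑ b ∈ I N, ind A b) / 5 ^ N + (∑ b ∈ I N, ind A (b + b)) / 5 ^ N) :
    ∀ᶠ M in (𝓤 : Filter ℕ), ∀ᶠ N in (𝓤 : Filter ℕ), δ / 2 ≤
      (∑ b' ∈ I N, (if (∃ b ∈ I M, τ0 b = τ0 b' ∧ b + b' ∈ A ∧ b + b ∈ A) then (1:ℝ) else 0)) / 5 ^ N := by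
  obtain ⟨x, hxlim⟩ := exists_lim 𝓤 (fun N => (∑ b ∈ I N, ind A b) / 5 ^ N)
    (fun N => avg_I_nonneg N _ fun b => ind_nonneg A b)
    (fun N => avg_I_le_one N _ fun b => ind_le_one A b)
  obtain ⟨c, hclim⟩ := exists_lim 𝓤 (fun N => (∑ b ∈ I N, ind A (b + b)) / 5 ^ N)
    (fun N => avg_I_nonneg N _ fun b => ind_nonneg A _)
    (fun N => avg_I_le_one N _ fun b => ind_le_one A _)
  have hxc : 1 + δ ≤ x + c := ge_of_tendsto (hxlim.add hclim) hx
  obtain ⟨F, hF⟩ := claimA 𝓤 h𝓤 (f := ind A) (ind_nonneg A) (ind_le_one A) τ0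
    (ε := δ / 8) (by positivity)
  have ht : 0 < Fintype.card (T0 × (F → ZMod 5)) := Fintype.card_pos_iff.2 ⟨(τ0 0, 0)⟩
  set t : ℝ := (Fintype.card (T0 × (F → ZMod 5)) : ℝ) with htdef
  have ht' : 0 < t := by rw [htdef]; exact_mod_cast ht
  have hF' := hF (δ / (8 * t)) (by positivity)
  have hxev := (Metric.tendsto_nhds.1 hxlim) (δ / 8) (by positivity)
  have hcev := (Metric.tendsto_nhds.1 hclim) (δ / 8) (by positivity)
  filter_upwards [hF', hcev] with M hM hMc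
  filter_upwards [hM, hxev] with N hN hNx
  obtain ⟨hκ, hN⟩ := hN
  have h5N : (0:ℝ) < 5 ^ N := by positivity
  -- pointwise
  have hpt : ∀ b' ∈ I N, avg (Q F τ0 M (tau F τ0 b')) (fun b => ind A (b + b'))
      + avg (Q F τ0 M (tau F τ0 b')) (fun b => ind A (b + b)) - 1
      ≤ (if (∃ b ∈ I M, τ0 b = τ0 b' ∧ b + b' ∈ A ∧ b + b ∈ A) then (1:ℝ) else 0) := by
    intro b' _
    have e1 : avg (Q F τ0 M (tau F τ0 b')) (fun b => ind A (b + b')) ≤ 1 :=
      avg_le_one fun _ _ => ind_le_one A _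
    have e2 : avg (Q F τ0 M (tau F τ0 b')) (fun b => ind A (b + b)) ≤ 1 :=
      avg_le_one fun _ _ => ind_le_one A _
    split_ifs with hE
    · linarith
    · rw [← avg_add]
      have : avg (Q F τ0 M (tau F τ0 b')) (fun b => ind A (b + b') + ind A (b + b)) ≤ 1 := by
        refine avg_le_one fun b hb => ?_
        rw [mem_Q] at hb
        have h0 : τ0 b = τ0 b' := congrArg Prod.fst hb.2
        by_contra hlt
        push Not at hlt
        apply hE
        refine ⟨b, hb.1, h0, ?_, ?_⟩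
        · by_contra hA
          have : ind A (b + b') = 0 := by simp [ind, hA]
          have := ind_le_one A (b + b)
          linarith
        · by_contra hA
          have : ind A (b + b) = 0 := by simp [ind, hA]
          have := ind_le_one A (b + b')
          linarith
      linarith
  have hsum := Finset.sum_le_sum hpt
  rw [Finset.sum_sub_distrib, Finset.sum_add_distrib, Finset.sum_const, card_I, nsmul_eq_mul, mul_one] at hsum
  rw [count_types F τ0 N (fun t => avg (Q F τ0 M t) (fun b => ind A (b + b)))] at hsum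
  -- compare the weights
  have hcM := sum_types F τ0 M (fun b => ind A (b + b))
  have hdiff : |∑ t, wt F τ0 N t * avg (Q F τ0 M t) (fun b => ind A (b + b))
      - ∑ t, wt F τ0 M t * avg (Q F τ0 M t) (fun b => ind A (b + b))| ≤ δ / 8 := by
    rw [← Finset.sum_sub_distrib]
    refine (Finset.abs_sum_le_sum_abs _ _).trans ?_
    calc ∑ u : T0 × (F → ZMod 5), |wt F τ0 N u * avg (Q F τ0 M u) (fun b => ind A (b + b))
          - wt F τ0 M u * avg (Q F τ0 M u) (fun b => ind A (b + b))|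
        ≤ ∑ u : T0 × (F → ZMod 5), δ / (8 * t) := by
          refine Finset.sum_le_sum fun u _ => ?_
          rw [← sub_mul, abs_mul]
          have a1 := hκ u
          have a2 : |avg (Q F τ0 M u) (fun b => ind A (b + b))| ≤ 1 := by
            rw [abs_of_nonneg (avg_nonneg fun _ _ => ind_nonneg A _)]
            exact avg_le_one fun _ _ => ind_le_one A _
          calc |wt F τ0 N u - wt F τ0 M u| * |avg (Q F τ0 M u) (fun b => ind A (b + b))|
              ≤ (δ / (8 * t)) * 1 := by gcongr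
            _ = _ := mul_one _
      _ = δ / 8 := by
          rw [Finset.sum_const, nsmul_eq_mul, Finset.card_univ, ← htdef]; field_simp
  rw [← hcM] at hdiff
  rw [Real.dist_eq] at hMc hNx
  rw [abs_lt] at hMc hNx
  rw [abs_le] at hdiff
  rw [le_div_iff₀ h5N]
  have h9 := (div_le_iff₀ h5N).1 (le_of_eq (rfl : (∑ b' ∈ I N, avg (Q F τ0 M (tau F τ0 b')) (fun b => ind A (b + b'))) / 5 ^ N = _))
  have h10 : (∑ b' ∈ I N, avg (Q F τ0 M (tau F τ0 b')) (fun b => ind A (b + b'))) / 5 ^ N * 5 ^ N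
      = ∑ b' ∈ I N, avg (Q F τ0 M (tau F τ0 b')) (fun b => ind A (b + b')) := by field_simp
  set S := ∑ t, wt F τ0 N t * avg (Q F τ0 M t) (fun b => ind A (b + b)) with hS
  set X := (∑ b ∈ I N, ind A b) / 5 ^ N with hX
  set Z := (∑ b' ∈ I N, avg (Q F τ0 M (tau F τ0 b')) (fun b => ind A (b + b'))) / 5 ^ N with hZ
  have hfinal : δ / 2 ≤ Z + S - 1 := by linarith [hdiff.1, hdiff.2, hMc.1, hMc.2, hNx.1, hNx.2]
  push_cast at hsum
  calc δ / 2 * 5 ^ N ≤ (Z + S - 1) * 5 ^ N := by gcongr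
    _ = Z * 5 ^ N + 5 ^ N * S - 5 ^ N := by ring
    _ = ∑ b' ∈ I N, avg (Q F τ0 M (tau F τ0 b')) (fun b => ind A (b + b')) + 5 ^ N * S - 5 ^ N := by
        rw [h10]
    _ ≤ _ := hsum

end

end Pool.Agent.Helper73
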