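import Pool.Agent.Helper73.SumsetH

set_option autoImplicit false

open Finset Filter Topology MeasureTheory
open scoped BigOperators ENNReal Pointwise

namespace Pool.Agent.Helper73

open Classical in
/-- the pattern of `A` at `b` -/
noncomputable def pat (A : Set G) (b : G) : G → Bool := fun k => decide (b + k ∈ A)

lemma pat_eq_true {A : Set G} {b k : G} : pat A b k = true ↔ b + k ∈ A := by simp [pat]

/-- the event -/
def Ev (A : Set G) (n M : ℕ) : Set (G → Bool) :=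
  {U | ∃ b ∈ I M, (∀ k ∈ H n, pat A b k = U k) ∧ U b = true ∧ b + b ∈ A}

lemma isClopen_Ev (A : Set G) (n M : ℕ) : IsClopen (Ev A n M) := by
  have h1 : Ev A n M = ⋃ b ∈ I M, ((⋂ k ∈ H n, (fun U : G → Bool => U k) ⁻¹' {pat A b k}) ∩
      ((fun U : G → Bool => U b) ⁻¹' {true} ∩ {_U | b + b ∈ A})) := by
    ext U
    simp only [Ev, Set.mem_ofPred_eq, Set.mem_iUnion, Set.mem_inter_iff, Set.mem_iInter,
      Set.mem_preimage, Set.mem_singleton_iff, exists_prop]
    constructor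
    · rintro ⟨b, hb, h1, h2, h3⟩
      exact ⟨b, hb, fun k hk => (h1 k hk).symm, h2, h3⟩
    · rintro ⟨b, hb, h1, h2, h3⟩
      exact ⟨b, hb, fun k hk => (h1 k hk).symm, h2, h3⟩
  rw [h1]
  refine isClopen_biUnion_finset fun b _ => ?_
  refine IsClopen.inter ?_ (IsClopen.inter ?_ ?_)
  · refine isClopen_biInter_finset fun k _ => ?_
    exact (isClopen_discrete _).preimage (continuous_apply k)
  · exact (isClopen_discrete _).preimage (continuous_apply b)
  · by_cases h : b + b ∈ A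
    · simpa [h] using isClopen_univ
    · simpa [h] using isClopen_empty

/-- empirical measure of patterns -/
noncomputable def emp (A : Set G) (N : ℕ) : Measure (G → Bool) :=
  ENNReal.ofReal (1 / 5 ^ N) • ∑ b ∈ I N, Measure.dirac (pat A b)

lemma isProb_emp (A : Set G) (N : ℕ) : IsProbabilityMeasure (emp A N) := by
  constructor
  simp only [emp, Measure.coe_smul, Measure.coe_finsetSum, Pi.smul_apply, Finset.sum_apply,
    measure_univ, Finset.sum_const, card_I, smul_eq_mul, nsmul_eq_mul, mul_one]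
  rw [← ENNReal.ofReal_natCast, ← ENNReal.ofReal_mul (by positivity)]
  push_cast
  rw [div_mul_cancel₀ _ (by positivity)]; simp

open Classical in
lemma emp_Ev (A : Set G) (n M N : ℕ) :
    emp A N (Ev A n M) = ENNReal.ofReal ((∑ b' ∈ I N,
      (if (∃ b ∈ I M, (fun k : {x // x ∈ H n} => pat A b k) = (fun k : {x // x ∈ H n} => pat A b' k)
        ∧ b + b' ∈ A ∧ b + b ∈ A) then (1:ℝ) else 0)) / 5 ^ N) := by
  have hm : MeasurableSet (Ev A n M) := (isClopen_Ev A n M).isOpen.measurableSet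
  simp only [emp, Measure.coe_smul, Measure.coe_finsetSum, Pi.smul_apply, Finset.sum_apply,
    smul_eq_mul]
  have hre : ∀ r : ℝ, r / 5 ^ N = (1 / 5 ^ N) * r := fun r => by ring
  rw [hre (∑ b' ∈ I N, _), ENNReal.ofReal_mul (by positivity)]
  congr 1
  rw [ENNReal.ofReal_sum_of_nonneg (fun _ _ => by split_ifs <;> norm_num)]
  refine Finset.sum_congr rfl fun b' _ => ?_
  rw [Measure.dirac_apply' _ hm]
  have hiff : pat A b' ∈ Ev A n M ↔ (∃ b ∈ I M, (fun k : {x // x ∈ H n} => pat A b k)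
      = (fun k : {x // x ∈ H n} => pat A b' k) ∧ b + b' ∈ A ∧ b + b ∈ A) := by
    simp only [Ev, Set.mem_ofPred_eq]
    constructor
    · rintro ⟨b, hb, h1, h2, h3⟩
      refine ⟨b, hb, ?_, ?_, h3⟩
      · ext k; rw [h1 k.1 k.2]
      · rw [pat_eq_true] at h2; rwa [add_comm]
    · rintro ⟨b, hb, h1, h2, h3⟩
      refine ⟨b, hb, ?_, ?_, h3⟩
      · intro k hk; exact congrFun h1 ⟨k, hk⟩
      · rw [pat_eq_true]; rwa [add_comm]
  by_cases h : pat A b' ∈ Ev A n M
  · rw [Set.indicator_of_mem h, if_pos (hiff.1 h)]; simp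
  · rw [Set.indicator_of_notMem h, if_neg (fun h' => h (hiff.2 h'))]; simp

/-- existence of a good pattern -/
theorem exists_pattern (𝓤 : Ultrafilter ℕ) (h𝓤 : (𝓤 : Filter ℕ) ≤ atTop) (A : Set G)
    {δ : ℝ} (hδ : 0 < δ)
    (hx : ∀ᶠ N in (𝓤 : Filter ℕ),
      1 + δ ≤ (∑ b ∈ I N, ind A b) / 5 ^ N + (∑ b ∈ I N, ind A (b + b)) / 5 ^ N) :
    ∃ U : G → Bool, ∀ k : ℕ, ∃ n, k ≤ n ∧ ∃ M, n ≤ M ∧ U ∈ Ev A n M := by
  classical
  let P' : ℕ → ProbabilityMeasure (G → Bool) := fun N => ⟨emp A N, isProb_emp A N⟩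
  obtain ⟨μ, hμ⟩ : ∃ μ : ProbabilityMeasure (G → Bool), Tendsto P' 𝓤 (𝓝 μ) :=
    ⟨_, (𝓤.map P').le_nhds_lim⟩
  have hclopen : ∀ C : Set (G → Bool), IsClopen C → ∀ r : ℝ≥0∞,
      (∀ᶠ N in (𝓤 : Filter ℕ), r ≤ emp A N C) → r ≤ (μ : Measure (G → Bool)) C := by
    intro C hC r hr
    have h1 := ProbabilityMeasure.tendsto_measure_of_null_frontier_of_tendsto' hμ (E := C)
      (by rw [hC.frontier_eq]; simp)
    exact ge_of_tendsto h1 hr
  have key : ∀ n : ℕ, ∃ M, n ≤ M ∧ ENNReal.ofReal (δ / 2) ≤ (μ : Measure (G → Bool)) (Ev A n M) := by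
    intro n
    have hE := claimE 𝓤 h𝓤 A (fun b => (fun k : {x // x ∈ H n} => pat A b k)) hδ hx
    have hE2 := hE.and (h𝓤 (eventually_ge_atTop n))
    obtain ⟨M, hM, hnM⟩ := hE2.exists
    refine ⟨M, hnM, hclopen _ (isClopen_Ev A n M) _ ?_⟩
    filter_upwards [hM] with N hN
    rw [emp_Ev]
    refine ENNReal.ofReal_le_ofReal ?_
    convert hN
  choose M hM hμM using key
  let S : ℕ → Set (G → Bool) := fun k => ⋃ n, ⋃ (_ : k ≤ n), Ev A n (M n)
  have hSmeas : ∀ k, MeasurableSet (S k) := fun k =>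
    MeasurableSet.iUnion fun n => MeasurableSet.iUnion fun _ => (isClopen_Ev A n (M n)).isOpen.measurableSet
  have hSanti : Antitone S := by
    intro k l hkl U hU
    simp only [S, Set.mem_iUnion] at hU ⊢
    obtain ⟨n, hn, hU⟩ := hU
    exact ⟨n, hkl.trans hn, hU⟩
  have h1 := tendsto_measure_iInter_atTop (μ := (μ : Measure (G → Bool))) (s := S)
    (fun k => (hSmeas k).nullMeasurableSet) hSanti ⟨0, measure_ne_top _ _⟩
  have h2 : ENNReal.ofReal (δ / 2) ≤ (μ : Measure (G → Bool)) (⋂ k, S k) := by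
    refine ge_of_tendsto' h1 fun k => ?_
    refine (hμM k).trans (measure_mono ?_)
    intro U hU
    simp only [S, Set.mem_iUnion]
    exact ⟨k, le_rfl, hU⟩
  have h3 : (⋂ k, S k).Nonempty := by
    by_contra hne
    rw [Set.not_nonempty_iff_eq_empty] at hne
    rw [hne, measure_empty] at h2
    have : ENNReal.ofReal (δ / 2) = 0 := le_antisymm h2 bot_le
    rw [ENNReal.ofReal_eq_zero] at this
    linarith
  obtain ⟨U, hU⟩ := h3
  refine ⟨U, fun k => ?_⟩
  have := Set.mem_iInter.1 hU k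
  simp only [S, Set.mem_iUnion] at this
  obtain ⟨n, hn, hUn⟩ := this
  exact ⟨n, hn, M n, hM n, hUn⟩

/-- the combinatorial extraction -/
theorem exists_sumset (𝓤 : Ultrafilter ℕ) (h𝓤 : (𝓤 : Filter ℕ) ≤ atTop) (A : Set G)
    {δ : ℝ} (hδ : 0 < δ)
    (hx : ∀ᶠ N in (𝓤 : Filter ℕ),
      1 + δ ≤ (∑ b ∈ I N, ind A b) / 5 ^ N + (∑ b ∈ I N, ind A (b + b)) / 5 ^ N) :
    ∃ B : Set G, B.Infinite ∧ B + B ⊆ A := by
  classical
  obtain ⟨U, hU⟩ := exists_pattern 𝓤 h𝓤 A hδ hx
  choose m hm using exists_mem_H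
  obtain ⟨f, hf1, hf2⟩ := exists_seq_of_forall_finset_exists
    (fun b : G => U b = true ∧ b + b ∈ A) (fun x y : G => x ≠ y ∧ x + y ∈ A) (by
      intro s hs
      obtain ⟨n, hn, M, hnM, b, hb, h1, h2, h3⟩ := hU (s.sup m)
      refine ⟨b, ⟨h2, h3⟩, fun x hx => ?_⟩
      have hxn : x ∈ H n := H_mono ((Finset.le_sup hx).trans hn) (hm x)
      refine ⟨?_, ?_⟩
      · rintro rfl
        have e1 := (mem_I'.1 hb).1
        rw [mem_H.1 hxn M hnM] at e1
        exact absurd e1 (by decide)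
      · have e1 := h1 x hxn
        rw [(hs x hx).1, pat_eq_true] at e1
        rwa [add_comm])
  refine ⟨Set.range f, ?_, ?_⟩
  · refine Set.infinite_range_of_injective ?_
    intro i j hij
    rcases lt_trichotomy i j with h | h | h
    · exact absurd hij (hf2 i j h).1
    · exact h
    · exact absurd hij.symm (hf2 j i h).1
  · rintro _ ⟨_, ⟨i, rfl⟩, _, ⟨j, rfl⟩, rfl⟩
    change f i + f j ∈ A
    rcases lt_trichotomy i j with h | h | h
    · exact (hf2 i j h).2
    · subst h; exact (hf1 i).2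
    · rw [add_comm]; exact (hf2 j i h).2

end Pool.Agent.Helper73
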