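import Mathlib

/-!
# Contractible vertex stars in triangle-free graphs without false twins

Every 2-connected triangle-free graph in which no two vertices have the same neighbourhood has a
vertex whose star is a bond with 2-connected contraction.
-/

namespace Pool.Agent.Helper73.TwinFreeStar

open Set

variable {V : Type}

/-- The star of `v`: all edges of `G` at `v`. -/
def star (G : SimpleGraph V) (v : V) : SimpleGraph V where
  Adj a b := G.Adj a b ∧ (a = v ∨ b = v)
  symm := ⟨fun _ _ h => ⟨h.1.symm, h.2.symm⟩⟩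
  loopless := ⟨fun _ h => h.1.ne rfl⟩

theorem star_adj (G : SimpleGraph V) (v a b : V) :
    (star G v).Adj a b ↔ G.Adj a b ∧ (a = v ∨ b = v) := Iff.rfl

/-- The vertices joined by the star of `v`. -/
theorem star_reachable (G : SimpleGraph V) (v a b : V) :
    (star G v).Reachable a b ↔ a = b ∨ ((a = v ∨ G.Adj v a) ∧ (b = v ∨ G.Adj v b)) := by
  constructor
  · intro h
    rw [SimpleGraph.reachable_iff_reflTransGen] at h
    induction h with
    | refl => exact Or.inl rfl
    | @tail b c _ hbc ih =>
      have hb : (b = v ∨ G.Adj v b) ∧ (c = v ∨ G.Adj v c) := by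
        rcases hbc with ⟨h1, h2 | h2⟩
        · subst h2
          exact ⟨Or.inl rfl, Or.inr h1⟩
        · subst h2
          exact ⟨Or.inr h1.symm, Or.inl rfl⟩
      rcases ih with h | h
      · subst h
        exact Or.inr hb
      · exact Or.inr ⟨h.1, hb.2⟩
  · have key : ∀ x, (x = v ∨ G.Adj v x) → (star G v).Reachable x v := by
      rintro x (hx | hx)
      · subst hx
        exact SimpleGraph.Reachable.refl _
      · exact SimpleGraph.Adj.reachable (show (star G v).Adj x v from ⟨hx.symm, Or.inr rfl⟩)
    rintro (h | ⟨h1, h2⟩)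
    · subst h
      exact SimpleGraph.Reachable.refl _
    · exact (key a h1).trans (key b h2).symm

/-- Adding a vertex adjacent to a connected set keeps it connected. -/
theorem connected_insert (G : SimpleGraph V) (D : Set V) (u d : V) (hd : d ∈ D) (hud : G.Adj u d)
    (hD : (G.induce D).Connected) : (G.induce (insert u D)).Connected := by
  have hs : (G.induce ({u} : Set V)).Preconnected := by
    intro a b
    have : a = b := Subsingleton.elim a b
    rw [this]
  have h1 := SimpleGraph.connected_induce_union (G := G) hs hD.preconnected (mem_singleton u) hd hud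
  rwa [Set.singleton_union] at h1

/-- A connected graph has an edge leaving every set that is neither missed nor everything. -/
theorem exists_boundary (G : SimpleGraph V) (hG : G.Preconnected) (S : Set V) (u w : V)
    (hu : u ∈ S) (hw : w ∉ S) : ∃ x ∈ S, ∃ y, y ∉ S ∧ G.Adj x y := by
  obtain ⟨p⟩ := hG u w
  obtain ⟨d, -, h1, h2⟩ := p.exists_boundary_dart S hu hw
  exact ⟨d.fst, h1, d.snd, h2, d.adj⟩

/-- In a 2-connected graph on at least three vertices every vertex has a neighbour different from a
given vertex. -/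
theorem exists_nbr_ne (G : SimpleGraph V) [Fintype V] (h3 : 3 ≤ Fintype.card V)
    (h2 : ∀ v : V, (G.induce {w : V | w ≠ v}).Connected) (d x : V) (hdx : d ≠ x) :
    ∃ y, y ≠ x ∧ G.Adj d y := by
  classical
  obtain ⟨z, hz⟩ : ∃ z, z ∉ ({d, x} : Finset V) := by
    by_contra hcon
    push Not at hcon
    have : (Finset.univ : Finset V) ⊆ {d, x} := fun z _ => hcon z
    have hc := Finset.card_le_card this
    have h4 : ({d, x} : Finset V).card ≤ 2 := Finset.card_le_two
    rw [Finset.card_univ] at hc
    omega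
  have hz1 : z ≠ d := fun h => hz (by simp [h])
  have hz2 : z ≠ x := fun h => hz (by simp [h])
  obtain ⟨a, ha, b, hb, hab⟩ := exists_boundary (G.induce {w : V | w ≠ x}) (h2 x).preconnected
    {⟨d, hdx⟩} ⟨d, hdx⟩ ⟨z, hz2⟩ rfl (by
      intro h
      rw [mem_singleton_iff] at h
      exact hz1 (congrArg Subtype.val h))
  rw [mem_singleton_iff] at ha
  subst ha
  exact ⟨b.1, b.2, hab⟩

/-- If the non-neighbours of `v` induce a connected graph, then the star of `v` is a bond whose
contraction is 2-connected. -/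
theorem star_contractible [Fintype V] (G : SimpleGraph V) (h3 : 3 ≤ Fintype.card V)
    (h2 : ∀ v : V, (G.induce {w : V | w ≠ v}).Connected)
    (v : V) (hD : (G.induce {x : V | x ≠ v ∧ ¬ G.Adj v x}).Connected) :
    (star G v) ≤ G ∧ star G v ≠ ⊥ ∧ ¬ (G \ star G v).Connected ∧
      (∀ K : SimpleGraph V, K ≤ star G v → K ≠ ⊥ → ¬ (G \ K).Connected → K = star G v) ∧
      (∃ a b : V, ¬ (star G v).Reachable a b) ∧
      (∃ a b c d : V, G.Adj a b ∧ G.Adj c d ∧
        ¬ (star G v).Reachable a b ∧ ¬ (star G v).Reachable c d ∧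
        ¬ (a = c ∧ b = d) ∧ ¬ (a = d ∧ b = c)) ∧
      (∀ w : V, (G.induce {u : V | ¬ (star G v).Reachable w u}).Connected) := by
  classical
  obtain ⟨⟨d0, hd0v, hd0⟩⟩ := hD.nonempty
  obtain ⟨a0, ha0, hva0⟩ := exists_nbr_ne G h3 h2 v d0 (Ne.symm hd0v)
  refine ⟨fun a b h => h.1, ?_, ?_, ?_, ?_, ?_, ?_⟩
  · intro h
    have : (star G v).Adj v a0 := ⟨hva0, Or.inl rfl⟩
    rw [h] at this
    exact this
  · intro h
    obtain ⟨x, hx, y, hy, hxy⟩ := exists_boundary (G \ star G v) h.preconnected {v} v d0 rfl
      (by rw [mem_singleton_iff]; exact hd0v)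
    rw [mem_singleton_iff] at hx
    subst hx
    rw [SimpleGraph.sdiff_adj] at hxy
    exact hxy.2 ⟨hxy.1, Or.inl rfl⟩
  · intro K hK _ hdis
    by_contra hne
    obtain ⟨a, hva, hKa⟩ : ∃ a, G.Adj v a ∧ ¬ K.Adj v a := by
      by_contra hcon
      push Not at hcon
      apply hne
      apply le_antisymm hK
      rintro a b ⟨hab, h | h⟩
      · subst h
        exact hcon b hab
      · subst h
        exact (hcon a hab.symm).symm
    apply hdis
    have h1 : ((G \ K).induce {w : V | w ≠ v}).Connected := by
      refine SimpleGraph.Connected.mono ?_ (h2 v)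
      rintro ⟨x, hx⟩ ⟨y, hy⟩ hxy
      change G.Adj x y at hxy
      change (G \ K).Adj x y
      rw [SimpleGraph.sdiff_adj]
      refine ⟨hxy, fun hk => ?_⟩
      rcases (hK hk).2 with h | h
      · exact hx h
      · exact hy h
    have h4 := connected_insert (G \ K) {w : V | w ≠ v} v a
      (show a ≠ v from hva.ne') (by rw [SimpleGraph.sdiff_adj]; exact ⟨hva, hKa⟩) h1
    have h5 : insert v {w : V | w ≠ v} = Set.univ := by
      ext x
      simp only [mem_insert_iff, mem_ofPred_eq, mem_univ, iff_true]
      exact em _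
    rw [h5] at h4
    exact (SimpleGraph.induceUnivIso (G \ K)).connected_iff.mp h4
  · refine ⟨v, d0, ?_⟩
    rw [star_reachable]
    rintro (h | ⟨-, h | h⟩)
    · exact hd0v h.symm
    · exact hd0v h
    · exact hd0 h
  · obtain ⟨x, hx, hdx⟩ := exists_nbr_ne G h3 h2 d0 v hd0v
    obtain ⟨y, hy, hdy⟩ := exists_nbr_ne G h3 h2 d0 x hdx.ne
    have key : ∀ z, G.Adj d0 z → ¬ (star G v).Reachable d0 z := by
      intro z hz h
      rw [star_reachable] at h
      rcases h with h | ⟨h | h, -⟩
      · exact hz.ne h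
      · exact hd0v h
      · exact hd0 h
    refine ⟨d0, x, d0, y, hdx, hdy, key x hdx, key y hdy, fun h => hy h.2.symm, fun h => ?_⟩
    exact hdx.ne h.2.symm
  · intro w
    by_cases hw : w = v ∨ G.Adj v w
    · have : {u : V | ¬ (star G v).Reachable w u} = {x : V | x ≠ v ∧ ¬ G.Adj v x} := by
        ext u
        simp only [mem_ofPred_eq, star_reachable, ne_eq]
        constructor
        · intro h
          refine ⟨fun h' => h (Or.inr ⟨hw, Or.inl h'⟩), fun h' => h (Or.inr ⟨hw, Or.inr h'⟩)⟩
        · rintro ⟨h1, h2⟩ (h | ⟨-, h | h⟩)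
          · subst h
            rcases hw with h | h
            · exact h1 h
            · exact h2 h
          · exact h1 h
          · exact h2 h
      rw [this]
      exact hD
    · have : {u : V | ¬ (star G v).Reachable w u} = {u : V | u ≠ w} := by
        ext u
        simp only [mem_ofPred_eq, star_reachable, ne_eq]
        constructor
        · intro h h'
          exact h (Or.inl h'.symm)
        · rintro h (h' | ⟨h', -⟩)
          · exact h h'.symm
          · exact hw h'
      rw [this]
      exact h2 w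

/-- In a connected triangle-free graph with two nonadjacent vertices and no false twins there is a
vertex whose non-neighbours induce a connected graph. -/
theorem exists_center [Fintype V] (G : SimpleGraph V) (h3 : 3 ≤ Fintype.card V)
    (hG : G.Connected) (hT : G.CliqueFree 3)
    (htw : ∀ u v : V, u ≠ v → G.neighborSet u ≠ G.neighborSet v) :
    ∃ v : V, (G.induce {x : V | x ≠ v ∧ ¬ G.Adj v x}).Connected := by
  classical
  have hfree : ∀ a b c : V, G.Adj a b → G.Adj a c → G.Adj b c → False := by
    intro a b c hab hac hbc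
    exact hT {a, b, c} (SimpleGraph.is3Clique_triple_iff.mpr ⟨hab, hac, hbc⟩)
  -- good pairs
  let P : Set (V × Set V) := {q | (G.induce q.2).Connected ∧ q.1 ∉ q.2 ∧ ∀ d ∈ q.2, ¬ G.Adj q.1 d}
  have hPne : P.Nonempty := by
    obtain ⟨u, w, huw, hnadj⟩ : ∃ u w : V, u ≠ w ∧ ¬ G.Adj u w := by
      by_contra hcon
      push Not at hcon
      obtain ⟨a, b, c, hab, hac, hbc⟩ := Fintype.two_lt_card_iff.mp (show 2 < Fintype.card V by omega)
      exact hfree a b c (hcon a b hab) (hcon a c hac) (hcon b c hbc)
    refine ⟨(u, {w}), ?_, ?_, ?_⟩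
    · have : Nonempty ({w} : Set V) := ⟨⟨w, rfl⟩⟩
      refine SimpleGraph.Connected.mk ?_
      intro a b
      have : a = b := Subsingleton.elim a b
      rw [this]
    · simpa using huw
    · intro d hd
      rw [mem_singleton_iff] at hd
      rw [hd]
      exact hnadj
  obtain ⟨⟨v, D⟩, hvD, hmax⟩ := Set.exists_max_image P (fun q => q.2.ncard) (Set.toFinite _) hPne
  obtain ⟨hDc, hvD', hvD''⟩ := hvD
  simp only at hDc hvD' hvD'' hmax
  obtain ⟨⟨d0, hd0⟩⟩ := hDc.nonempty
  -- the boundary
  have hkey : ∀ v', v' ∉ D → (∀ d ∈ D, ¬ G.Adj v' d) → ∀ s, s ∉ D → (∃ d ∈ D, G.Adj s d) →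
      G.Adj v' s := by
    rintro v' hv'D hv' s hsD ⟨d, hd, hsd⟩
    by_contra hcon
    have hmem : (v', insert s D) ∈ P := by
      refine ⟨connected_insert G D s d hd hsd hDc, ?_, ?_⟩
      · simp only [mem_insert_iff, not_or]
        refine ⟨?_, hv'D⟩
        intro h
        subst h
        exact hv' d hd hsd
      · intro x hx
        rcases hx with hx | hx
        · rw [hx]
          exact hcon
        · exact hv' x hx
    have := hmax _ hmem
    simp only at this
    rw [Set.ncard_insert_of_notMem hsD (Set.toFinite _)] at this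
    omega
  obtain ⟨d1, hd1, s0, hs0, hds0⟩ := exists_boundary G hG.preconnected D d0 v hd0 hvD'
  -- neighbourhoods of the outer vertices
  have hnbr : ∀ v', v' ∉ D → (∀ d ∈ D, ¬ G.Adj v' d) →
      G.neighborSet v' = {s | s ∉ D ∧ ∃ d ∈ D, G.Adj s d} := by
    intro v' hv'D hv'
    ext s
    simp only [SimpleGraph.mem_neighborSet, mem_ofPred_eq]
    constructor
    · intro h
      have hsD : s ∉ D := fun hs => hv' s hs h
      refine ⟨hsD, ?_⟩
      by_contra hcon
      push Not at hcon
      have h1 := hkey v' hv'D hv' s0 hs0 ⟨d1, hd1, hds0.symm⟩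
      have h2 := hkey s hsD hcon s0 hs0 ⟨d1, hd1, hds0.symm⟩
      exact hfree v' s s0 h h1 h2
    · rintro ⟨h1, h2⟩
      exact hkey v' hv'D hv' s h1 h2
  have huniq : ∀ v', v' ∉ D → (∀ d ∈ D, ¬ G.Adj v' d) → v' = v := by
    intro v' h1 h2
    by_contra hne
    exact htw v' v hne ((hnbr v' h1 h2).trans (hnbr v hvD' hvD'').symm)
  refine ⟨v, ?_⟩
  have : {x : V | x ≠ v ∧ ¬ G.Adj v x} = D := by
    ext x
    simp only [mem_ofPred_eq]
    constructor
    · rintro ⟨hxv, hadj⟩
      by_contra hxD
      by_cases h : ∃ d ∈ D, G.Adj x d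
      · exact hadj (hkey v hvD' hvD'' x hxD h)
      · push Not at h
        exact hxv (huniq x hxD h)
    · intro hx
      exact ⟨fun h => hvD' (h ▸ hx), hvD'' x hx⟩
  rw [this]
  exact hDc

/-- **Contractible stars.** In every 2-connected triangle-free graph without false twins there is a
vertex whose star is a bond with 2-connected contraction. -/
theorem result :
    ∀ (V : Type) [Fintype V] (G : SimpleGraph V),
      3 ≤ Fintype.card V → G.Connected →
      (∀ v : V, (G.induce {w : V | w ≠ v}).Connected) →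
      G.CliqueFree 3 →
      (∀ u v : V, u ≠ v → G.neighborSet u ≠ G.neighborSet v) →
      ∃ (x : V) (H : SimpleGraph V), (∀ a b : V, H.Adj a b ↔ G.Adj a b ∧ (a = x ∨ b = x)) ∧
        H ≤ G ∧ H ≠ ⊥ ∧ ¬ (G \ H).Connected ∧
        (∀ K : SimpleGraph V, K ≤ H → K ≠ ⊥ → ¬ (G \ K).Connected → K = H) ∧
        (∃ u v : V, ¬ H.Reachable u v) ∧
        (∃ a b c d : V, G.Adj a b ∧ G.Adj c d ∧
            ¬ H.Reachable a b ∧ ¬ H.Reachable c d ∧
            ¬ (a = c ∧ b = d) ∧ ¬ (a = d ∧ b = c)) ∧
        (∀ v : V, (G.induce {w : V | ¬ H.Reachable v w}).Connected) := by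
  intro V _ G h3 hG h2 hT htw
  obtain ⟨x, hx⟩ := exists_center G h3 hG hT htw
  exact ⟨x, star G x, fun a b => Iff.rfl, star_contractible G h3 h2 x hx⟩

end Pool.Agent.Helper73.TwinFreeStar
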